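import Pool.Agent.H.MP_d01483_lc.Names

set_option linter.unusedSectionVars false
set_option linter.unusedVariables false
set_option linter.unusedSimpArgs false

namespace Pool.Agent.H.MP_d01483_lc

/-- `n := inp[0]`, `nn := 2n`. -/
def iniN : MCmd :=
  .seq (.set .n (.get .inp (.num 0))) <| .seq (.set .nn (.reg .n)) <|
    forC .i (.reg .n) (.set .nn (.inc (.reg .nn)))

/-- The tables. -/
def iniT : MCmd :=
  .seq (.set .k (.reg .n)) <|
    forC .i (.reg .n) <|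
      .seq (.put .TW (.reg .i) (.reg .k)) <|
      .seq (.put .OWN (.reg .i) (.reg .i)) <|
      .seq (.put .OWN (.reg .k) (.reg .i)) <|
      .set .k (.inc (.reg .k))

/-- `p := p * c`. -/
def mulP : MCmd :=
  .seq (.set .b (.num 0)) <|
  .seq (forC .i0 (.reg .c) (forC .i1 (.reg .p) (.set .b (.inc (.reg .b))))) <|
  .set .p (.reg .b)

/-- `p := c ^ 7`. -/
def powP : MCmd := .seq (.set .p (.num 1)) (forC .i2 (.num 7) mulP)

/-- search of the parameter `s` -/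
def iniS : MCmd :=
  .seq (.set .c (.num 1)) <|
  .seq (.set .p (.num 1)) <|
  .seq (.whl (.neg (.lt (.reg .n) (.reg .p))) (.seq (.set .c (.inc (.reg .c))) powP)) <|
  .seq (.set .s (.dec (.reg .c))) (.set .L (.reg .c))

/-- `q := s / 2 + 1` -/
def iniQ : MCmd :=
  .seq (.set .q (.num 1)) <|
  .seq (.set .t (.num 2)) <|
  .whl (.neg (.lt (.reg .s) (.reg .t)))
    (.seq (.set .q (.inc (.reg .q))) (.set .t (.inc (.inc (.reg .t)))))

/-- `K := s * s` -/
def iniK : MCmd :=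
  .seq (.set .K (.num 0)) <|
    forC .i0 (.reg .s) (forC .i1 (.reg .s) (.set .K (.inc (.reg .K))))

/-- Computes the constants (parameters and tables). -/
def initC : MCmd := .seq iniN <| .seq iniT <| .seq iniS <| .seq iniQ iniK

theorem initC_wa : ∀ a ∈ initC.wa, a = Arr.TW ∨ a = Arr.OWN := by
  simp [initC, iniN, iniT, iniS, iniQ, iniK, powP, mulP, forC, Cmd.wa]

theorem iniN_spec (n : ℕ) (σ : MSt) (h : σ.m .inp 0 = n) :
    Spec iniN σ (3 * n + 4) (fun σ' => σ'.r .n = n ∧ σ'.r .nn = 2 * n) := by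
  apply Spec.of_runs
  unfold iniN
  simp only [runs_seq, runs_set, Exp.ev_get, Exp.ev_num, Exp.ev_reg, h, St.setR_r, if_true]
  refine ⟨by omega, by omega, ?_⟩
  refine Runs.of_spec (B := (1 + 2) * n + 2) (forC_spec n 1
    (fun j σ1 => σ1.r .n = n ∧ σ1.r .nn = n + j) ?_ ?_ ?_) (by omega) ?_
  · rintro j σ1 ⟨h1, -⟩
    simpa using h1
  · rintro j σ1 hj ⟨h1, h2⟩ h3
    apply Spec.of_runs
    simp only [runs_set]
    refine ⟨le_rfl, fun _ => ⟨by simpa using h3, ?_⟩⟩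
    simp [h1, h2]
    omega
  · simp
  · rintro σ' T' ⟨⟨h1, h2⟩, h3⟩ hT
    exact ⟨h1, by omega⟩

theorem iniT_spec (n : ℕ) (σ : MSt) (h : σ.r .n = n) :
    Spec iniT σ (6 * n + 3) (fun σ' => (∀ v < n, σ'.m .TW v = v + n) ∧
      (∀ k < 2 * n, σ'.m .OWN k = own n k)) := by
  apply Spec.of_runs
  unfold iniT
  simp only [runs_seq, runs_set, Exp.ev_get, Exp.ev_num, Exp.ev_reg, h, St.setR_r, if_true]
  refine ⟨by omega, ?_⟩
  refine Runs.of_spec (B := (4 + 2) * n + 2) (forC_spec n 4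
    (fun j σ1 => σ1.r .n = n ∧ σ1.r .k = n + j ∧ (∀ v < j, σ1.m .TW v = v + n) ∧
      (∀ v < j, σ1.m .OWN v = v) ∧ (∀ v < j, σ1.m .OWN (n + v) = v)) ?_ ?_ ?_) (by omega) ?_
  · rintro j σ1 ⟨h1, -⟩
    simpa using h1
  · rintro j σ1 hj ⟨h1, h2, h3, h4, h5⟩ h6
    apply Spec.of_runs
    simp only [runs_seq, runs_set, runs_put, Exp.ev_reg, Exp.ev_inc, St.setM_r, h6, h2]
    refine ⟨by omega, by omega, by omega, by omega, fun _ => ⟨by simpa using h6, ?_, ?_, ?_, ?_, ?_⟩⟩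
    · simpa using h1
    · simp; omega
    · intro v hv
      simp only [St.setR_m, St.setM_m]
      simp only [reduceCtorEq, if_false, if_true]
      by_cases hvj : v = j
      · rw [if_pos hvj, hvj]; omega
      · rw [if_neg hvj, h3 v (by omega)]
    · intro v hv
      simp only [St.setR_m, St.setM_m]
      simp only [reduceCtorEq, if_false, if_true]
      rw [if_neg (by omega)]
      by_cases hvj : v = j
      · rw [if_pos hvj, hvj]
      · rw [if_neg hvj, h4 v (by omega)]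
    · intro v hv
      simp only [St.setR_m, St.setM_m]
      simp only [reduceCtorEq, if_false, if_true]
      by_cases hvj : v = j
      · rw [if_pos (by omega), hvj]
      · rw [if_neg (by omega), if_neg (by omega), h5 v (by omega)]
  · refine ⟨?_, ?_, ?_, ?_, ?_⟩ <;> simp [h]
  · rintro σ' T' ⟨⟨h1, h2, h3, h4, h5⟩, h6⟩ hT
    refine ⟨h3, ?_⟩
    intro k hk
    unfold own
    split_ifs with hkn
    · exact h4 k hkn
    · have := h5 (k - n) (by omega)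
      rwa [show n + (k - n) = k by omega] at this

theorem mulP_spec (c p : ℕ) (σ : MSt) (hc : σ.r .c = c) (hp : σ.r .p = p) :
    Spec mulP σ (3 * p * c + 4 * c + 4) (fun σ' => σ'.r .p = p * c) := by
  apply Spec.of_runs
  unfold mulP
  simp only [runs_seq, runs_set, Exp.ev_num, Exp.ev_reg]
  refine ⟨by omega, ?_⟩
  have hcost : ((1 + 2) * p + 2 + 2) * c + 2 = 3 * p * c + 4 * c + 2 := by ring
  refine Runs.of_spec (B := ((1 + 2) * p + 2 + 2) * c + 2) (forC_spec c ((1 + 2) * p + 2)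
    (fun j σ1 => σ1.r .c = c ∧ σ1.r .p = p ∧ σ1.r .b = p * j) ?_ ?_ ?_) (by omega) ?_
  · rintro j σ1 ⟨h1, -⟩
    simpa using h1
  · rintro j σ1 hj ⟨h1, h2, h3⟩ h4
    refine Spec.mono (forC_spec p 1
      (fun i σ2 => σ2.r .c = c ∧ σ2.r .p = p ∧ σ2.r .i0 = j ∧ σ2.r .b = p * j + i) ?_ ?_ ?_)
      le_rfl ?_
    · rintro i σ2 ⟨-, h5, -⟩
      simpa using h5
    · rintro i σ2 hi ⟨h5, h6, h7, h8⟩ h9
      apply Spec.of_runs
      simp only [runs_set]
      refine ⟨le_rfl, fun _ => ⟨by simpa using h9, ?_⟩⟩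
      simp [h5, h6, h7, h8]
      omega
    · simp [h1, h2, h3, h4]
    · rintro σ2 ⟨⟨h5, h6, h7, h8⟩, h9⟩ -
      refine ⟨h7, ?_⟩
      simp [h5, h6, h8]
      ring
  · simp [hc, hp]
  · rintro σ' T' ⟨⟨h1, h2, h3⟩, h4⟩ hT
    refine ⟨by omega, ?_⟩
    simp [h3]

theorem powP_spec (c : ℕ) (h1c : 1 ≤ c) (σ : MSt) (hc : σ.r .c = c) :
    Spec powP σ (94 * c ^ 7) (fun σ' => σ'.r .p = c ^ 7) := by
  apply Spec.of_runs
  unfold powP
  simp only [runs_seq, runs_set, Exp.ev_num, Exp.ev_reg]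
  have hc7 : 1 ≤ c ^ 7 := Nat.one_le_pow _ _ h1c
  refine ⟨by omega, ?_⟩
  refine Runs.of_spec (B := ((11 * c ^ 7) + 2) * 7 + 2) (forC_spec 7 (11 * c ^ 7)
    (fun j σ1 => σ1.r .c = c ∧ σ1.r .p = c ^ j) ?_ ?_ ?_) (by omega) ?_
  · rintro j σ1 -
    simp
  · rintro j σ1 hj ⟨h1, h2⟩ h4
    refine Spec.mono (mulP_spec c (c ^ j) σ1 h1 h2) ?_ ?_
    · have e1 : c ^ j * c ≤ c ^ 7 := by
        rw [← pow_succ]
        exact Nat.pow_le_pow_right h1c (by omega)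
      have e2 : c ≤ c ^ 7 := Nat.le_self_pow (by norm_num) c
      have e3 : 3 * c ^ j * c = 3 * (c ^ j * c) := by ring
      omega
    · intro σ2 h5 hfr
      refine ⟨?_, ?_, ?_⟩
      · rw [hfr.r .i2 (by decide), h4]
      · have := hfr.r .c (by decide)
        simp [this, h1]
      · simp [h5]
        ring
  · simp [hc]
  · rintro σ' T' ⟨⟨h1, h2⟩, h4⟩ hT
    exact h2

theorem iniS_spec (n s : ℕ) (hs : s ^ 7 ≤ n) (hn : n < (s + 1) ^ 7) (σ : MSt) (h : σ.r .n = n) :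
    Spec iniS σ ((94 * 128 * (n + 1) + 2) * (s + 1) + 5) (fun σ' => σ'.r .s = s ∧
      σ'.r .L = s + 1) := by
  apply Spec.of_runs
  unfold iniS
  simp only [runs_seq, runs_set, Exp.ev_num, Exp.ev_reg]
  refine ⟨by omega, by omega, ?_⟩
  refine Runs.of_spec (Spec.whl (fun σ1 => σ1.r .n = n ∧ 1 ≤ σ1.r .c ∧ σ1.r .p = σ1.r .c ^ 7 ∧
    (σ1.r .c - 1) ^ 7 ≤ n) (fun σ1 => s + 1 - σ1.r .c) (94 * 128 * (n + 1) + 1) ?_ ?_) ?_ ?_
  · rintro σ1 ⟨h1, h2, h3, h4⟩ hb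
    simp only [Cnd.ev_neg, Cnd.ev_lt, Exp.ev_reg, h1, h3, not_lt] at hb
    obtain ⟨c, hc⟩ : ∃ c, σ1.r .c = c := ⟨_, rfl⟩
    rw [hc] at h2 h3 h4 hb
    have hcs : c < s + 1 := by
      by_contra hcon
      have := Nat.pow_le_pow_left (show s + 1 ≤ c by omega) 7
      omega
    apply Spec.of_runs
    simp only [runs_seq, runs_set, Exp.ev_inc, Exp.ev_reg, hc]
    refine ⟨by omega, ?_⟩
    have hpow : (c + 1) ^ 7 ≤ 128 * (n + 1) := by
      have e1 : (c + 1) ^ 7 ≤ (2 * c) ^ 7 := Nat.pow_le_pow_left (by omega) 7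
      have e2 : (2 * c) ^ 7 = 128 * c ^ 7 := by ring
      omega
    refine Runs.of_spec (powP_spec (c + 1) (by omega) (σ1.setR .c (c + 1)) (by simp)).frame
      ?_ ?_
    · omega
    · rintro σ2 T2 ⟨h5, hfr⟩ hT hfr2
      have e1 : σ2.r .n = n := by rw [hfr.r .n (by decide)]; simpa using h1
      have e2 : σ2.r .c = c + 1 := by rw [hfr.r .c (by decide)]; simp
      refine ⟨⟨e1, by omega, ?_, ?_⟩, ?_⟩
      · rw [e2, h5]
      · rw [e2]; simpa using hb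
      · rw [e2]; omega
  · simp [h]
  · have : (s + 1 - ((σ.setR Reg.c 1).setR Reg.p 1).r Reg.c) = s := by simp
    rw [this]
    have e3 : (94 * 128 * (n + 1) + 1 + 1) * s + 1 + 2 ≤
        (94 * 128 * (n + 1) + 2) * (s + 1) + 5 := by nlinarith
    omega
  · rintro σ' T' ⟨⟨h1, h2, h3, h4⟩, hb⟩ hT
    simp only [Cnd.ev_neg, Cnd.ev_lt, Exp.ev_reg, h1, h3, not_not] at hb
    have hc : σ'.r .c = s + 1 := by
      obtain ⟨c, hc⟩ : ∃ c, σ'.r .c = c := ⟨_, rfl⟩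
      rw [hc] at h2 h3 h4 hb ⊢
      have e1 : ¬ (s + 1 < c) := by
        intro hcon
        have := Nat.pow_le_pow_left (show s + 1 ≤ c - 1 by omega) 7
        omega
      have e2 : ¬ (c < s + 1) := by
        intro hcon
        have := Nat.pow_le_pow_left (show c ≤ s by omega) 7
        omega
      omega
    have : (s + 1 - ((σ.setR Reg.c 1).setR Reg.p 1).r Reg.c) = s := by simp
    rw [this] at hT
    have hT2 : 2 ≤ T' := by
      have e3 : (94 * 128 * (n + 1) + 1 + 1) * s + 1 + 2 + 2 ≤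
        (94 * 128 * (n + 1) + 2) * (s + 1) + 5 := by nlinarith
      omega
    refine ⟨by omega, by omega, ?_, ?_⟩
    · simp [hc]
    · simp [hc]

theorem iniQ_spec (s : ℕ) (σ : MSt) (h : σ.r .s = s) :
    Spec iniQ σ (3 * s + 3) (fun σ' => σ'.r .q = s / 2 + 1) := by
  apply Spec.of_runs
  unfold iniQ
  simp only [runs_seq, runs_set, Exp.ev_num, Exp.ev_reg]
  refine ⟨by omega, by omega, ?_⟩
  refine Runs.of_spec (Spec.whl (fun σ1 => σ1.r .s = s ∧ 1 ≤ σ1.r .q ∧ σ1.r .t = 2 * σ1.r .q ∧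
    2 * (σ1.r .q - 1) ≤ s) (fun σ1 => s + 1 - σ1.r .q) 2 ?_ ?_) ?_ ?_
  · rintro σ1 ⟨h1, h2, h3, h4⟩ hb
    simp only [Cnd.ev_neg, Cnd.ev_lt, Exp.ev_reg, h1, h3, not_lt] at hb
    apply Spec.of_runs
    simp only [runs_seq, runs_set, Exp.ev_inc, Exp.ev_reg]
    refine ⟨by omega, by omega, ?_⟩
    intro _
    simp [h1, h2, h3]
    omega
  · simp [h]
  · have : (s + 1 - ((σ.setR Reg.q 1).setR Reg.t 2).r Reg.q) = s := by simp
    rw [this]
    omega
  · rintro σ' T' ⟨⟨h1, h2, h3, h4⟩, hb⟩ hT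
    simp only [Cnd.ev_neg, Cnd.ev_lt, Exp.ev_reg, h1, h3, not_not] at hb
    omega

theorem iniK_spec (s : ℕ) (σ : MSt) (h : σ.r .s = s) :
    Spec iniK σ (3 * (s * s) + 4 * s + 3) (fun σ' => σ'.r .K = s * s) := by
  apply Spec.of_runs
  unfold iniK
  simp only [runs_seq, runs_set, Exp.ev_num, Exp.ev_reg]
  refine ⟨by omega, ?_⟩
  have hcost : ((1 + 2) * s + 2 + 2) * s + 2 = 3 * (s * s) + 4 * s + 2 := by ring
  refine Runs.of_spec (B := ((1 + 2) * s + 2 + 2) * s + 2) (forC_spec s ((1 + 2) * s + 2)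
    (fun j σ1 => σ1.r .s = s ∧ σ1.r .K = s * j) ?_ ?_ ?_) (by omega) ?_
  · rintro j σ1 ⟨h1, -⟩
    simpa using h1
  · rintro j σ1 hj ⟨h1, h3⟩ h4
    refine Spec.mono (forC_spec s 1
      (fun i σ2 => σ2.r .s = s ∧ σ2.r .i0 = j ∧ σ2.r .K = s * j + i) ?_ ?_ ?_)
      le_rfl ?_
    · rintro i σ2 ⟨h5, -⟩
      simpa using h5
    · rintro i σ2 hi ⟨h5, h7, h8⟩ h9
      apply Spec.of_runs
      simp only [runs_set]
      refine ⟨le_rfl, fun _ => ⟨by simpa using h9, ?_⟩⟩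
      simp [h5, h7, h8]
      omega
    · simp [h1, h3, h4]
    · rintro σ2 ⟨⟨h5, h7, h8⟩, h9⟩ -
      refine ⟨h7, ?_⟩
      simp [h5, h8]
      ring
  · simp [h]
  · rintro σ' T' ⟨⟨h1, h3⟩, h4⟩ hT
    exact h3

theorem initC_spec : ∃ C : ℕ, ∀ (n s : ℕ) (σ : MSt), σ.m .inp 0 = n → s ^ 7 ≤ n →
    n < (s + 1) ^ 7 → Spec initC σ (C * (n + 1) * (s + 1)) (fun σ' => Cst n s σ' ∧
      σ'.r .q = s / 2 + 1 ∧ σ'.r .L = s + 1 ∧ σ'.r .K = s * s) := by
  refine ⟨20000, ?_⟩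
  intro n s σ hin hs hn
  unfold initC
  have hss : s * s ≤ n := by
    rcases Nat.eq_zero_or_pos s with h0 | h0
    · subst h0; omega
    · calc s * s = s ^ 2 := by ring
        _ ≤ s ^ 7 := Nat.pow_le_pow_right h0 (by norm_num)
        _ ≤ n := hs
  have hsn : s ≤ n := (Nat.le_self_pow (by norm_num) s).trans hs
  have key := Spec.seq (iniN_spec n σ hin) (d := .seq iniT (.seq iniS (.seq iniQ iniK)))
    (B' := (6 * n + 3) + (((94 * 128 * (n + 1) + 2) * (s + 1) + 5) + ((3 * s + 3) +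
      (3 * (s * s) + 4 * s + 3))))
    (P' := (fun σ' => Cst n s σ' ∧
      σ'.r .q = s / 2 + 1 ∧ σ'.r .L = s + 1 ∧ σ'.r .K = s * s)) ?_
  · refine key.mono ?_ (fun _ h => h)
    nlinarith
  · rintro σ1 ⟨h1, h2⟩ -
    refine Spec.seq (iniT_spec n σ1 h1) ?_
    rintro σ2 ⟨h3, h4⟩ hf2
    have h5 : σ2.r .n = n := by rw [hf2.r .n (by decide), h1]
    have h6 : σ2.r .nn = 2 * n := by rw [hf2.r .nn (by decide), h2]
    refine Spec.seq (iniS_spec n s hs hn σ2 h5) ?_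
    rintro σ3 ⟨h7, h8⟩ hf3
    refine Spec.seq (iniQ_spec s σ3 h7) ?_
    rintro σ4 h9 hf4
    have h10 : σ4.r .s = s := by rw [hf4.r .s (by decide), h7]
    refine Spec.mono (iniK_spec s σ4 h10).frame le_rfl ?_
    rintro σ5 ⟨h11, hf5⟩
    refine ⟨⟨?_, ?_, ?_, ?_, ?_⟩, ?_, ?_, h11⟩
    · rw [hf5.r .n (by decide), hf4.r .n (by decide), hf3.r .n (by decide), h5]
    · rw [hf5.r .nn (by decide), hf4.r .nn (by decide), hf3.r .nn (by decide), h6]
    · rw [hf5.r .s (by decide), h10]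
    · intro v hv
      rw [hf5.m .TW (by decide), hf4.m .TW (by decide), hf3.m .TW (by decide), h3 v hv]
    · intro k hk
      rw [hf5.m .OWN (by decide), hf4.m .OWN (by decide), hf3.m .OWN (by decide), h4 k hk]
    · rw [hf5.r .q (by decide), h9]
    · rw [hf5.r .L (by decide), hf4.r .L (by decide), h8]

end Pool.Agent.H.MP_d01483_lc
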