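import Pool.Agent.H.MP_d01483_lc.Slots

set_option linter.unusedSectionVars false
set_option linter.unusedVariables false
set_option linter.unusedSimpArgs false
set_option linter.constructorNameAsVariable false

namespace Pool.Agent.H.MP_d01483_lc

open Finset

/-- Choose the cheapest of the four slots of `a` and `b`. -/
def aucPick : MCmd :=
  .seq (.set .bs (.reg .a)) <|
  .seq (.set .w (.reg .b)) <|
  .seq (.ite (.lt (.get .P (.get .TW (.reg .a))) (.get .P (.reg .bs)))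
    (.set .bs (.get .TW (.reg .a))) .skip) <|
  .seq (.ite (.lt (.get .P (.reg .b)) (.get .P (.reg .bs)))
    (.seq (.set .bs (.reg .b)) (.set .w (.reg .a))) .skip) <|
  .ite (.lt (.get .P (.get .TW (.reg .b))) (.get .P (.reg .bs)))
    (.seq (.set .bs (.get .TW (.reg .b))) (.set .w (.reg .a))) .skip

/-- One round of the auction. -/
def aucBody : MCmd :=
  .seq aucPick <|
  .ite (.lt (.get .P (.reg .bs)) (.reg .L))
    (.seq (.set .old (.get .S (.reg .bs))) <|
     .seq (.put .S (.reg .bs) (.inc (.reg .w))) <|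
     .seq (.put .P (.reg .bs) (.inc (.get .P (.reg .bs)))) <|
     .ite (.eq (.reg .old) (.num 0)) (.set .done (.num 1))
       (.seq (.set .a (.get .OWN (.reg .bs))) (.set .b (.dec (.reg .old)))))
    (.seq (.put .DU (.reg .dl) (.reg .a)) <|
     .seq (.put .DV (.reg .dl) (.reg .b)) <|
     .seq (.set .dl (.inc (.reg .dl))) <|
     .set .done (.num 1))

/-- Insert the edge `uv` by an auction. -/
def auction : MCmd :=
  .seq (.set .a (.reg .u)) <|
  .seq (.set .b (.reg .v)) <|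
  .seq (.set .done (.num 0)) <|
  .whl (.eq (.reg .done) (.num 0)) aucBody

/-- The discard list. -/
def Dl (σ : MSt) : Finset (Sym2 ℕ) := listE (σ.m .DU) (σ.m .DV) (σ.r .dl)

/-- Price invariants of the first phase. -/
structure PI1 (n L : ℕ) (S P : ℕ → ℕ) (D : Finset (Sym2 ℕ)) : Prop where
  wf : WF n S
  pr0 : ∀ k < 2 * n, S k = 0 → P k = 0
  prL : ∀ k < 2 * n, P k ≤ L
  pr1 : ∀ k < 2 * n, S k ≠ 0 → ∀ k' < 2 * n,
    (own n k' = own n k ∨ own n k' = S k - 1) → P k ≤ P k' + 1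
  dD : ∀ e ∈ D, ∀ x ∈ e, x < n ∧ ∀ k < 2 * n, own n k = x → L ≤ P k

theorem PI1.place {n L : ℕ} {S P : ℕ → ℕ} {D : Finset (Sym2 ℕ)} (h : PI1 n L S P D)
    {κ w : ℕ} (hκ : κ < 2 * n) (hwf : WF n (upd S κ (w + 1))) (hlt : P κ < L)
    (hmin : ∀ k < 2 * n, (own n k = own n κ ∨ own n k = w) → P κ ≤ P k) :
    PI1 n L (upd S κ (w + 1)) (upd P κ (P κ + 1)) D := by
  have hmono : ∀ k, P k ≤ upd P κ (P κ + 1) k := by
    intro k
    by_cases hk : k = κ
    · subst hk; rw [upd_same]; omega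
    · rw [upd_ne _ _ hk]
  refine ⟨hwf, ?_, ?_, ?_, ?_⟩
  · intro k hk h0
    by_cases e : k = κ
    · subst e; rw [upd_same] at h0; omega
    · rw [upd_ne _ _ e] at h0 ⊢; exact h.pr0 k hk h0
  · intro k hk
    by_cases e : k = κ
    · subst e; rw [upd_same]; omega
    · rw [upd_ne _ _ e]; exact h.prL k hk
  · intro k hk h0 k' hk' hk''
    by_cases e : k = κ
    · subst e
      rw [upd_same] at hk'' ⊢
      have := hmin k' hk' (by simpa using hk'')
      have := hmono k'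
      omega
    · rw [upd_ne _ _ e] at h0 hk'' ⊢
      have := h.pr1 k hk h0 k' hk' hk''
      have := hmono k'
      omega
  · intro e he x hx
    obtain ⟨h1, h2⟩ := h.dD e he x hx
    exact ⟨h1, fun k hk hk' => (h2 k hk hk').trans (hmono k)⟩

theorem PI1.discard {n L : ℕ} {S P : ℕ → ℕ} {D : Finset (Sym2 ℕ)} (h : PI1 n L S P D)
    {a b : ℕ} (ha : a < n) (hb : b < n)
    (hmin : ∀ k < 2 * n, (own n k = a ∨ own n k = b) → L ≤ P k) :
    PI1 n L S P (insert s(a, b) D) := by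
  refine ⟨h.wf, h.pr0, h.prL, h.pr1, ?_⟩
  intro e he x hx
  rcases mem_insert.1 he with rfl | he
  · rw [Sym2.mem_iff] at hx
    rcases hx with rfl | rfl
    · exact ⟨ha, fun k hk hk' => hmin k hk (Or.inl hk')⟩
    · exact ⟨hb, fun k hk hk' => hmin k hk (Or.inr hk')⟩
  · exact h.dD e he x hx

/-- Price invariants of a state. -/
def P1 (n L : ℕ) (σ : MSt) : Prop := PI1 n L (σ.m .S) (σ.m .P) (Dl σ)

/-- Total price. -/
def TP (n : ℕ) (σ : MSt) : ℕ := ∑ k ∈ range (2 * n), σ.m .P k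

theorem aucPick_spec {n s : ℕ} {σ : MSt} (hc : Cst n s σ) (ha : σ.r .a < n) (hb : σ.r .b < n) :
    Spec aucPick σ 12 (fun σ' => σ'.r .bs < 2 * n ∧
      ((own n (σ'.r .bs) = σ.r .a ∧ σ'.r .w = σ.r .b) ∨
        (own n (σ'.r .bs) = σ.r .b ∧ σ'.r .w = σ.r .a)) ∧
      (∀ k < 2 * n, (own n k = σ.r .a ∨ own n k = σ.r .b) → σ.m .P (σ'.r .bs) ≤ σ.m .P k)) := by
  have h1 := hc.tw _ ha
  have h2 := hc.tw _ hb
  have o1 := own_lt n _ ha
  have o2 := own_lt n _ hb
  have o3 := own_add n _ ha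
  have o4 := own_add n _ hb
  have fin : ∀ x, (σ.m .P x ≤ σ.m .P (σ.r .a)) → (σ.m .P x ≤ σ.m .P (σ.r .a + n)) →
      (σ.m .P x ≤ σ.m .P (σ.r .b)) → (σ.m .P x ≤ σ.m .P (σ.r .b + n)) →
      ∀ k < 2 * n, (own n k = σ.r .a ∨ own n k = σ.r .b) → σ.m .P x ≤ σ.m .P k := by
    intro x e1 e2 e3 e4 k hk hk'
    rcases hk' with hk' | hk'
    · rcases (own_eq_iff hk ha).1 hk' with rfl | rfl <;> assumption
    · rcases (own_eq_iff hk hb).1 hk' with rfl | rfl <;> assumption
  apply Spec.of_runs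
  simp only [aucPick, runs_seq, runs_set, runs_ite, runs_skip, Exp.ev_get, Exp.ev_reg, Cnd.ev_lt,
    St.setR_r, St.setR_m, reduceCtorEq, if_false, if_true, h1, h2]
  refine ⟨by omega, by omega, by omega, ?_, ?_⟩
  · intro c1
    refine ⟨by omega, by omega, ?_, ?_⟩
    · intro c2
      refine ⟨by omega, by omega, by omega, ?_, ?_⟩
      · intro c3
        refine ⟨by omega, by omega, by omega, Or.inr ⟨o4, trivial⟩, fin _ ?_ ?_ ?_ ?_⟩ <;> omega
      · intro c3
        refine ⟨by omega, Or.inr ⟨o2, trivial⟩, fin _ ?_ ?_ ?_ ?_⟩ <;> omega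
    · intro c2
      refine ⟨by omega, ?_, ?_⟩
      · intro c3
        refine ⟨by omega, by omega, by omega, Or.inr ⟨o4, trivial⟩, fin _ ?_ ?_ ?_ ?_⟩ <;> omega
      · intro c3
        refine ⟨by omega, Or.inl ⟨o3, trivial⟩, fin _ ?_ ?_ ?_ ?_⟩ <;> omega
  · intro c1
    refine ⟨by omega, ?_, ?_⟩
    · intro c2
      refine ⟨by omega, by omega, by omega, ?_, ?_⟩
      · intro c3
        refine ⟨by omega, by omega, by omega, Or.inr ⟨o4, trivial⟩, fin _ ?_ ?_ ?_ ?_⟩ <;> omega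
      · intro c3
        refine ⟨by omega, Or.inr ⟨o2, trivial⟩, fin _ ?_ ?_ ?_ ?_⟩ <;> omega
    · intro c2
      refine ⟨by omega, ?_, ?_⟩
      · intro c3
        refine ⟨by omega, by omega, by omega, Or.inr ⟨o4, trivial⟩, fin _ ?_ ?_ ?_ ?_⟩ <;> omega
      · intro c3
        refine ⟨by omega, Or.inl ⟨o1, trivial⟩, fin _ ?_ ?_ ?_ ?_⟩ <;> omega

/-- Loop invariant of the auction. -/
structure AucI (n s L N : ℕ) (E E2 : Finset (Sym2 ℕ)) (σ : MSt) : Prop where
  cst : Cst n s σ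
  hL : σ.r .L = L
  p1 : P1 n L σ
  dn : σ.r .done ≤ 1
  run : σ.r .done = 0 → σ.r .a < n ∧ σ.r .b < n ∧ σ.r .a ≠ σ.r .b ∧
    s(σ.r .a, σ.r .b) ∉ edges n (σ.m .S) ∧
    insert s(σ.r .a, σ.r .b) (edges n (σ.m .S) ∪ Dl σ) = E ∧
    insert s(σ.r .a, σ.r .b) (edges n (σ.m .S)) ⊆ E2 ∧
    σ.r .dl + (edges n (σ.m .S)).card = N
  fin : σ.r .done = 1 → edges n (σ.m .S) ∪ Dl σ = E ∧ edges n (σ.m .S) ⊆ E2 ∧
    σ.r .dl + (edges n (σ.m .S)).card = N + 1

theorem sum_upd {n : ℕ} (P : ℕ → ℕ) {k : ℕ} (hk : k < 2 * n) :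
    ∑ i ∈ range (2 * n), upd P k (P k + 1) i = ∑ i ∈ range (2 * n), P i + 1 := by
  have hk' : k ∈ range (2 * n) := mem_range.2 hk
  rw [← add_sum_erase _ _ hk', ← add_sum_erase _ P hk', upd_same]
  have : ∑ x ∈ (range (2 * n)).erase k, upd P k (P k + 1) x = ∑ x ∈ (range (2 * n)).erase k, P x := by
    apply sum_congr rfl
    intro x hx
    exact upd_ne _ _ (ne_of_mem_erase hx)
  omega

theorem aucBody_keeps : Keeps aucBody = true := by decide

theorem aucPick_m (σ σ' : MSt) (h : Frame aucPick σ σ') : σ'.m = σ.m := by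
  funext a
  exact h.m a (by simp [aucPick, Cmd.wa])

/-- Effect of one round. -/
def AucQ (n s L N : ℕ) (E E2 : Finset (Sym2 ℕ)) (σ σ' : MSt) (t : ℕ) : Prop :=
  t ≤ 19 ∧ AucI n s L N E E2 σ' ∧
      ((σ'.r .done = 0 ∧ TP n σ' = TP n σ + 1) ∨ (σ'.r .done = 1 ∧ TP n σ ≤ TP n σ'))

theorem aucBody_spec {n s L N : ℕ} {E E2 : Finset (Sym2 ℕ)} {σ : MSt}
    (h : AucI n s L N E E2 σ) (hd : σ.r .done = 0) :
    SpecT aucBody σ (AucQ n s L N E E2 σ) := by
  obtain ⟨ha, hb, hab, hnew, hE, hE2, hN⟩ := h.run hd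
  have hP := h.p1
  refine SpecT.of_runs (T := 19) ?_
  unfold aucBody
  rw [runs_seq]
  refine Runs.of_spec (aucPick_spec h.cst ha hb).frame (by omega) ?_
  rintro σ1 T1 ⟨⟨q1, q2, q3⟩, hf⟩ hT1
  have hc1 : Cst n s σ1 := h.cst.of_frame hf (by decide)
  have hm : σ1.m = σ.m := aucPick_m _ _ hf
  have gL : σ1.r .L = L := by rw [hf.r .L (by decide), h.hL]
  have ga : σ1.r .a = σ.r .a := hf.r _ (by decide)
  have gb : σ1.r .b = σ.r .b := hf.r _ (by decide)
  have gdl : σ1.r .dl = σ.r .dl := hf.r _ (by decide)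
  have gd : σ1.r .done = σ.r .done := hf.r _ (by decide)
  obtain ⟨κ, hκ⟩ : ∃ κ, σ1.r .bs = κ := ⟨_, rfl⟩
  obtain ⟨w, hw⟩ : ∃ w, σ1.r .w = w := ⟨_, rfl⟩
  rw [hκ] at q1 q2 q3
  rw [hw] at q2
  have how := h.cst.ow κ q1
  have hwn : w < n := by rcases q2 with ⟨-, q⟩ | ⟨-, q⟩ <;> omega
  have hne : own n κ ≠ w := by rcases q2 with ⟨e1, e2⟩ | ⟨e1, e2⟩ <;> rw [e1, e2] <;> omega
  have hed : s(own n κ, w) = s(σ.r .a, σ.r .b) := by
    rcases q2 with ⟨e1, e2⟩ | ⟨e1, e2⟩
    · rw [e1, e2]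
    · rw [e1, e2, Sym2.eq_swap]
  have hnew' : s(own n κ, w) ∉ edges n (σ.m .S) := by rw [hed]; exact hnew
  have hmin : ∀ k < 2 * n, (own n k = own n κ ∨ own n k = w) → σ.m .P κ ≤ σ.m .P k := by
    intro k hk hk'
    apply q3 k hk
    rcases q2 with ⟨e1, e2⟩ | ⟨e1, e2⟩
    · rw [e1, e2] at hk'; exact hk'
    · rw [e1, e2] at hk'; exact hk'.symm
  rw [runs_ite]
  refine ⟨by omega, ?_, ?_⟩
  · -- place the edge
    intro hlt
    simp only [Cnd.ev_lt, Exp.ev_get, Exp.ev_reg, hκ, hm, gL] at hlt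
    simp only [runs_seq, runs_set, runs_put, runs_ite, Exp.ev_get, Exp.ev_reg, Exp.ev_inc,
      Exp.ev_dec, Exp.ev_num, Cnd.ev_eq, St.setR_r, St.setR_m, St.setM_r, reduceCtorEq, if_false,
      if_true, hκ, hw, hm, how]
    refine ⟨by omega, by omega, by omega, by omega, ?_, ?_⟩
    · -- the slot was free
      intro hfree
      refine ⟨by omega, ?_⟩
      intro t ht
      obtain ⟨w1, w2⟩ := hP.wf.fill q1 hfree hwn hne hnew'
      have hcard : (edges n (upd (σ.m .S) κ (w + 1))).card = (edges n (σ.m .S)).card + 1 := by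
        rw [w2, card_insert_of_notMem hnew']
      have hpl := hP.place q1 w1 hlt hmin
      have eSP : ∀ a, ((((σ1.setR .old (σ.m .S κ)).setM .S κ (w + 1)).setM .P κ
          (((σ1.setR .old (σ.m .S κ)).setM .S κ (w + 1)).m .P κ + 1)).setR .done 1).m a =
          if a = .S then upd (σ.m .S) κ (w + 1) else
            if a = .P then upd (σ.m .P) κ (σ.m .P κ + 1) else σ.m a := by
        intro a
        funext i
        by_cases h1 : a = .S
        · subst h1; simp [upd, hm]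
        · by_cases h2 : a = .P
          · subst h2; simp [upd, hm]
          · simp [h1, h2, hm]
      set σ' := ((((σ1.setR .old (σ.m .S κ)).setM .S κ (w + 1)).setM .P κ
          (((σ1.setR .old (σ.m .S κ)).setM .S κ (w + 1)).m .P κ + 1)).setR .done 1) with hσ'
      have eS : σ'.m .S = upd (σ.m .S) κ (w + 1) := by rw [eSP]; simp
      have eP : σ'.m .P = upd (σ.m .P) κ (σ.m .P κ + 1) := by rw [eSP]; simp
      have eD : Dl σ' = Dl σ := by
        unfold Dl
        rw [eSP, eSP]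
        simp [hσ', gdl]
      refine ⟨by omega, ⟨⟨?_, ?_, ?_, ?_, ?_⟩, ?_, ?_, ?_, ?_, ?_⟩, Or.inr ⟨?_, ?_⟩⟩
      · simpa [hσ'] using hc1.hn
      · simpa [hσ'] using hc1.hnn
      · simpa [hσ'] using hc1.hs
      · rw [eSP]; exact h.cst.tw
      · rw [eSP]; exact h.cst.ow
      · simpa [hσ'] using gL
      · unfold P1; rw [eS, eP, eD]; exact hpl
      · simp [hσ']
      · intro hcon; simp [hσ'] at hcon
      · intro _
        rw [eS, eD, hcard, w2, hed]
        refine ⟨by rw [insert_union, hE], hE2, ?_⟩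
        have : σ'.r .dl = σ.r .dl := by simp [hσ', gdl]
        omega
      · simp [hσ']
      · unfold TP
        rw [eP, sum_upd _ q1]
        omega
    · -- the slot was occupied
      intro hocc
      refine ⟨by omega, by omega, ?_⟩
      intro t ht
      obtain ⟨w1, w2⟩ := hP.wf.replace q1 hocc hwn hne hnew'
      have hmem := edge_mem q1 hocc
      have hcard : (edges n (upd (σ.m .S) κ (w + 1))).card = (edges n (σ.m .S)).card := by
        rw [w2, card_insert_of_notMem (fun hc => hnew' (mem_of_mem_erase hc)), card_erase_of_mem hmem]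
        have := card_pos.2 ⟨_, hmem⟩
        omega
      have hpl := hP.place q1 w1 hlt hmin
      have hhead := hP.wf.head_lt q1 hocc
      have hheadne := hP.wf.head_ne q1 hocc
      have fin : ∀ σ' : MSt, σ'.r .n = n → σ'.r .nn = 2 * n → σ'.r .s = s → σ'.r .L = L →
          σ'.r .done = 0 → σ'.r .dl = σ.r .dl → σ'.r .a = own n κ → σ'.r .b = σ.m .S κ - 1 →
          σ'.m .TW = σ.m .TW → σ'.m .OWN = σ.m .OWN → σ'.m .DU = σ.m .DU → σ'.m .DV = σ.m .DV →
          σ'.m .S = upd (σ.m .S) κ (w + 1) → σ'.m .P = upd (σ.m .P) κ (σ.m .P κ + 1) →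
          AucQ n s L N E E2 σ σ' t := by
        intro σ' f1 f2 f3 f4 f5 f6 f7 f8 f9 f10 f11 f12 f13 f14
        have eD : Dl σ' = Dl σ := by unfold Dl; rw [f11, f12, f6]
        have hcur : s(σ'.r .a, σ'.r .b) = edge n (σ.m .S) κ := by rw [f7, f8]; rfl
        refine ⟨by omega, ⟨⟨f1, f2, f3, by rw [f9]; exact h.cst.tw, by rw [f10]; exact h.cst.ow⟩,
          f4, ?_, by omega, ?_, by omega⟩, Or.inl ⟨f5, ?_⟩⟩
        · unfold P1; rw [f13, f14, eD]; exact hpl
        · intro _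
          rw [hcur, f13, eD, hcard, w2, hed, f6, f7, f8]
          have hne2 : edge n (σ.m .S) κ ≠ s(σ.r .a, σ.r .b) := by
            intro hcon; exact hnew (hcon ▸ hmem)
          have hins : insert (edge n (σ.m .S) κ) (insert s(σ.r .a, σ.r .b)
              ((edges n (σ.m .S)).erase (edge n (σ.m .S) κ))) =
              insert s(σ.r .a, σ.r .b) (edges n (σ.m .S)) := by
            rw [insert_comm, insert_erase hmem]
          refine ⟨own_range q1, hhead, hheadne, ?_, ?_, ?_, by omega⟩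
          · rw [mem_insert, not_or]
            exact ⟨hne2, notMem_erase _ _⟩
          · rw [← insert_union, hins, insert_union, hE]
          · rw [hins]; exact hE2
        · unfold TP
          rw [f14, sum_upd _ q1]
      refine fin _ ?_ ?_ ?_ ?_ ?_ ?_ ?_ ?_ ?_ ?_ ?_ ?_ ?_ ?_
      · simpa using hc1.hn
      · simpa using hc1.hnn
      · simpa using hc1.hs
      · simpa using gL
      · simpa using gd.trans hd
      · simpa using gdl
      · simpa [hm] using how
      · simp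
      · funext i; simp [hm]
      · funext i; simp [hm]
      · funext i; simp [hm]
      · funext i; simp [hm]
      · funext i; simp [hm, upd]
      · funext i; simp [hm, upd]
  · -- discard
    intro hge
    simp only [Cnd.ev_lt, Exp.ev_get, Exp.ev_reg, hκ, hm, gL, not_lt] at hge
    simp only [runs_seq, runs_set, runs_put, Exp.ev_get, Exp.ev_reg, Exp.ev_inc,
      Exp.ev_num, St.setR_r, St.setR_m, St.setM_r, reduceCtorEq, if_false, if_true]
    refine ⟨by omega, by omega, by omega, by omega, ?_⟩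
    intro t ht
    have hdis : PI1 n L (σ.m .S) (σ.m .P) (insert s(σ.r .a, σ.r .b) (Dl σ)) := by
      refine hP.discard ha hb ?_
      intro k hk hk'
      exact hge.trans (q3 k hk hk')
    have fin : ∀ σ' : MSt, σ'.r .n = n → σ'.r .nn = 2 * n → σ'.r .s = s → σ'.r .L = L →
        σ'.r .done = 1 → σ'.r .dl = σ.r .dl + 1 →
        σ'.m .TW = σ.m .TW → σ'.m .OWN = σ.m .OWN →
        σ'.m .DU = upd (σ.m .DU) (σ.r .dl) (σ.r .a) →
        σ'.m .DV = upd (σ.m .DV) (σ.r .dl) (σ.r .b) →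
        σ'.m .S = σ.m .S → σ'.m .P = σ.m .P →
        AucQ n s L N E E2 σ σ' t := by
      intro σ' f1 f2 f3 f4 f5 f6 f9 f10 f11 f12 f13 f14
      have eD : Dl σ' = insert s(σ.r .a, σ.r .b) (Dl σ) := by
        unfold Dl; rw [f11, f12, f6, listE_push]
      refine ⟨by omega, ⟨⟨f1, f2, f3, by rw [f9]; exact h.cst.tw, by rw [f10]; exact h.cst.ow⟩,
        f4, ?_, by omega, by omega, ?_⟩, Or.inr ⟨f5, ?_⟩⟩
      · unfold P1; rw [f13, f14, eD]; exact hdis
      · intro _
        rw [f13, eD, f6]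
        refine ⟨?_, (subset_insert _ _).trans hE2, by omega⟩
        rw [union_insert, hE]
      · unfold TP; rw [f14]
    refine fin _ ?_ ?_ ?_ ?_ ?_ ?_ ?_ ?_ ?_ ?_ ?_ ?_
    · simpa using hc1.hn
    · simpa using hc1.hnn
    · simpa using hc1.hs
    · simpa using gL
    · simp
    · simp [gdl]
    · funext i; simp [hm]
    · funext i; simp [hm]
    · funext i; simp [hm, upd, ga, gdl]
    · funext i; simp [hm, upd, gb, gdl]
    · funext i; simp [hm]
    · funext i; simp [hm]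

theorem TP_le {n L : ℕ} {σ : MSt} (h : P1 n L σ) : TP n σ ≤ 2 * n * L := by
  unfold TP
  calc ∑ k ∈ range (2 * n), σ.m .P k ≤ ∑ k ∈ range (2 * n), L :=
        sum_le_sum (fun k hk => h.prL k (mem_range.1 hk))
    _ = 2 * n * L := by simp

theorem auction_spec {n s L : ℕ} {σ : MSt} (hc : Cst n s σ) (hL : σ.r .L = L)
    (h : P1 n L σ) (hu : σ.r .u < n) (hv : σ.r .v < n) (huv : σ.r .u ≠ σ.r .v)
    (hnew : s(σ.r .u, σ.r .v) ∉ edges n (σ.m .S)) :
    SpecT auction σ (fun σ' t => t + 20 * TP n σ ≤ 20 * TP n σ' + 30 ∧ P1 n L σ' ∧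
      edges n (σ'.m .S) ∪ Dl σ' = insert s(σ.r .u, σ.r .v) (edges n (σ.m .S) ∪ Dl σ) ∧
      edges n (σ'.m .S) ⊆ insert s(σ.r .u, σ.r .v) (edges n (σ.m .S)) ∧
      σ'.r .dl + (edges n (σ'.m .S)).card = σ.r .dl + (edges n (σ.m .S)).card + 1) := by
  have hloop := fun σ0 => SpecT.whl (σ := σ0) (b := .eq (.reg .done) (.num 0)) (c := aucBody)
    (AucI n s L (σ.r .dl + (edges n (σ.m .S)).card)
      (insert s(σ.r .u, σ.r .v) (edges n (σ.m .S) ∪ Dl σ))
      (insert s(σ.r .u, σ.r .v) (edges n (σ.m .S))))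
    (fun σ1 => 20 * (2 * n * L - TP n σ1) + (if σ1.r .done = 0 then 25 else 0)) (by
      intro σ1 hI hb
      simp only [Cnd.ev_eq, Exp.ev_reg, Exp.ev_num] at hb
      refine (aucBody_spec hI hb).mono ?_
      rintro σ2 t ⟨h1, h2, h3⟩ -
      refine ⟨h2, ?_⟩
      have hT1 := TP_le hI.p1
      have hT2 := TP_le h2.p1
      rcases h3 with ⟨h4, h5⟩ | ⟨h4, h5⟩
      · simp only [hb, h4, if_true]
        omega
      · simp only [hb, h4, if_true, one_ne_zero, if_false]
        omega)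
  refine SpecT.of_runs (T := 20 * (2 * n * L - TP n σ) + 25 + 1 + 3) ?_
  simp only [auction, runs_seq, runs_set, Exp.ev_reg, Exp.ev_num, St.setR_r, reduceCtorEq, if_false]
  refine ⟨by omega, by omega, by omega, ?_⟩
  refine Runs.of_specT (hloop _ ?_) ?_
  · refine ⟨⟨by simpa using hc.hn, by simpa using hc.hnn, by simpa using hc.hs, hc.tw, hc.ow⟩,
      by simpa using hL, h, by simp, ?_, by simp⟩
    intro _
    refine ⟨by simpa using hu, by simpa using hv, by simpa using huv, by simpa using hnew, ?_, ?_, ?_⟩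
    · simp [Dl]
    · simp
    · simp
  · rintro σ' t ⟨hI, hb, ht⟩
    have hTP0 : TP n (((σ.setR .a (σ.r .u)).setR .b (σ.r .v)).setR .done 0) = TP n σ := rfl
    simp only [hTP0, St.setR_r, if_true] at ht
    simp only [Cnd.ev_eq, Exp.ev_reg, Exp.ev_num] at hb
    have hd1 : σ'.r .done = 1 := by have := hI.dn; omega
    obtain ⟨f1, f2, f3⟩ := hI.fin hd1
    have hT1 := TP_le h
    have hT2 := TP_le hI.p1
    rw [if_neg hb] at ht
    refine ⟨by omega, ?_⟩
    intro t' ht'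
    exact ⟨by omega, hI.p1, f1, f2, f3⟩

theorem auction_keeps : Keeps auction = true := by decide

end Pool.Agent.H.MP_d01483_lc
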