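import Pool.Agent.H.MP_d01483_lc.Sparse

set_option linter.unusedSectionVars false
set_option linter.unusedVariables false
set_option autoImplicit false

namespace Pool.Agent.H.MP_d01483_lc

open Finset

theorem own_lt_c {n k : ℕ} (hk : k < 2 * n) : own n k < n := by
  unfold own
  split_ifs <;> omega

theorem own_eq_iff_c {n k v : ℕ} (hv : v < n) : (k < 2 * n ∧ own n k = v) ↔ (k = v ∨ k = v + n) := by
  unfold own
  split_ifs <;> omega

/-- The slots owned by a vertex set. -/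
theorem card_slots_c {n : ℕ} {Z : Finset ℕ} (hZ : Z ⊆ range n) :
    ((range (2 * n)).filter (fun k => own n k ∈ Z)).card = 2 * Z.card := by
  have hmap : ∀ k ∈ (range (2 * n)).filter (fun k => own n k ∈ Z), own n k ∈ Z := by
    intro k hk
    exact (mem_filter.1 hk).2
  rw [card_eq_sum_card_fiberwise hmap]
  have : ∀ v ∈ Z, (((range (2 * n)).filter (fun k => own n k ∈ Z)).filter
      (fun k => own n k = v)).card = 2 := by
    intro v hv
    have hvn : v < n := mem_range.1 (hZ hv)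
    have e : ((range (2 * n)).filter (fun k => own n k ∈ Z)).filter (fun k => own n k = v) =
        {v, v + n} := by
      ext k
      simp only [mem_filter, mem_range, mem_insert, mem_singleton]
      rw [← own_eq_iff_c hvn]
      constructor
      · rintro ⟨⟨h1, _⟩, h3⟩
        exact ⟨h1, h3⟩
      · rintro ⟨h1, h2⟩
        exact ⟨⟨h1, h2 ▸ hv⟩, h2⟩
    rw [e]
    exact card_pair (by omega)
  rw [sum_congr rfl this, sum_const, smul_eq_mul, mul_comm]

theorem edge_injOn_c {n : ℕ} {S : ℕ → ℕ} (h : WF n S) :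
    Set.InjOn (edge n S) ((range (2 * n)).filter (fun k => S k ≠ 0) : Finset ℕ) := by
  intro k hk k' hk' he
  have h1 := mem_filter.1 (mem_coe.1 hk)
  have h2 := mem_filter.1 (mem_coe.1 hk')
  exact h.inj k (mem_range.1 h1.1) k' (mem_range.1 h2.1) h1.2 h2.2 he

/-- The number of occupied slots is the number of edges. -/
theorem card_edges {n : ℕ} {S : ℕ → ℕ} (h : WF n S) :
    (edges n S).card = ((range (2 * n)).filter (fun k => S k ≠ 0)).card :=
  card_image_of_injOn (edge_injOn_c h)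

theorem edges_subset {n : ℕ} {S : ℕ → ℕ} (h : WF n S) : edges n S ⊆ (range n).sym2 := by
  intro e he
  obtain ⟨k, hk, rfl⟩ := mem_image.1 he
  obtain ⟨hk1, hk2⟩ := mem_filter.1 hk
  have hk3 := mem_range.1 hk1
  have h1 := h.le k hk3
  unfold edge
  rw [Finset.mk_mem_sym2_iff]
  exact ⟨mem_range.2 (own_lt_c hk3), mem_range.2 (by omega)⟩

theorem edges_nondiag {n : ℕ} {S : ℕ → ℕ} (h : WF n S) : ∀ e ∈ edges n S, ¬ e.IsDiag := by
  intro e he hd
  obtain ⟨k, hk, rfl⟩ := mem_image.1 he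
  obtain ⟨hk1, hk2⟩ := mem_filter.1 hk
  have hk3 := mem_range.1 hk1
  unfold edge at hd
  rw [Sym2.mk_isDiag_iff] at hd
  have := h.noloop k hk3
  omega

theorem ind_edges {n : ℕ} {S : ℕ → ℕ} (h : WF n S) (Z : Finset ℕ) :
    ind (edges n S) Z = ((range (2 * n)).filter
      (fun k => own n k ∈ Z ∧ ¬ (S k = 0 ∨ S k - 1 ∉ Z))).card := by
  have e : edges n S ∩ Z.sym2 = ((range (2 * n)).filter
      (fun k => own n k ∈ Z ∧ ¬ (S k = 0 ∨ S k - 1 ∉ Z))).image (edge n S) := by
    ext x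
    simp only [mem_inter, edges, mem_image, mem_filter, mem_range]
    constructor
    · rintro ⟨⟨k, ⟨hk1, hk2⟩, rfl⟩, hx⟩
      unfold edge at hx
      rw [Finset.mk_mem_sym2_iff] at hx
      refine ⟨k, ⟨hk1, hx.1, ?_⟩, rfl⟩
      push Not
      exact ⟨hk2, hx.2⟩
    · rintro ⟨k, ⟨hk1, hk2, hk3⟩, rfl⟩
      push Not at hk3
      refine ⟨⟨k, ⟨hk1, hk3.1⟩, rfl⟩, ?_⟩
      unfold edge
      rw [Finset.mk_mem_sym2_iff]
      exact ⟨hk2, hk3.2⟩
  unfold ind
  rw [e]
  refine card_image_of_injOn ((edge_injOn_c h).mono ?_)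
  intro k hk
  have h1 := mem_filter.1 (mem_coe.1 hk)
  have h2 := h1.2.2
  push Not at h2
  exact mem_coe.2 (mem_filter.2 ⟨h1.1, h2.1⟩)

/-- Basic counting identity. -/
theorem ind_add_fx {n : ℕ} {S : ℕ → ℕ} (h : WF n S) {Z : Finset ℕ} (hZ : Z ⊆ range n) :
    ind (edges n S) Z + fx n S Z = 2 * Z.card := by
  rw [ind_edges h Z, ← card_slots_c hZ]
  unfold fx
  have h1 : (range (2 * n)).filter (fun k => own n k ∈ Z ∧ ¬ (S k = 0 ∨ S k - 1 ∉ Z)) =
      ((range (2 * n)).filter (fun k => own n k ∈ Z)).filter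
        (fun k => ¬ (S k = 0 ∨ S k - 1 ∉ Z)) := by
    rw [filter_filter]
  have h2 : (range (2 * n)).filter (fun k => own n k ∈ Z ∧ (S k = 0 ∨ S k - 1 ∉ Z)) =
      ((range (2 * n)).filter (fun k => own n k ∈ Z)).filter
        (fun k => (S k = 0 ∨ S k - 1 ∉ Z)) := by
    rw [filter_filter]
  rw [h1, h2, add_comm]
  exact card_filter_add_card_filter_not _

theorem ind_eq_zero {F : Finset (Sym2 ℕ)} (hF : ∀ e ∈ F, ¬ e.IsDiag) {Z : Finset ℕ}
    (hZ : Z.card ≤ 1) : ind F Z = 0 := by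
  unfold ind
  rw [card_eq_zero, eq_empty_iff_forall_notMem]
  intro e he
  rw [mem_inter] at he
  obtain ⟨h1, h2⟩ := he
  induction e using Sym2.ind with
  | _ a b =>
    rw [Finset.mk_mem_sym2_iff] at h2
    have hab : a = b := card_le_one.1 hZ a h2.1 b h2.2
    exact hF _ h1 (by rw [hab]; simp)

/-- Sparsity of a slot structure in terms of `fx`. -/
theorem sparse_edges_iff {n : ℕ} {S : ℕ → ℕ} (h : WF n S) :
    Sparse (edges n S) ↔ ∀ Z ⊆ range n, 2 ≤ Z.card → 3 ≤ fx n S Z := by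
  constructor
  · intro hs Z hZ hc
    have h1 := ind_add_fx h hZ
    have h2 := hs.2 Z hc
    omega
  · intro hfx
    refine ⟨edges_nondiag h, fun Z hc => ?_⟩
    have e : ind (edges n S) Z = ind (edges n S) (Z ∩ range n) := by
      unfold ind
      congr 1
      ext x
      simp only [mem_inter]
      constructor
      · rintro ⟨h1, h2⟩
        refine ⟨h1, ?_⟩
        have h3 := edges_subset h h1
        rw [Finset.mem_sym2_iff] at h2 h3 ⊢
        intro a ha
        exact mem_inter.2 ⟨h2 a ha, h3 a ha⟩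
      · rintro ⟨h1, h2⟩
        exact ⟨h1, Finset.sym2_mono inter_subset_left h2⟩
    rw [e]
    have hle : (Z ∩ range n).card ≤ Z.card := card_le_card inter_subset_left
    rcases Nat.lt_or_ge (Z ∩ range n).card 2 with h2 | h2
    · rw [ind_eq_zero (edges_nondiag h) (by omega)]
      omega
    · have h3 := hfx (Z ∩ range n) inter_subset_right h2
      have h4 := ind_add_fx h (Z := Z ∩ range n) inter_subset_right
      omega

/-- Level-set argument for the auction.  `P` are prices on slots, with values `≤ L`; free slots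
have price `0`; an occupied slot is at most one more expensive than every slot of the two ends
of its edge; both ends of every discarded edge only have slots of price `L`.  Then no set of
edges with at most `2|Z|` edges in every `Z` is much larger than the stored edge set. -/
theorem level_bound {n : ℕ} {S P : ℕ → ℕ} (h : WF n S) {L : ℕ} {D B : Finset (Sym2 ℕ)}
    (h0 : ∀ k < 2 * n, S k = 0 → P k = 0)
    (hP : ∀ k < 2 * n, S k ≠ 0 → ∀ k' < 2 * n,
      (own n k' = own n k ∨ own n k' = S k - 1) → P k ≤ P k' + 1)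
    (hD : ∀ e ∈ D, ∀ a ∈ e, a < n ∧ ∀ k < 2 * n, own n k = a → L ≤ P k)
    (hB : ∀ Z ⊆ range n, ind B Z ≤ 2 * Z.card)
    (hBs : B ⊆ edges n S ∪ D) :
    B.card * (L - 1) ≤ (edges n S).card * (L - 1) + 2 * n := by
  set J := edges n S with hJ
  let X : ℕ → Finset ℕ := fun t => (range (2 * n)).filter (fun k => t ≤ P k)
  let U : ℕ → Finset ℕ := fun t => (range n).filter (fun v => ∀ k < 2 * n, own n k = v → t ≤ P k)
  have hUr : ∀ t, U t ⊆ range n := fun t => filter_subset _ _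
  have h1 : ∀ t, 2 * (U t).card ≤ (X t).card := by
    intro t
    rw [← card_slots_c (hUr t)]
    refine card_le_card ?_
    intro k hk
    obtain ⟨hk1, hk2⟩ := mem_filter.1 hk
    obtain ⟨_, hk3⟩ := mem_filter.1 hk2
    exact mem_filter.2 ⟨hk1, hk3 k (mem_range.1 hk1) rfl⟩
  have h2 : ∀ t, (X (t + 1)).card ≤ ind J (U t) := by
    intro t
    rw [hJ, ind_edges h]
    refine card_le_card ?_
    intro k hk
    obtain ⟨hk1, hk2⟩ := mem_filter.1 hk
    have hk3 := mem_range.1 hk1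
    have hk0 : S k ≠ 0 := by
      intro hs
      have := h0 k hk3 hs
      omega
    have hle := h.le k hk3
    refine mem_filter.2 ⟨hk1, ?_, ?_⟩
    · refine mem_filter.2 ⟨mem_range.2 (own_lt_c hk3), ?_⟩
      intro k' hk' ho
      have := hP k hk3 hk0 k' hk' (Or.inl ho)
      omega
    · push Not
      refine ⟨hk0, mem_filter.2 ⟨mem_range.2 (by omega), ?_⟩⟩
      intro k' hk' ho
      have := hP k hk3 hk0 k' hk' (Or.inr ho)
      omega
  have h3 : ∀ t, t ≤ L → B.card + (X (t + 1)).card ≤ J.card + (X t).card := by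
    intro t ht
    have e1 : (B ∩ (U t).sym2).card + (B \ (U t).sym2).card = B.card :=
      card_inter_add_card_sdiff B _
    have e2 : (J ∩ (U t).sym2).card + (J \ (U t).sym2).card = J.card :=
      card_inter_add_card_sdiff J _
    have e3 : (B \ (U t).sym2).card ≤ (J \ (U t).sym2).card := by
      refine card_le_card ?_
      intro e he
      obtain ⟨he1, he2⟩ := mem_sdiff.1 he
      rcases mem_union.1 (hBs he1) with h4 | h4
      · exact mem_sdiff.2 ⟨h4, he2⟩
      · exfalso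
        apply he2
        rw [Finset.mem_sym2_iff]
        intro a ha
        obtain ⟨h5, h6⟩ := hD e h4 a ha
        refine mem_filter.2 ⟨mem_range.2 h5, ?_⟩
        intro k hk ho
        have := h6 k hk ho
        omega
    have e4 : (B ∩ (U t).sym2).card ≤ 2 * (U t).card := hB (U t) (hUr t)
    have e5 := h1 t
    have e6 : (X (t + 1)).card ≤ (J ∩ (U t).sym2).card := h2 t
    omega
  have h4 : ∀ m, m ≤ L - 1 → B.card * m + (X (m + 1)).card ≤ J.card * m + (X 1).card := by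
    intro m
    induction m with
    | zero => intro _; simp
    | succ m ih =>
      intro hm
      have h5 := ih (by omega)
      have h6 := h3 (m + 1) (by omega)
      rw [Nat.mul_succ, Nat.mul_succ]
      omega
  have h5 := h4 (L - 1) le_rfl
  have h6 : (X 1).card ≤ 2 * n := by
    refine (card_le_card (filter_subset _ _)).trans ?_
    rw [card_range]
  omega

/-- Hitting set of a search forest.  `PI v = 0` for roots, which own a free slot; otherwise
`PI v = k + 1` where slot `k` of `v` is occupied.  `W v` is one plus the sum of `W c` over the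
children `c ∉ H` of `v`, and `H` is the set of vertices with `q ≤ W v`. -/
theorem hitting {n s q : ℕ} {S PI W : ℕ → ℕ} {H : Finset ℕ}
    (hroot : ∀ v < n, PI v = 0 → ∃ k < 2 * n, own n k = v ∧ S k = 0)
    (hpar : ∀ v < n, PI v ≠ 0 → PI v - 1 < 2 * n ∧ own n (PI v - 1) = v ∧ S (PI v - 1) ≠ 0)
    (hH : ∀ v, v ∈ H ↔ v < n ∧ q ≤ W v)
    (hW : ∀ v < n, W v = 1 + ∑ c ∈ (range n).filter
      (fun c => PI c ≠ 0 ∧ S (PI c - 1) - 1 = v ∧ c ∉ H), W c)
    (hq : 2 * q ≤ s + 2) {Z : Finset ℕ} (hZ : Z ⊆ range n) (hs : s < Z.card)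
    (hfx : fx n S Z ≤ 2) : ∃ v ∈ H, v ∈ Z := by
  by_contra hcon
  push Not at hcon
  have hZH : ∀ v ∈ Z, v ∉ H := fun v hv hvH => hcon v hvH hv
  have hZW : ∀ v ∈ Z, W v < q := by
    intro v hv
    by_contra hc
    exact hZH v hv ((hH v).2 ⟨mem_range.1 (hZ hv), by omega⟩)
  set X := Z.filter (fun x => PI x = 0 ∨ S (PI x - 1) - 1 ∉ Z) with hX
  -- each `x ∈ X` owns a slot counted by `fx`
  have hex : ∀ x ∈ X, ∃ k, k < 2 * n ∧ own n k = x ∧ (S k = 0 ∨ S k - 1 ∉ Z) := by
    intro x hx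
    obtain ⟨hxZ, hx2⟩ := mem_filter.1 hx
    have hxn := mem_range.1 (hZ hxZ)
    by_cases h0 : PI x = 0
    · obtain ⟨k, h1, h2, h3⟩ := hroot x hxn h0
      exact ⟨k, h1, h2, Or.inl h3⟩
    · obtain ⟨h1, h2, h3⟩ := hpar x hxn h0
      rcases hx2 with h4 | h4
      · exact absurd h4 h0
      · exact ⟨PI x - 1, h1, h2, Or.inr h4⟩
  choose! g hg1 hg2 hg3 using hex
  have hXc : X.card ≤ 2 := by
    refine le_trans ?_ hfx
    unfold fx
    refine card_le_card_of_injOn g ?_ ?_
    · intro x hx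
      have hx' : x ∈ X := mem_coe.1 hx
      refine mem_coe.2 (mem_filter.2 ⟨mem_range.2 (hg1 x hx'), ?_, hg3 x hx'⟩)
      rw [hg2 x hx']
      exact (mem_filter.1 hx').1
    · intro x hx y hy hxy
      rw [← hg2 x (mem_coe.1 hx), ← hg2 y (mem_coe.1 hy), hxy]
  have hsum : ∑ v ∈ Z, W v = Z.card + ∑ v ∈ Z, ∑ c ∈ (range n).filter
      (fun c => PI c ≠ 0 ∧ S (PI c - 1) - 1 = v ∧ c ∉ H), W c := by
    rw [sum_congr rfl (fun v hv => hW v (mem_range.1 (hZ hv))), sum_add_distrib]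
    simp
  have hge : ∑ c ∈ Z \ X, W c ≤ ∑ v ∈ Z, ∑ c ∈ (range n).filter
      (fun c => PI c ≠ 0 ∧ S (PI c - 1) - 1 = v ∧ c ∉ H), W c := by
    have hmap : ∀ c ∈ Z \ X, S (PI c - 1) - 1 ∈ Z := by
      intro c hc
      obtain ⟨h1, h2⟩ := mem_sdiff.1 hc
      by_contra h3
      exact h2 (mem_filter.2 ⟨h1, Or.inr h3⟩)
    rw [← sum_fiberwise_of_maps_to hmap]
    refine sum_le_sum (fun v hv => ?_)
    refine sum_le_sum_of_subset ?_
    intro c hc
    obtain ⟨h1, h2⟩ := mem_filter.1 hc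
    obtain ⟨h3, h4⟩ := mem_sdiff.1 h1
    refine mem_filter.2 ⟨hZ h3, ?_, h2, hZH c h3⟩
    intro h5
    exact h4 (mem_filter.2 ⟨h3, Or.inl h5⟩)
  have hsplit : ∑ c ∈ Z \ X, W c + ∑ c ∈ X, W c = ∑ v ∈ Z, W v :=
    sum_sdiff (filter_subset _ _)
  have hXW : ∑ c ∈ X, W c ≤ X.card * (q - 1) := by
    refine sum_le_card_nsmul X W (q - 1) ?_
    intro x hx
    have := hZW x (mem_filter.1 hx).1
    omega
  have hfin : X.card * (q - 1) ≤ 2 * (q - 1) := Nat.mul_le_mul_right _ hXc
  have hZne : 0 < Z.card := by omega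
  obtain ⟨z, hz⟩ := card_pos.1 hZne
  have hq0 := hZW z hz
  omega

theorem hitting_card {n q : ℕ} {S PI W : ℕ → ℕ} {H : Finset ℕ}
    (hle : ∀ k < 2 * n, S k ≤ n)
    (hpar : ∀ v < n, PI v ≠ 0 → PI v - 1 < 2 * n ∧ own n (PI v - 1) = v ∧ S (PI v - 1) ≠ 0)
    (hH : ∀ v, v ∈ H ↔ v < n ∧ q ≤ W v)
    (hW : ∀ v < n, W v = 1 + ∑ c ∈ (range n).filter
      (fun c => PI c ≠ 0 ∧ S (PI c - 1) - 1 = v ∧ c ∉ H), W c) :
    q * H.card ≤ n := by
  have hHr : H ⊆ range n := fun v hv => mem_range.2 ((hH v).1 hv).1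
  have hsum : ∑ v ∈ range n, W v = n + ∑ v ∈ range n, ∑ c ∈ (range n).filter
      (fun c => PI c ≠ 0 ∧ S (PI c - 1) - 1 = v ∧ c ∉ H), W c := by
    rw [sum_congr rfl (fun v hv => hW v (mem_range.1 hv)), sum_add_distrib]
    simp
  set T := (range n).filter (fun c => PI c ≠ 0 ∧ c ∉ H) with hT
  have hle2 : ∑ v ∈ range n, ∑ c ∈ (range n).filter
      (fun c => PI c ≠ 0 ∧ S (PI c - 1) - 1 = v ∧ c ∉ H), W c ≤ ∑ c ∈ range n \ H, W c := by
    have hmap : ∀ c ∈ T, S (PI c - 1) - 1 ∈ range n := by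
      intro c hc
      obtain ⟨h1, h2, _⟩ := mem_filter.1 hc
      obtain ⟨h3, _, h5⟩ := hpar c (mem_range.1 h1) h2
      have := hle _ h3
      exact mem_range.2 (by omega)
    have e : ∑ v ∈ range n, ∑ c ∈ (range n).filter
      (fun c => PI c ≠ 0 ∧ S (PI c - 1) - 1 = v ∧ c ∉ H), W c = ∑ c ∈ T, W c := by
      rw [← sum_fiberwise_of_maps_to hmap]
      refine sum_congr rfl (fun v _ => ?_)
      refine sum_congr ?_ (fun _ _ => rfl)
      ext c
      simp only [hT, mem_filter, mem_range]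
      tauto
    rw [e]
    refine sum_le_sum_of_subset ?_
    intro c hc
    obtain ⟨h1, _, h3⟩ := mem_filter.1 hc
    exact mem_sdiff.2 ⟨h1, h3⟩
  have hsplit : ∑ c ∈ range n \ H, W c + ∑ c ∈ H, W c = ∑ v ∈ range n, W v :=
    sum_sdiff hHr
  have hHW : H.card * q ≤ ∑ c ∈ H, W c := by
    refine card_nsmul_le_sum H W q ?_
    intro x hx
    exact ((hH x).1 hx).2
  rw [mul_comm]
  omega

/-- No trap at `h`: every nonempty vertex set avoiding `h` has a free slot or a slot leaving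
it to a vertex other than `h`. -/
def NoTrap (n : ℕ) (S : ℕ → ℕ) (h : ℕ) : Prop :=
  ∀ X ⊆ range n, X.Nonempty → h ∉ X → ∃ k < 2 * n, own n k ∈ X ∧
    (S k = 0 ∨ (S k - 1 ∉ X ∧ S k - 1 ≠ h))

theorem NoTrap.mono {n : ℕ} {S S' : ℕ → ℕ} {h : ℕ} (hS : ∀ k < 2 * n, S' k = S k ∨ S' k = 0)
    (hN : NoTrap n S h) : NoTrap n S' h := by
  intro X hX hne hh
  obtain ⟨k, hk, h1, h2⟩ := hN X hX hne hh
  refine ⟨k, hk, h1, ?_⟩
  rcases hS k hk with h3 | h3
  · rw [h3]; exact h2
  · exact Or.inl h3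

/-- If every set with `2 ≤ |Z| ≤ s` has `fx ≥ 3` in `S`, `H` hits all larger sets with
`fx ≤ 2` in `S`, `S'` arises from `S` by emptying slots, the slots of `H` are empty in `S'` and
there is no trap at any `h ∈ H`, then `S'` is sparse. -/
theorem sparse_of_noTrap {n s : ℕ} {S S' : ℕ → ℕ} {H : Finset ℕ}
    (h : WF n S') (hS : ∀ k < 2 * n, S' k = S k ∨ S' k = 0)
    (hsmall : ∀ Z ⊆ range n, 2 ≤ Z.card → Z.card ≤ s → 3 ≤ fx n S Z)
    (hhit : ∀ Z ⊆ range n, s < Z.card → fx n S Z ≤ 2 → ∃ v ∈ H, v ∈ Z)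
    (hempty : ∀ k < 2 * n, own n k ∈ H → S' k = 0)
    (hH : ∀ v ∈ H, NoTrap n S' v) : Sparse (edges n S') := by
  rw [sparse_edges_iff h]
  intro Z hZ hc
  by_contra hcon
  have hmono : fx n S Z ≤ fx n S' Z := by
    unfold fx
    refine card_le_card ?_
    intro k hk
    obtain ⟨h1, h2, h3⟩ := mem_filter.1 hk
    refine mem_filter.2 ⟨h1, h2, ?_⟩
    rcases hS k (mem_range.1 h1) with h4 | h4
    · rw [h4]; exact h3
    · exact Or.inl h4
  have hbig : s < Z.card := by
    by_contra hle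
    have := hsmall Z hZ hc (by omega)
    omega
  obtain ⟨v, hvH, hvZ⟩ := hhit Z hZ hbig (by omega)
  have hvn : v < n := mem_range.1 (hZ hvZ)
  have hXne : (Z.erase v).Nonempty := by
    rw [← card_pos, card_erase_of_mem hvZ]
    omega
  obtain ⟨k, hk, h1, h2⟩ := hH v hvH (Z.erase v) ((erase_subset v Z).trans hZ) hXne
    (notMem_erase v Z)
  obtain ⟨h3, h4⟩ := mem_erase.1 h1
  have o1 := (own_eq_iff_c (k := v) hvn).2 (Or.inl rfl)
  have o2 := (own_eq_iff_c (k := v + n) hvn).2 (Or.inr rfl)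
  have hsub : ({v, v + n, k} : Finset ℕ) ⊆ (range (2 * n)).filter
      (fun k => own n k ∈ Z ∧ (S' k = 0 ∨ S' k - 1 ∉ Z)) := by
    intro x hx
    rw [mem_insert, mem_insert, mem_singleton] at hx
    rcases hx with rfl | rfl | rfl
    · refine mem_filter.2 ⟨mem_range.2 o1.1, by rw [o1.2]; exact hvZ, Or.inl ?_⟩
      exact hempty _ o1.1 (by rw [o1.2]; exact hvH)
    · refine mem_filter.2 ⟨mem_range.2 o2.1, by rw [o2.2]; exact hvZ, Or.inl ?_⟩
      exact hempty _ o2.1 (by rw [o2.2]; exact hvH)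
    · refine mem_filter.2 ⟨mem_range.2 hk, h4, ?_⟩
      rcases h2 with h5 | ⟨h5, h6⟩
      · exact Or.inl h5
      · right
        intro h7
        exact h5 (mem_erase.2 ⟨h6, h7⟩)
  have hk1 : k ≠ v := by
    rintro rfl
    exact h3 o1.2
  have hk2 : k ≠ v + n := by
    rintro rfl
    exact h3 o2.2
  have hcard : ({v, v + n, k} : Finset ℕ).card = 3 := by
    rw [card_insert_of_notMem, card_insert_of_notMem, card_singleton]
    · rw [mem_singleton]; exact hk2.symm
    · rw [mem_insert, mem_singleton]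
      push Not
      exact ⟨by omega, hk1.symm⟩
  have := card_le_card hsub
  rw [hcard] at this
  unfold fx at hcon
  omega

end Pool.Agent.H.MP_d01483_lc
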