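import Pool.Agent.H.MP_d01483_lc.Bfs
import Pool.Agent.H.MP_d01483_lc.Auction
import Pool.Agent.H.MP_d01483_lc.Count1

set_option linter.unusedSectionVars false
set_option linter.unusedVariables false
set_option linter.unusedSimpArgs false
set_option linter.constructorNameAsVariable false

namespace Pool.Agent.H.MP_d01483_lc

open Finset

/-! ### Weights on the search forest (pure part) -/

/-- Weights and marks after the vertices of `P` have been treated. -/
structure HW (n q : ℕ) (S PI W HM : ℕ → ℕ) (P : Finset ℕ) : Prop where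
  w : ∀ v < n, W v = 1 + ∑ c ∈ P.filter
    (fun c => PI c ≠ 0 ∧ S (PI c - 1) - 1 = v ∧ W c < q), W c
  h : ∀ v < n, HM v = if v ∈ P ∧ q ≤ W v then 1 else 0

theorem HW.root {n q : ℕ} {S PI W HM : ℕ → ℕ} {P : Finset ℕ} (h : HW n q S PI W HM P) {w : ℕ}
    (h0 : PI w = 0) (hq : W w < q) : HW n q S PI W HM (insert w P) := by
  refine ⟨?_, ?_⟩
  · intro v hv
    rw [filter_insert, if_neg (by tauto)]
    exact h.w v hv
  · intro v hv
    rw [h.h v hv]
    by_cases hvw : v = w
    · subst hvw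
      rw [if_neg (by omega), if_neg (by omega)]
    · simp [mem_insert, hvw]

theorem HW.mark {n q : ℕ} {S PI W HM : ℕ → ℕ} {P : Finset ℕ} (h : HW n q S PI W HM P) {w : ℕ}
    (hq : q ≤ W w) : HW n q S PI W (upd HM w 1) (insert w P) := by
  refine ⟨?_, ?_⟩
  · intro v hv
    rw [filter_insert, if_neg (by omega)]
    exact h.w v hv
  · intro v hv
    by_cases hvw : v = w
    · subst hvw
      rw [upd_same, if_pos ⟨mem_insert_self _ _, hq⟩]
    · rw [upd_ne _ _ hvw, h.h v hv]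
      simp [mem_insert, hvw]

theorem HW.add {n q : ℕ} {S PI W HM : ℕ → ℕ} {P : Finset ℕ} (h : HW n q S PI W HM P) {w : ℕ}
    (hw : w ∉ P) (h0 : PI w ≠ 0) (hq : W w < q) (hx : S (PI w - 1) - 1 ∉ insert w P) :
    HW n q S PI (upd W (S (PI w - 1) - 1) (W (S (PI w - 1) - 1) + W w)) HM (insert w P) := by
  obtain ⟨x, hxd⟩ : ∃ x, S (PI w - 1) - 1 = x := ⟨_, rfl⟩
  rw [hxd] at hx ⊢
  have hne : ∀ c ∈ insert w P, upd W x (W x + W w) c = W c := by
    intro c hc
    apply upd_ne
    rintro rfl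
    exact hx hc
  have hsum : ∀ v, ∑ c ∈ (insert w P).filter
      (fun c => PI c ≠ 0 ∧ S (PI c - 1) - 1 = v ∧ upd W x (W x + W w) c < q),
        upd W x (W x + W w) c =
      ∑ c ∈ (insert w P).filter (fun c => PI c ≠ 0 ∧ S (PI c - 1) - 1 = v ∧ W c < q), W c := by
    intro v
    refine sum_congr ?_ ?_
    · apply filter_congr
      intro c hc
      rw [hne c hc]
    · intro c hc
      exact hne c (mem_filter.1 hc).1
  refine ⟨?_, ?_⟩
  · intro v hv
    rw [hsum v, filter_insert]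
    by_cases hvx : v = x
    · subst hvx
      rw [if_pos ⟨h0, hxd, hq⟩, sum_insert (fun hc => hw (mem_filter.1 hc).1), upd_same]
      have := h.w v hv
      omega
    · rw [if_neg (by rw [hxd]; tauto), upd_ne _ _ hvx]
      exact h.w v hv
  · intro v hv
    rw [h.h v hv]
    by_cases hvP : v ∈ insert w P
    · rw [hne v hvP]
      by_cases hvw : v = w
      · subst hvw
        rw [if_neg (by omega), if_neg (by omega)]
      · simp [mem_insert, hvw]
    · rw [if_neg (fun hc => hvP (mem_insert_of_mem hc.1)), if_neg (fun hc => hvP hc.1)]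

/-! ### The program -/

/-- Increment `W[x]` `t` times. -/
def hitLoop : MCmd :=
  .whl (.neg (.eq (.reg .t) (.num 0)))
    (.seq (.put .W (.reg .x) (.inc (.get .W (.reg .x)))) (.set .t (.dec (.reg .t))))

/-- Add the weight of `w` to the weight of its parent. -/
def hitAdd : MCmd :=
  .seq (.set .x (.dec (.get .S (.dec (.get .PI (.reg .w)))))) <|
  .seq (.set .t (.get .W (.reg .w))) hitLoop

/-- Treat one vertex. -/
def hitBody : MCmd :=
  .seq (.set .z (.dec (.reg .z))) <|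
  .seq (.set .w (.get .QU (.reg .z))) <|
  .ite (.lt (.get .W (.reg .w)) (.reg .q))
    (.ite (.eq (.get .PI (.reg .w)) (.num 0)) .skip hitAdd)
    (.put .HM (.reg .w) (.num 1))

/-- All vertices in the order opposite to the search order. -/
def hitMain : MCmd :=
  .seq (.set .z (.reg .n)) (.whl (.lt (.num 0) (.reg .z)) hitBody)

/-- Initial weights and marks. -/
def hitInit : MCmd :=
  forC .y (.reg .n) (.seq (.put .W (.reg .y) (.num 1)) (.put .HM (.reg .y) (.num 0)))

/-- Empty the slot `k` of `y`. -/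
def clrK : MCmd :=
  .ite (.eq (.get .S (.reg .k)) (.num 0)) .skip
    (.seq (.put .DU (.reg .dl) (.reg .y)) <|
     .seq (.put .DV (.reg .dl) (.dec (.get .S (.reg .k)))) <|
     .seq (.set .dl (.inc (.reg .dl))) <|
     .put .S (.reg .k) (.num 0))

/-- Empty the slots of the marked vertices. -/
def hitClr : MCmd :=
  forC .y (.reg .n) <|
    .ite (.eq (.get .HM (.reg .y)) (.num 1))
      (.seq (.set .k (.reg .y)) <| .seq clrK <| .seq (.set .k (.get .TW (.reg .y))) clrK) .skip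

/-- Computes a hitting set `H` (indicator array `HM`) and empties the slots of `H`, pushing
their edges on the discard list. -/
def hitC : MCmd :=
  .seq (.set .xu (.reg .n)) <|
  .seq (.set .xv (.reg .n)) <|
  .seq bfs <|
  .seq hitInit <|
  .seq hitMain hitClr

theorem hitC_keeps : Keeps hitC = true ∧ Reg.ql ∉ hitC.wr ∧ Reg.L ∉ hitC.wr ∧ Reg.q ∉ hitC.wr ∧
    Reg.nc ∉ hitC.wr ∧ Reg.K ∉ hitC.wr ∧ Arr.QA ∉ hitC.wa ∧ Arr.QB ∉ hitC.wa ∧
    Arr.MK ∉ hitC.wa ∧ Arr.CI ∉ hitC.wa ∧ Arr.EXC ∉ hitC.wa ∧ Arr.inp ∉ hitC.wa := by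
  decide

theorem hitLoop_spec (σ : MSt) :
    Spec hitLoop σ (3 * σ.r .t + 1) (fun σ' =>
      σ'.m .W = upd (σ.m .W) (σ.r .x) (σ.m .W (σ.r .x) + σ.r .t)) := by
  unfold hitLoop
  refine (Spec.whl (fun σ1 => σ1.r .x = σ.r .x ∧ σ1.r .t ≤ σ.r .t ∧
      σ1.m .W = upd (σ.m .W) (σ.r .x) (σ.m .W (σ.r .x) + (σ.r .t - σ1.r .t)))
    (fun σ1 => σ1.r .t) 2 ?_ ⟨rfl, le_rfl, ?_⟩).mono (by omega) ?_
  · rintro σ1 ⟨h1, h2, h3⟩ hb
    simp only [Cnd.ev_neg, Cnd.ev_eq, Exp.ev_reg, Exp.ev_num] at hb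
    apply Spec.of_runs
    simp only [runs_seq, runs_put, runs_set, Exp.ev_reg, Exp.ev_num, Exp.ev_get, Exp.ev_inc,
      Exp.ev_dec, St.setM_r, St.setR_r, reduceCtorEq, if_false, if_true, h1]
    refine ⟨by omega, by omega, fun _ => ⟨⟨trivial, by omega, ?_⟩, by omega⟩⟩
    have e : (((σ1.setM .W (σ.r .x) (σ1.m .W (σ.r .x) + 1)).setR .t (σ1.r .t - 1))).m .W =
        upd (σ1.m .W) (σ.r .x) (σ1.m .W (σ.r .x) + 1) := by
      funext i; simp [upd]
    rw [e, h3, upd_same, upd_upd]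
    congr 1
    omega
  · rw [Nat.sub_self, Nat.add_zero, upd_self]
  · rintro σ1 ⟨⟨h1, h2, h3⟩, hb⟩
    simp only [Cnd.ev_neg, Cnd.ev_eq, Exp.ev_reg, Exp.ev_num, not_not] at hb
    rw [h3, hb, Nat.sub_zero]

/-- Invariant of the main loop. -/
structure HInv (n s q : ℕ) (S PI QU : ℕ → ℕ) (σ : MSt) : Prop where
  hq : σ.r .q = q
  hS : σ.m .S = S
  hPI : σ.m .PI = PI
  hQU : σ.m .QU = QU
  z : σ.r .z ≤ n
  hw : HW n q S PI (σ.m .W) (σ.m .HM) ((Ico (σ.r .z) n).image QU)

theorem hitBody_spec {n s q : ℕ} {S PI QU : ℕ → ℕ} {σ : MSt}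
    (hrng : ∀ i < n, QU i < n) (hinj : ∀ i < n, ∀ j < n, QU i = QU j → i = j)
    (hpar : ∀ j < n, PI (QU j) ≠ 0 → ∃ i < j, S (PI (QU j) - 1) - 1 = QU i)
    (h : HInv n s q S PI QU σ) (hz : 0 < σ.r .z) :
    Spec hitBody σ (3 * q + 8) (fun σ' => HInv n s q S PI QU σ' ∧ σ'.r .z < σ.r .z) := by
  obtain ⟨z, hzd⟩ : ∃ z, σ.r .z = z + 1 := ⟨σ.r .z - 1, by omega⟩
  have hzn : z < n := by have := h.z; omega
  have hins : (Ico z n).image QU = insert (QU z) ((Ico (z + 1) n).image QU) := by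
    have : Ico z n = insert z (Ico (z + 1) n) := by
      ext i; simp only [mem_Ico, mem_insert]; omega
    rw [this, image_insert]
  have hnot : QU z ∉ (Ico (z + 1) n).image QU := by
    intro hc
    obtain ⟨i, hi, he⟩ := mem_image.1 hc
    rw [mem_Ico] at hi
    have := hinj i (by omega) z hzn he
    omega
  have hw := h.hw
  rw [hzd] at hw
  have fin : ∀ σ' : MSt, σ'.r .q = σ.r .q → σ'.m .S = σ.m .S → σ'.m .PI = σ.m .PI →
      σ'.m .QU = σ.m .QU → σ'.r .z = z →
      HW n q S PI (σ'.m .W) (σ'.m .HM) (insert (QU z) ((Ico (z + 1) n).image QU)) →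
      HInv n s q S PI QU σ' ∧ σ'.r .z < z + 1 := by
    intro σ' f1 f2 f3 f4 f5 f6
    refine ⟨⟨f1.trans h.hq, f2.trans h.hS, f3.trans h.hPI, f4.trans h.hQU, by omega, ?_⟩, by omega⟩
    rw [f5, hins]
    exact f6
  apply Spec.of_runs
  simp only [hitBody, runs_seq, runs_set, runs_ite, runs_put, runs_skip, Exp.ev_reg, Exp.ev_get,
    Exp.ev_dec, Exp.ev_num, Cnd.ev_lt, Cnd.ev_eq, St.setR_r, St.setR_m, reduceCtorEq, if_false,
    if_true, hzd, Nat.add_sub_cancel, h.hQU, h.hPI, h.hq]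
  refine ⟨by omega, by omega, by omega, ?_, ?_⟩
  · intro hWq
    refine ⟨by omega, ?_, ?_⟩
    · intro hP0
      refine fin _ ?_ ?_ ?_ ?_ ?_ ?_
      · simp
      · simp
      · simp
      · simp
      · simp
      · simpa using hw.root hP0 hWq
    · intro hP0
      obtain ⟨i, hi, hpi⟩ := hpar z hzn hP0
      have hxn : QU i ∉ insert (QU z) ((Ico (z + 1) n).image QU) := by
        rw [← hins]
        intro hc
        obtain ⟨j, hj, he⟩ := mem_image.1 hc
        rw [mem_Ico] at hj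
        have := hinj j (by omega) i (by omega) he
        omega
      simp only [hitAdd, runs_seq, runs_set, Exp.ev_reg, Exp.ev_get,
        Exp.ev_dec, Exp.ev_num, St.setR_r, St.setR_m, reduceCtorEq, if_false,
        if_true, h.hPI, h.hS, hpi]
      refine ⟨by omega, by omega, ?_⟩
      refine Runs.of_spec (hitLoop_spec _).frame ?_ ?_
      · simp only [St.setR_r, if_true, St.setR_m]
        omega
      · rintro σ1 T1 ⟨g1, gf⟩ -
        refine fin _ ?_ ?_ ?_ ?_ ?_ ?_
        · rw [gf.r _ (by decide)]; simp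
        · rw [gf.m _ (by decide)]; simp
        · rw [gf.m _ (by decide)]; simp
        · rw [gf.m _ (by decide)]; simp
        · rw [gf.r _ (by decide)]; simp
        · rw [g1, gf.m .HM (by decide)]
          have := hw.add hnot hP0 hWq (by rw [hpi]; exact hxn)
          rw [hpi] at this
          simpa using this
  · intro hWq
    refine ⟨by omega, ?_⟩
    refine fin _ ?_ ?_ ?_ ?_ ?_ ?_
    · simp
    · funext i; simp
    · funext i; simp
    · funext i; simp
    · simp
    · have e1 : ((((σ.setR .z z).setR .w (QU z)).setM .HM (QU z) 1)).m .W = σ.m .W := by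
        funext i; simp
      have e2 : ((((σ.setR .z z).setR .w (QU z)).setM .HM (QU z) 1)).m .HM =
          upd (σ.m .HM) (QU z) 1 := by
        funext i; simp [upd]
      rw [e1, e2]
      exact hw.mark (by omega)

theorem hitMain_spec {n s q : ℕ} {S PI QU : ℕ → ℕ} {σ : MSt} (hn : σ.r .n = n)
    (hrng : ∀ i < n, QU i < n) (hinj : ∀ i < n, ∀ j < n, QU i = QU j → i = j)
    (hpar : ∀ j < n, PI (QU j) ≠ 0 → ∃ i < j, S (PI (QU j) - 1) - 1 = QU i)
    (hq : σ.r .q = q) (hS : σ.m .S = S) (hPI : σ.m .PI = PI) (hQU : σ.m .QU = QU)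
    (hw : HW n q S PI (σ.m .W) (σ.m .HM) ∅) :
    Spec hitMain σ ((3 * q + 9) * n + 2) (fun σ' =>
      HW n q S PI (σ'.m .W) (σ'.m .HM) ((range n).image QU)) := by
  apply Spec.of_runs
  simp only [hitMain, runs_seq, runs_set, Exp.ev_reg]
  refine ⟨by omega, ?_⟩
  refine Runs.of_spec (Spec.whl (HInv n s q S PI QU) (fun σ1 => σ1.r .z) (3 * q + 8) ?_ ?_) ?_ ?_
  · intro σ1 h1 hb
    simp only [Cnd.ev_lt, Exp.ev_reg, Exp.ev_num] at hb
    exact (hitBody_spec hrng hinj hpar h1 hb).mono le_rfl (fun _ h2 _ => h2)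
  · refine ⟨?_, ?_, ?_, ?_, ?_, ?_⟩
    · simpa using hq
    · simpa using hS
    · simpa using hPI
    · simpa using hQU
    · simp [hn]
    · simpa [hn] using hw
  · simp [hn]
  · rintro σ1 T1 ⟨h1, hb⟩ -
    simp only [Cnd.ev_lt, Exp.ev_reg, Exp.ev_num, not_lt, Nat.le_zero] at hb
    have := h1.hw
    rw [hb] at this
    rwa [range_eq_Ico]

theorem hitInit_spec {n q : ℕ} {σ : MSt} (S PI : ℕ → ℕ) (hn : σ.r .n = n) :
    Spec hitInit σ (4 * n + 2) (fun σ' => HW n q S PI (σ'.m .W) (σ'.m .HM) ∅) := by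
  unfold hitInit
  refine (forC_spec n 2 (fun j σ1 => σ1.r .n = n ∧ (∀ v < j, σ1.m .W v = 1) ∧
    ∀ v < j, σ1.m .HM v = 0) ?_ ?_ ?_).mono (by omega) ?_
  · rintro j σ1 ⟨h1, -⟩
    simpa using h1
  · rintro j σ1 hj ⟨h1, h2, h3⟩ hy
    apply Spec.of_runs
    simp only [runs_seq, runs_put, Exp.ev_reg, Exp.ev_num, St.setM_r, hy]
    refine ⟨by omega, by omega, fun _ => ⟨trivial, ?_, ?_, ?_⟩⟩
    · simpa using h1
    · intro v hv
      by_cases hvj : v = j
      · simp [hvj]
      · simpa [hvj] using h2 v (by omega)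
    · intro v hv
      by_cases hvj : v = j
      · simp [hvj]
      · simpa [hvj] using h3 v (by omega)
  · exact ⟨by simpa using hn, fun v hv => by omega, fun v hv => by omega⟩
  · rintro σ1 ⟨⟨h1, h2, h3⟩, -⟩
    refine ⟨?_, ?_⟩
    · intro v hv
      rw [h2 v hv]
      simp
    · intro v hv
      rw [h3 v hv]
      simp

theorem clrK_spec {n : ℕ} {σ : MSt} (hwf : WF n (σ.m .S)) (hk : σ.r .k < 2 * n)
    (hy : own n (σ.r .k) = σ.r .y) :
    Spec clrK σ 5 (fun σ' => σ'.m .S = upd (σ.m .S) (σ.r .k) 0 ∧ WF n (σ'.m .S) ∧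
      edges n (σ'.m .S) ∪ Dl σ' = edges n (σ.m .S) ∪ Dl σ ∧
      σ'.r .dl + (edges n (σ'.m .S)).card = σ.r .dl + (edges n (σ.m .S)).card) := by
  apply Spec.of_runs
  simp only [clrK, runs_seq, runs_set, runs_ite, runs_put, runs_skip, Exp.ev_reg, Exp.ev_get,
    Exp.ev_dec, Exp.ev_inc, Exp.ev_num, Cnd.ev_eq, St.setR_r, St.setM_r, reduceCtorEq, if_false,
    if_true]
  refine ⟨by omega, ?_, ?_⟩
  · intro h0
    refine ⟨?_, hwf, ?_⟩
    · rw [← h0, upd_self]
    · simp
  · intro h0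
    obtain ⟨w1, w2⟩ := hwf.clear hk h0
    have hmem := edge_mem hk h0
    have fin : ∀ σ' : MSt, σ'.m .S = upd (σ.m .S) (σ.r .k) 0 → σ'.r .dl = σ.r .dl + 1 →
        σ'.m .DU = upd (σ.m .DU) (σ.r .dl) (σ.r .y) →
        σ'.m .DV = upd (σ.m .DV) (σ.r .dl) (σ.m .S (σ.r .k) - 1) →
        σ'.m .S = upd (σ.m .S) (σ.r .k) 0 ∧ WF n (σ'.m .S) ∧
        edges n (σ'.m .S) ∪ Dl σ' = edges n (σ.m .S) ∪ Dl σ ∧
        σ'.r .dl + (edges n (σ'.m .S)).card = σ.r .dl + (edges n (σ.m .S)).card := by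
      intro σ' f1 f2 f3 f4
      have eD : Dl σ' = insert (edge n (σ.m .S) (σ.r .k)) (Dl σ) := by
        unfold Dl
        rw [f3, f4, f2, listE_push]
        unfold edge
        rw [hy]
      refine ⟨f1, by rw [f1]; exact w1, ?_, ?_⟩
      · rw [f1, w2, eD, union_insert, ← insert_union, insert_erase hmem]
      · rw [f1, w2, card_erase_of_mem hmem, f2]
        have := card_pos.2 ⟨_, hmem⟩
        omega
    refine ⟨by omega, by omega, by omega, by omega, fin _ ?_ ?_ ?_ ?_⟩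
    · funext i; simp [upd]
    · simp
    · funext i; simp [upd]
    · funext i; simp [upd]

/-- Invariant of the emptying loop. -/
structure CInv (n s : ℕ) (σ0 : MSt) (H : Finset ℕ) (j : ℕ) (σ : MSt) : Prop where
  cst : Cst n s σ
  hm : σ.m .HM = σ0.m .HM
  hS : ∀ k < 2 * n, σ.m .S k = if own n k ∈ H ∧ own n k < j then 0 else σ0.m .S k
  wf : WF n (σ.m .S)
  un : edges n (σ.m .S) ∪ Dl σ = edges n (σ0.m .S) ∪ Dl σ0
  dl : σ.r .dl + (edges n (σ.m .S)).card = σ0.r .dl + (edges n (σ0.m .S)).card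

theorem hitClr_spec {n s : ℕ} {σ : MSt} {H : Finset ℕ} (hc : Cst n s σ) (hwf : WF n (σ.m .S))
    (hH : ∀ v < n, σ.m .HM v = if v ∈ H then 1 else 0) :
    Spec hitClr σ (15 * n + 2) (fun σ' => CInv n s σ H n σ') := by
  unfold hitClr
  refine (forC_spec n 13 (CInv n s σ H) ?_ ?_ ?_).mono (by omega) (fun _ h => h.1)
  · rintro j σ1 h1
    simpa using h1.cst.hn
  · rintro j σ1 hj h1 hy
    have htw := h1.cst.tw j hj
    have o1 := own_lt n j hj
    have o2 := own_add n j hj
    have hHM : σ1.m .HM j = if j ∈ H then 1 else 0 := by rw [h1.hm]; exact hH j hj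
    apply Spec.of_runs
    rw [runs_ite]
    refine ⟨by omega, ?_, ?_⟩
    · intro hb
      simp only [Cnd.ev_eq, Exp.ev_get, Exp.ev_reg, Exp.ev_num, hy, hHM] at hb
      have hjH : j ∈ H := by
        by_contra hcon
        rw [if_neg hcon] at hb
        omega
      simp only [runs_seq, runs_set, Exp.ev_reg, hy]
      refine ⟨by omega, ?_⟩
      refine Runs.of_spec (clrK_spec (n := n) ?_ ?_ ?_).frame (by omega) ?_
      · simpa using h1.wf
      · simp only [St.setR_r, if_true]; omega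
      · simp only [St.setR_r, reduceCtorEq, if_false, if_true, hy, o1]
      rintro σ2 T2 ⟨⟨a1, a2, a3, a4⟩, hf2⟩ hT2
      have hy2 : σ2.r .y = j := by rw [hf2.r _ (by decide)]; simpa using hy
      have htw2 : σ2.m .TW = σ1.m .TW := hf2.m _ (by decide)
      simp only [Exp.ev_get, Exp.ev_reg, hy2, htw2, htw]
      refine ⟨by omega, ?_⟩
      refine Runs.of_spec (clrK_spec (n := n) ?_ ?_ ?_).frame (by omega) ?_
      · simpa using a2
      · simp only [St.setR_r, if_true]; omega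
      · simp only [St.setR_r, reduceCtorEq, if_false, if_true, hy2, o2]
      rintro σ3 T3 ⟨⟨b1, b2, b3, b4⟩, hf3⟩ hT3 -
      have hc2 : Cst n s σ2 := by
        refine Cst.of_frame ?_ hf2 (by decide)
        exact ⟨by simpa using h1.cst.hn, by simpa using h1.cst.hnn, by simpa using h1.cst.hs,
          h1.cst.tw, h1.cst.ow⟩
      have hc3 : Cst n s σ3 := by
        refine Cst.of_frame ?_ hf3 (by decide)
        exact ⟨by simpa using hc2.hn, by simpa using hc2.hnn, by simpa using hc2.hs,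
          hc2.tw, hc2.ow⟩
      refine ⟨by rw [hf3.r _ (by decide)]; simpa using hy2, ⟨?_, ?_, ?_, ?_, ?_⟩, ?_, ?_, ?_, ?_, ?_⟩
      · simpa using hc3.hn
      · simpa using hc3.hnn
      · simpa using hc3.hs
      · exact hc3.tw
      · exact hc3.ow
      · rw [St.setR_m, hf3.m _ (by decide), St.setR_m, hf2.m _ (by decide), St.setR_m, h1.hm]
      · intro k hk
        simp only [St.setR_m, St.setR_r, if_true, reduceCtorEq, if_false] at b1 a1 ⊢
        rw [b1, a1]
        by_cases hkj : own n k = j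
        · rw [if_pos ⟨by rw [hkj]; exact hjH, by omega⟩]
          rcases (own_eq_iff hk hj).1 hkj with rfl | rfl
          · rw [upd_ne _ _ (by omega), upd_same]
          · rw [upd_same]
        · rw [upd_ne _ _ (by rintro rfl; exact hkj o2), upd_ne _ _ (by rintro rfl; exact hkj o1),
            h1.hS k hk]
          have : (own n k ∈ H ∧ own n k < j) ↔ (own n k ∈ H ∧ own n k < j + 1) := by
            constructor
            · rintro ⟨e1, e2⟩; exact ⟨e1, by omega⟩
            · rintro ⟨e1, e2⟩; exact ⟨e1, by omega⟩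
          simp only [this]
      · exact b2
      · have e1 : Dl (σ3.setR .y (j + 1)) = Dl σ3 := by unfold Dl; simp
        have e2 : Dl (σ2.setR .k (j + n)) = Dl σ2 := by unfold Dl; simp
        have e3 : Dl (σ1.setR .k j) = Dl σ1 := by unfold Dl; simp
        rw [e1, St.setR_m, b3, e2, St.setR_m, a3, e3, St.setR_m]
        exact h1.un
      · simp only [St.setR_m, St.setR_r, if_true, reduceCtorEq, if_false] at b4 a4 ⊢
        rw [b4, a4]
        exact h1.dl
    · intro hb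
      simp only [Cnd.ev_eq, Exp.ev_get, Exp.ev_reg, Exp.ev_num, hy, hHM] at hb
      have hjH : j ∉ H := by
        intro hcon
        rw [if_pos hcon] at hb
        exact hb rfl
      rw [runs_skip]
      intro _
      refine ⟨hy, ⟨?_, ?_, ?_, ?_, ?_⟩, ?_, ?_, ?_, ?_, ?_⟩
      · simpa using h1.cst.hn
      · simpa using h1.cst.hnn
      · simpa using h1.cst.hs
      · exact h1.cst.tw
      · exact h1.cst.ow
      · exact h1.hm
      · intro k hk
        rw [St.setR_m, h1.hS k hk]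
        have : (own n k ∈ H ∧ own n k < j) ↔ (own n k ∈ H ∧ own n k < j + 1) := by
          constructor
          · rintro ⟨e1, e2⟩; exact ⟨e1, by omega⟩
          · rintro ⟨e1, e2⟩
            refine ⟨e1, ?_⟩
            by_contra hcon
            have : own n k = j := by omega
            rw [this] at e1
            exact hjH e1
        simp only [this]
      · exact h1.wf
      · have e1 : Dl (σ1.setR .y (j + 1)) = Dl σ1 := by unfold Dl; simp
        rw [e1]
        exact h1.un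
      · simp only [St.setR_m, St.setR_r, if_true, reduceCtorEq, if_false]
        exact h1.dl
  · refine ⟨⟨?_, ?_, ?_, ?_, ?_⟩, ?_, ?_, ?_, ?_, ?_⟩
    · simpa using hc.hn
    · simpa using hc.hnn
    · simpa using hc.hs
    · exact hc.tw
    · exact hc.ow
    · rfl
    · intro k hk
      rw [if_neg (by omega)]
      rfl
    · exact hwf
    · have e1 : Dl (σ.setR .y 0) = Dl σ := by unfold Dl; simp
      rw [e1]
      rfl
    · simp

/-- Result of `hitC`. -/
structure HitOK (n s : ℕ) (σ : MSt) (H : Finset ℕ) (σ' : MSt) : Prop where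
  hsub : H ⊆ range n
  hm : ∀ v < n, σ'.m .HM v = if v ∈ H then 1 else 0
  hit : ∀ Z ⊆ range n, s < Z.card → fx n (σ.m .S) Z ≤ 2 → ∃ v ∈ H, v ∈ Z
  card : (s / 2 + 1) * H.card ≤ n
  hS : ∀ k < 2 * n, σ'.m .S k = if own n k ∈ H then 0 else σ.m .S k
  wf : WF n (σ'.m .S)
  un : edges n (σ'.m .S) ∪ Dl σ' = edges n (σ.m .S) ∪ Dl σ
  dl : σ'.r .dl + (edges n (σ'.m .S)).card = σ.r .dl + (edges n (σ.m .S)).card

/-- Without a trap the search reaches every vertex. -/
theorem bfs_all {n s : ℕ} {σ0 : MSt} {M : Finset ℕ} {σ : MSt} (h : BfsOK n s σ0 M σ)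
    (hxu : σ0.r .xu = n) (hxv : σ0.r .xv = n) (hwf : WF n (σ0.m .S))
    (hN : NoTrap n (σ0.m .S) n) : M = range n := by
  have hb := h.out.bi
  refine Subset.antisymm hb.sub ?_
  by_contra hcon
  obtain ⟨x, hx1, hx2⟩ := not_subset.1 hcon
  obtain ⟨k, hk, h1, h2⟩ := hN (range n \ M) sdiff_subset ⟨x, mem_sdiff.2 ⟨hx1, hx2⟩⟩ (by simp)
  obtain ⟨h3, h4⟩ := mem_sdiff.1 h1
  have h3' := mem_range.1 h3
  by_cases h0 : σ0.m .S k = 0
  · apply h4
    apply h.rt _ h3'
    rw [hxu, hxv]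
    refine ⟨?_, by omega, by omega⟩
    rcases (own_eq_iff hk h3').1 rfl with h5 | h5
    · left; rw [← h5]; exact h0
    · right; rw [← h5]; exact h0
  · have h6 := hwf.head_lt hk h0
    rcases h2 with h2 | ⟨h7, h8⟩
    · exact h0 h2
    have h9 : σ0.m .S k - 1 ∈ M := by
      by_contra h10
      exact h7 (mem_sdiff.2 ⟨mem_range.2 h6, h10⟩)
    -- the head is somewhere in the queue
    have himg : (range M.card).image (σ.m .QU) = M := by
      apply eq_of_subset_of_card_le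
      · intro y hy
        obtain ⟨i, hi, rfl⟩ := mem_image.1 hy
        exact hb.rng i (mem_range.1 hi)
      · rw [card_image_of_injOn, card_range]
        intro i hi j hj he
        exact hb.inj i (by simpa using hi) j (by simpa using hj) he
    rw [← himg] at h9
    obtain ⟨i, hi, he⟩ := mem_image.1 h9
    apply h4
    refine hb.clo i ?_ k hk (by omega)
    rw [h.qh]
    exact mem_range.1 hi

theorem hitC_spec : ∃ C : ℕ, ∀ {n s : ℕ} {σ : MSt}, Cst n s σ → σ.r .q = s / 2 + 1 →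
    WF n (σ.m .S) → NoTrap n (σ.m .S) n →
    Spec hitC σ (C * (n + 1) * (s + 1)) (fun σ' => ∃ H, HitOK n s σ H σ') := by
  refine ⟨100, ?_⟩
  intro n s σ hc hq hwf hN
  obtain ⟨q, hqd⟩ : ∃ q, q = s / 2 + 1 := ⟨_, rfl⟩
  have hqs : q ≤ s + 1 := by omega
  have hqn : q * n ≤ (s + 1) * n := Nat.mul_le_mul_right _ hqs
  have hcost : 100 * (n + 1) * (s + 1) = 100 * ((s + 1) * n) + 100 * s + 100 := by ring
  have hns : n ≤ (s + 1) * n := Nat.le_mul_of_pos_left _ (by omega)
  have hexp : (3 * q + 9) * n = 3 * (q * n) + 9 * n := by ring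
  apply Spec.of_runs
  rw [hcost]
  simp only [hitC, runs_seq, runs_set, Exp.ev_reg, St.setR_r, reduceCtorEq, if_false]
  refine ⟨by omega, by omega, ?_⟩
  set σa := ((σ.setR .xu (σ.r .n)).setR .xv (σ.r .n)) with hσa
  have ham : σa.m = σ.m := rfl
  have hca : Cst n s σa := ⟨by simpa [hσa] using hc.hn, by simpa [hσa] using hc.hnn,
    by simpa [hσa] using hc.hs, hc.tw, hc.ow⟩
  have hxu : σa.r .xu = n := by simpa [hσa] using hc.hn
  have hxv : σa.r .xv = n := by simpa [hσa] using hc.hn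
  have hqa : σa.r .q = q := by rw [hqd]; simpa [hσa] using hq
  have hdla : σa.r .dl = σ.r .dl := by simp [hσa]
  refine Runs.of_spec (bfs_spec hca (by rw [ham]; exact hwf.le)).frame (by omega) ?_
  rintro σ1 T1 ⟨⟨M, h1⟩, hf1⟩ hT1
  have hM : M = range n := bfs_all h1 hxu hxv (by rw [ham]; exact hwf) (by rw [ham]; exact hN)
  subst hM
  have hb := h1.out.bi
  rw [ham, hxu, hxv] at hb
  have hcn : (range n).card = n := card_range n
  have hc1 : Cst n s σ1 := h1.out.cst
  have hS1 : σ1.m .S = σ.m .S := by rw [h1.out.hS, ham]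
  refine Runs.of_spec (hitInit_spec (q := q) (σ.m .S) (σ1.m .PI) hc1.hn).frame (by omega) ?_
  rintro σ2 T2 ⟨h2, hf2⟩ hT2
  have hrng : ∀ i < n, σ1.m .QU i < n := fun i hi => mem_range.1 (hb.rng i (by rw [hcn]; exact hi))
  have hinj : ∀ i < n, ∀ j < n, σ1.m .QU i = σ1.m .QU j → i = j := by
    intro i hi j hj
    exact hb.inj i (by rw [hcn]; exact hi) j (by rw [hcn]; exact hj)
  have hpi : ∀ j < n, (σ1.m .PI (σ1.m .QU j) = 0 ∧ Rt n (σ.m .S) n n (σ1.m .QU j)) ∨
      ∃ i < j, ∃ k < 2 * n, σ1.m .PI (σ1.m .QU j) = k + 1 ∧ own n k = σ1.m .QU j ∧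
        σ.m .S k = σ1.m .QU i + 1 := by
    intro j hj
    exact hb.pi j (by rw [hcn]; exact hj)
  have hc2 : Cst n s σ2 := hc1.of_frame hf2 (by decide)
  refine Runs.of_spec (hitMain_spec (n := n) (s := s) (q := q) (S := σ.m .S) (PI := σ1.m .PI)
    (QU := σ1.m .QU) hc2.hn hrng hinj ?_ ?_ ?_ ?_ ?_ h2).frame ?_ ?_
  · intro j hj h0
    rcases hpi j hj with ⟨e1, -⟩ | ⟨i, hi, k, hk, e1, e2, e3⟩
    · exact absurd e1 h0
    · refine ⟨i, hi, ?_⟩
      rw [e1, Nat.add_sub_cancel, e3, Nat.add_sub_cancel]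
  · rw [hf2.r _ (by decide), hf1.r _ (by decide), hqa]
  · rw [hf2.m _ (by decide), hS1]
  · rw [hf2.m _ (by decide)]
  · rw [hf2.m _ (by decide)]
  · omega
  rintro σ3 T3 ⟨h3, hf3⟩ hT3
  have hc3 : Cst n s σ3 := hc2.of_frame hf3 (by decide)
  have hS3 : σ3.m .S = σ.m .S := by rw [hf3.m _ (by decide), hf2.m _ (by decide), hS1]
  have himg : (range n).image (σ1.m .QU) = range n := by
    apply eq_of_subset_of_card_le
    · intro y hy
      obtain ⟨i, hi, rfl⟩ := mem_image.1 hy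
      exact mem_range.2 (hrng i (mem_range.1 hi))
    · rw [card_image_of_injOn]
      intro i hi j hj he
      exact hinj i (by simpa using hi) j (by simpa using hj) he
  rw [himg] at h3
  -- every vertex is in the queue
  have hpos : ∀ v < n, ∃ j < n, σ1.m .QU j = v := by
    intro v hv
    have : v ∈ (range n).image (σ1.m .QU) := by rw [himg]; exact mem_range.2 hv
    obtain ⟨j, hj, he⟩ := mem_image.1 this
    exact ⟨j, mem_range.1 hj, he⟩
  set H := (range n).filter (fun v => q ≤ σ3.m .W v) with hHd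
  have hHm : ∀ v, v ∈ H ↔ v < n ∧ q ≤ σ3.m .W v := by
    intro v
    rw [hHd, mem_filter, mem_range]
  have hHM : ∀ v < n, σ3.m .HM v = if v ∈ H then 1 else 0 := by
    intro v hv
    rw [h3.h v hv]
    have : (v ∈ range n ∧ q ≤ σ3.m .W v) ↔ v ∈ H := by rw [hHm, mem_range]
    simp only [this]
  have hW : ∀ v < n, σ3.m .W v = 1 + ∑ c ∈ (range n).filter
      (fun c => σ1.m .PI c ≠ 0 ∧ σ.m .S (σ1.m .PI c - 1) - 1 = v ∧ c ∉ H), σ3.m .W c := by
    intro v hv
    rw [h3.w v hv]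
    congr 1
    refine sum_congr ?_ (fun _ _ => rfl)
    apply filter_congr
    intro c hc'
    have hcn' := mem_range.1 hc'
    have : c ∉ H ↔ σ3.m .W c < q := by
      rw [hHm]
      constructor
      · intro h5
        by_contra h6
        exact h5 ⟨hcn', by omega⟩
      · intro h5 h6
        omega
    rw [this]
  have hroot : ∀ v < n, σ1.m .PI v = 0 → ∃ k < 2 * n, own n k = v ∧ σ.m .S k = 0 := by
    intro v hv h0
    obtain ⟨j, hj, rfl⟩ := hpos v hv
    rcases hpi j hj with ⟨-, e1, -⟩ | ⟨i, hi, k, hk, e1, e2, e3⟩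
    · rcases e1 with e1 | e1
      · exact ⟨_, by omega, own_lt n _ hv, e1⟩
      · exact ⟨_, by omega, own_add n _ hv, e1⟩
    · omega
  have hpar : ∀ v < n, σ1.m .PI v ≠ 0 → σ1.m .PI v - 1 < 2 * n ∧ own n (σ1.m .PI v - 1) = v ∧
      σ.m .S (σ1.m .PI v - 1) ≠ 0 := by
    intro v hv h0
    obtain ⟨j, hj, rfl⟩ := hpos v hv
    rcases hpi j hj with ⟨e1, -⟩ | ⟨i, hi, k, hk, e1, e2, e3⟩
    · exact absurd e1 h0
    · rw [e1, Nat.add_sub_cancel]
      exact ⟨hk, e2, by omega⟩
  refine Runs.of_spec (hitClr_spec (H := H) hc3 (by rw [hS3]; exact hwf) hHM).frame (by omega) ?_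
  rintro σ4 T4 ⟨h4, hf4⟩ hT4
  refine ⟨H, filter_subset _ _, ?_, ?_, ?_, ?_, h4.wf, ?_, ?_⟩
  · rw [h4.hm]
    exact hHM
  · intro Z hZ hs hfx
    exact hitting (q := q) hroot hpar hHm hW (by omega) hZ hs hfx
  · rw [← hqd]
    exact hitting_card hwf.le hpar hHm hW
  · intro k hk
    rw [h4.hS k hk, hS3]
    have : (own n k ∈ H ∧ own n k < n) ↔ own n k ∈ H :=
      ⟨fun h => h.1, fun h => ⟨h, own_range hk⟩⟩
    simp only [this]
  · rw [h4.un, hS3]
    congr 1
    unfold Dl
    rw [hf3.m _ (by decide), hf3.m _ (by decide), hf3.r _ (by decide), hf2.m _ (by decide),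
      hf2.m _ (by decide), hf2.r _ (by decide), hf1.m _ (by decide), hf1.m _ (by decide),
      hf1.r _ (by decide), ham, hdla]
  · rw [h4.dl, hS3, hf3.r _ (by decide), hf2.r _ (by decide), hf1.r _ (by decide), hdla]

end Pool.Agent.H.MP_d01483_lc
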