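import Pool.Agent.H.MP_d01483_lc.Clean
import Pool.Agent.H.MP_d01483_lc.Hit

set_option linter.unusedSectionVars false
set_option linter.unusedVariables false
set_option linter.unusedSimpArgs false
set_option linter.constructorNameAsVariable false

namespace Pool.Agent.H.MP_d01483_lc

open Finset

/-- Body of the loop over the hitting set. -/
def p2Body : MCmd :=
  .ite (.eq (.get .HM (.reg .v)) (.num 1)) (.seq (.set .xu (.reg .v)) clean) .skip

/-- Second phase: make the stored edge set sparse. -/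
def phase2 : MCmd :=
  .seq (.set .xu (.reg .n)) <| .seq (.set .xv (.reg .n)) <| .seq clean <| .seq hitC <|
  .seq (.set .xv (.reg .n)) <| forC .v (.reg .n) p2Body

/-- Invariant of the loop over the hitting set. -/
structure P2I (n s : ℕ) (H : Finset ℕ) (σ0 σ : MSt) : Prop where
  cst : Cst n s σ
  wf : WF n (σ.m .S)
  sub : ∀ k < 2 * n, σ.m .S k = σ0.m .S k ∨ σ.m .S k = 0
  un : edges n (σ.m .S) ∪ Dl σ = edges n (σ0.m .S) ∪ Dl σ0
  dl : σ.r .dl + (edges n (σ.m .S)).card = σ0.r .dl + (edges n (σ0.m .S)).card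
  small : ∀ Z ⊆ range n, 2 ≤ Z.card → Z.card ≤ s → 3 ≤ fx n (σ.m .S) Z
  hH : ∀ v ∈ H, v < n ∧ σ.m .S v = 0 ∧ σ.m .S (v + n) = 0
  hm : ∀ v < n, σ.m .HM v = if v ∈ H then 1 else 0
  xv : σ.r .xv = n
  vle : σ.r .v ≤ n
  nt : ∀ v ∈ H, v < σ.r .v → NoTrap n (σ.m .S) v
  dlA : σ.r .dl + Apot n s (σ.m .S) H ≤ σ0.r .dl + Apot n s (σ0.m .S) H

/-- Potential of the loop over the hitting set. -/
noncomputable def P2Phi (n s : ℕ) (H : Finset ℕ) (σ : MSt) : ℕ :=
  5 * (n - σ.r .v) + (70 * n + 25) * Apot n s (σ.m .S) H +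
    (70 * n + 27) * (H.filter (fun v => σ.r .v ≤ v)).card

theorem filter_step {H : Finset ℕ} {v : ℕ} :
    (H.filter (fun x => v ≤ x)).card =
      (H.filter (fun x => v + 1 ≤ x)).card + (if v ∈ H then 1 else 0) := by
  have h1 : H.filter (fun x => v ≤ x) =
      H.filter (fun x => v + 1 ≤ x) ∪ H.filter (fun x => x = v) := by
    ext x
    simp only [mem_filter, mem_union]
    constructor
    · rintro ⟨h1, h2⟩
      by_cases h3 : x = v
      · exact Or.inr ⟨h1, h3⟩
      · exact Or.inl ⟨h1, by omega⟩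
    · rintro (⟨h1, h2⟩ | ⟨h1, h2⟩)
      · exact ⟨h1, by omega⟩
      · exact ⟨h1, by omega⟩
  rw [h1, card_union_of_disjoint]
  · congr 1
    by_cases hv : v ∈ H
    · rw [if_pos hv]
      have : H.filter (fun x => x = v) = {v} := by
        ext x
        simp only [mem_filter, mem_singleton]
        constructor
        · exact fun h => h.2
        · rintro rfl; exact ⟨hv, rfl⟩
      rw [this, card_singleton]
    · rw [if_neg hv, card_eq_zero, filter_eq_empty_iff]
      intro x hx he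
      exact hv (he ▸ hx)
  · rw [disjoint_left]
    intro x h2 h3
    have h4 := (mem_filter.1 h2).2
    have h5 := (mem_filter.1 h3).2
    omega

theorem p2Body_spec {n s : ℕ} {H : Finset ℕ} {σ0 σ : MSt} (hs : 1 ≤ s)
    (hI : P2I n s H σ0 σ) (hv : σ.r .v < n) :
    SpecT (.seq p2Body (.set .v (.inc (.reg .v)))) σ (fun σ' t =>
      P2I n s H σ0 σ' ∧ t + 1 + P2Phi n s H σ' ≤ P2Phi n s H σ) := by
  obtain ⟨v, hvd⟩ : ∃ v, σ.r .v = v := ⟨_, rfl⟩
  rw [hvd] at hv
  have hm := hI.hm v hv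
  by_cases hvH : v ∈ H
  · rw [if_pos hvH] at hm
    have hc : CleanI n s H v (σ.setR .xu v) (σ.setR .xu v) := by
      refine ⟨⟨?_, ?_, ?_, ?_, ?_⟩, ?_, ?_, rfl, rfl, ?_, ?_, Or.inl hvH, ?_, ?_⟩
      · simpa using hI.cst.hn
      · simpa using hI.cst.hnn
      · simpa using hI.cst.hs
      · simpa using hI.cst.tw
      · simpa using hI.cst.ow
      · simpa using hI.wf
      · intro k hk; exact Or.inl rfl
      · simpa using hI.small
      · simpa using hI.hH
      · simp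
      · simpa using hI.xv
    refine SpecT.of_runs (T := (70 * n + 25) * Apot n s (σ.m .S) H + (70 * n + 27) + 3) ?_
    simp only [p2Body, runs_seq, runs_ite, runs_set, runs_skip, Cnd.ev_eq, Exp.ev_get, Exp.ev_reg,
      Exp.ev_num, Exp.ev_inc, hvd, hm]
    refine ⟨by omega, fun _ => ⟨by omega, ?_⟩, fun h => absurd trivial h⟩
    refine Runs.of_specT (clean_spec hs hc).frame ?_
    rintro σ1 t1 ⟨⟨h1, h2, h2', h3⟩, hf⟩
    have e0 : (σ.setR .xu v).m .S = σ.m .S := by simp
    have e00 : (σ.setR .xu v).r .dl = σ.r .dl := by simp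
    rw [e0] at h3
    rw [e0, e00] at h2'
    refine ⟨by omega, by omega, fun t ht => ?_⟩
    have hv1 : σ1.r .v = v := by rw [hf.r _ (by decide)]; simp [hvd]
    have hHM1 : σ1.m .HM = σ.m .HM := by rw [hf.m _ (by decide)]; simp
    have hsub1 : ∀ k < 2 * n, σ1.m .S k = σ.m .S k ∨ σ1.m .S k = 0 := by simpa using h1.sub
    have hun1 : edges n (σ1.m .S) ∪ Dl σ1 = edges n (σ.m .S) ∪ Dl σ := by
      have := h1.un
      simpa [Dl] using this
    have hdl1 : σ1.r .dl + (edges n (σ1.m .S)).card = σ.r .dl + (edges n (σ.m .S)).card := by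
      simpa using h1.dl
    refine ⟨⟨⟨?_, ?_, ?_, ?_, ?_⟩, ?_, ?_, ?_, ?_, ?_, ?_, ?_, ?_, ?_, ?_, ?_⟩, ?_⟩
    · simpa using h1.cst.hn
    · simpa using h1.cst.hnn
    · simpa using h1.cst.hs
    · simpa using h1.cst.tw
    · simpa using h1.cst.ow
    · simpa using h1.wf
    · intro k hk
      simp only [St.setR_m]
      rcases hsub1 k hk with h4 | h4
      · rw [h4]; exact hI.sub k hk
      · exact Or.inr h4
    · have : Dl (σ1.setR .v (σ1.r .v + 1)) = Dl σ1 := by simp [Dl]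
      simp only [St.setR_m]
      rw [this, hun1, hI.un]
    · simp only [St.setR_m, St.setR_r, reduceCtorEq, if_false]
      rw [hdl1, hI.dl]
    · simpa using h1.small
    · simpa using h1.hH
    · simp only [St.setR_m, hHM1]; exact hI.hm
    · simpa using h1.xv
    · simp only [St.setR_r, if_true, hv1]; omega
    · intro x hx hxv
      simp only [St.setR_r, if_true, hv1] at hxv
      simp only [St.setR_m]
      by_cases e : x = v
      · rw [e]; exact h2
      · have h5 := hI.nt x hx (by rw [hvd]; omega)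
        exact h5.mono hsub1
    · simpa using h2'.trans hI.dlA
    · unfold P2Phi
      simp only [St.setR_r, if_true, hv1, hvd, St.setR_m]
      have h6 := filter_step (H := H) (v := v)
      rw [if_pos hvH] at h6
      rw [h6]
      have e5 : (70 * n + 27) * ((H.filter (fun x => v + 1 ≤ x)).card + 1) =
        (70 * n + 27) * (H.filter (fun x => v + 1 ≤ x)).card + (70 * n + 27) := by ring
      rw [e5]
      omega
  · rw [if_neg hvH] at hm
    refine SpecT.of_runs (T := 2) ?_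
    simp only [p2Body, runs_seq, runs_ite, runs_set, runs_skip, Cnd.ev_eq, Exp.ev_get, Exp.ev_reg,
      Exp.ev_num, Exp.ev_inc, hvd, hm]
    refine ⟨by omega, fun h => absurd h (by omega), fun _ => ⟨by omega, fun t ht => ?_⟩⟩
    refine ⟨⟨⟨?_, ?_, ?_, ?_, ?_⟩, ?_, ?_, ?_, ?_, ?_, ?_, ?_, ?_, ?_, ?_, ?_⟩, ?_⟩
    · simpa using hI.cst.hn
    · simpa using hI.cst.hnn
    · simpa using hI.cst.hs
    · simpa using hI.cst.tw
    · simpa using hI.cst.ow
    · simpa using hI.wf
    · simpa using hI.sub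
    · simpa [Dl] using hI.un
    · simpa using hI.dl
    · simpa using hI.small
    · simpa using hI.hH
    · simpa using hI.hm
    · simpa using hI.xv
    · simp only [St.setR_r, if_true]; omega
    · intro x hx hxv
      simp only [St.setR_r, if_true] at hxv
      simp only [St.setR_m]
      have : x ≠ v := fun e => hvH (e ▸ hx)
      exact hI.nt x hx (by rw [hvd]; omega)
    · simpa using hI.dlA
    · unfold P2Phi
      simp only [St.setR_r, if_true, hvd, St.setR_m]
      have h6 := filter_step (H := H) (v := v)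
      rw [if_neg hvH, Nat.add_zero] at h6
      rw [h6]
      omega

theorem Apot_le (n s : ℕ) (S : ℕ → ℕ) (H : Finset ℕ) : Apot n s S H * s ≤ n := by
  unfold Apot
  exact (Nat.div_mul_le_self _ _).trans (Nat.sub_le _ _)

theorem phase2_time {n s Ch A1 A2 h t t1 t2 t3 : ℕ} (hs : 1 ≤ s) (hsn : s * s ≤ n)
    (hA1 : A1 * s ≤ n) (hA2 : A2 * s ≤ n) (hh : (s / 2 + 1) * h ≤ n)
    (h1 : t1 ≤ (70 * n + 25) * A1 + (70 * n + 27))
    (h2 : t2 ≤ Ch * (n + 1) * (s + 1))
    (h3 : t3 ≤ 5 * n + (70 * n + 25) * A2 + (70 * n + 27) * h + 1)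
    (ht : t = t1 + t2 + t3 + 4) : t * s ≤ (360 + 2 * Ch) * (n + 1) ^ 2 := by
  have e1 : t1 * s ≤ 70 * (n + 1) * n + 70 * (n + 1) * s := by
    calc t1 * s ≤ ((70 * n + 25) * A1 + (70 * n + 27)) * s := Nat.mul_le_mul_right _ h1
      _ = (70 * n + 25) * (A1 * s) + (70 * n + 27) * s := by ring
      _ ≤ 70 * (n + 1) * n + 70 * (n + 1) * s :=
        Nat.add_le_add (Nat.mul_le_mul (by omega) hA1) (Nat.mul_le_mul_right _ (by omega))
  have e2 : t2 * s ≤ Ch * (n + 1) * (2 * n) := by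
    calc t2 * s ≤ Ch * (n + 1) * (s + 1) * s := Nat.mul_le_mul_right _ h2
      _ = Ch * (n + 1) * ((s + 1) * s) := by ring
      _ ≤ Ch * (n + 1) * (2 * n) := Nat.mul_le_mul_left _ (by nlinarith)
  have hh2 : h * s ≤ 2 * n := by
    have : s ≤ 2 * (s / 2 + 1) := by omega
    calc h * s ≤ h * (2 * (s / 2 + 1)) := Nat.mul_le_mul_left _ this
      _ = 2 * ((s / 2 + 1) * h) := by ring
      _ ≤ 2 * n := Nat.mul_le_mul_left _ hh
  have e3 : t3 * s ≤ 5 * n * s + 70 * (n + 1) * n + 70 * (n + 1) * (2 * n) + s := by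
    calc t3 * s ≤ (5 * n + (70 * n + 25) * A2 + (70 * n + 27) * h + 1) * s :=
          Nat.mul_le_mul_right _ h3
      _ = 5 * n * s + (70 * n + 25) * (A2 * s) + (70 * n + 27) * (h * s) + s := by ring
      _ ≤ _ := by
        have a1 : (70 * n + 25) * (A2 * s) ≤ 70 * (n + 1) * n := Nat.mul_le_mul (by omega) hA2
        have a2 : (70 * n + 27) * (h * s) ≤ 70 * (n + 1) * (2 * n) :=
          Nat.mul_le_mul (by omega) hh2
        omega
  have hsn' : s ≤ n := by nlinarith
  have e4 : t * s = t1 * s + t2 * s + t3 * s + 4 * s := by rw [ht]; ring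
  rw [e4]
  have e5 : Ch * (n + 1) * (2 * n) ≤ 2 * Ch * (n + 1) ^ 2 := by nlinarith [Nat.zero_le (Ch * (n + 1))]
  have e6 : 5 * n * s ≤ 5 * (n + 1) ^ 2 := by nlinarith
  have e7 : 70 * (n + 1) * n ≤ 70 * (n + 1) ^ 2 := by nlinarith
  have e8 : 70 * (n + 1) * s ≤ 70 * (n + 1) ^ 2 := by nlinarith
  have e9 : 70 * (n + 1) * (2 * n) ≤ 140 * (n + 1) ^ 2 := by nlinarith
  have e10 : 5 * s ≤ 5 * (n + 1) ^ 2 := by nlinarith
  calc t1 * s + t2 * s + t3 * s + 4 * s
      ≤ (70 * (n + 1) * n + 70 * (n + 1) * s) + Ch * (n + 1) * (2 * n) +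
        (5 * n * s + 70 * (n + 1) * n + 70 * (n + 1) * (2 * n) + s) + 4 * s := by omega
    _ ≤ (70 * (n + 1) ^ 2 + 70 * (n + 1) ^ 2) + 2 * Ch * (n + 1) ^ 2 +
        (5 * (n + 1) ^ 2 + 70 * (n + 1) ^ 2 + 140 * (n + 1) ^ 2) + 5 * (n + 1) ^ 2 := by omega
    _ = (360 + 2 * Ch) * (n + 1) ^ 2 := by ring

/-- Result of the second phase. -/
structure P2Post (n s : ℕ) (σ σ' : MSt) : Prop where
  cst : Cst n s σ'
  wf : WF n (σ'.m .S)
  sp : Sparse (edges n (σ'.m .S))
  un : edges n (σ'.m .S) ∪ Dl σ' = edges n (σ.m .S) ∪ Dl σ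
  dl : σ'.r .dl + (edges n (σ'.m .S)).card = σ.r .dl + (edges n (σ.m .S)).card
  rem : σ'.r .dl * s ≤ σ.r .dl * s + 6 * n

theorem phase2_spec : ∃ C : ℕ, ∀ {n s : ℕ} {σ : MSt}, 1 ≤ s → s * s ≤ n → Cst n s σ →
    σ.r .q = s / 2 + 1 → WF n (σ.m .S) →
    (∀ Z ⊆ range n, 2 ≤ Z.card → Z.card ≤ s → 3 ≤ fx n (σ.m .S) Z) →
    SpecT phase2 σ (fun σ' t => P2Post n s σ σ' ∧ t * s ≤ C * (n + 1) ^ 2) := by
  obtain ⟨Ch, hCh⟩ := hitC_spec
  refine ⟨360 + 2 * Ch, ?_⟩
  intro n s σ hs hsn hc hq hwf hsmall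
  -- first cleaning
  have hc0 : CleanI n s ∅ n ((σ.setR .xu n).setR .xv n) ((σ.setR .xu n).setR .xv n) := by
    refine ⟨⟨?_, ?_, ?_, ?_, ?_⟩, ?_, ?_, rfl, rfl, ?_, ?_, Or.inr rfl, ?_, ?_⟩
    · simpa using hc.hn
    · simpa using hc.hnn
    · simpa using hc.hs
    · simpa using hc.tw
    · simpa using hc.ow
    · simpa using hwf
    · intro k hk; exact Or.inl rfl
    · simpa using hsmall
    · simp
    · simp
    · simp
  obtain ⟨σ1, t1, ex1, h1, hnt1, hdA1, ht1⟩ := clean_spec hs hc0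
  have hf1 := ex1.frame
  have hq1 : σ1.r .q = s / 2 + 1 := by rw [hf1.r _ (by decide)]; simpa using hq
  obtain ⟨σ2, t2, ex2, ht2, H, hH⟩ := hCh h1.cst hq1 h1.wf hnt1
  have hf2 := ex2.frame
  have hc2 : Cst n s σ2 := h1.cst.of_frame hf2 hitC_keeps.1
  have hsub2 : ∀ k < 2 * n, σ2.m .S k = σ1.m .S k ∨ σ2.m .S k = 0 := by
    intro k hk
    rw [hH.hS k hk]
    by_cases e : own n k ∈ H
    · rw [if_pos e]; exact Or.inr rfl
    · rw [if_neg e]; exact Or.inl rfl
  have hHe : ∀ v ∈ H, v < n ∧ σ2.m .S v = 0 ∧ σ2.m .S (v + n) = 0 := by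
    intro v hv
    have hvn : v < n := mem_range.1 (hH.hsub hv)
    refine ⟨hvn, ?_, ?_⟩
    · rw [hH.hS v (by omega), own_lt _ _ hvn, if_pos hv]
    · rw [hH.hS (v + n) (by omega), own_add _ _ hvn, if_pos hv]
  have hI0 : P2I n s H σ2 ((σ2.setR .xv n).setR .v 0) := by
    refine ⟨⟨?_, ?_, ?_, ?_, ?_⟩, ?_, ?_, ?_, ?_, ?_, ?_, ?_, ?_, ?_, ?_, ?_⟩
    · simpa using hc2.hn
    · simpa using hc2.hnn
    · simpa using hc2.hs
    · simpa using hc2.tw
    · simpa using hc2.ow
    · simpa using hH.wf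
    · intro k hk; exact Or.inl rfl
    · simp [Dl]
    · simp
    · intro Z hZ h3 h4
      exact (h1.small Z hZ h3 h4).trans (fx_clear (by simpa using hsub2) Z)
    · simpa using hHe
    · simpa using hH.hm
    · simp
    · simp
    · intro v hv h0; simp at h0
    · simp
  obtain ⟨σ3, t3, ex3, h3, hb3, ht3⟩ := SpecT.whl
    (b := .lt (.reg .v) (.reg .n)) (c := .seq p2Body (.set .v (.inc (.reg .v))))
    (P2I n s H σ2) (P2Phi n s H) (by
      intro σ4 h4 hb4
      simp only [Cnd.ev_lt, Exp.ev_reg, h4.cst.hn] at hb4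
      refine (p2Body_spec hs h4 hb4).mono ?_
      rintro σ5 t5 h5 -
      exact h5) hI0
  simp only [Cnd.ev_lt, Exp.ev_reg, h3.cst.hn] at hb3
  have hv3 : σ3.r .v = n := by have := h3.vle; omega
  have ex : Exec phase2 σ (1 + (1 + (t1 + (t2 + (1 + (1 + t3)))))) σ3 := by
    unfold phase2 forC
    have a1 : Exec (.set .xu (.reg .n)) σ 1 (σ.setR .xu n) := by
      have := Exec.set σ (Reg.xu) (.reg .n : MExp)
      simpa [hc.hn] using this
    have a2 : Exec (.set .xv (.reg .n)) (σ.setR .xu n) 1 ((σ.setR .xu n).setR .xv n) := by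
      have := Exec.set (σ.setR .xu n) (Reg.xv) (.reg .n : MExp)
      simpa [hc.hn] using this
    have a3 : Exec (.set .xv (.reg .n)) σ2 1 (σ2.setR .xv n) := by
      have := Exec.set σ2 (Reg.xv) (.reg .n : MExp)
      simpa [hc2.hn] using this
    have a4 : Exec (.set .v (.num 0)) (σ2.setR .xv n) 1 ((σ2.setR .xv n).setR .v 0) := by
      have := Exec.set (σ2.setR .xv n) (Reg.v) (.num 0 : MExp)
      simpa using this
    exact .seq a1 (.seq a2 (.seq ex1 (.seq ex2 (.seq a3 (.seq a4 ex3)))))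
  refine ⟨σ3, _, ex, ⟨h3.cst, h3.wf, ?_, ?_, ?_, ?_⟩, ?_⟩
  · refine sparse_of_noTrap (s := s) (S := σ1.m .S) (H := H) h3.wf ?_ h1.small hH.hit ?_ ?_
    · intro k hk
      rcases h3.sub k hk with h5 | h5
      · rw [h5]; exact hsub2 k hk
      · exact Or.inr h5
    · intro k hk hkH
      obtain ⟨g1, g2, g3⟩ := h3.hH _ hkH
      rcases (own_eq_iff hk g1).1 rfl with h5 | h5
      · rw [h5]; exact g2
      · rw [h5]; exact g3
    · intro v hv
      exact h3.nt v hv (by rw [hv3]; exact mem_range.1 (hH.hsub hv))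
  · rw [h3.un, hH.un, h1.un]; simp [Dl]
  · rw [h3.dl, hH.dl, h1.dl]; simp
  · have g0 : (edges n (σ1.m .S)).card ≤ (edges n (σ2.m .S)).card + 2 * H.card := by
      rw [card_edges h1.wf, card_edges hH.wf]
      have hsl := slots_card hH.hsub
      have hsub : (range (2 * n)).filter (fun k => σ1.m .S k ≠ 0) ⊆
          (range (2 * n)).filter (fun k => σ2.m .S k ≠ 0) ∪
          (range (2 * n)).filter (fun k => own n k ∈ H) := by
        intro k hk
        obtain ⟨g1, g2⟩ := mem_filter.1 hk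
        rw [mem_union, mem_filter, mem_filter]
        by_cases e : own n k ∈ H
        · exact Or.inr ⟨g1, e⟩
        · left
          refine ⟨g1, ?_⟩
          rw [hH.hS k (mem_range.1 g1), if_neg e]
          exact g2
      have := card_le_card hsub
      have g3 := card_union_le ((range (2 * n)).filter (fun k => σ2.m .S k ≠ 0))
          ((range (2 * n)).filter (fun k => own n k ∈ H))
      omega
    have g1 := hH.dl
    have g2 := h3.dlA
    have g4 : ((σ.setR .xu n).setR .xv n).r .dl = σ.r .dl := by simp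
    rw [g4] at hdA1
    have g5 : σ3.r .dl ≤ σ.r .dl + Apot n s (((σ.setR .xu n).setR .xv n).m .S) ∅ +
        Apot n s (σ2.m .S) H + 2 * H.card := by omega
    have g6 := Apot_le n s (((σ.setR .xu n).setR .xv n).m .S) ∅
    have g7 := Apot_le n s (σ2.m .S) H
    have g8 : H.card * s ≤ 2 * n := by
      have : s ≤ 2 * (s / 2 + 1) := by omega
      calc H.card * s ≤ H.card * (2 * (s / 2 + 1)) := Nat.mul_le_mul_left _ this
        _ = 2 * ((s / 2 + 1) * H.card) := by ring
        _ ≤ 2 * n := Nat.mul_le_mul_left _ hH.card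
    calc σ3.r .dl * s ≤ (σ.r .dl + Apot n s (((σ.setR .xu n).setR .xv n).m .S) ∅ +
        Apot n s (σ2.m .S) H + 2 * H.card) * s := Nat.mul_le_mul_right _ g5
      _ = σ.r .dl * s + Apot n s (((σ.setR .xu n).setR .xv n).m .S) ∅ * s +
          Apot n s (σ2.m .S) H * s + 2 * (H.card * s) := by ring
      _ ≤ _ := by omega
  · have e0 : P2Phi n s H ((σ2.setR .xv n).setR .v 0) =
        5 * n + (70 * n + 25) * Apot n s (σ2.m .S) H + (70 * n + 27) * H.card := by
      unfold P2Phi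
      simp
    rw [e0] at ht3
    refine phase2_time (A1 := Apot n s (((σ.setR .xu n).setR .xv n).m .S) ∅)
      (A2 := Apot n s (σ2.m .S) H) (h := H.card) (t1 := t1) (t2 := t2) (t3 := t3) hs hsn
      (Apot_le _ _ _ _) (Apot_le _ _ _ _) hH.card ?_ ht2 ?_ (by omega)
    · omega
    · omega

end Pool.Agent.H.MP_d01483_lc
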