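import Pool.Agent.H.MP_d01483_lc.Phase1
import Pool.Agent.H.MP_d01483_lc.Phase2
import Pool.Agent.H.MP_d01483_lc.InitC

set_option linter.unusedSectionVars false
set_option linter.unusedVariables false
set_option linter.unusedSimpArgs false
set_option linter.constructorNameAsVariable false

namespace Pool.Agent.H.MP_d01483_lc

open Finset

/-- Count the occupied slots and compare with `2n-3`. -/
def countC : MCmd :=
  .seq (.set .x (.num 3)) <|
  .seq (forC .k (.reg .nn) (.ite (.eq (.get .S (.reg .k)) (.num 0)) .skip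
    (.set .x (.inc (.reg .x))))) <|
  .ite (.eq (.reg .x) (.reg .nn)) (.set .out (.num 1)) (.set .out (.num 0))

theorem countC_spec {n s : ℕ} {σ : MSt} (hc : Cst n s σ) (hwf : WF n (σ.m .S)) :
    Spec countC σ (8 * n + 5) (fun σ' => (σ'.r .out = 0 ∨ σ'.r .out = 1) ∧
      (σ'.r .out = 1 ↔ (edges n (σ.m .S)).card + 3 = 2 * n)) := by
  unfold countC
  apply Spec.of_runs
  simp only [runs_seq, runs_set, Exp.ev_num]
  refine ⟨by omega, ?_⟩
  refine Runs.of_spec (forC_spec (2 * n) 2 (fun j τ => Cst n s τ ∧ τ.m .S = σ.m .S ∧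
    τ.r .x = 3 + ((range j).filter (fun k => σ.m .S k ≠ 0)).card) ?_ ?_ ?_) (by omega) ?_
  · rintro j τ ⟨h1, -⟩
    simpa using h1.hnn
  · rintro j τ hj ⟨h1, h2, h3⟩ hk
    apply Spec.of_runs
    simp only [runs_ite, runs_set, runs_skip, Cnd.ev_eq, Exp.ev_get, Exp.ev_reg, Exp.ev_num,
      Exp.ev_inc, hk, h2]
    refine ⟨by omega, ?_, ?_⟩
    · intro h0 _
      refine ⟨trivial, ⟨?_, ?_, ?_, ?_, ?_⟩, ?_, ?_⟩
      · simpa using h1.hn
      · simpa using h1.hnn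
      · simpa using h1.hs
      · simpa using h1.tw
      · simpa using h1.ow
      · simpa using h2
      · rw [range_add_one, filter_insert, if_neg (by simpa using h0)]
        simpa using h3
    · intro h0
      refine ⟨by omega, fun _ => ⟨by simp [hk], ⟨?_, ?_, ?_, ?_, ?_⟩, ?_, ?_⟩⟩
      · simpa using h1.hn
      · simpa using h1.hnn
      · simpa using h1.hs
      · simpa using h1.tw
      · simpa using h1.ow
      · simpa using h2
      · rw [range_add_one, filter_insert, if_pos h0, card_insert_of_notMem (by simp)]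
        simp [h3]
        omega
  · refine ⟨⟨?_, ?_, ?_, ?_, ?_⟩, ?_, ?_⟩
    · simpa using hc.hn
    · simpa using hc.hnn
    · simpa using hc.hs
    · simpa using hc.tw
    · simpa using hc.ow
    · simp
    · simp
  · rintro σ1 T1 ⟨⟨h1, h2, h3⟩, -⟩ hT1
    simp only [runs_ite, runs_set, Cnd.ev_eq, Exp.ev_reg, Exp.ev_num, h3, h1.hnn]
    rw [card_edges hwf]
    refine ⟨by omega, ?_, ?_⟩
    · intro h0
      refine ⟨by omega, Or.inr (by simp), ?_⟩
      simp only [St.setR_r, if_true, true_iff]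
      omega
    · intro h0
      refine ⟨by omega, Or.inl (by simp), ?_⟩
      simp only [St.setR_r, if_true]
      constructor
      · intro h; omega
      · intro h; exfalso; apply h0; omega

/-- The algorithm for graphs with at least two vertices. -/
def algC : MCmd :=
  .seq initC <| .seq phase1 <| .seq phase2 <| .seq (forC .e (.reg .dl) p3aBody) <|
  .seq (forC .e (.reg .ql) p3bBody) countC

/-- Initial states. -/
structure Start (x : ℕ → ℕ) (σ : MSt) : Prop where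
  inp : σ.m .inp = x
  arr : ∀ a, a ≠ Arr.inp → σ.m a = fun _ => 0
  reg : ∀ r, σ.r r = 0 ∨ r = Reg.n

theorem edges_zero (n : ℕ) : edges n (fun _ => 0) = ∅ := by
  unfold edges
  simp

theorem wf_zero (n : ℕ) : WF n (fun _ => 0) :=
  ⟨fun _ _ => Nat.zero_le _, fun _ _ => by omega, fun _ _ _ _ h => absurd rfl h⟩

theorem p1i_start {n s : ℕ} {x : ℕ → ℕ} {σ : MSt} (hc : Cst n s σ) (hL : σ.r .L = s + 1)
    (hK : σ.r .K = s * s) (hdl : σ.r .dl = 0) (hql : σ.r .ql = 0)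
    (hz : ∀ a, a ≠ Arr.inp → a ≠ Arr.TW → a ≠ Arr.OWN → σ.m a = fun _ => 0) :
    P1I n s (s + 1) ∅ ∅ ∅ σ := by
  have hS := hz .S (by decide) (by decide) (by decide)
  have hP := hz .P (by decide) (by decide) (by decide)
  have hDG := hz .DG (by decide) (by decide) (by decide)
  have hMK := hz .MK (by decide) (by decide) (by decide)
  have hDl : Dl σ = ∅ := by unfold Dl listE; rw [hdl]; simp
  have hQl : Ql σ = ∅ := by unfold Ql listE; rw [hql]; simp
  refine ⟨hc, hL, hK, ?_, ?_, ?_, empty_subset _, ?_, ?_, ?_, ?_, ?_, ?_, ?_, ?_, ?_⟩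
  · unfold P1
    rw [hS, hP, hDl]
    refine ⟨wf_zero n, fun _ _ _ => rfl, fun _ _ => Nat.zero_le _, fun _ _ h => absurd rfl h, ?_⟩
    intro e he; simp at he
  · rw [hQl]; rfl
  · rw [hS, hDl, edges_zero]; rfl
  · intro e he; simp at he
  · intro v hv; rw [hDG]; simp [deg]
  · intro i hi; omega
  · intro Z hZ h2 h3
    rw [hS]
    have h4 := ind_add_fx (wf_zero n) hZ
    rw [edges_zero] at h4
    have h5 : ind (∅ : Finset (Sym2 ℕ)) Z = 0 := by simp [ind]
    omega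
  · intro e he; simp at he
  · rw [hdl, hS, edges_zero]; simp
  · simp
  · rw [hql]; simp
  · intro v hv; rw [hMK]

theorem sparse_le {I : Finset (Sym2 ℕ)} (h : Sparse I) (Z : Finset ℕ) : ind I Z ≤ 2 * Z.card := by
  by_cases h2 : 2 ≤ Z.card
  · have := h.2 Z h2; omega
  · have := ind_eq_zero h.1 (Z := Z) (by omega); omega

theorem sparse_card {n : ℕ} {I : Finset (Sym2 ℕ)} (h : Sparse I) (hn : I ⊆ (range n).sym2) :
    I.card ≤ 2 * n := by
  have h1 := sparse_le h (range n)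
  have h2 : ind I (range n) = I.card := by
    unfold ind
    rw [inter_eq_left.2 hn]
  rw [h2, card_range] at h1
  exact h1

theorem nlab_le (I : Finset (Sym2 ℕ)) (lam : Sym2 ℕ → ℕ) : nlab I lam ≤ I.card :=
  card_filter_le _ _

theorem tt_aux1 {n s : ℕ} (hs : 1 ≤ s) (hss : s * s ≤ n) : s ≤ n := by
  have h1 : 1 * s ≤ s * s := Nat.mul_le_mul_right _ hs
  omega

theorem tt_aux2 {n s : ℕ} (hss : s * s ≤ n) (hsn : s ≤ n) : (s + 1) * s ≤ 2 * n := by
  rw [Nat.add_mul]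
  omega

theorem tt_aux3 (n : ℕ) : n * n ≤ (n + 1) ^ 2 := by
  rw [pow_two]
  exact Nat.mul_le_mul (Nat.le_succ _) (Nat.le_succ _)

theorem tt_aux4 (n : ℕ) : (n + 1) * n ≤ (n + 1) ^ 2 := by
  rw [pow_two]
  exact Nat.mul_le_mul_left _ (Nat.le_succ _)

theorem tt_aux5 {n s : ℕ} (hsn : s ≤ n) : s ≤ (n + 1) ^ 2 := by
  rw [pow_two, Nat.add_mul, Nat.mul_add]
  omega

theorem total_time {n s Ci C2 Ct ti t1 t2 t3 t4 t5 TPv DSv e dl ql ncb tt : ℕ}
    (hs : 1 ≤ s) (hs7 : s ^ 7 ≤ n)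
    (hi : ti ≤ Ci * (n + 1) * (s + 1))
    (h1 : t1 ≤ 20 * TPv + (60000 * s ^ 4 + 50) * DSv + 8 * e + 4 * n + 3)
    (hTP : TPv ≤ 2 * n * (s + 1)) (hDS : DSv ≤ n * (s * s))
    (h2 : t2 * s ≤ C2 * (n + 1) ^ 2)
    (h34 : t3 + t4 ≤ Ct * (n + 1) * ncb + (60000 * s ^ 4 + 12) * dl + 12 * ql + 4)
    (hdl : dl ≤ n * (s * s)) (hnc : ncb * s ≤ 138 * n)
    (h5 : t5 ≤ 8 * n + 5)
    (ht : tt = ti + t1 + t2 + t3 + t4 + t5) :
    ∃ t', tt ≤ t' + 8 * e + 12 * ql ∧
      t' * s ≤ (2 * Ci + 120200 + C2 + 138 * Ct) * (n + 1) ^ 2 := by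
  have hs2 : s * s ≤ s ^ 7 := by
    calc s * s = s ^ 2 := by ring
      _ ≤ s ^ 7 := Nat.pow_le_pow_right hs (by norm_num)
  have hss : s * s ≤ n := hs2.trans hs7
  have hsn : s ≤ n := tt_aux1 hs hss
  have hs4 : s ^ 4 * (s * s) * s ≤ n := by
    calc s ^ 4 * (s * s) * s = s ^ 7 := by ring
      _ ≤ n := hs7
  refine ⟨ti + (20 * TPv + (60000 * s ^ 4 + 50) * DSv + 4 * n + 3) + t2 +
    (Ct * (n + 1) * ncb + (60000 * s ^ 4 + 12) * dl + 4) + t5, by omega, ?_⟩
  have a1 : ti * s ≤ Ci * (n + 1) * (2 * n) := by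
    calc ti * s ≤ Ci * (n + 1) * (s + 1) * s := Nat.mul_le_mul_right _ hi
      _ = Ci * (n + 1) * ((s + 1) * s) := by ring
      _ ≤ _ := Nat.mul_le_mul_left _ (tt_aux2 hss hsn)
  have a2 : 20 * TPv * s ≤ 80 * n * n := by
    calc 20 * TPv * s ≤ 20 * (2 * n * (s + 1)) * s :=
          Nat.mul_le_mul_right _ (Nat.mul_le_mul_left _ hTP)
      _ = 40 * n * ((s + 1) * s) := by ring
      _ ≤ 40 * n * (2 * n) := Nat.mul_le_mul_left _ (tt_aux2 hss hsn)
      _ = 80 * n * n := by ring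
  have a3 : (60000 * s ^ 4 + 50) * DSv * s ≤ 60050 * n * n := by
    calc (60000 * s ^ 4 + 50) * DSv * s ≤ (60000 * s ^ 4 + 50 * s ^ 4) * (n * (s * s)) * s := by
          apply Nat.mul_le_mul_right
          apply Nat.mul_le_mul _ hDS
          have : 1 ≤ s ^ 4 := Nat.one_le_pow _ _ hs
          omega
      _ = 60050 * n * (s ^ 4 * (s * s) * s) := by ring
      _ ≤ 60050 * n * n := Nat.mul_le_mul_left _ hs4
  have a4 : (60000 * s ^ 4 + 12) * dl * s ≤ 60012 * n * n := by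
    calc (60000 * s ^ 4 + 12) * dl * s ≤ (60000 * s ^ 4 + 12 * s ^ 4) * (n * (s * s)) * s := by
          apply Nat.mul_le_mul_right
          apply Nat.mul_le_mul _ hdl
          have : 1 ≤ s ^ 4 := Nat.one_le_pow _ _ hs
          omega
      _ = 60012 * n * (s ^ 4 * (s * s) * s) := by ring
      _ ≤ 60012 * n * n := Nat.mul_le_mul_left _ hs4
  have a5 : Ct * (n + 1) * ncb * s ≤ Ct * (n + 1) * (138 * n) := by
    calc Ct * (n + 1) * ncb * s = Ct * (n + 1) * (ncb * s) := by ring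
      _ ≤ _ := Nat.mul_le_mul_left _ hnc
  have a6 : t5 * s ≤ (8 * n + 5) * s := Nat.mul_le_mul_right _ h5
  have hN : n * n ≤ (n + 1) ^ 2 := tt_aux3 n
  have hNs : n * s ≤ n * n := Nat.mul_le_mul_left _ hsn
  have b1 : Ci * (n + 1) * (2 * n) ≤ 2 * Ci * (n + 1) ^ 2 := by
    calc Ci * (n + 1) * (2 * n) = 2 * Ci * ((n + 1) * n) := by ring
      _ ≤ 2 * Ci * (n + 1) ^ 2 := Nat.mul_le_mul_left _ (tt_aux4 n)
  have b2 : Ct * (n + 1) * (138 * n) ≤ 138 * Ct * (n + 1) ^ 2 := by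
    calc Ct * (n + 1) * (138 * n) = 138 * Ct * ((n + 1) * n) := by ring
      _ ≤ 138 * Ct * (n + 1) ^ 2 := Nat.mul_le_mul_left _ (tt_aux4 n)
  have e0 : (ti + (20 * TPv + (60000 * s ^ 4 + 50) * DSv + 4 * n + 3) + t2 +
    (Ct * (n + 1) * ncb + (60000 * s ^ 4 + 12) * dl + 4) + t5) * s =
      ti * s + 20 * TPv * s + (60000 * s ^ 4 + 50) * DSv * s + 4 * (n * s) + 3 * s + t2 * s +
      Ct * (n + 1) * ncb * s + (60000 * s ^ 4 + 12) * dl * s + 4 * s + t5 * s := by ring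
  rw [e0]
  have e1 : (8 * n + 5) * s = 8 * (n * s) + 5 * s := by ring
  rw [e1] at a6
  have e2 : 80 * n * n = 80 * (n * n) := by ring
  have e3 : 60050 * n * n = 60050 * (n * n) := by ring
  have e4 : 60012 * n * n = 60012 * (n * n) := by ring
  rw [e2] at a2
  rw [e3] at a3
  rw [e4] at a4
  have hs3 : s ≤ (n + 1) ^ 2 := tt_aux5 hsn
  have e5 : (2 * Ci + 120200 + C2 + 138 * Ct) * (n + 1) ^ 2 = 2 * Ci * (n + 1) ^ 2 +
    120200 * (n + 1) ^ 2 + C2 * (n + 1) ^ 2 + 138 * Ct * (n + 1) ^ 2 := by ring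
  rw [e5]
  omega

end Pool.Agent.H.MP_d01483_lc
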