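import Pool.Agent.H.MP_d01483_lc.Alg

set_option linter.unusedSectionVars false
set_option linter.unusedVariables false
set_option linter.unusedSimpArgs false
set_option linter.constructorNameAsVariable false

namespace Pool.Agent.H.MP_d01483_lc

open Finset

/-- What the first phase leaves alone. -/
theorem phase1_keeps : Reg.q ∉ phase1.wr ∧ Reg.nc ∉ phase1.wr ∧ Arr.CI ∉ phase1.wa ∧
    Arr.EXC ∉ phase1.wa := by decide

theorem phase2_keeps : Reg.ql ∉ phase2.wr ∧ Reg.nc ∉ phase2.wr ∧ Arr.CI ∉ phase2.wa ∧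
    Arr.EXC ∉ phase2.wa ∧ Arr.QA ∉ phase2.wa ∧ Arr.QB ∉ phase2.wa ∧ Arr.MK ∉ phase2.wa := by
  decide

theorem initC_keeps : Reg.dl ∉ initC.wr ∧ Reg.ql ∉ initC.wr ∧ Reg.nc ∉ initC.wr := by decide

theorem p3a_keeps : Reg.ql ∉ (forC .e (.reg .dl) p3aBody : MCmd).wr ∧
    Arr.QA ∉ (forC .e (.reg .dl) p3aBody : MCmd).wa ∧
    Arr.QB ∉ (forC .e (.reg .dl) p3aBody : MCmd).wa := by decide

/-- All checked edges are spanned once the discard list has been treated. -/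
theorem all_spanned {E1 Rj I0 I J D : Finset (Sym2 ℕ)} (hI : Sparse I) (hI0 : I0 ⊆ I)
    (hJ : J = I0 ∪ D) (hE : E1 = J ∪ Rj) (hD : ∀ e ∈ D, Spanned I e)
    (hrj : ∀ e ∈ Rj, ∃ F ⊆ J, Sparse F ∧ Spanned F e) : ∀ e ∈ E1, Spanned I e := by
  have hJs : ∀ e ∈ J, Spanned I e := by
    intro e he
    rw [hJ, mem_union] at he
    rcases he with he | he
    · exact spanned_of_mem hI (hI0 he)
    · exact hD e he
  intro e he
  rw [hE, mem_union] at he
  rcases he with he | he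
  · exact hJs e he
  · obtain ⟨F, hF, h1, h2⟩ := hrj e he
    exact spanned_trans hI h1 (fun e he => hJs e (hF he)) h2

theorem tri_le {n : ℕ} (h : n ≠ 0) : (n + 1) * n ≤ 2 * (n * n) := by
  have h1 : 1 * n ≤ n * n := Nat.mul_le_mul_right _ (Nat.one_le_iff_ne_zero.2 h)
  rw [Nat.add_mul]
  omega

theorem algC_spec : ∃ C : ℕ, ∀ {n s : ℕ} {x : ℕ → ℕ} {σ : MSt}, 1 ≤ s → s ^ 7 ≤ n →
    n < (s + 1) ^ 7 → InOK n x → x 0 = n → Start x σ →
    SpecT algC σ (fun σ' t => ∃ I : Finset (Sym2 ℕ), Sparse I ∧ I ⊆ TLs x n ∧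
      TLs x n ⊆ (range n).sym2 ∧ (∀ e ∈ TLs x n, Spanned I e) ∧
      (σ'.r .out = 0 ∨ σ'.r .out = 1) ∧ (σ'.r .out = 1 ↔ I.card + 3 = 2 * n) ∧
      ∃ t', t ≤ t' + 8 * x (n + 1) + 12 * (TLs x n).card ∧ t' * s ≤ C * (n + 1) ^ 2) := by
  obtain ⟨Ci, hCi⟩ := initC_spec
  obtain ⟨C2, hC2⟩ := phase2_spec
  obtain ⟨Ct, hCt'⟩ := test_spec
  have hCt : TestC Ct := fun {n s I lam σ} => hCt'
  refine ⟨2 * Ci + 120200 + C2 + 138 * Ct, ?_⟩
  intro n s x σ hs hs7 hs7' hx hx0 hst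
  have hn0 : n ≠ 0 := by
    have : 1 ≤ s ^ 7 := Nat.one_le_pow _ _ hs
    omega
  have hs2 : s * s ≤ s ^ 7 := by
    calc s * s = s ^ 2 := by ring
      _ ≤ s ^ 7 := Nat.pow_le_pow_right hs (by norm_num)
  have hss : s * s ≤ n := hs2.trans hs7
  -- constants
  obtain ⟨σ1, t0, ex0, ht0, hc1, hq1, hL1, hK1⟩ := hCi n s σ (by rw [hst.inp, hx0]) hs7 hs7'
  have hf0 := ex0.frame
  have harr1 : ∀ a, a ≠ Arr.inp → a ≠ Arr.TW → a ≠ Arr.OWN → σ1.m a = fun _ => 0 := by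
    intro a h1 h2 h3
    rw [hf0.m a (fun h => by rcases initC_wa a h with h | h <;> simp_all), hst.arr a h1]
  have hinp1 : σ1.m .inp = x := by
    rw [hf0.m _ (fun h => by rcases initC_wa _ h with h | h <;> simp at h), hst.inp]
  have hr : ∀ r, r ≠ Reg.n → σ.r r = 0 := fun r hr => (hst.reg r).resolve_right hr
  have hdl1 : σ1.r .dl = 0 := by rw [hf0.r _ initC_keeps.1]; exact hr _ (by decide)
  have hql1 : σ1.r .ql = 0 := by rw [hf0.r _ initC_keeps.2.1]; exact hr _ (by decide)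
  have hnc1 : σ1.r .nc = 0 := by rw [hf0.r _ initC_keeps.2.2]; exact hr _ (by decide)
  have hP0 := p1i_start (x := x) (s := s) hc1 hL1 hK1 hdl1 hql1 harr1
  -- first phase
  obtain ⟨σ2, t1, ex1, ⟨E1, Rj, h2⟩, ht1, he2⟩ := phase1_spec hs hx hP0 hinp1
  have hf1 := ex1.frame
  have hq2 : σ2.r .q = s / 2 + 1 := by rw [hf1.r _ phase1_keeps.1]; exact hq1
  have hnc2 : σ2.r .nc = 0 := by rw [hf1.r _ phase1_keeps.2.1]; exact hnc1
  have hCI2 : σ2.m .CI = fun _ => 0 := by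
    rw [hf1.m _ phase1_keeps.2.2.1]; exact harr1 _ (by decide) (by decide) (by decide)
  have hEX2 : σ2.m .EXC = fun _ => 0 := by
    rw [hf1.m _ phase1_keeps.2.2.2]; exact harr1 _ (by decide) (by decide) (by decide)
  have he2' : σ2.r .e = x (n + 1) := he2.resolve_left hn0
  -- second phase
  obtain ⟨σ3, t2, ex2, h3, ht2⟩ := hC2 hs hss h2.cst hq2 h2.p1.wf h2.small
  have hf2 := ex2.frame
  have hql3 : σ3.r .ql = σ2.r .ql := hf2.r _ phase2_keeps.1
  have hnc3 : σ3.r .nc = 0 := by rw [hf2.r _ phase2_keeps.2.1]; exact hnc2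
  have hCI3 : σ3.m .CI = fun _ => 0 := by rw [hf2.m _ phase2_keeps.2.2.1]; exact hCI2
  have hEX3 : σ3.m .EXC = fun _ => 0 := by rw [hf2.m _ phase2_keeps.2.2.2.1]; exact hEX2
  have hQA3 : σ3.m .QA = σ2.m .QA := hf2.m _ phase2_keeps.2.2.2.2.1
  have hQB3 : σ3.m .QB = σ2.m .QB := hf2.m _ phase2_keeps.2.2.2.2.2.1
  have hMK3 : σ3.m .MK = σ2.m .MK := hf2.m _ phase2_keeps.2.2.2.2.2.2
  have hun3 : edges n (σ3.m .S) ∪ Dl σ3 = edges n (σ2.m .S) ∪ Dl σ2 := h3.un
  have hE1 : E1 = (edges n (σ3.m .S) ∪ Dl σ3) ∪ Rj := by rw [hun3]; exact h2.e1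
  have hE1T : E1 ⊆ TLs x n := by rw [h2.tT]; exact subset_union_left
  have hsi3 : SI n s (edges n (σ3.m .S)) (fun _ => 0) σ3 := by
    refine ⟨h3.cst, h3.wf, rfl, ?_, ?_, ⟨h3.sp, ?_, ?_, ?_⟩, ?_, ?_, ?_⟩
    · intro k _ _; rw [hCI3]
    · intro k _ _; rw [hCI3]
    · intro e _; exact Nat.zero_le _
    · intro e _ h; exact absurd rfl h
    · intro e _ f _ h; exact absurd rfl h
    · intro c _; rw [hEX3]
    · intro e _ h; exact absurd rfl h
    · intro e _ h; exact absurd rfl h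
  have hDE : Dl σ3 ⊆ E1 := by
    rw [hE1]; exact subset_union_right.trans subset_union_left
  have hD3 : ∀ i < σ3.r .dl, σ3.m .DU i < n ∧ σ3.m .DV i < n ∧ σ3.m .DU i ≠ σ3.m .DV i := by
    intro i hi
    have h4 : s(σ3.m .DU i, σ3.m .DV i) ∈ TLs x n := by
      apply hE1T; apply hDE
      unfold Dl
      rw [mem_listE]
      exact ⟨i, hi, rfl⟩
    have h5 := h2.tn h4
    have h6 := h2.td _ h4
    rw [Finset.mk_mem_sym2_iff, mem_range, mem_range] at h5
    exact ⟨h5.1, h5.2, by simpa using h6⟩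
  -- discard list
  obtain ⟨σ4, t3, ex3, I, lam, h4, ht3⟩ := p3a_spec hs hCt hsi3 hnc3
    (by rw [hMK3]; exact h2.mkz) hD3
  have hf3 := ex3.frame
  have hql4 : σ4.r .ql = σ2.r .ql := by rw [hf3.r _ p3a_keeps.1, hql3]
  have hQA4 : σ4.m .QA = σ2.m .QA := by rw [hf3.m _ p3a_keeps.2.1, hQA3]
  have hQB4 : σ4.m .QB = σ2.m .QB := by rw [hf3.m _ p3a_keeps.2.2, hQB3]
  have hspI : Sparse I := h4.si.lab.sp
  have hDsp : ∀ e ∈ Dl σ3, Spanned I e := by
    intro e he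
    unfold Dl at he
    rw [mem_listE] at he
    obtain ⟨i, hi, rfl⟩ := he
    exact h4.spn i hi
  have hrj3 : ∀ e ∈ Rj, ∃ F ⊆ edges n (σ3.m .S) ∪ Dl σ3, Sparse F ∧ Spanned F e := by
    rw [hun3]; exact h2.rj
  have hE1sp : ∀ e ∈ E1, Spanned I e :=
    all_spanned hspI h4.low rfl hE1 hDsp hrj3
  have hIE1 : I ⊆ E1 := by
    rw [hE1]
    exact h4.up.trans subset_union_left
  have hE1n : E1 ⊆ (range n).sym2 := hE1T.trans h2.tn
  have hE1d : ∀ e ∈ E1, ¬ e.IsDiag := fun e he => h2.td e (hE1T he)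
  -- postponed edges
  have hQ4 : ∀ i < σ4.r .ql, σ4.m .QA i < n ∧ σ4.m .QB i < n ∧ σ4.m .QA i ≠ σ4.m .QB i ∧
      s * s ≤ deg E1 (σ4.m .QA i) ∧ s * s ≤ deg E1 (σ4.m .QB i) := by
    rw [hql4, hQA4, hQB4]; exact h2.q
  obtain ⟨σ5, t4, ex4, I', lam', h5, ht4⟩ := p3b_spec (E1 := E1) hCt h4.si hQ4
  have hspI' : Sparse I' := h5.si.lab.sp
  -- counting
  obtain ⟨σ6, t5, ex5, ht5, hout, hout'⟩ := countC_spec h5.si.cst h5.si.wf
  rw [h5.si.ed] at hout'
  have hQl : Ql σ4 = Ql σ2 := by unfold Ql; rw [hql4, hQA4, hQB4]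
  have ex : Exec algC σ (t0 + (t1 + (t2 + (t3 + (t4 + t5))))) σ6 :=
    .seq ex0 (.seq ex1 (.seq ex2 (.seq ex3 (.seq ex4 ex5))))
  refine ⟨σ6, _, ex, I', hspI', ?_, h2.tn, ?_, hout, hout', ?_⟩
  · rw [h2.tT]
    refine h5.up.trans ?_
    rw [hQl]
    exact union_subset_union_left hIE1
  · intro e he
    rw [h2.tT, mem_union] at he
    rcases he with he | he
    · exact (hE1sp e he).mono hspI' h5.low
    · rw [← hQl] at he
      unfold Ql at he
      rw [mem_listE] at he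
      obtain ⟨i, hi, rfl⟩ := he
      exact h5.spn i hi
  · -- time
    have hDSle : DS n s σ2 ≤ n * (s * s) := by
      unfold DS
      calc ∑ v ∈ range n, min (σ2.m .DG v) (s * s) ≤ ∑ v ∈ range n, s * s :=
            sum_le_sum (fun v _ => Nat.min_le_right _ _)
        _ = n * (s * s) := by simp
    have hTPle := TP_le h2.p1
    have hE1c : E1.card ≤ n * (s * s) := h2.cntE.trans hDSle
    have hdl3 := h3.dl
    have hcnt2 := h2.cnt
    have hdl3' : σ3.r .dl ≤ n * (s * s) := by omega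
    -- number of tests on the discard list
    have hIs : I.card * s ≤ (edges n (σ2.m .S)).card * s + 2 * n := by
      have := level_bound (L := s + 1) (D := Dl σ2) (B := I) h2.p1.wf h2.p1.pr0 h2.p1.pr1 h2.p1.dD
        (fun Z _ => sparse_le hspI Z) (by rw [← hun3]; exact h4.up)
      simpa using this
    have hI2n : I.card ≤ 2 * n := sparse_card hspI (hIE1.trans hE1n)
    have hnl : nlab I lam ≤ 2 * n := (nlab_le I lam).trans hI2n
    have hrem := h3.rem
    have hcnt4 := h4.cnt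
    have hlow : (edges n (σ3.m .S)).card ≤ I.card := card_le_card h4.low
    have hnca : σ4.r .nc * s ≤ 10 * n := by
      have e1 : (σ3.r .dl + (edges n (σ3.m .S)).card) * s =
          (σ2.r .dl + (edges n (σ2.m .S)).card) * s := by rw [hdl3]
      rw [Nat.add_mul, Nat.add_mul] at e1
      omega
    have hqlT : σ2.r .ql ≤ (TLs x n).card := by have := h2.cntT; omega
    have hncb : σ5.r .nc * s ≤ 138 * n := by
      by_cases h2s : 2 ≤ s
      · have := h5.count h2s hspI hE1n hE1d hIE1 hE1sp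
        omega
      · have hs1 : s = 1 := by omega
        have hn128 : n < 128 := by
          rw [hs1] at hs7'
          norm_num at hs7'
          exact hs7'
        have h6 := h5.cnt
        have h7 : (TLs x n).card ≤ n * n := by
          have h8 := card_le_card h2.tn
          rw [Finset.card_sym2, card_range, Nat.choose_two_right] at h8
          have h9 : (n + 1) * (n + 1 - 1) / 2 ≤ n * n := by
            rw [Nat.add_sub_cancel]
            apply Nat.div_le_of_le_mul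
            exact tri_le hn0
          omega
        have h10 : n * n ≤ 128 * n := Nat.mul_le_mul_right _ (by omega)
        have h11 : σ4.r .ql ≤ 128 * n := by omega
        rw [hs1] at hnca ⊢
        omega
    have ht34 : t3 + t4 ≤ Ct * (n + 1) * σ5.r .nc + (60000 * s ^ 4 + 12) * σ3.r .dl +
        12 * σ2.r .ql + 4 := by
      rw [hql4] at ht4
      omega
    obtain ⟨t', h12, h13⟩ := total_time (tt := t0 + (t1 + (t2 + (t3 + (t4 + t5))))) hs hs7 ht0
      (TPv := TP n σ2) (DSv := DS n s σ2) (e := x (n + 1)) (t1 := t1)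
      (by unfold Psi1 at ht1; rw [he2'] at ht1; omega) hTPle hDSle ht2 ht34 hdl3' hncb ht5
      (by omega)
    refine ⟨t', ?_, h13⟩
    have : 12 * σ2.r .ql ≤ 12 * (TLs x n).card := Nat.mul_le_mul_left _ hqlT
    omega

end Pool.Agent.H.MP_d01483_lc
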