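import Pool.Agent.H.MP_d01483_lc.Slots

set_option linter.unusedSectionVars false
set_option linter.unusedVariables false
set_option linter.unusedSimpArgs false
set_option linter.constructorNameAsVariable false

namespace Pool.Agent.H.MP_d01483_lc

open Finset

/-- Linked lists: `x` is the head pointer of the list `l`. -/
def Chain (N : ℕ → ℕ) : List ℕ → ℕ → Prop
  | [], x => x = 0
  | k :: l, x => x = k + 1 ∧ Chain N l (N k)

theorem Chain.congr {N N' : ℕ → ℕ} : ∀ {l : List ℕ} {x : ℕ}, (∀ k ∈ l, N' k = N k) →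
    Chain N l x → Chain N' l x
  | [], x, _, h => h
  | k :: l, x, hN, ⟨h1, h2⟩ => by
    refine ⟨h1, ?_⟩
    rw [hN k (by simp)]
    exact Chain.congr (fun k' hk' => hN k' (by simp [hk'])) h2

/-- The slots below `j` with head `w`, in decreasing order. -/
def lst (S : ℕ → ℕ) (j w : ℕ) : List ℕ := ((List.range j).filter (fun k => S k = w + 1)).reverse

theorem mem_lst {S : ℕ → ℕ} {j w k : ℕ} : k ∈ lst S j w ↔ k < j ∧ S k = w + 1 := by
  simp [lst]

theorem lst_succ (S : ℕ → ℕ) (j w : ℕ) :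
    lst S (j + 1) w = if S j = w + 1 then j :: lst S j w else lst S j w := by
  unfold lst
  rw [List.range_succ, List.filter_append]
  by_cases h : S j = w + 1 <;> simp [h]

theorem lst_length (S : ℕ → ℕ) (j w : ℕ) :
    (lst S j w).length = ((range j).filter (fun k => S k = w + 1)).card := by
  induction j with
  | zero => simp [lst]
  | succ j ih =>
    rw [lst_succ, range_add_one, filter_insert]
    by_cases h : S j = w + 1
    · rw [if_pos h, if_pos h, List.length_cons, ih, card_insert_of_notMem (by simp)]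
    · rw [if_neg h, if_neg h, ih]

/-- Build the lists of incoming slots. -/
def lists : MCmd :=
  .seq (forC .i (.reg .n) (.put .FI (.reg .i) (.num 0))) <|
  forC .k (.reg .nn) <|
    .ite (.eq (.get .S (.reg .k)) (.num 0)) .skip
      (.seq (.put .NX (.reg .k) (.get .FI (.dec (.get .S (.reg .k))))) <|
       .put .FI (.dec (.get .S (.reg .k))) (.inc (.reg .k)))

/-- The lists are correct. -/
def ListsOK (n : ℕ) (σ : MSt) : Prop :=
  ∀ w < n, Chain (σ.m .NX) (lst (σ.m .S) (2 * n) w) (σ.m .FI w)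

theorem lists_spec {n s : ℕ} {σ : MSt} (hc : Cst n s σ) (hw : ∀ k < 2 * n, σ.m .S k ≤ n) :
    Spec lists σ (13 * n + 10) (fun σ' => ListsOK n σ') := by
  unfold lists
  refine Spec.mono (Spec.seq (B := (1 + 2) * n + 2) (B' := (3 + 2) * (2 * n) + 2)
    (forC_spec n 1 (fun j σ1 => Cst n s σ1 ∧ σ1.m .S = σ.m .S ∧ ∀ w < j, σ1.m .FI w = 0)
      ?_ ?_ ?_) ?_) (by omega) (fun _ h => h)
  · rintro j σ1 ⟨h1, -⟩
    simpa using h1.hn
  · rintro j σ1 hj ⟨h1, h2, h3⟩ h4
    apply Spec.of_runs
    simp only [runs_put, Exp.ev_reg, Exp.ev_num, h4]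
    refine ⟨by omega, fun _ => ⟨h4, ⟨?_, ?_, ?_, ?_, ?_⟩, ?_, ?_⟩⟩
    · simpa using h1.hn
    · simpa using h1.hnn
    · simpa using h1.hs
    · simpa using h1.tw
    · simpa using h1.ow
    · simpa using h2
    · intro w hw'
      simp only [St.setR_m, St.setM_m_same]
      by_cases h5 : w = j
      · rw [if_pos h5]
      · rw [if_neg h5]; exact h3 w (by omega)
  · exact ⟨⟨by simpa using hc.hn, by simpa using hc.hnn, by simpa using hc.hs, hc.tw, hc.ow⟩, rfl,
      fun w hw => by omega⟩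
  · rintro σ1 ⟨⟨h1, h2, h3⟩, -⟩ -
    refine (forC_spec (2 * n) 3 (fun j σ2 => Cst n s σ2 ∧ σ2.m .S = σ.m .S ∧
      ∀ w < n, Chain (σ2.m .NX) (lst (σ.m .S) j w) (σ2.m .FI w)) ?_ ?_ ?_).mono le_rfl ?_
    · rintro j σ2 ⟨g1, -⟩
      simpa using g1.hnn
    · rintro j σ2 hj ⟨g1, g2, g3⟩ g4
      apply Spec.of_runs
      simp only [runs_ite, runs_seq, runs_skip, runs_put, Exp.ev_reg, Exp.ev_num, Exp.ev_get,
        Exp.ev_dec, Exp.ev_inc, Cnd.ev_eq, g4, g2, St.setM_r]
      refine ⟨by omega, ?_, ?_⟩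
      · intro h0 _
        refine ⟨trivial, ⟨?_, ?_, ?_, ?_, ?_⟩, ?_, ?_⟩
        · simpa using g1.hn
        · simpa using g1.hnn
        · simpa using g1.hs
        · simpa using g1.tw
        · simpa using g1.ow
        · simpa using g2
        · intro w hw'
          rw [lst_succ, if_neg (by omega)]
          simpa using g3 w hw'
      · intro h0
        have hS := hw j hj
        refine ⟨by omega, by omega, fun _ => ⟨trivial, ⟨?_, ?_, ?_, ?_, ?_⟩, ?_, ?_⟩⟩
        · simpa using g1.hn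
        · simpa using g1.hnn
        · simpa using g1.hs
        · simpa using g1.tw
        · simpa using g1.ow
        · funext x; simp [g2]
        · intro w hw'
          have e1 : ((((σ2.setM .NX j (σ2.m .FI (σ.m .S j - 1))).setM .FI
              ((σ2.setM .NX j (σ2.m .FI (σ.m .S j - 1))).m .S j - 1) (j + 1))).setR .k (j + 1)).m .NX =
              upd (σ2.m .NX) j (σ2.m .FI (σ.m .S j - 1)) := by
            funext x; simp [upd]
          have e2 : ((((σ2.setM .NX j (σ2.m .FI (σ.m .S j - 1))).setM .FI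
              ((σ2.setM .NX j (σ2.m .FI (σ.m .S j - 1))).m .S j - 1) (j + 1))).setR .k (j + 1)).m .FI =
              upd (σ2.m .FI) (σ.m .S j - 1) (j + 1) := by
            funext x; simp [upd, g2]
          rw [e1, e2, lst_succ]
          by_cases h5 : σ.m .S j = w + 1
          · rw [if_pos h5]
            have h6 : σ.m .S j - 1 = w := by omega
            rw [h6, upd_same]
            refine ⟨rfl, ?_⟩
            rw [upd_same]
            refine Chain.congr ?_ (g3 w hw')
            intro k hk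
            have := (mem_lst.1 hk).1
            rw [upd_ne]; omega
          · rw [if_neg h5, upd_ne _ _ (show w ≠ σ.m .S j - 1 by omega)]
            refine Chain.congr ?_ (g3 w hw')
            intro k hk
            have := (mem_lst.1 hk).1
            rw [upd_ne]; omega
    · refine ⟨⟨?_, ?_, ?_, ?_, ?_⟩, ?_, ?_⟩
      · simpa using h1.hn
      · simpa using h1.hnn
      · simpa using h1.hs
      · simpa using h1.tw
      · simpa using h1.ow
      · simpa using h2
      · intro w hw'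
        simpa [lst, Chain] using h3 w hw'
    · rintro σ2 ⟨⟨g1, g2, g3⟩, -⟩
      unfold ListsOK
      rw [g2]
      exact g3

theorem lst_cons {S : ℕ → ℕ} {j w k : ℕ} {l : List ℕ} (h : lst S j w = k :: l) :
    S k = w + 1 ∧ l = lst S k w := by
  induction j with
  | zero => simp [lst] at h
  | succ j ih =>
    rw [lst_succ] at h
    by_cases h1 : S j = w + 1
    · rw [if_pos h1] at h
      injection h with h2 h3
      subst h2
      exact ⟨h1, h3.symm⟩
    · rw [if_neg h1] at h
      exact ih h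

theorem chain_norm {N S : ℕ → ℕ} {j w x : ℕ} (h : Chain N (lst S j w) x) :
    lst S x w = lst S j w := by
  cases hl : lst S j w with
  | nil =>
    rw [hl] at h
    have : x = 0 := h
    subst this
    simp [lst]
  | cons k l =>
    rw [hl] at h
    obtain ⟨rfl, h2⟩ := h
    obtain ⟨h3, h4⟩ := lst_cons hl
    rw [lst_succ, if_pos h3, h4]

/-- State of the search: marked set `M`, roots `Rt`. -/
structure BI (n : ℕ) (S : ℕ → ℕ) (M : Finset ℕ) (Rt : ℕ → Prop) (σ : MSt) : Prop where
  sub : M ⊆ range n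
  mb : ∀ x < n, σ.m .MB x = if x ∈ M then 1 else 0
  qt : σ.r .qt = M.card
  qh : σ.r .qh ≤ M.card
  rng : ∀ i < M.card, σ.m .QU i ∈ M
  inj : ∀ i < M.card, ∀ j < M.card, σ.m .QU i = σ.m .QU j → i = j
  clo : ∀ i < σ.r .qh, ∀ k < 2 * n, S k = σ.m .QU i + 1 → own n k ∈ M
  pi : ∀ j < M.card, (σ.m .PI (σ.m .QU j) = 0 ∧ Rt (σ.m .QU j)) ∨
    ∃ i < j, ∃ k < 2 * n, σ.m .PI (σ.m .QU j) = k + 1 ∧ own n k = σ.m .QU j ∧ S k = σ.m .QU i + 1
  pi0 : ∀ x < n, x ∉ M → σ.m .PI x = 0

/-- Number of slots whose head has not been dequeued. -/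
def remc (n : ℕ) (S QU : ℕ → ℕ) (qh : ℕ) : ℕ :=
  ((range (2 * n)).filter (fun k => S k ≠ 0 ∧ ∀ i < qh, S k ≠ QU i + 1)).card

/-- Potential of the search. -/
def BPhi (n : ℕ) (σ : MSt) : ℕ := 4 * (n - σ.r .qh) + 8 * remc n (σ.m .S) (σ.m .QU) (σ.r .qh)

theorem BPhi_le (n : ℕ) (σ : MSt) : BPhi n σ ≤ 20 * n := by
  unfold BPhi remc
  have : ((range (2 * n)).filter (fun k => σ.m .S k ≠ 0 ∧
      ∀ i < σ.r .qh, σ.m .S k ≠ σ.m .QU i + 1)).card ≤ 2 * n := by
    refine (card_filter_le _ _).trans ?_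
    simp
  omega

/-- Treat one incoming slot. -/
def bfsInner : MCmd :=
  .seq (.set .x (.get .OWN (.dec (.reg .k)))) <|
  .seq (.ite (.eq (.get .MB (.reg .x)) (.num 0))
    (.seq (.put .MB (.reg .x) (.num 1)) <|
     .seq (.put .PI (.reg .x) (.reg .k)) <|
     .seq (.put .QU (.reg .qt) (.reg .x)) <|
     .set .qt (.inc (.reg .qt))) .skip) <|
  .set .k (.get .NX (.dec (.reg .k)))

/-- Treat the next vertex of the queue. -/
def bfsOuter : MCmd :=
  .seq (.set .k (.get .FI (.get .QU (.reg .qh)))) <|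
  .seq (.whl (.neg (.eq (.reg .k) (.num 0))) bfsInner) <|
  .set .qh (.inc (.reg .qh))

/-- Run the search until the queue is empty. -/
def bfsRun : MCmd := .whl (.lt (.reg .qh) (.reg .qt)) bfsOuter

/-- Invariant of the inner loop, for the dequeued vertex `w`. -/
structure InI (n s : ℕ) (S : ℕ → ℕ) (M0 : Finset ℕ) (Rt : ℕ → Prop) (w : ℕ) (q0 : ℕ) (QU0 : ℕ → ℕ)
    (NX FI : ℕ → ℕ) (M : Finset ℕ) (σ : MSt) : Prop where
  cst : Cst n s σ
  hS : σ.m .S = S
  hNX : σ.m .NX = NX
  hFI : σ.m .FI = FI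
  bi : BI n S M Rt σ
  sub0 : M0 ⊆ M
  q : σ.r .qh = q0
  lt : q0 < M.card
  hq : σ.m .QU q0 = w
  old : ∀ i < M0.card, σ.m .QU i = QU0 i
  ch : Chain NX (lst S (σ.r .k) w) (σ.r .k)
  pr : ∀ k < 2 * n, S k = w + 1 → k < σ.r .k ∨ own n k ∈ M
  kle : σ.r .k ≤ 2 * n

theorem bfsInner_spec {n s : ℕ} {S : ℕ → ℕ} {M0 : Finset ℕ} {Rt : ℕ → Prop} {w q0 : ℕ}
    {QU0 NX FI : ℕ → ℕ} {M : Finset ℕ} {σ : MSt}
    (h : InI n s S M0 Rt w q0 QU0 NX FI M σ) (hk : σ.r .k ≠ 0) :
    Spec bfsInner σ 7 (fun σ' => (∃ M', InI n s S M0 Rt w q0 QU0 NX FI M' σ') ∧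
      (lst S (σ'.r .k) w).length + 1 = (lst S (σ.r .k) w).length) := by
  have hch := h.ch
  cases hl : lst S (σ.r .k) w with
  | nil => rw [hl] at hch; exact absurd hch hk
  | cons κ l =>
    rw [hl] at hch
    obtain ⟨e1, e2⟩ := hch
    obtain ⟨e3, e4⟩ := lst_cons hl
    rw [e4] at e2
    have e5 := chain_norm e2
    have hkn : κ < 2 * n := by have := h.kle; omega
    have hxn := own_range hkn
    have how := h.cst.ow κ hkn
    have hdec : σ.r .k - 1 = κ := by omega
    have hb := h.bi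
    have hnx2 : NX κ ≤ κ := by
      cases hl2 : lst S κ w with
      | nil => rw [hl2] at e2; have : NX κ = 0 := e2; omega
      | cons k2 l2 =>
        rw [hl2] at e2
        have h1 := e2.1
        have : k2 ∈ lst S κ w := by rw [hl2]; simp
        have := (mem_lst.1 this).1
        omega
    have hpr : ∀ M' : Finset ℕ, M ⊆ M' → own n κ ∈ M' →
        ∀ k < 2 * n, S k = w + 1 → k < NX κ ∨ own n k ∈ M' := by
      intro M' hM' hκ k hk1 hk2
      rcases h.pr k hk1 hk2 with h1 | h1
      · by_cases h2 : k = κ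
        · subst h2; exact Or.inr hκ
        · left
          have : k ∈ lst S κ w := mem_lst.2 ⟨by omega, hk2⟩
          rw [← e5] at this
          exact (mem_lst.1 this).1
      · exact Or.inr (hM' h1)
    apply Spec.of_runs
    simp only [bfsInner, runs_seq, runs_set, runs_ite, runs_put, runs_skip, Exp.ev_get, Exp.ev_reg,
      Exp.ev_dec, Exp.ev_num, Exp.ev_inc, Cnd.ev_eq, St.setR_r, St.setR_m, St.setM_r, reduceCtorEq,
      if_false, if_true, hdec, how]
    refine ⟨by omega, by omega, ?_, ?_⟩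
    · intro hmb
      have hxM : own n κ ∉ M := by
        intro hx
        have := hb.mb _ hxn
        rw [if_pos hx] at this
        omega
      have hcard : (insert (own n κ) M).card = M.card + 1 := card_insert_of_notMem hxM
      refine ⟨by omega, by omega, by omega, by omega, by omega, ?_⟩
      have fin : ∀ σ' : MSt, σ'.r .n = n → σ'.r .nn = 2 * n → σ'.r .s = s →
          σ'.r .qt = σ.r .qt + 1 → σ'.r .qh = σ.r .qh → σ'.r .k = NX κ →
          σ'.m .TW = σ.m .TW → σ'.m .OWN = σ.m .OWN → σ'.m .S = S → σ'.m .NX = NX →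
          σ'.m .FI = FI →
          σ'.m .MB = upd (σ.m .MB) (own n κ) 1 → σ'.m .PI = upd (σ.m .PI) (own n κ) (κ + 1) →
          σ'.m .QU = upd (σ.m .QU) (σ.r .qt) (own n κ) →
          (∃ M', InI n s S M0 Rt w q0 QU0 NX FI M' σ') ∧
          (lst S (σ'.r .k) w).length + 1 = (κ :: l).length := by
        intro σ' f1 f2 f3 f4 f5 f6 f7 f8 f9 f10 f10' f11 f12 f13
        have hqt := hb.qt
        have hqh := hb.qh
        have hM0 := card_le_card h.sub0
        have hQ : ∀ i < M.card, σ'.m .QU i = σ.m .QU i := by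
          intro i hi
          rw [f13, upd_ne]
          omega
        have hQ' : σ'.m .QU M.card = own n κ := by
          rw [f13, hqt, upd_same]
        refine ⟨⟨insert (own n κ) M, ⟨f1, f2, f3, by rw [f7]; exact h.cst.tw,
          by rw [f8]; exact h.cst.ow⟩, f9, f10, f10', ⟨?_, ?_, ?_, ?_, ?_, ?_, ?_, ?_, ?_⟩,
          ?_, ?_, ?_, ?_, ?_, ?_, ?_, ?_⟩, ?_⟩
        · intro z hz
          rcases mem_insert.1 hz with rfl | hz
          · exact mem_range.2 hxn
          · exact hb.sub hz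
        · intro x hx
          rw [f11]
          by_cases hxo : x = own n κ
          · subst hxo; rw [upd_same]; simp
          · rw [upd_ne _ _ hxo, hb.mb x hx]; simp [hxo]
        · rw [hcard]; omega
        · rw [hcard]; omega
        · intro i hi
          rw [hcard] at hi
          by_cases hi' : i < M.card
          · rw [hQ i hi']; exact mem_insert_of_mem (hb.rng i hi')
          · have : i = M.card := by omega
            subst this
            rw [hQ']; exact mem_insert_self _ _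
        · intro i hi j hj he
          rw [hcard] at hi hj
          by_cases hi' : i < M.card
          · by_cases hj' : j < M.card
            · rw [hQ i hi', hQ j hj'] at he
              exact hb.inj i hi' j hj' he
            · exfalso
              have : j = M.card := by omega
              subst this
              rw [hQ i hi', hQ'] at he
              exact hxM (he ▸ hb.rng i hi')
          · have hi2 : i = M.card := by omega
            subst hi2
            by_cases hj' : j < M.card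
            · exfalso
              rw [hQ j hj', hQ'] at he
              exact hxM (he ▸ hb.rng j hj')
            · omega
        · intro i hi k hk hSk
          rw [hQ i (by omega)] at hSk
          exact mem_insert_of_mem (hb.clo i (by omega) k hk hSk)
        · intro j hj
          rw [hcard] at hj
          by_cases hj' : j < M.card
          · rw [hQ j hj', f12]
            have hne : σ.m .QU j ≠ own n κ := by
              intro he; exact hxM (he ▸ hb.rng j hj')
            rw [upd_ne _ _ hne]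
            rcases hb.pi j hj' with h1 | ⟨i, hi, k, hk, g1, g2, g3⟩
            · exact Or.inl h1
            · exact Or.inr ⟨i, hi, k, hk, g1, g2, by rw [hQ i (by omega)]; exact g3⟩
          · have hj2 : j = M.card := by omega
            subst hj2
            right
            rw [hQ', f12, upd_same]
            refine ⟨q0, h.lt, κ, hkn, rfl, rfl, ?_⟩
            rw [hQ q0 h.lt, h.hq, e3]
        · intro x hx hxM'
          rw [mem_insert, not_or] at hxM'
          rw [f12, upd_ne _ _ hxM'.1]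
          exact hb.pi0 x hx hxM'.2
        · exact h.sub0.trans (subset_insert _ _)
        · rw [f5]; exact h.q
        · rw [hcard]; have := h.lt; omega
        · rw [hQ q0 h.lt]; exact h.hq
        · intro i hi
          rw [hQ i (by omega)]; exact h.old i hi
        · rw [f6, e5]; exact e2
        · rw [f6]; exact hpr _ (subset_insert _ _) (mem_insert_self _ _)
        · rw [f6]; omega
        · rw [f6, e5, e4]; simp
      refine fin _ ?_ ?_ ?_ ?_ ?_ ?_ ?_ ?_ ?_ ?_ ?_ ?_ ?_ ?_
      · simpa using h.cst.hn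
      · simpa using h.cst.hnn
      · simpa using h.cst.hs
      · simp
      · simp
      · simp [h.hNX]
      · funext i; simp
      · funext i; simp
      · funext i; simp [h.hS]
      · funext i; simp [h.hNX]
      · funext i; simp [h.hFI]
      · funext i; simp [upd]
      · funext i; simp [upd, e1]
      · funext i; simp [upd]
    · intro hmb
      have hxM : own n κ ∈ M := by
        by_contra hx
        have := hb.mb _ hxn
        rw [if_neg hx] at this
        exact hmb this
      refine ⟨by omega, ⟨M, ⟨?_, ?_, ?_, ?_, ?_⟩, ?_, ?_, ?_, ?_, ?_, ?_, ?_, ?_, ?_, ?_, ?_, ?_⟩, ?_⟩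
      · simpa using h.cst.hn
      · simpa using h.cst.hnn
      · simpa using h.cst.hs
      · simpa using h.cst.tw
      · simpa using h.cst.ow
      · simpa using h.hS
      · simpa using h.hNX
      · simpa using h.hFI
      · exact ⟨hb.sub, by simpa using hb.mb, by simpa using hb.qt, by simpa using hb.qh,
          by simpa using hb.rng, by simpa using hb.inj, by simpa using hb.clo,
          by simpa using hb.pi, by simpa using hb.pi0⟩
      · exact h.sub0
      · simpa using h.q
      · exact h.lt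
      · simpa using h.hq
      · simpa using h.old
      · simp only [St.setR_r, if_true, h.hNX]
        rw [e5]; exact e2
      · simp only [St.setR_r, if_true, h.hNX]
        exact hpr M (Subset.refl _) hxM
      · simp only [St.setR_r, if_true, h.hNX]
        omega
      · simp only [St.setR_r, if_true, h.hNX, e5, e4]
        simp

theorem remc_succ {n : ℕ} {S QU : ℕ → ℕ} {q w : ℕ} (hw : QU q = w)
    (hne : ∀ i < q, QU i ≠ w) :
    remc n S QU q = remc n S QU (q + 1) + (lst S (2 * n) w).length := by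
  rw [lst_length]
  unfold remc
  rw [← card_union_of_disjoint]
  · congr 1
    ext k
    simp only [mem_filter, mem_range, mem_union]
    constructor
    · rintro ⟨h1, h2, h3⟩
      by_cases h4 : S k = w + 1
      · exact Or.inr ⟨h1, h4⟩
      · refine Or.inl ⟨h1, h2, ?_⟩
        intro i hi
        rcases Nat.lt_succ_iff_lt_or_eq.1 hi with h5 | rfl
        · exact h3 i h5
        · rw [hw]; exact h4
    · rintro (⟨h1, h2, h3⟩ | ⟨h1, h2⟩)
      · exact ⟨h1, h2, fun i hi => h3 i (by omega)⟩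
      · refine ⟨h1, by omega, fun i hi h3 => ?_⟩
        have := hne i hi
        omega
  · rw [disjoint_left]
    intro k h1 h2
    have h3 := (mem_filter.1 h1).2.2 q (by omega)
    have h4 := (mem_filter.1 h2).2
    rw [hw] at h3
    exact h3 h4

theorem remc_congr {n : ℕ} {S QU QU' : ℕ → ℕ} {q : ℕ} (h : ∀ i < q, QU' i = QU i) :
    remc n S QU' q = remc n S QU q := by
  unfold remc
  congr 1
  apply filter_congr
  intro k hk
  refine and_congr_right fun _ => ?_
  constructor
  · intro h1 i hi; rw [← h i hi]; exact h1 i hi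
  · intro h1 i hi; rw [h i hi]; exact h1 i hi

/-- Invariant of the outer loop. -/
structure OutI (n s : ℕ) (S : ℕ → ℕ) (M0 : Finset ℕ) (Rt : ℕ → Prop) (QU0 NX FI : ℕ → ℕ)
    (M : Finset ℕ) (σ : MSt) : Prop where
  cst : Cst n s σ
  hS : σ.m .S = S
  hNX : σ.m .NX = NX
  hFI : σ.m .FI = FI
  bi : BI n S M Rt σ
  sub0 : M0 ⊆ M
  old : ∀ i < M0.card, σ.m .QU i = QU0 i

theorem bfsInnerLoop_spec {n s : ℕ} {S : ℕ → ℕ} {M0 : Finset ℕ} {Rt : ℕ → Prop} {w q0 : ℕ}
    {QU0 NX FI : ℕ → ℕ} {M : Finset ℕ} {σ : MSt}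
    (h : InI n s S M0 Rt w q0 QU0 NX FI M σ) :
    Spec (.whl (.neg (.eq (.reg .k) (.num 0))) bfsInner) σ (8 * (lst S (σ.r .k) w).length + 1)
      (fun σ' => (∃ M', InI n s S M0 Rt w q0 QU0 NX FI M' σ') ∧ σ'.r .k = 0) := by
  refine (Spec.whl (fun σ1 => ∃ M', InI n s S M0 Rt w q0 QU0 NX FI M' σ1)
    (fun σ1 => (lst S (σ1.r .k) w).length) 7 ?_ ⟨M, h⟩).mono (by omega) ?_
  · rintro σ1 ⟨M1, h1⟩ hb
    simp only [Cnd.ev_neg, Cnd.ev_eq, Exp.ev_reg, Exp.ev_num] at hb
    refine (bfsInner_spec h1 hb).mono le_rfl ?_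
    rintro σ2 ⟨h2, h3⟩ -
    exact ⟨h2, by omega⟩
  · rintro σ1 ⟨h1, hb⟩
    simp only [Cnd.ev_neg, Cnd.ev_eq, Exp.ev_reg, Exp.ev_num, not_not] at hb
    exact ⟨h1, hb⟩

theorem bfsOuter_spec {n s : ℕ} {S : ℕ → ℕ} {M0 : Finset ℕ} {Rt : ℕ → Prop}
    {QU0 NX FI : ℕ → ℕ} {M : Finset ℕ} {σ : MSt} (hw : ∀ k < 2 * n, S k ≤ n)
    (hl : ∀ w < n, Chain NX (lst S (2 * n) w) (FI w))
    (h : OutI n s S M0 Rt QU0 NX FI M σ) (hq : σ.r .qh < σ.r .qt) :
    SpecT bfsOuter σ (fun σ' t => (∃ M', M ⊆ M' ∧ OutI n s S M0 Rt QU0 NX FI M' σ') ∧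
      σ'.r .qh = σ.r .qh + 1 ∧ t + 1 + BPhi n σ' ≤ BPhi n σ) := by
  have hb := h.bi
  have hqM : σ.r .qh < M.card := by rw [← hb.qt]; exact hq
  obtain ⟨w, hwd⟩ : ∃ w, σ.m .QU (σ.r .qh) = w := ⟨_, rfl⟩
  have hwM : w ∈ M := by rw [← hwd]; exact hb.rng _ hqM
  have hwn : w < n := mem_range.1 (hb.sub hwM)
  have hchain := hl w hwn
  have hnorm := chain_norm hchain
  have hFIle : FI w ≤ 2 * n := by
    cases hl2 : lst S (2 * n) w with
    | nil => rw [hl2] at hchain; have : FI w = 0 := hchain; omega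
    | cons k2 l2 =>
      rw [hl2] at hchain
      have h1 := hchain.1
      have : k2 ∈ lst S (2 * n) w := by rw [hl2]; simp
      have := (mem_lst.1 this).1
      omega
  have hne : ∀ i < σ.r .qh, σ.m .QU i ≠ w := by
    intro i hi he
    have := hb.inj i (by omega) (σ.r .qh) hqM (by rw [he, hwd])
    omega
  have hrem := remc_succ (n := n) (S := S) hwd hne
  refine SpecT.of_runs (T := 8 * (lst S (2 * n) w).length + 3) ?_
  simp only [bfsOuter, runs_seq, runs_set, Exp.ev_get, Exp.ev_reg, Exp.ev_inc]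
  refine ⟨by omega, ?_⟩
  have hin : InI n s S M Rt w (σ.r .qh) (σ.m .QU) NX FI M
      (σ.setR .k (σ.m .FI (σ.m .QU (σ.r .qh)))) := by
    refine ⟨⟨?_, ?_, ?_, ?_, ?_⟩, ?_, ?_, ?_, ?_, Subset.refl _, ?_, ?_, ?_, ?_, ?_, ?_, ?_⟩
    · simpa using h.cst.hn
    · simpa using h.cst.hnn
    · simpa using h.cst.hs
    · simpa using h.cst.tw
    · simpa using h.cst.ow
    · simpa using h.hS
    · simpa using h.hNX
    · simpa using h.hFI
    · exact ⟨hb.sub, by simpa using hb.mb, by simpa using hb.qt, by simpa using hb.qh,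
          by simpa using hb.rng, by simpa using hb.inj, by simpa using hb.clo,
          by simpa using hb.pi, by simpa using hb.pi0⟩
    · simp
    · exact hqM
    · simpa using hwd
    · simp
    · simp only [St.setR_r, if_true, hwd, h.hFI, hnorm]
      exact hchain
    · intro k hk1 hk2
      left
      simp only [St.setR_r, if_true, hwd, h.hFI]
      have : k ∈ lst S (2 * n) w := mem_lst.2 ⟨hk1, hk2⟩
      rw [← hnorm] at this
      exact (mem_lst.1 this).1
    · simp only [St.setR_r, if_true, hwd, h.hFI]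
      exact hFIle
  refine Runs.of_specT (bfsInnerLoop_spec hin).toSpecT.frame ?_
  rintro σ1 t1 ⟨⟨ht1, ⟨M1, h1⟩, hk0⟩, hf1⟩
  simp only [St.setR_r, if_true, hwd, h.hFI, hnorm] at ht1
  refine ⟨by omega, by omega, ?_⟩
  intro t ht
  have hb1 := h1.bi
  have hclo' : ∀ i < σ.r .qh + 1, ∀ k < 2 * n, S k = σ1.m .QU i + 1 → own n k ∈ M1 := by
    intro i hi k hk1 hk2
    rcases Nat.lt_succ_iff_lt_or_eq.1 hi with h5 | rfl
    · exact hb1.clo i (by rw [h1.q]; exact h5) k hk1 hk2
    · rw [h1.hq] at hk2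
      rcases h1.pr k hk1 hk2 with h6 | h6
      · omega
      · exact h6
  refine ⟨⟨M1, h1.sub0, ⟨⟨?_, ?_, ?_, ?_, ?_⟩, ?_, ?_, ?_, ⟨?_, ?_, ?_, ?_, ?_, ?_, ?_, ?_, ?_⟩,
    ?_, ?_⟩⟩, ?_, ?_⟩
  · simpa using h1.cst.hn
  · simpa using h1.cst.hnn
  · simpa using h1.cst.hs
  · simpa using h1.cst.tw
  · simpa using h1.cst.ow
  · simpa using h1.hS
  · simpa using h1.hNX
  · simpa using h1.hFI
  · exact hb1.sub
  · simpa using hb1.mb
  · simpa using hb1.qt
  · have := h1.lt
    simp [h1.q]
    omega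
  · simpa using hb1.rng
  · simpa using hb1.inj
  · simpa [h1.q] using hclo'
  · simpa using hb1.pi
  · simpa using hb1.pi0
  · exact h.sub0.trans h1.sub0
  · intro i hi
    have := card_le_card h.sub0
    simp only [St.setR_m]
    rw [h1.old i (by omega), h.old i hi]
  · simp [h1.q]
  · unfold BPhi
    have e1 : remc n S (σ1.m .QU) (σ.r .qh + 1) = remc n S (σ.m .QU) (σ.r .qh + 1) :=
      remc_congr (fun i hi => h1.old i (by omega))
    have e2 : (σ1.setR .qh (σ1.r .qh + 1)).r .qh = σ.r .qh + 1 := by simp [h1.q]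
    have e3 : (σ1.setR .qh (σ1.r .qh + 1)).m .S = S := by simpa using h1.hS
    have e4 : (σ1.setR .qh (σ1.r .qh + 1)).m .QU = σ1.m .QU := by simp
    have hMn : M.card ≤ n := by
      have := card_le_card hb.sub
      simpa using this
    rw [e2, e3, e4, e1, h.hS, hrem]
    omega

/-- Running the search. -/
theorem bfsRun_spec {n s : ℕ} {S : ℕ → ℕ} {M0 : Finset ℕ} {Rt : ℕ → Prop}
    {QU0 NX FI : ℕ → ℕ} {σ : MSt} (hw : ∀ k < 2 * n, S k ≤ n)
    (hl : ∀ w < n, Chain NX (lst S (2 * n) w) (FI w))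
    (h : OutI n s S M0 Rt QU0 NX FI M0 σ) :
    SpecT bfsRun σ (fun σ' t => ∃ M', OutI n s S M0 Rt QU0 NX FI M' σ' ∧ σ'.r .qh = M'.card ∧
      σ.r .qh ≤ σ'.r .qh ∧
      t + BPhi n σ' ≤ BPhi n σ + 1) := by
  unfold bfsRun
  refine SpecT.mono (SpecT.whl
    (fun σ1 => ∃ M', OutI n s S M0 Rt QU0 NX FI M' σ1 ∧ σ.r .qh ≤ σ1.r .qh) (BPhi n) ?_
    ⟨M0, h, le_rfl⟩) ?_
  · rintro σ1 ⟨M1, h1, h2⟩ hb
    simp only [Cnd.ev_lt, Exp.ev_reg] at hb
    refine (bfsOuter_spec hw hl h1 hb).mono ?_
    rintro σ2 t ⟨⟨M2, hM, g1⟩, g2, g3⟩ -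
    exact ⟨⟨M2, g1, by omega⟩, g3⟩
  · rintro σ1 t ⟨⟨M1, h1, h2⟩, hb, h3⟩
    simp only [Cnd.ev_lt, Exp.ev_reg] at hb
    have h4 := h1.bi.qh
    have h5 := h1.bi.qt
    exact ⟨M1, h1, by omega, h2, h3⟩

/-- Initial marking of the roots. -/
def bfsInit : MCmd :=
  .seq (.set .qh (.num 0)) <|
  .seq (.set .qt (.num 0)) <|
  forC .y (.reg .n) <|
    .seq (.put .MB (.reg .y) (.num 0)) <|
    .seq (.put .PI (.reg .y) (.num 0)) <|
    .ite (.and (.or (.eq (.get .S (.reg .y)) (.num 0)) (.eq (.get .S (.get .TW (.reg .y))) (.num 0)))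
        (.and (.neg (.eq (.reg .y) (.reg .xu))) (.neg (.eq (.reg .y) (.reg .xv)))))
      (.seq (.put .MB (.reg .y) (.num 1)) <|
       .seq (.put .QU (.reg .qt) (.reg .y)) <|
       .set .qt (.inc (.reg .qt))) .skip

/-- Roots of the search: vertices with a free slot, other than `a` and `b`. -/
def Rt (n : ℕ) (S : ℕ → ℕ) (a b v : ℕ) : Prop :=
  (S v = 0 ∨ S (v + n) = 0) ∧ v ≠ a ∧ v ≠ b

/-- Invariant of the marking loop. -/
structure InitI (n s : ℕ) (σ0 : MSt) (j : ℕ) (M : Finset ℕ) (σ : MSt) : Prop where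
  cst : Cst n s σ
  hS : σ.m .S = σ0.m .S
  hNX : σ.m .NX = σ0.m .NX
  hFI : σ.m .FI = σ0.m .FI
  xu : σ.r .xu = σ0.r .xu
  xv : σ.r .xv = σ0.r .xv
  hM : ∀ v, v ∈ M ↔ v < j ∧ Rt n (σ0.m .S) (σ0.r .xu) (σ0.r .xv) v
  mb : ∀ x < j, σ.m .MB x = if x ∈ M then 1 else 0
  pi : ∀ x < j, σ.m .PI x = 0
  qt : σ.r .qt = M.card
  qh : σ.r .qh = 0
  rng : ∀ i < M.card, σ.m .QU i ∈ M
  inj : ∀ i < M.card, ∀ j < M.card, σ.m .QU i = σ.m .QU j → i = j

theorem bfsInit_spec {n s : ℕ} {σ : MSt} (hc : Cst n s σ) :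
    Spec bfsInit σ (8 * n + 4) (fun σ' => ∃ M, InitI n s σ n M σ') := by
  unfold bfsInit
  apply Spec.of_runs
  simp only [runs_seq, runs_set, Exp.ev_num]
  refine ⟨by omega, by omega, ?_⟩
  refine Runs.of_spec (forC_spec n 6 (fun j σ1 => ∃ M, InitI n s σ j M σ1) ?_ ?_ ?_) (by omega) ?_
  · rintro j σ1 ⟨M, h1⟩
    simpa using h1.cst.hn
  · rintro j σ1 hj ⟨M, h1⟩ hy
    have htw := h1.cst.tw j hj
    apply Spec.of_runs
    simp only [runs_seq, runs_put, runs_ite, runs_set, runs_skip, Exp.ev_reg, Exp.ev_num,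
      Exp.ev_get, Exp.ev_inc, Cnd.ev_and, Cnd.ev_or, Cnd.ev_neg, Cnd.ev_eq, hy, St.setM_r,
      St.setR_r]
    refine ⟨by omega, by omega, by omega, ?_, ?_⟩
    · intro hR
      have hR' : Rt n (σ.m .S) (σ.r .xu) (σ.r .xv) j := by
        simpa [htw, h1.hS, h1.xu, h1.xv, Rt] using hR
      have hjM : j ∉ M := fun hj' => by have := ((h1.hM j).1 hj').1; omega
      have hcard : (insert j M).card = M.card + 1 := card_insert_of_notMem hjM
      refine ⟨by omega, by omega, by omega, fun _ => ?_⟩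
      have fin : ∀ σ' : MSt, σ'.r .y = j + 1 → Cst n s σ' → σ'.m .S = σ.m .S →
          σ'.m .NX = σ.m .NX → σ'.m .FI = σ.m .FI → σ'.r .xu = σ.r .xu → σ'.r .xv = σ.r .xv →
          σ'.m .MB = upd (σ1.m .MB) j 1 → σ'.m .PI = upd (σ1.m .PI) j 0 →
          σ'.r .qt = σ1.r .qt + 1 → σ'.r .qh = 0 → σ'.m .QU = upd (σ1.m .QU) (σ1.r .qt) j →
          ∃ M, InitI n s σ (j + 1) M σ' := by
        intro σ' f0 f1 f2 f3 f4 f5 f6 f7 f8 f9 f10 f11
        have hqt := h1.qt
        have hQ : ∀ i < M.card, σ'.m .QU i = σ1.m .QU i := by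
          intro i hi
          rw [f11, upd_ne]
          omega
        have hQ' : σ'.m .QU M.card = j := by
          rw [f11, hqt, upd_same]
        refine ⟨insert j M, f1, f2, f3, f4, f5, f6, ?_, ?_, ?_, ?_, f10, ?_, ?_⟩
        · intro v
          rw [mem_insert, h1.hM]
          constructor
          · rintro (rfl | ⟨g1, g2⟩)
            · exact ⟨by omega, hR'⟩
            · exact ⟨by omega, g2⟩
          · rintro ⟨g1, g2⟩
            by_cases hvj : v = j
            · exact Or.inl hvj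
            · exact Or.inr ⟨by omega, g2⟩
        · intro x hx
          rw [f7]
          by_cases hxj : x = j
          · subst hxj; rw [upd_same]; simp
          · rw [upd_ne _ _ hxj, h1.mb x (by omega)]; simp [hxj]
        · intro x hx
          rw [f8]
          by_cases hxj : x = j
          · subst hxj; rw [upd_same]
          · rw [upd_ne _ _ hxj, h1.pi x (by omega)]
        · rw [f9, hcard, hqt]
        · intro i hi
          rw [hcard] at hi
          by_cases hi' : i < M.card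
          · rw [hQ i hi']; exact mem_insert_of_mem (h1.rng i hi')
          · have : i = M.card := by omega
            subst this
            rw [hQ']; exact mem_insert_self _ _
        · intro i hi l hl he
          rw [hcard] at hi hl
          by_cases hi' : i < M.card
          · by_cases hl' : l < M.card
            · rw [hQ i hi', hQ l hl'] at he
              exact h1.inj i hi' l hl' he
            · exfalso
              have : l = M.card := by omega
              subst this
              rw [hQ i hi', hQ'] at he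
              exact hjM (he ▸ h1.rng i hi')
          · have hi2 : i = M.card := by omega
            subst hi2
            by_cases hl' : l < M.card
            · exfalso
              rw [hQ l hl', hQ'] at he
              exact hjM (he ▸ h1.rng l hl')
            · omega
      refine ⟨by simp [hy], fin _ ?_ ⟨?_, ?_, ?_, ?_, ?_⟩ ?_ ?_ ?_ ?_ ?_ ?_ ?_ ?_ ?_ ?_⟩
      · simp
      · simpa using h1.cst.hn
      · simpa using h1.cst.hnn
      · simpa using h1.cst.hs
      · simpa using h1.cst.tw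
      · simpa using h1.cst.ow
      · funext i; simp [h1.hS]
      · funext i; simp [h1.hNX]
      · funext i; simp [h1.hFI]
      · simp [h1.xu]
      · simp [h1.xv]
      · funext i; by_cases hi : i = j <;> simp [upd, hi]
      · funext i; simp [upd]
      · simp
      · simp [h1.qh]
      · funext i; simp [upd]
    · intro hR
      have hR' : ¬ Rt n (σ.m .S) (σ.r .xu) (σ.r .xv) j := by
        simpa [htw, h1.hS, h1.xu, h1.xv, Rt] using hR
      have hjM : j ∉ M := fun hj' => by have := ((h1.hM j).1 hj').1; omega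
      intro _
      refine ⟨by simp [hy], M, ⟨?_, ?_, ?_, ?_, ?_⟩, ?_, ?_, ?_, ?_, ?_, ?_, ?_, ?_, ?_, ?_, ?_, ?_⟩
      · simpa using h1.cst.hn
      · simpa using h1.cst.hnn
      · simpa using h1.cst.hs
      · simpa using h1.cst.tw
      · simpa using h1.cst.ow
      · funext i; simp [h1.hS]
      · funext i; simp [h1.hNX]
      · funext i; simp [h1.hFI]
      · simp [h1.xu]
      · simp [h1.xv]
      · intro v
        rw [h1.hM]
        constructor
        · rintro ⟨g1, g2⟩; exact ⟨by omega, g2⟩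
        · rintro ⟨g1, g2⟩
          refine ⟨?_, g2⟩
          by_cases hvj : v = j
          · subst hvj; exact absurd g2 hR'
          · omega
      · intro x hx
        by_cases hxj : x = j
        · subst hxj; simp [hjM]
        · have := h1.mb x (by omega)
          simp [this, hxj]
      · intro x hx
        by_cases hxj : x = j
        · subst hxj; simp
        · have := h1.pi x (by omega)
          simp [this, hxj]
      · simp [h1.qt]
      · simp [h1.qh]
      · simpa using h1.rng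
      · simpa using h1.inj
  · refine ⟨∅, ⟨?_, ?_, ?_, ?_, ?_⟩, ?_, ?_, ?_, ?_, ?_, ?_, ?_, ?_, ?_, ?_, ?_, ?_⟩
    · simpa using hc.hn
    · simpa using hc.hnn
    · simpa using hc.hs
    · simpa using hc.tw
    · simpa using hc.ow
    all_goals simp
  · rintro σ1 T1 ⟨⟨M, h1⟩, h2⟩ -
    exact ⟨M, h1⟩

/-- The search from all vertices with a free slot other than `xu`, `xv`. -/
def bfs : MCmd := .seq lists (.seq bfsInit bfsRun)

/-- Outcome of the search. -/
structure BfsOK (n s : ℕ) (σ0 : MSt) (M : Finset ℕ) (σ : MSt) : Prop where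
  out : OutI n s (σ0.m .S) ∅ (Rt n (σ0.m .S) (σ0.r .xu) (σ0.r .xv)) (σ.m .QU) (σ.m .NX) (σ.m .FI)
    M σ
  li : ListsOK n σ
  qh : σ.r .qh = M.card
  rt : ∀ v < n, Rt n (σ0.m .S) (σ0.r .xu) (σ0.r .xv) v → v ∈ M

theorem bfs_spec {n s : ℕ} {σ : MSt} (hc : Cst n s σ) (hw : ∀ k < 2 * n, σ.m .S k ≤ n) :
    Spec bfs σ (41 * n + 15) (fun σ' => ∃ M, BfsOK n s σ M σ') := by
  unfold bfs
  apply Spec.of_runs
  simp only [runs_seq]
  refine Runs.of_spec (lists_spec hc hw).frame (by omega) ?_
  rintro σ1 T1 ⟨hli, hf1⟩ hT1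
  have hc1 : Cst n s σ1 := hc.of_frame hf1 (by decide)
  have hS1 : σ1.m .S = σ.m .S := hf1.m _ (by decide)
  have hxu1 : σ1.r .xu = σ.r .xu := hf1.r _ (by decide)
  have hxv1 : σ1.r .xv = σ.r .xv := hf1.r _ (by decide)
  refine Runs.of_spec (bfsInit_spec hc1).frame (by omega) ?_
  rintro σ2 T2 ⟨⟨M0, h2⟩, hf2⟩ hT2
  have hcl : ∀ v ∈ M0, v < n := fun v hv => ((h2.hM v).1 hv).1
  have hout : OutI n s (σ.m .S) M0 (Rt n (σ.m .S) (σ.r .xu) (σ.r .xv)) (σ2.m .QU) (σ2.m .NX)
      (σ2.m .FI) M0 σ2 := by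
    refine ⟨h2.cst, by rw [h2.hS, hS1], rfl, rfl, ⟨?_, h2.mb, h2.qt, ?_, h2.rng, h2.inj, ?_, ?_, ?_⟩,
      Subset.refl _, fun _ _ => rfl⟩
    · intro v hv; exact mem_range.2 (hcl v hv)
    · rw [h2.qh]; omega
    · intro i hi; rw [h2.qh] at hi; omega
    · intro j hj
      left
      have h3 := h2.rng j hj
      refine ⟨h2.pi _ (hcl _ h3), ?_⟩
      have := ((h2.hM _).1 h3).2
      rwa [hS1, hxu1, hxv1] at this
    · intro x hx _; exact h2.pi x hx
  have hli2 : ∀ w < n, Chain (σ2.m .NX) (lst (σ.m .S) (2 * n) w) (σ2.m .FI w) := by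
    intro w hw'
    rw [h2.hNX, h2.hFI, ← hS1]
    exact hli w hw'
  have hphi := BPhi_le n σ2
  refine Runs.of_specT (bfsRun_spec hw hli2 hout).frame ?_
  rintro σ3 t3 ⟨⟨M, h3, h4, h5, h6⟩, hf3⟩
  refine ⟨by omega, M, ?_⟩
  refine ⟨⟨h3.cst, h3.hS, rfl, rfl, h3.bi, empty_subset _, fun _ _ => rfl⟩, ?_, h4, ?_⟩
  · intro w hw'
    rw [h3.hS, h3.hNX, h3.hFI]
    exact hli2 w hw'
  · intro v hv hR
    apply h3.sub0
    rw [h2.hM]
    refine ⟨hv, ?_⟩
    rwa [hS1, hxu1, hxv1]

end Pool.Agent.H.MP_d01483_lc
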