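import Pool.Agent.H.MP_d01483_lc.Explore

set_option linter.unusedSectionVars false
set_option linter.unusedVariables false
set_option linter.unusedSimpArgs false

namespace Pool.Agent.H.MP_d01483_lc

open Finset

theorem slots_card {n : ℕ} {R : Finset ℕ} (hR : R ⊆ range n) :
    ((range (2 * n)).filter (fun k => own n k ∈ R)).card = 2 * R.card := by
  have h : (range (2 * n)).filter (fun k => own n k ∈ R) = R ∪ R.image (fun v => v + n) := by
    ext k
    simp only [mem_filter, mem_range, mem_union, mem_image]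
    constructor
    · rintro ⟨hk, hR'⟩
      unfold own at hR'
      split_ifs at hR' with h
      · exact Or.inl hR'
      · exact Or.inr ⟨_, hR', by omega⟩
    · rintro (h | ⟨v, hv, rfl⟩)
      · have := mem_range.1 (hR h)
        exact ⟨by omega, by rw [own_lt n k this]; exact h⟩
      · have := mem_range.1 (hR hv)
        exact ⟨by omega, by rw [own_add n v this]; exact hv⟩
  rw [h, card_union_of_disjoint, card_image_of_injective _ (add_left_injective n)]
  · ring
  · rw [disjoint_left]
    intro a ha hb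
    obtain ⟨v, hv, rfl⟩ := mem_image.1 hb
    have := mem_range.1 (hR ha)
    omega

/-- An injective enumeration of `2|R|` slots owned by `R` computes `fx`. -/
theorem fx_eq_count {n : ℕ} {S c : ℕ → ℕ} {R : Finset ℕ} (hR : R ⊆ range n)
    (hc : ∀ i < 2 * R.card, c i < 2 * n ∧ own n (c i) ∈ R)
    (hinj : ∀ i < 2 * R.card, ∀ j < 2 * R.card, c i = c j → i = j) :
    ((range (2 * R.card)).filter (fun i => S (c i) = 0 ∨ S (c i) - 1 ∉ R)).card = fx n S R := by
  have himg : (range (2 * R.card)).image c = (range (2 * n)).filter (fun k => own n k ∈ R) := by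
    apply eq_of_subset_of_card_le
    · intro k hk
      obtain ⟨i, hi, rfl⟩ := mem_image.1 hk
      have := hc i (mem_range.1 hi)
      exact mem_filter.2 ⟨mem_range.2 this.1, this.2⟩
    · rw [slots_card hR, card_image_of_injOn, card_range]
      intro i hi j hj h
      exact hinj i (by simpa using hi) j (by simpa using hj) h
  have : fx n S R = (((range (2 * n)).filter (fun k => own n k ∈ R)).filter
      (fun k => S k = 0 ∨ S k - 1 ∉ R)).card := by
    unfold fx
    rw [filter_filter]
  rw [this, ← himg, filter_image, card_image_of_injOn]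
  intro i hi j hj h
  simp only [coe_filter, mem_range, Set.mem_ofPred_eq] at hi hj
  exact hinj i hi.1 j hj.1 h

/-- Count the slots in `cl[0..l)` which are free or whose head is not marked. -/
def cntC (cl : Arr) (l : Reg) : MCmd :=
  .seq (.set .f (.num 0)) <| forC .i (.reg l) <|
    .seq (.set .k (.get cl (.reg .i))) <|
    .ite (.or (.eq (.get .S (.reg .k)) (.num 0)) (.eq (.get .MK (.dec (.get .S (.reg .k)))) (.num 0)))
      (.set .f (.inc (.reg .f))) .skip

/-- Erase the marks of the owners of `cl[0..l)`. -/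
def unmC (cl : Arr) (l : Reg) : MCmd :=
  forC .i (.reg l) <| .put .MK (.get .OWN (.get cl (.reg .i))) (.num 0)

/-- Check whether the explored set is a small set with `fx ≤ 3`; then erase the marks. -/
def chk (cl : Arr) (l : Reg) : MCmd :=
  .seq (cntC cl l) <|
  .seq (.ite (.and (.neg (.lt (.reg .s) (.reg .nv))) (.lt (.reg .f) (.num 4)))
    (.set .found (.num 1)) .skip) <|
  unmC cl l

theorem cntC_spec {n s : ℕ} {cl : Arr} {l : Reg} (N : ExpN cl l) {R : Finset ℕ} {σ : MSt}
    (hc : Cst n s σ) (hw : ∀ k < 2 * n, σ.m .S k ≤ n) (h : ExpI n s cl l R σ) :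
    Spec (cntC cl l) σ (5 * (2 * R.card) + 3) (fun σ' => σ'.r .f = fx n (σ.m .S) R) := by
  have hf := fx_eq_count (S := σ.m .S) h.sub h.rng h.inj
  have hlen := h.len
  apply Spec.of_runs
  unfold cntC
  simp only [runs_seq, runs_set]
  refine ⟨by omega, ?_⟩
  refine Runs.of_spec (B := (3 + 2) * (2 * R.card) + 2) (forC_spec (2 * R.card) 3
    (fun j σ1 => σ1.r l = 2 * R.card ∧ σ1.m = σ.m ∧
      σ1.r .f = ((range j).filter (fun i => σ.m .S (σ.m cl i) = 0 ∨ σ.m .S (σ.m cl i) - 1 ∉ R)).card)
    ?_ ?_ ?_) (by omega) ?_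
  · rintro j σ1 ⟨h1, -⟩
    simpa using h1
  · rintro j σ1 hj ⟨h1, h2, h3⟩ h4
    apply Spec.of_runs
    obtain ⟨hk, hok⟩ := h.rng j hj
    have hcond : (σ.m .S (σ.m cl j) = 0 ∨ σ.m .MK (σ.m .S (σ.m cl j) - 1) = 0) ↔
        (σ.m .S (σ.m cl j) = 0 ∨ σ.m .S (σ.m cl j) - 1 ∉ R) := by
      by_cases h0 : σ.m .S (σ.m cl j) = 0
      · simp [h0]
      · have := h.mark (σ.m .S (σ.m cl j) - 1) (by have := hw _ hk; omega)
        rw [this]
        by_cases h5 : σ.m .S (σ.m cl j) - 1 ∈ R <;> simp [h5]
    have hrange : range (j + 1) = insert j (range j) := by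
      rw [range_add_one]
    cases N
    all_goals
    simp only [runs_seq, runs_set, runs_ite, runs_skip, Exp.ev_get, Exp.ev_reg, Exp.ev_num,
      Exp.ev_inc, Exp.ev_dec, Cnd.ev_or, Cnd.ev_eq, St.setR_r, St.setR_m, reduceCtorEq, if_false,
      if_true, h2, h4, hcond]
    refine ⟨by omega, by omega, ?_, ?_⟩
    · intro hyes
      refine ⟨by omega, fun _ => ⟨trivial, h1, trivial, ?_⟩⟩
      rw [hrange, filter_insert, if_pos hyes, card_insert_of_notMem (by simp), h3]
    · intro hno _
      refine ⟨trivial, h1, trivial, ?_⟩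
      rw [hrange, filter_insert, if_neg hno, h3]
  · cases N <;> simp [hlen]
  · rintro σ' T' ⟨⟨h1, h2, h3⟩, h4⟩ hT
    rw [h3, hf]

theorem unmC_spec {n s : ℕ} {cl : Arr} {l : Reg} (N : ExpN cl l) {R : Finset ℕ} {σ : MSt}
    (hc : Cst n s σ) (h : ExpI n s cl l R σ) :
    Spec (unmC cl l) σ (3 * (2 * R.card) + 3) (fun σ' => ∀ x < n, σ'.m .MK x = 0) := by
  have hlen := h.len
  refine Spec.mono (B := (1 + 2) * (2 * R.card) + 2) (forC_spec (2 * R.card) 1
    (fun j σ1 => σ1.r l = 2 * R.card ∧ σ1.m cl = σ.m cl ∧ σ1.m .OWN = σ.m .OWN ∧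
      ∀ x < n, σ1.m .MK x = if x ∈ R ∧ ∀ i < j, own n (σ.m cl i) ≠ x then 1 else 0)
    ?_ ?_ ?_) (by omega) ?_
  · rintro j σ1 ⟨h1, -⟩
    simpa using h1
  · rintro j σ1 hj ⟨h1, h2, h3, h5⟩ h4
    apply Spec.of_runs
    obtain ⟨hk, hok⟩ := h.rng j hj
    have how := hc.ow _ hk
    obtain ⟨κ, hκ⟩ : ∃ κ, σ.m cl j = κ := ⟨_, rfl⟩
    rw [hκ] at how
    cases N
    all_goals
    simp only [runs_put, Exp.ev_get, Exp.ev_reg, Exp.ev_num, h2, h3, h4, how, hκ]
    refine ⟨by omega, fun _ => ⟨h4, ?_, ?_, ?_, ?_⟩⟩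
    · simpa using h1
    · simp [h2]
    · simp [h3]
    · intro x hx
      simp only [St.setR_m, St.setM_m_same]
      by_cases h6 : x = own n κ
      · rw [if_pos h6, if_neg]
        rintro ⟨-, h7⟩
        exact h7 j (by omega) (by rw [hκ, h6])
      · rw [if_neg h6, h5 x hx]
        refine if_congr (and_congr_right fun _ => ?_) rfl rfl
        constructor
        · intro h7 i hi
          rcases Nat.lt_succ_iff_lt_or_eq.1 hi with h8 | rfl
          · exact h7 i h8
          · exact fun h9 => h6 (by rw [← h9, hκ])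
        · intro h7 i hi
          exact h7 i (by omega)
  · refine ⟨?_, rfl, rfl, ?_⟩
    · cases N <;> simp [hlen]
    · intro x hx
      simp only [St.setR_m, h.mark x hx]
      simp
  · rintro σ' ⟨⟨h1, h2, h3, h4⟩, h5⟩ x hx
    rw [h4 x hx, if_neg]
    rintro ⟨hxR, h6⟩
    have himg : (range (2 * R.card)).image (σ.m cl) =
        (range (2 * n)).filter (fun k => own n k ∈ R) := by
      apply eq_of_subset_of_card_le
      · intro k hk
        obtain ⟨i, hi, rfl⟩ := mem_image.1 hk
        have := h.rng i (mem_range.1 hi)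
        exact mem_filter.2 ⟨mem_range.2 this.1, this.2⟩
      · rw [slots_card h.sub, card_image_of_injOn, card_range]
        intro i hi j hj h
        exact ExpI.inj ‹_› i (by simpa using hi) j (by simpa using hj) h
    have hxm : x ∈ (range (2 * n)).filter (fun k => own n k ∈ R) :=
      mem_filter.2 ⟨mem_range.2 (by omega), by rw [own_lt n x hx]; exact hxR⟩
    rw [← himg] at hxm
    obtain ⟨i, hi, hix⟩ := mem_image.1 hxm
    exact h6 i (mem_range.1 hi) (by rw [hix, own_lt n x hx])

theorem chk_spec {n s : ℕ} {cl : Arr} {l : Reg} (N : ExpN cl l) {R : Finset ℕ} {σ : MSt}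
    (hc : Cst n s σ) (hw : ∀ k < 2 * n, σ.m .S k ≤ n) (h : ExpI n s cl l R σ) :
    Spec (chk cl l) σ (16 * (s + 2) + 10) (fun σ' => (∀ x < n, σ'.m .MK x = 0) ∧
      σ'.r .found = if R.card ≤ s ∧ fx n (σ.m .S) R ≤ 3 then 1 else σ.r .found) := by
  have hle := h.le
  unfold chk
  refine Spec.mono (Spec.seq (cntC_spec N hc hw h) (B' := 6 * R.card + 6) ?_) (by omega)
    (fun _ h => h)
  intro σ1 hf hfr
  have hc1 : Cst n s σ1 := hc.of_frame hfr (by cases N <;> rfl)
  have hnv : σ1.r .nv = R.card := by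
    rw [hfr.r .nv (by cases N <;> decide), h.nv]
  have hfound : σ1.r .found = σ.r .found := hfr.r .found (by cases N <;> decide)
  have hm : σ1.m = σ.m := by
    funext a
    exact hfr.m a (by cases N <;> simp [cntC, Cmd.wa, forC])
  have hI1 : ExpI n s cl l R σ1 := by
    have e1 := hfr.r .u (by cases N <;> decide)
    have e2 := hfr.r .v (by cases N <;> decide)
    have e3 := hfr.r .fa (by cases N <;> decide)
    have e4 := hfr.r .fb (by cases N <;> decide)
    have e5 := hfr.r .fc (by cases N <;> decide)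
    have e6 := hfr.r .p (by cases N <;> decide)
    have e7 := hfr.r l (by cases N <;> decide)
    constructor
    · rw [e1]; exact h.hu
    · rw [e2]; exact h.hv
    · exact h.sub
    · exact hnv
    · exact h.le
    · rw [hm]; exact h.mark
    · rw [e7]; exact h.len
    · rw [hm]; exact h.rng
    · rw [hm]; exact h.inj
    · rw [e6]; exact h.p
    · rw [hm, e3, e4, e5, e6]; exact h.proc
    · rw [hm, e3, e4, e5, e1, e2]; exact h.reach
  have hun := unmC_spec N hc1 hI1
  apply Spec.of_runs
  simp only [runs_seq, runs_ite, runs_set, runs_skip, Cnd.ev_and, Cnd.ev_neg, Cnd.ev_lt,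
    Exp.ev_reg, Exp.ev_num, hc1.hs, hnv, hf]
  refine ⟨by omega, ?_, ?_⟩
  · rintro ⟨h1, h2⟩
    refine ⟨by omega, ?_⟩
    have hc2 : Cst n s (σ1.setR .found 1) :=
      ⟨by simpa using hc1.hn, by simpa using hc1.hnn, by simpa using hc1.hs, hc1.tw, hc1.ow⟩
    have hI2 : ExpI n s cl l R (σ1.setR .found 1) := by
      cases N <;>
      exact ⟨by simpa using hI1.hu, by simpa using hI1.hv, hI1.sub, by simpa using hI1.nv, hI1.le,
        by simpa using hI1.mark, by simpa using hI1.len, by simpa using hI1.rng,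
        by simpa using hI1.inj, by simpa using hI1.p, by simpa using hI1.proc,
        by simpa using hI1.reach⟩
    refine Runs.of_spec (unmC_spec N hc2 hI2).frame (by omega) ?_
    rintro σ2 T2 ⟨h3, hfr2⟩ hT2
    refine ⟨h3, ?_⟩
    rw [hfr2.r .found (by cases N <;> decide), if_pos ⟨by omega, by omega⟩]
    simp
  · intro hno
    refine Runs.of_spec (unmC_spec N hc1 hI1).frame (by omega) ?_
    rintro σ2 T2 ⟨h3, hfr2⟩ hT2
    refine ⟨h3, ?_⟩
    rw [hfr2.r .found (by cases N <;> decide), hfound, if_neg]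
    rintro ⟨h4, h5⟩
    exact hno ⟨by omega, by omega⟩

end Pool.Agent.H.MP_d01483_lc
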