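import Pool.Agent.H.MP_d01483_lc.Names

set_option linter.unusedSectionVars false
set_option linter.unusedVariables false
set_option linter.unusedSimpArgs false

namespace Pool.Agent.H.MP_d01483_lc

open Finset

/-- Body of the exploration loop: treat the slot `cl[p]`. -/
def expBody (cl : Arr) (l : Reg) : MCmd :=
  .seq (.set .k (.get cl (.reg .p))) <|
  .seq (.set .p (.inc (.reg .p))) <|
  .ite (.and (.neg (.eq (.get .S (.reg .k)) (.num 0)))
      (.and (.neg (.eq (.inc (.reg .k)) (.reg .fa)))
      (.and (.neg (.eq (.inc (.reg .k)) (.reg .fb)))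
      (.and (.neg (.eq (.inc (.reg .k)) (.reg .fc)))
        (.eq (.get .MK (.dec (.get .S (.reg .k)))) (.num 0))))))
    (.seq (.set .y (.dec (.get .S (.reg .k)))) <|
     .seq (.put .MK (.reg .y) (.num 1)) <|
     .seq (.put cl (.reg l) (.reg .y)) <|
     .seq (.set l (.inc (.reg l))) <|
     .seq (.put cl (.reg l) (.get .TW (.reg .y))) <|
     .seq (.set l (.inc (.reg l))) <|
     .set .nv (.inc (.reg .nv)))
    .skip

/-- Bounded exploration from `u`, `v` avoiding the slots `fa-1`, `fb-1`, `fc-1`. -/
def explore (cl : Arr) (l : Reg) : MCmd :=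
  .seq (.put .MK (.reg .u) (.num 1)) <|
  .seq (.put .MK (.reg .v) (.num 1)) <|
  .seq (.put cl (.num 0) (.reg .u)) <|
  .seq (.put cl (.num 1) (.get .TW (.reg .u))) <|
  .seq (.put cl (.num 2) (.reg .v)) <|
  .seq (.put cl (.num 3) (.get .TW (.reg .v))) <|
  .seq (.set l (.num 4)) <|
  .seq (.set .nv (.num 2)) <|
  .seq (.set .p (.num 0)) <|
  .whl (.and (.lt (.reg .p) (.reg l)) (.neg (.lt (.reg .s) (.reg .nv)))) (expBody cl l)

/-- The result of an exploration with explored set `R`, `p` slots having been treated. -/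
structure ExpI (n s : ℕ) (cl : Arr) (l : Reg) (R : Finset ℕ) (σ : MSt) : Prop where
  hu : σ.r .u ∈ R
  hv : σ.r .v ∈ R
  sub : R ⊆ range n
  nv : σ.r .nv = R.card
  le : R.card ≤ s + 2
  mark : ∀ x < n, σ.m .MK x = if x ∈ R then 1 else 0
  len : σ.r l = 2 * R.card
  rng : ∀ i < 2 * R.card, σ.m cl i < 2 * n ∧ own n (σ.m cl i) ∈ R
  inj : ∀ i < 2 * R.card, ∀ j < 2 * R.card, σ.m cl i = σ.m cl j → i = j
  p : σ.r .p ≤ 2 * R.card
  proc : ∀ i < σ.r .p, σ.m .S (σ.m cl i) = 0 ∨ σ.m cl i + 1 = σ.r .fa ∨ σ.m cl i + 1 = σ.r .fb ∨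
    σ.m cl i + 1 = σ.r .fc ∨ σ.m .S (σ.m cl i) - 1 ∈ R
  reach : ∀ Z : Finset ℕ, σ.r .u ∈ Z → σ.r .v ∈ Z → R ⊆ Z ∨ ∃ i < 2 * R.card,
    own n (σ.m cl i) ∈ Z ∧ σ.m .S (σ.m cl i) ≠ 0 ∧ σ.m .S (σ.m cl i) - 1 ∉ Z ∧
    σ.m cl i + 1 ≠ σ.r .fa ∧ σ.m cl i + 1 ≠ σ.r .fb ∧ σ.m cl i + 1 ≠ σ.r .fc

/-- The names used by `explore` at the four levels. -/
inductive ExpN : Arr → Reg → Prop
  | a0 : ExpN .C0 .l0
  | a1 : ExpN .C1 .l1
  | a2 : ExpN .C2 .l2
  | a3 : ExpN .C3 .l3

theorem own_add (n v : ℕ) (h : v < n) : own n (v + n) = v := by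
  simp [own]

theorem own_lt (n v : ℕ) (h : v < n) : own n v = v := by
  simp [own, h]

theorem own_range {n k : ℕ} (h : k < 2 * n) : own n k < n := by
  unfold own; split_ifs <;> omega

theorem own_eq_iff {n k v : ℕ} (h : k < 2 * n) (hv : v < n) :
    own n k = v ↔ k = v ∨ k = v + n := by
  unfold own; split_ifs <;> omega

theorem expBody_spec {n s : ℕ} {cl : Arr} {l : Reg} (N : ExpN cl l) {R : Finset ℕ} {σ : MSt}
    (hc : Cst n s σ) (hw : ∀ k < 2 * n, σ.m .S k ≤ n) (h : ExpI n s cl l R σ)
    (hp : σ.r .p < σ.r l) (hs : R.card ≤ s) :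
    Spec (expBody cl l) σ 10 (fun σ' => ∃ R', ExpI n s cl l R' σ' ∧ σ'.r .p = σ.r .p + 1) := by
  apply Spec.of_runs
  have hpR : σ.r .p < 2 * R.card := by rw [← h.len]; exact hp
  obtain ⟨hk, hok⟩ := h.rng _ hpR
  set κ := σ.m cl (σ.r .p) with hκ
  have hSk := hw κ hk
  have key : ∀ y < n, y ∉ R → ∀ i < 2 * R.card, σ.m cl i ≠ y ∧ σ.m cl i ≠ y + n := by
    intro y hyn hyR i hi
    have hr := (h.rng i hi).2
    constructor
    · intro e
      rw [e, own_lt n y hyn] at hr
      exact hyR hr
    · intro e
      rw [e, own_add n y hyn] at hr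
      exact hyR hr
  cases N
  all_goals
  simp only [expBody, runs_seq, runs_set, runs_ite, runs_put, runs_skip, Exp.ev_get, Exp.ev_reg,
    Exp.ev_inc, Exp.ev_dec, Exp.ev_num, Cnd.ev_and, Cnd.ev_neg, Cnd.ev_eq, St.setR_r, St.setR_m,
    St.setM_r, if_true, reduceCtorEq, if_false, ← hκ]
  refine ⟨by norm_num, by norm_num, by norm_num, ?_, ?_⟩
  · rintro ⟨c1, c2, c3, c4, c5⟩
    have hyn : σ.m .S κ - 1 < n := by omega
    have hyR : σ.m .S κ - 1 ∉ R := by
      intro hy
      have := h.mark _ hyn
      rw [if_pos hy] at this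
      omega
    set y := σ.m .S κ - 1 with hy
    have htw := hc.tw y hyn
    have hlen := h.len
    have hcard : (insert y R).card = R.card + 1 := card_insert_of_notMem hyR
    refine ⟨by norm_num, by norm_num, by norm_num, by norm_num, by norm_num, by norm_num,
      by norm_num, insert y R, ?_, ?_⟩
    · constructor
      · simp [h.hu]
      · simp [h.hv]
      · intro z hz
        rcases mem_insert.1 hz with rfl | hz
        · exact mem_range.2 hyn
        · exact h.sub hz
      · simp [hcard, h.nv]
      · omega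
      · intro x hx
        have := h.mark x hx
        by_cases hxy : x = y <;> simp [hxy, hyR, this]
      · simp [hcard, hlen]
        omega
      · intro i hi
        rw [hcard] at hi
        simp only [St.setR_m, St.setR_r, St.setM_r, St.setM_m, reduceCtorEq, if_false, if_true,
          hlen, htw]
        split_ifs with e1 e2
        · exact ⟨by omega, by rw [own_add n y hyn]; exact mem_insert_self _ _⟩
        · exact ⟨by omega, by rw [own_lt n y hyn]; exact mem_insert_self _ _⟩
        · have := h.rng i (by omega)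
          exact ⟨this.1, mem_insert_of_mem this.2⟩
      · intro i hi j hj
        rw [hcard] at hi hj
        have key := key y hyn hyR
        simp only [St.setR_m, St.setR_r, St.setM_r, St.setM_m, reduceCtorEq, if_false, if_true,
          hlen, htw]
        split_ifs with e1 e2 e3 e4 e5 e6 e7 e8
        · intro; omega
        · intro; omega
        · intro e; exact absurd e.symm (key j (by omega)).2
        · intro; omega
        · intro; omega
        · intro e; exact absurd e.symm (key j (by omega)).1
        · intro e; exact absurd e (key i (by omega)).2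
        · intro e; exact absurd e (key i (by omega)).1
        · intro e; exact h.inj i (by omega) j (by omega) e
      · simp [hcard]
        omega
      · intro i hi
        have hi' : i < σ.r .p + 1 := by simpa using hi
        simp only [St.setR_m, St.setR_r, St.setM_r, St.setM_m, reduceCtorEq, if_false, if_true,
          hlen, htw]
        rw [if_neg (by omega), if_neg (by omega)]
        rcases Nat.lt_succ_iff_lt_or_eq.1 hi' with hlt | rfl
        · rcases h.proc i hlt with a | a | a | a | a
          · exact Or.inl a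
          · exact Or.inr (Or.inl a)
          · exact Or.inr (Or.inr (Or.inl a))
          · exact Or.inr (Or.inr (Or.inr (Or.inl a)))
          · exact Or.inr (Or.inr (Or.inr (Or.inr (mem_insert_of_mem a))))
        · right; right; right; right
          rw [← hκ, ← hy]
          exact mem_insert_self _ _
      · intro Z hu hv
        simp only [St.setR_m, St.setR_r, St.setM_r, St.setM_m, reduceCtorEq, if_false, if_true,
          hlen, htw, hcard] at hu hv ⊢
        rcases h.reach Z hu hv with hZ | ⟨i, hi, a1, a2, a3, a4, a5, a6⟩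
        · by_cases hyZ : y ∈ Z
          · left
            intro z hz
            rcases mem_insert.1 hz with rfl | hz
            · exact hyZ
            · exact hZ hz
          · right
            refine ⟨σ.r .p, by omega, ?_⟩
            rw [if_neg (by omega), if_neg (by omega)]
            exact ⟨hZ hok, c1, hyZ, c2, c3, c4⟩
        · right
          refine ⟨i, by omega, ?_⟩
          rw [if_neg (by omega), if_neg (by omega)]
          exact ⟨a1, a2, a3, a4, a5, a6⟩
    · simp
  · intro hcond
    refine ⟨R, ?_, by simp⟩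
    constructor
    · simpa using h.hu
    · simpa using h.hv
    · exact h.sub
    · simpa using h.nv
    · exact h.le
    · simpa using h.mark
    · simpa using h.len
    · simpa using h.rng
    · simpa using h.inj
    · simp; omega
    · intro i hi
      have hi' : i < σ.r .p + 1 := by simpa using hi
      simp only [St.setR_m, St.setR_r, if_false, reduceCtorEq]
      rcases Nat.lt_succ_iff_lt_or_eq.1 hi' with hlt | rfl
      · exact h.proc i hlt
      · rw [← hκ]
        by_contra hcon
        push Not at hcon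
        apply hcond
        refine ⟨hcon.1, hcon.2.1, hcon.2.2.1, hcon.2.2.2.1, ?_⟩
        have := h.mark (σ.m .S κ - 1) (by have := hcon.1; omega)
        rw [this, if_neg hcon.2.2.2.2]
    · simpa using h.reach

theorem expBody_keeps {cl : Arr} {l : Reg} (N : ExpN cl l) : Keeps (expBody cl l) = true := by
  cases N <;> rfl

theorem explore_keeps {cl : Arr} {l : Reg} (N : ExpN cl l) : Keeps (explore cl l) = true := by
  cases N <;> rfl

theorem expBody_S {cl : Arr} {l : Reg} (N : ExpN cl l) : Arr.S ∉ (expBody cl l).wa := by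
  cases N <;> decide

theorem explore_spec {n s : ℕ} {cl : Arr} {l : Reg} (N : ExpN cl l) {σ : MSt}
    (hc : Cst n s σ) (hw : ∀ k < 2 * n, σ.m .S k ≤ n) (hu : σ.r .u < n) (hv : σ.r .v < n)
    (huv : σ.r .u ≠ σ.r .v) (hmk : ∀ x < n, σ.m .MK x = 0) :
    Spec (explore cl l) σ (22 * s + 60) (fun σ' => ∃ R, ExpI n s cl l R σ' ∧
      (σ'.r .p = 2 * R.card ∨ s < R.card)) := by
  have hcard : ({σ.r .u, σ.r .v} : Finset ℕ).card = 2 := card_pair huv
  have hw2 := fun σ0 => Spec.whl (σ := σ0)
    (b := Cnd.and (.lt (.reg .p) (.reg l)) (.neg (.lt (.reg .s) (.reg .nv))))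
    (c := expBody cl l)
    (fun σ1 => Cst n s σ1 ∧ (∀ k < 2 * n, σ1.m .S k ≤ n) ∧ ∃ R, ExpI n s cl l R σ1)
    (fun σ1 => 2 * (s + 2) - σ1.r .p) 10 (by
      rintro σ1 ⟨hc1, hw1, R, hI⟩ hb
      simp only [Cnd.ev_and, Cnd.ev_lt, Cnd.ev_neg, Exp.ev_reg] at hb
      have hR : R.card ≤ s := by
        have := hb.2
        rw [hc1.hs, hI.nv] at this
        omega
      refine (expBody_spec N hc1 hw1 hI hb.1 hR).mono le_rfl ?_
      rintro σ2 ⟨R', hI', hp'⟩ hf
      refine ⟨⟨hc1.of_frame hf (expBody_keeps N), ?_, R', hI'⟩, ?_⟩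
      · rw [hf.m _ (expBody_S N)]; exact hw1
      · have := hb.1
        rw [hI.len] at this
        have := hI.le
        have := hI'.p
        have := hI'.le
        omega)
  apply Spec.of_runs
  have hnu : σ.r .u + n < 2 * n := by omega
  cases N
  all_goals
  simp only [explore, runs_seq, runs_set, runs_put, Exp.ev_get, Exp.ev_reg, Exp.ev_num,
    St.setR_r, St.setR_m, St.setM_r]
  refine ⟨by omega, by omega, by omega, by omega, by omega, by omega, by omega, by omega,
    by omega, ?_⟩
  refine Runs.of_spec (hw2 _ ?_) ?_ ?_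
  · refine ⟨⟨?_, ?_, ?_, ?_, ?_⟩, ?_, {σ.r .u, σ.r .v}, ?_⟩
    · simpa using hc.hn
    · simpa using hc.hnn
    · simpa using hc.hs
    · simpa using hc.tw
    · simpa using hc.ow
    · simpa using hw
    · have htu := hc.tw _ hu
      have htv := hc.tw _ hv
      constructor
      · simp
      · simp
      · intro x hx
        simp only [mem_insert, mem_singleton] at hx
        rcases hx with rfl | rfl
        · exact mem_range.2 hu
        · exact mem_range.2 hv
      · simp [hcard]
      · omega
      · intro x hx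
        have := hmk x hx
        simp only [St.setR_m, St.setM_m, St.setM_r, reduceCtorEq, if_false, if_true, mem_insert, mem_singleton, this]
        by_cases h1 : x = σ.r .v
        · simp [h1]
        · by_cases h2 : x = σ.r .u <;> simp [h1, h2]
      · simp [hcard]
      · intro i hi
        rw [hcard] at hi
        simp only [St.setR_m, St.setM_m, reduceCtorEq, if_false, if_true, htu, htv]
        split_ifs with e1 e2 e3 e4
        · exact ⟨by omega, by rw [own_add _ _ hv]; simp⟩
        · exact ⟨by omega, by rw [own_lt _ _ hv]; simp⟩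
        · exact ⟨by omega, by rw [own_add _ _ hu]; simp⟩
        · exact ⟨by omega, by rw [own_lt _ _ hu]; simp⟩
        · omega
      · intro i hi j hj
        rw [hcard] at hi hj
        simp only [St.setR_m, St.setM_m, reduceCtorEq, if_false, if_true, htu, htv]
        split_ifs <;> intro he <;> omega
      · simp
      · simp
      · intro Z h1 h2
        left
        intro x hx
        simp only [mem_insert, mem_singleton] at hx
        simp only [St.setR_r, St.setM_r, reduceCtorEq, if_false] at h1 h2
        rcases hx with rfl | rfl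
        · exact h1
        · exact h2
  · simp
    omega
  · rintro σ' T' ⟨⟨hc', hw', R, hI⟩, hb⟩ hT
    refine ⟨R, hI, ?_⟩
    simp only [Cnd.ev_and, Cnd.ev_lt, Cnd.ev_neg, Exp.ev_reg, hI.len, hc'.hs, hI.nv] at hb
    have := hI.p
    by_cases h1 : s < R.card
    · exact Or.inr h1
    · left
      by_contra h2
      exact hb ⟨by omega, h1⟩

end Pool.Agent.H.MP_d01483_lc
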