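import Pool.Agent.H.MP_d01483_lc.Slots
import Pool.Agent.H.MP_d01483_lc.Explore

set_option linter.unusedSectionVars false
set_option linter.unusedVariables false
set_option linter.unusedSimpArgs false

namespace Pool.Agent.H.MP_d01483_lc

open Finset

/-- One step along an occupied slot. -/
def Stp (n : ℕ) (S : ℕ → ℕ) (a b : ℕ) : Prop := ∃ k < 2 * n, own n k = a ∧ S k = b + 1

/-- Reachability along occupied slots. -/
def Rch (n : ℕ) (S : ℕ → ℕ) : ℕ → ℕ → Prop := Relation.ReflTransGen (Stp n S)

/-- Closed under predecessors. -/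
def PCl (n : ℕ) (S : ℕ → ℕ) (M : Finset ℕ) : Prop :=
  ∀ k < 2 * n, S k ≠ 0 → S k - 1 ∈ M → own n k ∈ M

theorem PCl.rch {n : ℕ} {S : ℕ → ℕ} {M : Finset ℕ} (h : PCl n S M) {a b : ℕ}
    (hab : Rch n S a b) (hb : b ∈ M) : a ∈ M := by
  induction hab using Relation.ReflTransGen.head_induction_on with
  | refl => exact hb
  | head h1 _ ih =>
    obtain ⟨k, hk, h2, h3⟩ := h1
    rw [← h2]
    exact h k hk (by omega) (by rw [h3]; simpa using ih)

open Classical in
/-- Vertices from which a free slot at a vertex outside `H` can be reached. -/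
noncomputable def Good (n : ℕ) (S : ℕ → ℕ) (H : Finset ℕ) : Finset ℕ :=
  (range n).filter (fun x => ∃ z < n, z ∉ H ∧ (S z = 0 ∨ S (z + n) = 0) ∧ Rch n S x z)

theorem mem_Good {n : ℕ} {S : ℕ → ℕ} {H : Finset ℕ} {x : ℕ} :
    x ∈ Good n S H ↔ x < n ∧ ∃ z < n, z ∉ H ∧ (S z = 0 ∨ S (z + n) = 0) ∧ Rch n S x z := by
  simp [Good]

theorem Good_card_le (n : ℕ) (S : ℕ → ℕ) (H : Finset ℕ) : (Good n S H).card ≤ n := by
  have h : Good n S H ⊆ range n := fun x hx => mem_range.2 (mem_Good.1 hx).1
  simpa using card_le_card h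

/-- Reachability after emptying the first slot of `y`. -/
theorem Rch.clear {n : ℕ} {S : ℕ → ℕ} {y a b : ℕ} (hy : y < n) (h : Rch n S a b) :
    Rch n (upd S y 0) a b ∨ Rch n (upd S y 0) a y := by
  induction h using Relation.ReflTransGen.head_induction_on with
  | refl => exact Or.inl Relation.ReflTransGen.refl
  | head h1 _ ih =>
    obtain ⟨k, hk, h2, h3⟩ := h1
    by_cases hky : k = y
    · right
      subst hky
      rw [own_lt n k hy] at h2
      subst h2
      exact Relation.ReflTransGen.refl
    · have hs : Stp n (upd S y 0) _ _ := ⟨k, hk, h2, by rw [upd_ne _ _ hky]; exact h3⟩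
      rcases ih with ih | ih
      · exact Or.inl (Relation.ReflTransGen.head hs ih)
      · exact Or.inr (Relation.ReflTransGen.head hs ih)

/-- Emptying the first slot of a vertex `y` of a sink component makes at least `s` more vertices
good. -/
theorem trap_grow {n s : ℕ} {S : ℕ → ℕ} {H : Finset ℕ} {h y : ℕ} {M1 : Finset ℕ}
    (hwf : WF n S)
    (hsmall : ∀ Z ⊆ range n, 2 ≤ Z.card → Z.card ≤ s → 3 ≤ fx n S Z)
    (hH : ∀ v ∈ H, v < n ∧ S v = 0 ∧ S (v + n) = 0) (hh : h ∈ H ∨ h = n) (hs : 1 ≤ s)
    (hcl : PCl n S M1) (hrt : ∀ v < n, v ≠ h → (S v = 0 ∨ S (v + n) = 0) → v ∈ M1)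
    (hy : y < n) (hyh : y ≠ h) (hyM : y ∉ M1)
    (hall : ∀ v < n, v ≠ h → v ∈ M1 ∨ Rch n S v y) :
    (Good n S H).card + s ≤ (Good n (upd S y 0) H).card := by
  classical
  set X : Finset ℕ := (range n).filter (fun x => Rch n S y x ∧ x ≠ h) with hX
  have hXmem : ∀ {x}, x ∈ X ↔ x < n ∧ Rch n S y x ∧ x ≠ h := by intro x; simp [hX]
  have hXM : ∀ x ∈ X, x ∉ M1 := fun x hx hxM => hyM (hcl.rch (hXmem.1 hx).2.1 hxM)
  have hXR : ∀ x ∈ X, Rch n S x y := fun x hx =>
    (hall x (hXmem.1 hx).1 (hXmem.1 hx).2.2).resolve_left (hXM x hx)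
  have hyX : y ∈ X := hXmem.2 ⟨hy, Relation.ReflTransGen.refl, hyh⟩
  have hocc : ∀ k < 2 * n, own n k ∈ X → S k ≠ 0 ∧ (S k - 1 ∈ X ∨ S k - 1 = h) := by
    intro k hk hkX
    have h1 := hXmem.1 hkX
    have h0 : S k ≠ 0 := by
      intro h0
      apply hXM _ hkX
      apply hrt _ h1.1 h1.2.2
      rcases (own_eq_iff hk h1.1).1 rfl with h2 | h2
      · left; rw [← h2]; exact h0
      · right; rw [← h2]; exact h0
    refine ⟨h0, ?_⟩
    by_cases hh' : S k - 1 = h
    · exact Or.inr hh'
    · left
      refine hXmem.2 ⟨hwf.head_lt hk h0, ?_, hh'⟩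
      exact Relation.ReflTransGen.tail h1.2.1 ⟨k, hk, rfl, by omega⟩
  -- size of `X`
  have hXs : s ≤ X.card := by
    have hXn : X ⊆ range n := filter_subset _ _
    rcases hh with hhH | hhn
    · obtain ⟨hn, h1, h2⟩ := hH h hhH
      have hhX : h ∉ X := fun hx => (hXmem.1 hx).2.2 rfl
      have hc : (insert h X).card = X.card + 1 := card_insert_of_notMem hhX
      have hfx : fx n S (insert h X) ≤ 2 := by
        have hsub : (range (2 * n)).filter
            (fun k => own n k ∈ insert h X ∧ (S k = 0 ∨ S k - 1 ∉ insert h X)) ⊆ {h, h + n} := by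
          intro k hk
          obtain ⟨h3, h4, h5⟩ := mem_filter.1 hk
          rw [mem_range] at h3
          rw [mem_insert, mem_singleton]
          rcases mem_insert.1 h4 with h6 | h6
          · exact (own_eq_iff h3 hn).1 h6
          · exfalso
            obtain ⟨h7, h8⟩ := hocc k h3 h6
            rcases h5 with h5 | h5
            · exact h7 h5
            · apply h5
              rw [mem_insert]
              exact h8.symm
        unfold fx
        exact (card_le_card hsub).trans card_le_two
      have hpos : 0 < X.card := card_pos.2 ⟨y, hyX⟩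
      by_contra hlt
      have := hsmall (insert h X) (insert_subset (mem_range.2 hn) hXn) (by omega) (by omega)
      omega
    · have hfx : fx n S X = 0 := by
        unfold fx
        rw [card_eq_zero, filter_eq_empty_iff]
        rintro k hk ⟨h4, h5⟩
        rw [mem_range] at hk
        obtain ⟨h7, h8⟩ := hocc k hk h4
        have h9 := hwf.head_lt hk h7
        rcases h5 with h5 | h5
        · exact h7 h5
        · rcases h8 with h8 | h8
          · exact h5 h8
          · omega
      by_cases h2 : 2 ≤ X.card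
      · by_contra hlt
        have := hsmall X hXn h2 (by omega)
        omega
      · exfalso
        have hpos : 0 < X.card := card_pos.2 ⟨y, hyX⟩
        obtain ⟨z, hz⟩ := card_eq_one.1 (show X.card = 1 by omega)
        have hy2 : 2 * n > y := by omega
        have hoy := own_lt n y hy
        obtain ⟨h7, h8⟩ := hocc y hy2 (by rw [hoy]; exact hyX)
        have h9 := hwf.head_lt hy2 h7
        have h10 := hwf.head_ne hy2 h7
        rcases h8 with h8 | h8
        · rw [hz, mem_singleton] at h8 hyX
          rw [hoy] at h10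
          omega
        · omega
  have hyH : y ∉ H := by
    intro hyH
    exact hyM (hrt y hy hyh (Or.inl (hH y hyH).2.1))
  have hyfree : (upd S y 0) y = 0 := upd_same _ _ _
  have hsub : Good n S H ∪ X ⊆ Good n (upd S y 0) H := by
    intro x hx
    rcases mem_union.1 hx with hx | hx
    · obtain ⟨h1, z, h2, h3, h4, h5⟩ := mem_Good.1 hx
      rcases h5.clear hy with h6 | h6
      · refine mem_Good.2 ⟨h1, z, h2, h3, ?_, h6⟩
        rcases h4 with h4 | h4
        · left
          by_cases e : z = y
          · rw [e]; exact hyfree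
          · rw [upd_ne _ _ e]; exact h4
        · right
          by_cases e : z + n = y
          · rw [e]; exact hyfree
          · rw [upd_ne _ _ e]; exact h4
      · exact mem_Good.2 ⟨h1, y, hy, hyH, Or.inl hyfree, h6⟩
    · refine mem_Good.2 ⟨(hXmem.1 hx).1, y, hy, hyH, Or.inl hyfree, ?_⟩
      rcases (hXR x hx).clear hy with h6 | h6 <;> exact h6
  have hdisj : Disjoint (Good n S H) X := by
    rw [disjoint_left]
    intro x hx hxX
    obtain ⟨h1, z, h2, h3, h4, h5⟩ := mem_Good.1 hx
    have hzh : z ≠ h := by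
      rintro rfl
      rcases hh with hh | hh
      · exact h3 hh
      · omega
    exact hXM x hxX (hcl.rch h5 (hrt z h2 hzh h4))
  have := card_le_card hsub
  rw [card_union_of_disjoint hdisj] at this
  omega

end Pool.Agent.H.MP_d01483_lc
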