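import Pool.Agent.H.MP_d01483_lc.Bfs
import Pool.Agent.H.MP_d01483_lc.Auction
import Pool.Agent.H.MP_d01483_lc.Trap
import Pool.Agent.H.MP_d01483_lc.Count1

set_option linter.unusedSectionVars false
set_option linter.unusedVariables false
set_option linter.unusedSimpArgs false
set_option linter.constructorNameAsVariable false

namespace Pool.Agent.H.MP_d01483_lc

open Finset

theorem BI.surj {n : ℕ} {S : ℕ → ℕ} {M : Finset ℕ} {Rt : ℕ → Prop} {σ : MSt}
    (h : BI n S M Rt σ) {x : ℕ} (hx : x ∈ M) : ∃ i < M.card, σ.m .QU i = x := by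
  have h1 : (range M.card).image (σ.m .QU) = M := by
    apply eq_of_subset_of_card_le
    · intro z hz
      obtain ⟨i, hi, rfl⟩ := mem_image.1 hz
      exact h.rng i (mem_range.1 hi)
    · rw [card_image_of_injOn, card_range]
      intro i hi j hj he
      exact h.inj i (by simpa using hi) j (by simpa using hj) he
  rw [← h1] at hx
  obtain ⟨i, hi, h2⟩ := mem_image.1 hx
  exact ⟨i, mem_range.1 hi, h2⟩

theorem BI.pcl {n : ℕ} {S : ℕ → ℕ} {M : Finset ℕ} {Rt : ℕ → Prop} {σ : MSt}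
    (h : BI n S M Rt σ) (hq : σ.r .qh = M.card) : PCl n S M := by
  intro k hk h0 hM
  obtain ⟨i, hi, h1⟩ := h.surj hM
  exact h.clo i (by omega) k hk (by rw [h1]; omega)

theorem BI.weaken {n : ℕ} {S : ℕ → ℕ} {M : Finset ℕ} {Rt Rt' : ℕ → Prop} {σ : MSt}
    (h : BI n S M Rt σ) (hR : ∀ v, Rt v → Rt' v) : BI n S M Rt' σ := by
  refine ⟨h.sub, h.mb, h.qt, h.qh, h.rng, h.inj, h.clo, ?_, h.pi0⟩
  intro j hj
  rcases h.pi j hj with ⟨h1, h2⟩ | h1
  · exact Or.inl ⟨h1, hR _ h2⟩
  · exact Or.inr h1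

theorem BI.ext_reach {n : ℕ} {S : ℕ → ℕ} {M M' : Finset ℕ} {y : ℕ} {σ : MSt}
    (h : BI n S M' (fun v => v ∈ M ∨ v = y) σ) (hcl : PCl n S M) :
    ∀ x ∈ M', x ∈ M ∨ Rch n S x y := by
  have key : ∀ j, j < M'.card → σ.m .QU j ∈ M ∨ Rch n S (σ.m .QU j) y := by
    intro j
    induction j using Nat.strong_induction_on with
    | _ j ih =>
      intro hj
      rcases h.pi j hj with ⟨-, h2 | h2⟩ | ⟨i, hi, k, hk, h1, h2, h3⟩
      · exact Or.inl h2
      · right; rw [h2]; exact Relation.ReflTransGen.refl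
      · rcases ih i hi (by omega) with h4 | h4
        · left
          rw [← h2]
          exact hcl k hk (by omega) (by rw [h3]; simpa using h4)
        · right
          exact Relation.ReflTransGen.head ⟨k, hk, h2, h3⟩ h4
  intro x hx
  obtain ⟨i, hi, rfl⟩ := h.surj hx
  exact key i hi

/-- Body of the scan: start a search from each unmarked vertex. -/
def scanBody : MCmd :=
  .ite (.and (.eq (.get .MB (.reg .y)) (.num 0)) (.neg (.eq (.reg .y) (.reg .xu))))
    (.seq (.set .last (.inc (.reg .y))) <|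
     .seq (.put .MB (.reg .y) (.num 1)) <|
     .seq (.put .QU (.reg .qt) (.reg .y)) <|
     .seq (.set .qt (.inc (.reg .qt))) bfsRun) .skip

/-- Search from all unmarked vertices in turn; remember the last start vertex. -/
def scan : MCmd := .seq (.set .last (.num 0)) (forC .y (.reg .n) scanBody)

/-- Invariant of the scan. -/
structure ScanI (n s : ℕ) (S : ℕ → ℕ) (h : ℕ) (M0 : Finset ℕ) (NX FI : ℕ → ℕ) (M : Finset ℕ)
    (σ : MSt) : Prop where
  out : OutI n s S ∅ (fun _ => True) (fun _ => 0) NX FI M σ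
  qh : σ.r .qh = M.card
  sub : M0 ⊆ M
  yle : σ.r .y ≤ n
  vis : ∀ v < σ.r .y, v ≠ h → v ∈ M
  xu : σ.r .xu = h
  las : (σ.r .last = 0 ∧ M = M0) ∨ ∃ y < n, σ.r .last = y + 1 ∧ y ≠ h ∧ ∃ M1, M0 ⊆ M1 ∧
    PCl n S M1 ∧ y ∉ M1 ∧ ∀ x ∈ M, x ∈ M1 ∨ Rch n S x y

theorem scanBody_spec {n s : ℕ} {S : ℕ → ℕ} {h : ℕ} {M0 : Finset ℕ} {NX FI : ℕ → ℕ}
    {M : Finset ℕ} {σ : MSt} (hw : ∀ k < 2 * n, S k ≤ n)
    (hl : ∀ w < n, Chain NX (lst S (2 * n) w) (FI w))
    (hI : ScanI n s S h M0 NX FI M σ) (hy : σ.r .y < n) :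
    SpecT (.seq scanBody (.set .y (.inc (.reg .y)))) σ (fun σ' t =>
      (∃ M', ScanI n s S h M0 NX FI M' σ') ∧ σ'.r .y = σ.r .y + 1 ∧
      t + BPhi n σ' ≤ BPhi n σ + 7) := by
  obtain ⟨y, hyd⟩ : ∃ y, σ.r .y = y := ⟨_, rfl⟩
  rw [hyd] at hy
  have hb := hI.out.bi
  refine SpecT.of_runs (T := BPhi n σ + 7) ?_
  simp only [scanBody, runs_seq, runs_set, runs_ite, runs_put, runs_skip, Exp.ev_get, Exp.ev_reg,
    Exp.ev_inc, Exp.ev_num, Cnd.ev_and, Cnd.ev_eq, Cnd.ev_neg, St.setR_r, St.setR_m, St.setM_r,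
    reduceCtorEq, if_false, if_true, hyd]
  refine ⟨by omega, ?_, ?_⟩
  · rintro ⟨hmb, hyx⟩
    have hyM : y ∉ M := by
      intro hx
      have := hb.mb _ hy
      rw [if_pos hx] at this
      omega
    have hyh : y ≠ h := by rw [← hI.xu]; exact hyx
    have hcard : (insert y M).card = M.card + 1 := card_insert_of_notMem hyM
    refine ⟨by omega, by omega, by omega, by omega, ?_⟩
    have hclM := hb.pcl hI.qh
    have fin : ∀ σ1 : MSt, Cst n s σ1 → σ1.m .S = S → σ1.m .NX = NX → σ1.m .FI = FI →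
        σ1.r .last = y + 1 → σ1.r .y = y → σ1.r .xu = h →
        σ1.r .qt = σ.r .qt + 1 → σ1.r .qh = σ.r .qh → σ1.m .MB = upd (σ.m .MB) y 1 →
        σ1.m .QU = upd (σ.m .QU) (σ.r .qt) y → σ1.m .PI = σ.m .PI →
        Runs bfsRun σ1 (BPhi n σ + 7 - 1 - 1 - 1 - 1 - 1) (fun σ' T' => 1 ≤ T' ∧
          ∀ t, t + (T' - 1) = BPhi n σ + 7 → (∃ M', ScanI n s S h M0 NX FI M'
            (σ'.setR .y (σ'.r .y + 1))) ∧ σ'.r .y + 1 = y + 1 ∧
            t + BPhi n (σ'.setR .y (σ'.r .y + 1)) ≤ BPhi n σ + 7) := by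
      intro σ1 f1 f2 f3 f4 f5 f6 f7 f8 f9 f10 f11 f12
      have hqt := hb.qt
      have hQ : ∀ i < M.card, σ1.m .QU i = σ.m .QU i := by
        intro i hi
        rw [f11, upd_ne]
        omega
      have hQ' : σ1.m .QU M.card = y := by rw [f11, hqt, upd_same]
      have hbphi : BPhi n σ1 = BPhi n σ := by
        unfold BPhi
        rw [f2, f9, hI.out.hS]
        congr 2
        apply remc_congr
        intro i hi
        exact hQ i (by have := hI.qh; omega)
      have hb1 : BI n S (insert y M) (fun v => v ∈ M ∨ v = y) σ1 := by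
        refine ⟨?_, ?_, ?_, ?_, ?_, ?_, ?_, ?_, ?_⟩
        · intro z hz
          rcases mem_insert.1 hz with rfl | hz
          · exact mem_range.2 hy
          · exact hb.sub hz
        · intro x hx
          rw [f10]
          by_cases hxo : x = y
          · subst hxo; rw [upd_same]; simp
          · rw [upd_ne _ _ hxo, hb.mb x hx]; simp [hxo]
        · rw [hcard]; omega
        · rw [hcard, f9]; have := hI.qh; omega
        · intro i hi
          rw [hcard] at hi
          by_cases hi' : i < M.card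
          · rw [hQ i hi']; exact mem_insert_of_mem (hb.rng i hi')
          · have : i = M.card := by omega
            subst this
            rw [hQ']; exact mem_insert_self _ _
        · intro i hi j hj he
          rw [hcard] at hi hj
          by_cases hi' : i < M.card
          · by_cases hj' : j < M.card
            · rw [hQ i hi', hQ j hj'] at he
              exact hb.inj i hi' j hj' he
            · exfalso
              have : j = M.card := by omega
              subst this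
              rw [hQ i hi', hQ'] at he
              exact hyM (he ▸ hb.rng i hi')
          · have hi2 : i = M.card := by omega
            subst hi2
            by_cases hj' : j < M.card
            · exfalso
              rw [hQ j hj', hQ'] at he
              exact hyM (he ▸ hb.rng j hj')
            · omega
        · intro i hi k hk hSk
          rw [f9, hI.qh] at hi
          rw [hQ i hi] at hSk
          exact mem_insert_of_mem (hb.clo i (by rw [hI.qh]; exact hi) k hk hSk)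
        · intro j hj
          rw [hcard] at hj
          by_cases hj' : j < M.card
          · rw [hQ j hj', f12]
            rcases hb.pi j hj' with ⟨h1, h2⟩ | ⟨i, hi, k, hk, g1, g2, g3⟩
            · exact Or.inl ⟨h1, Or.inl (hb.rng j hj')⟩
            · exact Or.inr ⟨i, hi, k, hk, g1, g2, by rw [hQ i (by omega)]; exact g3⟩
          · have hj2 : j = M.card := by omega
            subst hj2
            left
            rw [hQ', f12]
            exact ⟨hb.pi0 y hy hyM, Or.inr rfl⟩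
        · intro x hx hxM'
          rw [mem_insert, not_or] at hxM'
          rw [f12]
          exact hb.pi0 x hx hxM'.2
      have hout : OutI n s S (insert y M) (fun v => v ∈ M ∨ v = y) (σ1.m .QU) NX FI
          (insert y M) σ1 :=
        ⟨f1, f2, f3, f4, hb1, Subset.refl _, fun _ _ => rfl⟩
      refine Runs.of_specT (bfsRun_spec hw hl hout).frame ?_
      rintro σ2 t2 ⟨⟨M', h1, h2, h3, h4⟩, hf⟩
      refine ⟨by omega, by omega, fun t ht => ?_⟩
      have hy2 : σ2.r .y = y := by rw [hf.r _ (by decide), f6]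
      have hl2 : σ2.r .last = y + 1 := by rw [hf.r _ (by decide), f5]
      have hx2 : σ2.r .xu = h := by rw [hf.r _ (by decide), f7]
      have hbp : BPhi n (σ2.setR .y (σ2.r .y + 1)) = BPhi n σ2 := by
        unfold BPhi; simp
      refine ⟨⟨M', ⟨⟨⟨?_, ?_, ?_, ?_, ?_⟩, ?_, ?_, ?_, ⟨?_, ?_, ?_, ?_, ?_, ?_, ?_, ?_, ?_⟩, ?_, ?_⟩,
        ?_, ?_, ?_, ?_, ?_, ?_⟩⟩, by omega, by rw [hbp]; omega⟩
      · simpa using h1.cst.hn
      · simpa using h1.cst.hnn
      · simpa using h1.cst.hs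
      · simpa using h1.cst.tw
      · simpa using h1.cst.ow
      · simpa using h1.hS
      · simpa using h1.hNX
      · simpa using h1.hFI
      · exact h1.bi.sub
      · simpa using h1.bi.mb
      · simpa using h1.bi.qt
      · simpa using h1.bi.qh
      · simpa using h1.bi.rng
      · simpa using h1.bi.inj
      · simpa using h1.bi.clo
      · simpa using (h1.bi.weaken (Rt' := fun _ => True) (fun _ _ => trivial)).pi
      · simpa using h1.bi.pi0
      · exact empty_subset _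
      · intro i hi; simp at hi
      · simpa using h2
      · exact hI.sub.trans ((subset_insert _ _).trans h1.sub0)
      · simp [hy2]; omega
      · intro v hv hvh
        simp only [St.setR_r, if_true, hy2] at hv
        rcases Nat.lt_succ_iff_lt_or_eq.1 hv with h5 | rfl
        · exact h1.sub0 (mem_insert_of_mem (hI.vis v (by rw [hyd]; exact h5) hvh))
        · exact h1.sub0 (mem_insert_self _ _)
      · simpa using hx2
      · right
        refine ⟨y, hy, by simp [hl2], hyh, M, hI.sub, hclM, hyM, ?_⟩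
        exact h1.bi.ext_reach hclM
    refine fin _ ?_ ?_ ?_ ?_ ?_ ?_ ?_ ?_ ?_ ?_ ?_ ?_
    · refine ⟨?_, ?_, ?_, ?_, ?_⟩
      · simpa using hI.out.cst.hn
      · simpa using hI.out.cst.hnn
      · simpa using hI.out.cst.hs
      · simpa using hI.out.cst.tw
      · simpa using hI.out.cst.ow
    · funext i; simp [hI.out.hS]
    · funext i; simp [hI.out.hNX]
    · funext i; simp [hI.out.hFI]
    · simp
    · simp [hyd]
    · simp [hI.xu]
    · simp
    · simp
    · funext i; simp [upd]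
    · funext i; simp [upd]
    · funext i; simp
  · intro hcond
    refine ⟨by omega, fun t ht => ?_⟩
    have hin : y ≠ h → y ∈ M := by
      intro hyh
      by_contra hyM
      apply hcond
      refine ⟨?_, ?_⟩
      · have := hb.mb _ hy
        rw [if_neg hyM] at this
        exact this
      · rw [hI.xu]; exact hyh
    refine ⟨⟨M, ⟨⟨⟨?_, ?_, ?_, ?_, ?_⟩, ?_, ?_, ?_, ⟨?_, ?_, ?_, ?_, ?_, ?_, ?_, ?_, ?_⟩, ?_, ?_⟩,
      ?_, ?_, ?_, ?_, ?_, ?_⟩⟩, trivial, ?_⟩
    · simpa using hI.out.cst.hn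
    · simpa using hI.out.cst.hnn
    · simpa using hI.out.cst.hs
    · simpa using hI.out.cst.tw
    · simpa using hI.out.cst.ow
    · simpa using hI.out.hS
    · simpa using hI.out.hNX
    · simpa using hI.out.hFI
    · exact hb.sub
    · simpa using hb.mb
    · simpa using hb.qt
    · simpa using hb.qh
    · simpa using hb.rng
    · simpa using hb.inj
    · simpa using hb.clo
    · simpa using hb.pi
    · simpa using hb.pi0
    · exact empty_subset _
    · intro i hi; simp at hi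
    · simpa using hI.qh
    · exact hI.sub
    · simp; omega
    · intro v hv hvh
      simp only [St.setR_r, if_true] at hv
      rcases Nat.lt_succ_iff_lt_or_eq.1 hv with h5 | rfl
      · exact hI.vis v (by rw [hyd]; exact h5) hvh
      · exact hin hvh
    · simpa using hI.xu
    · simpa using hI.las
    · have hbp : BPhi n (σ.setR .y (y + 1)) = BPhi n σ := by
        unfold BPhi; simp
      rw [hbp]; omega

theorem scan_spec {n s : ℕ} {S : ℕ → ℕ} {h : ℕ} {M0 : Finset ℕ} {σ0 σ : MSt}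
    (hw : ∀ k < 2 * n, σ0.m .S k ≤ n) (hB : BfsOK n s σ0 M0 σ) (hx : σ.r .xu = h) :
    Spec scan σ (29 * n + 3) (fun σ' => ∃ M, ScanI n s (σ0.m .S) h M0 (σ.m .NX) (σ.m .FI) M σ' ∧
      n ≤ σ'.r .y) := by
  have hb := hB.out.bi
  have hS := hB.out.hS
  have hl : ∀ w < n, Chain (σ.m .NX) (lst (σ0.m .S) (2 * n) w) (σ.m .FI w) := by
    intro w hw'
    have := hB.li w hw'
    rwa [hS] at this
  have hphi := BPhi_le n σ
  apply Spec.of_runs
  simp only [scan, forC, runs_seq, runs_set, Exp.ev_num]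
  refine ⟨by omega, by omega, ?_⟩
  have h0 : ScanI n s (σ0.m .S) h M0 (σ.m .NX) (σ.m .FI) M0 ((σ.setR .last 0).setR .y 0) := by
    refine ⟨⟨⟨?_, ?_, ?_, ?_, ?_⟩, ?_, ?_, ?_, ⟨?_, ?_, ?_, ?_, ?_, ?_, ?_, ?_, ?_⟩, ?_, ?_⟩,
      ?_, ?_, ?_, ?_, ?_, ?_⟩
    · simpa using hB.out.cst.hn
    · simpa using hB.out.cst.hnn
    · simpa using hB.out.cst.hs
    · simpa using hB.out.cst.tw
    · simpa using hB.out.cst.ow
    · simpa using hB.out.hS
    · simp
    · simp
    · exact hb.sub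
    · simpa using hb.mb
    · simpa using hb.qt
    · simpa using hb.qh
    · simpa using hb.rng
    · simpa using hb.inj
    · simpa using hb.clo
    · simpa using (hb.weaken (Rt' := fun _ => True) (fun _ _ => trivial)).pi
    · simpa using hb.pi0
    · exact empty_subset _
    · intro i hi; simp at hi
    · simpa using hB.qh
    · exact Subset.refl _
    · simp
    · intro v hv; simp at hv
    · simpa using hx
    · left; simp
  refine Runs.of_specT (SpecT.whl (fun σ1 => ∃ M, ScanI n s (σ0.m .S) h M0 (σ.m .NX) (σ.m .FI) M σ1)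
    (fun σ1 => 9 * (n - σ1.r .y) + BPhi n σ1) ?_ ⟨M0, h0⟩) ?_
  · rintro σ1 ⟨M1, h1⟩ hb1
    simp only [Cnd.ev_lt, Exp.ev_reg, h1.out.cst.hn] at hb1
    refine (scanBody_spec hw hl h1 hb1).mono ?_
    rintro σ2 t ⟨g1, g2, g3⟩ -
    refine ⟨g1, ?_⟩
    rw [g2]
    omega
  · rintro σ1 t ⟨⟨M1, h1⟩, hb1, h2⟩
    simp only [Cnd.ev_lt, Exp.ev_reg, h1.out.cst.hn] at hb1
    have e1 : BPhi n ((σ.setR .last 0).setR .y 0) = BPhi n σ := by
      unfold BPhi; simp
    rw [e1] at h2
    simp only [St.setR_r, if_true] at h2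
    refine ⟨by omega, M1, h1, by omega⟩

/-- One round: search, and empty one slot of a sink component. -/
def cleanRound : MCmd :=
  .seq bfs <| .seq scan <|
  .ite (.eq (.reg .last) (.num 0)) .skip
    (.seq (.set .z (.dec (.reg .last))) <|
     .seq (.put .DU (.reg .dl) (.reg .z)) <|
     .seq (.put .DV (.reg .dl) (.dec (.get .S (.reg .z)))) <|
     .seq (.set .dl (.inc (.reg .dl))) <|
     .put .S (.reg .z) (.num 0))

/-- Empty slots until no trap at `xu` is left. -/
def clean : MCmd :=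
  .seq (.set .last (.num 1)) (.whl (.neg (.eq (.reg .last) (.num 0))) cleanRound)

/-- What is preserved by cleaning. -/
structure CleanI (n s : ℕ) (H : Finset ℕ) (h : ℕ) (σ0 σ : MSt) : Prop where
  cst : Cst n s σ
  wf : WF n (σ.m .S)
  sub : ∀ k < 2 * n, σ.m .S k = σ0.m .S k ∨ σ.m .S k = 0
  un : edges n (σ.m .S) ∪ Dl σ = edges n (σ0.m .S) ∪ Dl σ0
  dl : σ.r .dl + (edges n (σ.m .S)).card = σ0.r .dl + (edges n (σ0.m .S)).card
  small : ∀ Z ⊆ range n, 2 ≤ Z.card → Z.card ≤ s → 3 ≤ fx n (σ.m .S) Z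
  hH : ∀ v ∈ H, v < n ∧ σ.m .S v = 0 ∧ σ.m .S (v + n) = 0
  hh : h ∈ H ∨ h = n
  xu : σ.r .xu = h
  xv : σ.r .xv = n

theorem fx_clear {n : ℕ} {S S' : ℕ → ℕ} (hS : ∀ k < 2 * n, S' k = S k ∨ S' k = 0) (Z : Finset ℕ) :
    fx n S Z ≤ fx n S' Z := by
  unfold fx
  refine card_le_card ?_
  intro k hk
  obtain ⟨h1, h2, h3⟩ := mem_filter.1 hk
  refine mem_filter.2 ⟨h1, h2, ?_⟩
  rcases hS k (mem_range.1 h1) with h4 | h4
  · rw [h4]; exact h3
  · exact Or.inl h4

/-- Scaled number of bad vertices. -/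
noncomputable def Apot (n s : ℕ) (S : ℕ → ℕ) (H : Finset ℕ) : ℕ := (n - (Good n S H).card) / s

theorem cleanRound_spec {n s : ℕ} {H : Finset ℕ} {h : ℕ} {σ0 σ : MSt} (hs : 1 ≤ s)
    (hI : CleanI n s H h σ0 σ) :
    Spec cleanRound σ (70 * n + 24) (fun σ' => CleanI n s H h σ0 σ' ∧
      σ'.r .dl + Apot n s (σ'.m .S) H ≤ σ.r .dl + Apot n s (σ.m .S) H ∧
      ((σ'.r .last = 0 ∧ NoTrap n (σ'.m .S) h ∧ σ'.m .S = σ.m .S) ∨
       (σ'.r .last ≠ 0 ∧ Apot n s (σ'.m .S) H + 1 ≤ Apot n s (σ.m .S) H))) := by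
  have hw : ∀ k < 2 * n, σ.m .S k ≤ n := hI.wf.le
  apply Spec.of_runs
  simp only [cleanRound, runs_seq]
  refine Runs.of_spec (bfs_spec hI.cst hw).frame (by omega) ?_
  rintro σ1 T1 ⟨⟨M0, h1⟩, hf1⟩ hT1
  have hx1 : σ1.r .xu = h := by rw [hf1.r _ (by decide)]; exact hI.xu
  refine Runs.of_spec (scan_spec (S := σ.m .S) hw h1 hx1).frame (by omega) ?_
  rintro σ2 T2 ⟨⟨M, h2, hy2⟩, hf2⟩ hT2
  have hS2 : σ2.m .S = σ.m .S := h2.out.hS
  have hDU : σ2.m .DU = σ.m .DU := by rw [hf2.m _ (by decide), hf1.m _ (by decide)]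
  have hDV : σ2.m .DV = σ.m .DV := by rw [hf2.m _ (by decide), hf1.m _ (by decide)]
  have hdl : σ2.r .dl = σ.r .dl := by rw [hf2.r _ (by decide), hf1.r _ (by decide)]
  have hxv : σ2.r .xv = n := by rw [hf2.r _ (by decide), hf1.r _ (by decide)]; exact hI.xv
  have hxu : σ2.r .xu = h := h2.xu
  have hD2 : Dl σ2 = Dl σ := by unfold Dl; rw [hDU, hDV, hdl]
  have hRt : ∀ v < n, v ≠ h → (σ.m .S v = 0 ∨ σ.m .S (v + n) = 0) → v ∈ M0 := by
    intro v hv hvh hfree
    apply h1.rt v hv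
    refine ⟨hfree, ?_, ?_⟩
    · rw [hI.xu]; exact hvh
    · rw [hI.xv]; omega
  have hM0 : PCl n (σ.m .S) M0 := h1.out.bi.pcl h1.qh
  rw [runs_ite]
  refine ⟨by omega, ?_, ?_⟩
  · intro hc
    simp only [Cnd.ev_eq, Exp.ev_reg, Exp.ev_num] at hc
    rw [runs_skip]
    refine ⟨⟨h2.out.cst, by rw [hS2]; exact hI.wf, by rw [hS2]; exact hI.sub,
      by rw [hS2, hD2]; exact hI.un, by rw [hS2, hdl]; exact hI.dl, by rw [hS2]; exact hI.small,
      by rw [hS2]; exact hI.hH, hI.hh, hxu, hxv⟩, by rw [hS2, hdl], Or.inl ⟨hc, ?_, hS2⟩⟩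
    rw [hS2]
    have hMM : M = M0 := by
      rcases h2.las with ⟨-, h3⟩ | ⟨y, -, h3, -⟩
      · exact h3
      · omega
    have hall : ∀ v < n, v ≠ h → v ∈ M0 := by
      intro v hv hvh
      rw [← hMM]
      exact h2.vis v (by omega) hvh
    have hhM : h ∉ M0 := by
      intro hhM
      obtain ⟨j, hj, h3⟩ := h1.out.bi.surj hhM
      rcases h1.out.bi.pi j hj with ⟨-, h4⟩ | ⟨i, hi, k, hk, h4, h5, h6⟩
      · rw [h3] at h4
        exact h4.2.1 hI.xu.symm
      · rw [h3] at h5
        rcases hI.hh with hh | hh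
        · obtain ⟨g1, g2, g3⟩ := hI.hH h hh
          rcases (own_eq_iff hk g1).1 h5 with rfl | rfl
          · omega
          · omega
        · have := own_range hk
          omega
    intro X hX hne hhX
    by_contra hcon
    push Not at hcon
    -- a vertex of `X` with minimal queue position
    have hex : ∃ j, j < M0.card ∧ σ1.m .QU j ∈ X := by
      obtain ⟨x, hx⟩ := hne
      have hxh : x ≠ h := fun e => hhX (e ▸ hx)
      obtain ⟨j, hj, h3⟩ := h1.out.bi.surj (hall x (mem_range.1 (hX hx)) hxh)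
      exact ⟨j, hj, by rw [h3]; exact hx⟩
    classical
    obtain ⟨hj, hjX⟩ := Nat.find_spec hex
    have hmin := fun i hi => Nat.find_min hex (m := i) hi
    set j := Nat.find hex with hjd
    have hjn : σ1.m .QU j < n := mem_range.1 (hX hjX)
    rcases h1.out.bi.pi j hj with ⟨-, h4⟩ | ⟨i, hi, k, hk, h4, h5, h6⟩
    · rcases h4.1 with h7 | h7
      · exact (hcon (σ1.m .QU j) (by omega) (by rw [own_lt _ _ hjn]; exact hjX)).1 h7
      · exact (hcon (σ1.m .QU j + n) (by omega) (by rw [own_add _ _ hjn]; exact hjX)).1 h7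
    · obtain ⟨h7, h8⟩ := hcon k hk (by rw [h5]; exact hjX)
      have hiM : σ1.m .QU i ∈ M0 := h1.out.bi.rng i (by omega)
      have h9 : σ.m .S k - 1 = σ1.m .QU i := by omega
      rw [h9] at h8
      by_cases hiX : σ1.m .QU i ∈ X
      · exact hmin i hi ⟨by omega, hiX⟩
      · exact hhM (by rw [← h8 hiX]; exact hiM)
  · intro hc
    simp only [Cnd.ev_eq, Exp.ev_reg, Exp.ev_num] at hc
    obtain ⟨y, hy, hly, hyh, M1, hM01, hcl, hyM, hall⟩ : ∃ y < n, σ2.r .last = y + 1 ∧ y ≠ h ∧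
        ∃ M1, M0 ⊆ M1 ∧ PCl n (σ.m .S) M1 ∧ y ∉ M1 ∧ ∀ x ∈ M, x ∈ M1 ∨ Rch n (σ.m .S) x y := by
      rcases h2.las with ⟨h3, -⟩ | h3
      · exact absurd h3 hc
      · exact h3
    have hall' : ∀ v < n, v ≠ h → v ∈ M1 ∨ Rch n (σ.m .S) v y :=
      fun v hv hvh => hall v (h2.vis v (by omega) hvh)
    have hgrow := trap_grow hI.wf hI.small hI.hH hI.hh hs hcl
      (fun v hv hvh hfree => hM01 (hRt v hv hvh hfree)) hy hyh hyM hall'
    have hSy : σ.m .S y ≠ 0 := by
      intro h0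
      exact hyM (hM01 (hRt y hy hyh (Or.inl h0)))
    have hy2n : y < 2 * n := by omega
    obtain ⟨hwf', hed'⟩ := hI.wf.clear hy2n hSy
    have hedge : edge n (σ.m .S) y = s(y, σ.m .S y - 1) := by unfold edge; rw [own_lt n y hy]
    have hmem : edge n (σ.m .S) y ∈ edges n (σ.m .S) := edge_mem hy2n hSy
    simp only [runs_seq, runs_set, runs_put, Exp.ev_reg, Exp.ev_dec, Exp.ev_inc, Exp.ev_get,
      Exp.ev_num, St.setR_r, St.setR_m, St.setM_r, reduceCtorEq, if_false, if_true]
    refine ⟨by omega, by omega, by omega, by omega, by omega, ?_⟩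
    have fin : ∀ σ' : MSt, Cst n s σ' → σ'.m .S = upd (σ.m .S) y 0 →
        σ'.m .DU = upd (σ.m .DU) (σ.r .dl) y → σ'.m .DV = upd (σ.m .DV) (σ.r .dl) (σ.m .S y - 1) →
        σ'.r .dl = σ.r .dl + 1 → σ'.r .last = y + 1 → σ'.r .xu = h → σ'.r .xv = n →
        CleanI n s H h σ0 σ' ∧
        σ'.r .dl + Apot n s (σ'.m .S) H ≤ σ.r .dl + Apot n s (σ.m .S) H ∧
        ((σ'.r .last = 0 ∧ NoTrap n (σ'.m .S) h ∧ σ'.m .S = σ.m .S) ∨
         (σ'.r .last ≠ 0 ∧ Apot n s (σ'.m .S) H + 1 ≤ Apot n s (σ.m .S) H)) := by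
      intro σ' f1 f2 f3 f4 f5 f6 f7 f8
      have hsub' : ∀ k < 2 * n, σ'.m .S k = σ.m .S k ∨ σ'.m .S k = 0 := by
        intro k hk
        rw [f2]
        by_cases e : k = y
        · subst e; right; exact upd_same _ _ _
        · left; exact upd_ne _ _ e
      have hApot : Apot n s (σ'.m .S) H + 1 ≤ Apot n s (σ.m .S) H := by
        rw [f2]
        unfold Apot
        have hle := Good_card_le n (upd (σ.m .S) y 0) H
        have h3 : (n - (Good n (upd (σ.m .S) y 0) H).card) + s ≤ n - (Good n (σ.m .S) H).card := by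
          omega
        calc (n - (Good n (upd (σ.m .S) y 0) H).card) / s + 1
            = ((n - (Good n (upd (σ.m .S) y 0) H).card) + s) / s := by
              rw [Nat.add_div_right _ (by omega)]
          _ ≤ _ := Nat.div_le_div_right h3
      refine ⟨⟨f1, by rw [f2]; exact hwf', ?_, ?_, ?_, ?_, ?_, hI.hh, f7, f8⟩, by omega,
        Or.inr ⟨by omega, hApot⟩⟩
      · intro k hk
        rcases hsub' k hk with h3 | h3
        · rw [h3]; exact hI.sub k hk
        · exact Or.inr h3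
      · have e1 : Dl σ' = insert (edge n (σ.m .S) y) (Dl σ) := by
          unfold Dl
          rw [f3, f4, f5, listE_push, hedge]
        rw [← hI.un, f2, hed', e1]
        ext e
        simp only [mem_union, mem_erase, mem_insert]
        constructor
        · rintro (⟨-, h3⟩ | rfl | h3)
          · exact Or.inl h3
          · exact Or.inl hmem
          · exact Or.inr h3
        · rintro (h3 | h3)
          · by_cases h4 : e = edge n (σ.m .S) y
            · exact Or.inr (Or.inl h4)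
            · exact Or.inl ⟨h4, h3⟩
          · exact Or.inr (Or.inr h3)
      · rw [← hI.dl, f2, f5, hed', card_erase_of_mem hmem]
        have : 0 < (edges n (σ.m .S)).card := card_pos.2 ⟨_, hmem⟩
        omega
      · intro Z hZ h3 h4
        exact (hI.small Z hZ h3 h4).trans (fx_clear hsub' Z)
      · intro v hv
        obtain ⟨g1, g2, g3⟩ := hI.hH v hv
        refine ⟨g1, ?_, ?_⟩
        · rcases hsub' v (by omega) with h3 | h3
          · rw [h3]; exact g2
          · exact h3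
        · rcases hsub' (v + n) (by omega) with h3 | h3
          · rw [h3]; exact g3
          · exact h3
    refine fin _ ?_ ?_ ?_ ?_ ?_ ?_ ?_ ?_
    · refine ⟨?_, ?_, ?_, ?_, ?_⟩
      · simpa using h2.out.cst.hn
      · simpa using h2.out.cst.hnn
      · simpa using h2.out.cst.hs
      · simpa using h2.out.cst.tw
      · simpa using h2.out.cst.ow
    · funext i; simp [hS2, hly, upd]
    · funext i; simp [hDU, hdl, hly, upd]
    · funext i; simp [hDV, hdl, hly, hS2, upd]
    · simp [hdl]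
    · simp [hly]
    · simp [hxu]
    · simp [hxv]

theorem clean_spec {n s : ℕ} {H : Finset ℕ} {h : ℕ} {σ0 σ : MSt} (hs : 1 ≤ s)
    (hI : CleanI n s H h σ0 σ) :
    SpecT clean σ (fun σ' t => CleanI n s H h σ0 σ' ∧ NoTrap n (σ'.m .S) h ∧
      σ'.r .dl + Apot n s (σ'.m .S) H ≤ σ.r .dl + Apot n s (σ.m .S) H ∧
      t + (70 * n + 25) * Apot n s (σ'.m .S) H ≤
        (70 * n + 25) * Apot n s (σ.m .S) H + (70 * n + 27)) := by
  unfold clean
  refine SpecT.of_runs (T := 1 + ((70 * n + 25) * (Apot n s (σ.m .S) H + 1) + 1)) ?_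
  simp only [runs_seq, runs_set, Exp.ev_num]
  refine ⟨by omega, ?_⟩
  have h0 : CleanI n s H h σ0 (σ.setR .last 1) := by
    refine ⟨⟨?_, ?_, ?_, ?_, ?_⟩, ?_, ?_, ?_, ?_, ?_, ?_, ?_, ?_, ?_⟩
    · simpa using hI.cst.hn
    · simpa using hI.cst.hnn
    · simpa using hI.cst.hs
    · simpa using hI.cst.tw
    · simpa using hI.cst.ow
    · simpa using hI.wf
    · simpa using hI.sub
    · simpa [Dl] using hI.un
    · simpa using hI.dl
    · simpa using hI.small
    · simpa using hI.hH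
    · exact hI.hh
    · simpa using hI.xu
    · simpa using hI.xv
  refine Runs.of_specT (SpecT.whl (fun σ1 => CleanI n s H h σ0 σ1 ∧
    (σ1.r .last = 0 → NoTrap n (σ1.m .S) h) ∧
    σ1.r .dl + Apot n s (σ1.m .S) H ≤ σ.r .dl + Apot n s (σ.m .S) H)
    (fun σ1 => (70 * n + 25) * (Apot n s (σ1.m .S) H + if σ1.r .last = 0 then 0 else 1)) ?_
    ⟨h0, by simp, by simp⟩) ?_
  · rintro σ1 ⟨h1, h1', h1''⟩ hb
    simp only [Cnd.ev_neg, Cnd.ev_eq, Exp.ev_reg, Exp.ev_num] at hb
    refine SpecT.mono (cleanRound_spec hs h1).toSpecT ?_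
    rintro σ2 t ⟨ht, h2, h2', h3⟩ -
    rw [if_neg hb]
    rcases h3 with ⟨h4, h5, h6⟩ | ⟨h4, h5⟩
    · refine ⟨⟨h2, fun _ => h5, h2'.trans h1''⟩, ?_⟩
      rw [if_pos h4, h6]
      have : (70 * n + 25) * (Apot n s (σ1.m .S) H + 1) =
        (70 * n + 25) * (Apot n s (σ1.m .S) H + 0) + (70 * n + 25) := by ring
      omega
    · refine ⟨⟨h2, fun h => absurd h h4, h2'.trans h1''⟩, ?_⟩
      rw [if_neg h4]
      have e1 : (70 * n + 25) * (Apot n s (σ2.m .S) H + 1) + (70 * n + 25) ≤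
          (70 * n + 25) * (Apot n s (σ1.m .S) H + 1) := by
        calc (70 * n + 25) * (Apot n s (σ2.m .S) H + 1) + (70 * n + 25)
            = (70 * n + 25) * (Apot n s (σ2.m .S) H + 1 + 1) := by ring
          _ ≤ _ := Nat.mul_le_mul_left _ (by omega)
      omega
  · rintro σ1 t ⟨⟨h1, h1', h1''⟩, hb, h2⟩
    simp only [Cnd.ev_neg, Cnd.ev_eq, Exp.ev_reg, Exp.ev_num, not_not] at hb
    have e0 : (σ.setR .last 1).m .S = σ.m .S := by simp
    have e1 : (σ.setR .last 1).r .last = 1 := by simp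
    rw [e0, e1, if_pos hb, if_neg (by omega)] at h2
    have e2 : (70 * n + 25) * (Apot n s (σ.m .S) H + 1) =
        (70 * n + 25) * Apot n s (σ.m .S) H + (70 * n + 25) := by ring
    have e3 : (70 * n + 25) * (Apot n s (σ1.m .S) H + 0) =
        (70 * n + 25) * Apot n s (σ1.m .S) H := by ring
    rw [e3] at h2
    refine ⟨by omega, fun t' ht' => ⟨h1, h1' hb, h1'', by omega⟩⟩

theorem clean_keeps : Keeps clean = true ∧ Reg.ql ∉ clean.wr ∧ Reg.L ∉ clean.wr ∧
    Reg.q ∉ clean.wr ∧ Reg.nc ∉ clean.wr ∧ Reg.K ∉ clean.wr ∧ Reg.v ∉ clean.wr ∧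
    Reg.xu ∉ clean.wr ∧ Reg.xv ∉ clean.wr ∧ Arr.HM ∉ clean.wa ∧
    Arr.QA ∉ clean.wa ∧ Arr.QB ∉ clean.wa ∧
    Arr.MK ∉ clean.wa ∧ Arr.CI ∉ clean.wa ∧ Arr.EXC ∉ clean.wa ∧ Arr.inp ∉ clean.wa := by
  decide

end Pool.Agent.H.MP_d01483_lc
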