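import Mathlib

/-!
The definitions used in the statement of the theorem: random access machines, encoding of graphs
by adjacency lists, generic rigidity in the plane.
-/

namespace Pool.Agent.H.MP_d01483_lc

/-- Instructions of a random access machine with registers `R[0], R[1], ...` and memory
`M[0], M[1], ...`, all holding natural numbers. -/
inductive Instr
  /-- `R[a] := c` -/
  | const (a c : ℕ)
  /-- `R[a] := R[b] + R[c]` -/
  | add (a b c : ℕ)
  /-- `R[a] := R[b] - R[c]` (`0` if `R[b] < R[c]`) -/
  | sub (a b c : ℕ)
  /-- `R[a] := M[R[b]]` -/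
  | load (a b : ℕ)
  /-- `M[R[a]] := R[b]` -/
  | store (a b : ℕ)
  /-- if `R[a] < R[b]`, continue with instruction number `l`, else with the next one -/
  | jlt (a b l : ℕ)
  /-- continue with instruction number `l` -/
  | jmp (l : ℕ)

/-- A configuration: program counter, registers, memory. -/
structure Config where
  pc : ℕ
  reg : ℕ → ℕ
  mem : ℕ → ℕ

/-- One step of the program `P`: execute instruction number `pc`.  The machine has halted when
the program counter is outside the program. -/
def step (P : List Instr) (c : Config) : Config :=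
  match P[c.pc]? with
  | none => c
  | some (.const a x) => ⟨c.pc + 1, Function.update c.reg a x, c.mem⟩
  | some (.add a b d) => ⟨c.pc + 1, Function.update c.reg a (c.reg b + c.reg d), c.mem⟩
  | some (.sub a b d) => ⟨c.pc + 1, Function.update c.reg a (c.reg b - c.reg d), c.mem⟩
  | some (.load a b) => ⟨c.pc + 1, Function.update c.reg a (c.mem (c.reg b)), c.mem⟩
  | some (.store a b) => ⟨c.pc + 1, c.reg, Function.update c.mem (c.reg a) (c.reg b)⟩
  | some (.jlt a b l) => ⟨if c.reg a < c.reg b then l else c.pc + 1, c.reg, c.mem⟩
  | some (.jmp l) => ⟨l, c.reg, c.mem⟩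

/-- The machine starts at instruction `0` with all registers `0` and the input in memory. -/
def start (x : ℕ → ℕ) : Config := ⟨0, fun _ => 0, x⟩

/-- The configuration after `t` steps. -/
def run (P : List Instr) (x : ℕ → ℕ) (t : ℕ) : Config := (step P)^[t] (start x)

/-- `x` encodes the graph `G` on the vertices `0, ..., n-1` by adjacency lists: `x 0 = n`; the
neighbours of `v`, each once and in any order, are the entries of `x` at the positions
`x (v + 1), ..., x (v + 2) - 1`; the lists are stored one after the other from position `n + 2`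
on; behind the last list there are only zeros. -/
structure AdjLists {n : ℕ} (G : SimpleGraph (Fin n)) (x : ℕ → ℕ) : Prop where
  size : x 0 = n
  first : x 1 = n + 2
  mono : ∀ v : Fin n, x (v + 1) ≤ x (v + 2)
  entry : ∀ (v : Fin n) (i : ℕ), x (v + 1) ≤ i → i < x (v + 2) →
    ∃ w : Fin n, G.Adj v w ∧ x i = w
  complete : ∀ v w : Fin n, G.Adj v w → ∃ i, x (v + 1) ≤ i ∧ i < x (v + 2) ∧ x i = w
  once : ∀ (v : Fin n) (i j : ℕ), x (v + 1) ≤ i → i < x (v + 2) → x (v + 1) ≤ j →
    j < x (v + 2) → x i = x j → i = j
  rest : ∀ i, x (n + 1) ≤ i → x i = 0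

/-- The framework `(G, p)` in the plane is rigid: every continuous motion (parametrised by
`[0,1]`) starting at `p` which preserves the lengths of the edges of `G` preserves all
distances. -/
def RigidFramework {V : Type} (G : SimpleGraph V) (p : V → EuclideanSpace ℝ (Fin 2)) : Prop :=
  ∀ γ : ℝ → V → EuclideanSpace ℝ (Fin 2), ContinuousOn γ (Set.Icc 0 1) → γ 0 = p →
    (∀ t ∈ Set.Icc (0 : ℝ) 1, ∀ u v, G.Adj u v → dist (γ t u) (γ t v) = dist (p u) (p v)) →
    ∀ t ∈ Set.Icc (0 : ℝ) 1, ∀ u v, dist (γ t u) (γ t v) = dist (p u) (p v)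

/-- The coordinates of `p` are algebraically independent over `ℚ`. -/
def GenericFramework {V : Type} (p : V → EuclideanSpace ℝ (Fin 2)) : Prop :=
  AlgebraicIndependent ℚ (fun i : V × Fin 2 => p i.1 i.2)

/-- `G` is generically rigid in the plane: all its generic realizations are rigid. -/
def GenericallyRigid {V : Type} (G : SimpleGraph V) : Prop :=
  ∀ p : V → EuclideanSpace ℝ (Fin 2), GenericFramework p → RigidFramework G p

end Pool.Agent.H.MP_d01483_lc
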