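import Pool.Agent.H.MP_d01483_lc.Lang
import Pool.Agent.H.MP_d01483_lc.Model

/-!
Compilation of the structured language to random access machines.
-/

set_option autoImplicit false
set_option linter.unusedSectionVars false

namespace Pool.Agent.H.MP_d01483_lc

/-- Initial state of the structured language: everything `0` except the input array. -/
def initSt {R A : Type} [DecidableEq A] (inp : A) (x : ℕ → ℕ) : St R A :=
  ⟨fun _ => 0, fun a i => if a = inp then x i else 0⟩

/-! ### straight line code -/

/-- registers and memory -/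
abbrev RM := (ℕ → ℕ) × (ℕ → ℕ)

/-- effect of an instruction without jump -/
def Instr.ex : Instr → RM → RM
  | .const a x, s => (Function.update s.1 a x, s.2)
  | .add a b d, s => (Function.update s.1 a (s.1 b + s.1 d), s.2)
  | .sub a b d, s => (Function.update s.1 a (s.1 b - s.1 d), s.2)
  | .load a b, s => (Function.update s.1 a (s.2 (s.1 b)), s.2)
  | .store a b, s => (s.1, Function.update s.2 (s.1 a) (s.1 b))
  | .jlt _ _ _, s => s
  | .jmp _, s => s

/-- instructions without jump -/
def Instr.Straight : Instr → Prop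
  | .jlt _ _ _ => False
  | .jmp _ => False
  | _ => True

/-- all words are at most `W` -/
def Bdd (W : ℕ) (s : RM) : Prop := (∀ a, s.1 a ≤ W) ∧ ∀ a, s.2 a ≤ W

/-- execution of straight line code with all words bounded -/
inductive SRun (W : ℕ) : List Instr → RM → RM → Prop
  | nil (s : RM) : SRun W [] s s
  | cons {i : Instr} {L : List Instr} {s s' : RM} :
      i.Straight → Bdd W (i.ex s) → SRun W L (i.ex s) s' → SRun W (i :: L) s s'

theorem SRun.append {W : ℕ} {L L' : List Instr} {s s' s'' : RM} (h : SRun W L s s')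
    (h' : SRun W L' s' s'') : SRun W (L ++ L') s s'' := by
  induction h with
  | nil s => exact h'
  | cons h1 h2 _ ih => exact .cons h1 h2 (ih h')

theorem SRun.bdd {W : ℕ} {L : List Instr} {s s' : RM} (h : SRun W L s s') (hs : Bdd W s) :
    Bdd W s' := by
  induction h with
  | nil s => exact hs
  | cons h1 h2 _ ih => exact ih h2

theorem Bdd.upd {W : ℕ} {s : RM} (hs : Bdd W s) (a v : ℕ) (hv : v ≤ W) :
    Bdd W (Function.update s.1 a v, s.2) := by
  refine ⟨fun b => ?_, hs.2⟩
  by_cases hb : b = a
  · subst hb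
    simpa using hv
  · simpa [Function.update_of_ne hb] using hs.1 b

theorem Bdd.updM {W : ℕ} {s : RM} (hs : Bdd W s) (a v : ℕ) (hv : v ≤ W) :
    Bdd W (s.1, Function.update s.2 a v) := by
  refine ⟨hs.1, fun b => ?_⟩
  by_cases hb : b = a
  · subst hb
    simpa using hv
  · simpa [Function.update_of_ne hb] using hs.2 b

theorem SRun.one {W : ℕ} {i : Instr} {s s' : RM} (hi : i.Straight) (he : i.ex s = s')
    (hb : Bdd W s') : SRun W [i] s s' := by
  subst he
  exact .cons hi hb (.nil _)

theorem SRun.const {W : ℕ} {s : RM} (hs : Bdd W s) (a c : ℕ) (h : c ≤ W) :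
    SRun W [.const a c] s (Function.update s.1 a c, s.2) :=
  .one trivial rfl (hs.upd _ _ h)

theorem SRun.add {W : ℕ} {s : RM} (hs : Bdd W s) (a b c : ℕ) (h : s.1 b + s.1 c ≤ W) :
    SRun W [.add a b c] s (Function.update s.1 a (s.1 b + s.1 c), s.2) :=
  .one trivial rfl (hs.upd _ _ h)

theorem SRun.sub {W : ℕ} {s : RM} (hs : Bdd W s) (a b c : ℕ) :
    SRun W [.sub a b c] s (Function.update s.1 a (s.1 b - s.1 c), s.2) :=
  .one trivial rfl (hs.upd _ _ ((Nat.sub_le _ _).trans (hs.1 b)))

theorem SRun.load {W : ℕ} {s : RM} (hs : Bdd W s) (a b : ℕ) :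
    SRun W [.load a b] s (Function.update s.1 a (s.2 (s.1 b)), s.2) :=
  .one trivial rfl (hs.upd _ _ (hs.2 _))

theorem SRun.store {W : ℕ} {s : RM} (hs : Bdd W s) (a b : ℕ) :
    SRun W [.store a b] s (s.1, Function.update s.2 (s.1 a) (s.1 b)) :=
  .one trivial rfl (hs.updM _ _ (hs.1 _))

/-! ### bounded simulation -/

/-- registers and memory of a configuration -/
def Config.rm (g : Config) : RM := (g.reg, g.mem)

/-- `n` steps of `P` lead from `g` to `g'`, all words being at most `W` -/
def Sim (P : List Instr) (W n : ℕ) (g g' : Config) : Prop :=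
  (step P)^[n] g = g' ∧ ∀ k ≤ n, Bdd W ((step P)^[k] g).rm

theorem Sim.refl {P : List Instr} {W : ℕ} {g : Config} (h : Bdd W g.rm) : Sim P W 0 g g := by
  refine ⟨rfl, fun k hk => ?_⟩
  obtain rfl : k = 0 := by omega
  exact h

theorem Sim.trans {P : List Instr} {W n m : ℕ} {g g' g'' : Config} (h : Sim P W n g g')
    (h' : Sim P W m g' g'') : Sim P W (n + m) g g'' := by
  refine ⟨?_, fun k hk => ?_⟩
  · rw [Nat.add_comm, Function.iterate_add_apply, h.1, h'.1]
  · by_cases hkn : k ≤ n
    · exact h.2 k hkn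
    · obtain ⟨j, rfl⟩ : ∃ j, k = j + n := ⟨k - n, by omega⟩
      rw [Function.iterate_add_apply, h.1]
      exact h'.2 j (by omega)

theorem Sim.bdd {P : List Instr} {W n : ℕ} {g g' : Config} (h : Sim P W n g g') :
    Bdd W g'.rm := by
  have := h.2 n le_rfl
  rwa [h.1] at this

theorem Sim.step1 {P : List Instr} {W : ℕ} {g g' : Config} (h : Bdd W g.rm) (hs : step P g = g')
    (h' : Bdd W g'.rm) : Sim P W 1 g g' := by
  refine ⟨by simpa using hs, fun k hk => ?_⟩
  obtain rfl | rfl : k = 0 ∨ k = 1 := by omega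
  · exact h
  · simpa [hs] using h'

/-- the code `L` is placed at `off` in `P` -/
def At (P : List Instr) (off : ℕ) (L : List Instr) : Prop :=
  ∃ pre post, P = pre ++ (L ++ post) ∧ pre.length = off

theorem At.left {P : List Instr} {off : ℕ} {L L' : List Instr} (h : At P off (L ++ L')) :
    At P off L := by
  obtain ⟨pre, post, h1, h2⟩ := h
  exact ⟨pre, L' ++ post, by rw [h1]; simp, h2⟩

theorem At.right {P : List Instr} {off : ℕ} {L L' : List Instr} (h : At P off (L ++ L')) :
    At P (off + L.length) L' := by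
  obtain ⟨pre, post, h1, h2⟩ := h
  exact ⟨pre ++ L, post, by rw [h1]; simp, by simp [h2]⟩

theorem At.head {P : List Instr} {off : ℕ} {i : Instr} {L : List Instr} (h : At P off (i :: L)) :
    P[off]? = some i := by
  obtain ⟨pre, post, h1, h2⟩ := h
  subst h2
  rw [h1]
  simp

theorem At.tail {P : List Instr} {off : ℕ} {i : Instr} {L : List Instr} (h : At P off (i :: L)) :
    At P (off + 1) L := by
  obtain ⟨pre, post, h1, h2⟩ := h
  exact ⟨pre ++ [i], post, by rw [h1]; simp, by simp [h2]⟩

theorem step_straight {P : List Instr} {g : Config} {i : Instr} (h : P[g.pc]? = some i)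
    (hi : i.Straight) : step P g = ⟨g.pc + 1, (i.ex g.rm).1, (i.ex g.rm).2⟩ := by
  unfold step
  rw [h]
  cases i <;> first | rfl | exact hi.elim

theorem SRun.sim {P : List Instr} {W : ℕ} {L : List Instr} {s s' : RM} (h : SRun W L s s') :
    ∀ {off : ℕ}, At P off L → Bdd W s →
      Sim P W L.length ⟨off, s.1, s.2⟩ ⟨off + L.length, s'.1, s'.2⟩ := by
  induction h with
  | nil s =>
    intro off _ hb
    exact Sim.refl hb
  | @cons i L s s' h1 h2 _ ih =>
    intro off hA hb
    have hst : step P ⟨off, s.1, s.2⟩ = ⟨off + 1, (i.ex s).1, (i.ex s).2⟩ :=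
      step_straight (g := ⟨off, s.1, s.2⟩) hA.head h1
    have e1 : Sim P W 1 ⟨off, s.1, s.2⟩ ⟨off + 1, (i.ex s).1, (i.ex s).2⟩ :=
      Sim.step1 hb hst h2
    have e2 := ih hA.tail h2
    have e3 := e1.trans e2
    rw [List.length_cons, Nat.add_comm L.length 1]
    rwa [Nat.add_assoc] at e3

/-! ### sizes and value bounds -/

section
variable {R A : Type}

/-- growth of values caused by an expression -/
def Exp.sz : Exp R A → ℕ
  | .num c => c
  | .reg _ => 0
  | .get _ e => e.sz
  | .inc e => e.sz + 1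
  | .dec e => e.sz

/-- growth of values caused by a test -/
def Cnd.sz : Cnd R A → ℕ
  | .lt e f => e.sz + f.sz
  | .eq e f => e.sz + f.sz
  | .neg c => c.sz
  | .and c d => c.sz + d.sz
  | .or c d => c.sz + d.sz

/-- growth of values caused by one step of a command -/
def Cmd.sz : Cmd R A → ℕ
  | .skip => 0
  | .set _ e => e.sz
  | .put _ i e => i.sz + e.sz
  | .seq c d => c.sz + d.sz
  | .ite b c d => b.sz + c.sz + d.sz
  | .whl b c => b.sz + c.sz

/-- all values of a state are at most `M` -/
def BdSt (σ : St R A) (M : ℕ) : Prop := (∀ x, σ.r x ≤ M) ∧ ∀ a i, σ.m a i ≤ M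

theorem BdSt.mono {σ : St R A} {M M' : ℕ} (h : BdSt σ M) (hM : M ≤ M') : BdSt σ M' :=
  ⟨fun x => (h.1 x).trans hM, fun a i => (h.2 a i).trans hM⟩

theorem Exp.ev_le {σ : St R A} {M : ℕ} (h : BdSt σ M) (e : Exp R A) : e.ev σ ≤ M + e.sz := by
  induction e with
  | num c => simp [Exp.sz]
  | reg x => simpa [Exp.sz] using h.1 x
  | get a e _ =>
    have := h.2 a (e.ev σ)
    simp only [Exp.ev_get, Exp.sz]
    omega
  | inc e ih => simp only [Exp.ev_inc, Exp.sz]; omega
  | dec e ih => simp only [Exp.ev_dec, Exp.sz]; omega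

variable [DecidableEq R] [DecidableEq A]

theorem BdSt.setR {σ : St R A} {M : ℕ} (h : BdSt σ M) (x : R) {v : ℕ} (hv : v ≤ M) :
    BdSt (σ.setR x v) M := by
  refine ⟨fun y => ?_, h.2⟩
  simp only [St.setR_r]
  split_ifs
  · exact hv
  · exact h.1 y

theorem BdSt.setM {σ : St R A} {M : ℕ} (h : BdSt σ M) (a : A) (i : ℕ) {v : ℕ} (hv : v ≤ M) :
    BdSt (σ.setM a i v) M := by
  refine ⟨h.1, fun b k => ?_⟩
  simp only [St.setM_m]
  split_ifs
  · exact hv
  · exact h.2 b k
  · exact h.2 b k

theorem Exec.bound {c : Cmd R A} {σ σ' : St R A} {t : ℕ} (h : Exec c σ t σ') :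
    ∀ {M : ℕ}, BdSt σ M → BdSt σ' (M + c.sz * t) := by
  induction h with
  | skip σ =>
    intro M hM
    simpa using hM
  | set σ x e =>
    intro M hM
    have := e.ev_le hM
    simp only [Cmd.sz, Nat.mul_one]
    exact (hM.mono (by omega)).setR x this
  | put σ a i e =>
    intro M hM
    have := e.ev_le hM
    simp only [Cmd.sz, Nat.mul_one]
    exact (hM.mono (by omega)).setM a _ (by omega)
  | @seq c d σ σ' σ'' t t' _ _ ih1 ih2 =>
    intro M hM
    refine (ih2 (ih1 hM)).mono ?_
    simp only [Cmd.sz]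
    nlinarith [Nat.zero_le (c.sz * t'), Nat.zero_le (d.sz * t)]
  | @iteT b c d σ σ' t _ _ ih =>
    intro M hM
    refine (ih hM).mono ?_
    simp only [Cmd.sz]
    nlinarith [Nat.zero_le (c.sz), Nat.zero_le ((b.sz + d.sz) * (t + 1))]
  | @iteF b c d σ σ' t _ _ ih =>
    intro M hM
    refine (ih hM).mono ?_
    simp only [Cmd.sz]
    nlinarith [Nat.zero_le (d.sz), Nat.zero_le ((b.sz + c.sz) * (t + 1))]
  | whlF _ =>
    intro M hM
    exact hM.mono (by omega)
  | @whlT b c σ σ' σ'' t t' _ _ _ ih1 ih2 =>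
    intro M hM
    refine (ih2 (ih1 hM)).mono ?_
    simp only [Cmd.sz]
    nlinarith [Nat.zero_le (b.sz * (t + 1)), Nat.zero_le c.sz]

end

/-! ### layout -/

/-- Placement of the registers and arrays of the language. -/
structure Lay (R A : Type) where
  /-- number of a register -/
  rho : R → ℕ
  /-- number of an array -/
  alp : A → ℕ
  /-- number of registers -/
  nR : ℕ
  /-- number of arrays -/
  K : ℕ
  /-- the input array -/
  inp : A
  hrho : Function.Injective rho
  hrholt : ∀ r, rho r < nR
  halp : Function.Injective alp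
  halplt : ∀ a, alp a < K

namespace Lay

variable {R A : Type} [DecidableEq R] [DecidableEq A] (L : Lay R A)

/-- first scratch register -/
def S : ℕ := 3 + L.nR

/-- address of a cell -/
def adr (B : ℕ) (a : A) (i : ℕ) : ℕ := B + (L.K + 1) * i + (L.alp a + 1)

theorem adr_inj {B : ℕ} {a a' : A} {i i' : ℕ} (h : L.adr B a i = L.adr B a' i') :
    a = a' ∧ i = i' := by
  unfold adr at h
  have h1 : (L.K + 1) * i + (L.alp a + 1) = (L.K + 1) * i' + (L.alp a' + 1) := by omega
  have ha := L.halplt a
  have ha' := L.halplt a'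
  have h2 : L.alp a + 1 = L.alp a' + 1 := by
    have := congrArg (· % (L.K + 1)) h1
    simpa [Nat.mul_add_mod, Nat.mod_eq_of_lt (show L.alp a + 1 < L.K + 1 by omega),
      Nat.mod_eq_of_lt (show L.alp a' + 1 < L.K + 1 by omega)] using this
  have h3 : (L.K + 1) * i = (L.K + 1) * i' := by omega
  exact ⟨L.halp (by omega), Nat.eq_of_mul_eq_mul_left (by omega) h3⟩

/-- The words `s` represent the state `σ`; `B` is the length of the input. -/
structure Rep (B : ℕ) (σ : St R A) (s : RM) : Prop where
  z : s.1 0 = 0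
  one : s.1 1 = 1
  base : s.1 2 = B
  regs : ∀ r, s.1 (3 + L.rho r) = σ.r r
  arrs : ∀ a, a ≠ L.inp → ∀ i, s.2 (L.adr B a i) = σ.m a i
  inpt : ∀ i, s.2 (min i B) = σ.m L.inp i

variable {L}

theorem Rep.congr {B : ℕ} {σ : St R A} {s s' : RM} (h : L.Rep B σ s)
    (h1 : ∀ a < L.S, s'.1 a = s.1 a) (h2 : s'.2 = s.2) : L.Rep B σ s' := by
  have hS : L.S = 3 + L.nR := rfl
  refine ⟨?_, ?_, ?_, fun r => ?_, fun a ha i => ?_, fun i => ?_⟩
  · rw [h1 0 (by omega)]; exact h.z
  · rw [h1 1 (by omega)]; exact h.one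
  · rw [h1 2 (by omega)]; exact h.base
  · rw [h1 _ (by have := L.hrholt r; omega)]; exact h.regs r
  · rw [h2]; exact h.arrs a ha i
  · rw [h2]; exact h.inpt i

variable (L)

/-- code computing an address: register `S+d` holds the index and receives the address -/
def compA (a : A) (d : ℕ) : List Instr :=
  [.add (L.S + d + 1) 2 0] ++ (List.replicate (L.K + 1) (.add (L.S + d + 1) (L.S + d + 1) (L.S + d)) ++
    ([.const (L.S + d) (L.alp a + 1)] ++ [.add (L.S + d) (L.S + d) (L.S + d + 1)]))

theorem replicate_add {W : ℕ} (a b : ℕ) (hab : b ≠ a) (n : ℕ) : ∀ {s : RM}, Bdd W s →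
    s.1 a + n * s.1 b ≤ W →
    SRun W (List.replicate n (.add a a b)) s (Function.update s.1 a (s.1 a + n * s.1 b), s.2) := by
  induction n with
  | zero =>
    intro s _ _
    simpa using SRun.nil s
  | succ n ih =>
    intro s hs h
    have h1 : s.1 a + s.1 b ≤ W := by
      have : s.1 b ≤ (n + 1) * s.1 b := Nat.le_mul_of_pos_left _ (by omega)
      omega
    have hs1 : Bdd W (Function.update s.1 a (s.1 a + s.1 b), s.2) := hs.upd _ _ h1
    have e := ih hs1 (by
      simp only [Function.update_self, Function.update_of_ne hab]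
      have : (n + 1) * s.1 b = s.1 b + n * s.1 b := by ring
      omega)
    rw [List.replicate_succ]
    refine .cons trivial hs1 ?_
    simp only [Function.update_self, Function.update_of_ne hab, Function.update_idem] at e
    have h2 : s.1 a + (n + 1) * s.1 b = s.1 a + s.1 b + n * s.1 b := by ring
    rw [h2]
    exact e

theorem compA_spec {B W : ℕ} (a : A) (d : ℕ) {s : RM} (hz : s.1 0 = 0) (hB : s.1 2 = B)
    (hb : Bdd W s) (hW : B + (L.K + 1) * s.1 (L.S + d) + (L.K + 1) ≤ W) :
    ∃ r', SRun W (L.compA a d) s (r', s.2) ∧ r' (L.S + d) = L.adr B a (s.1 (L.S + d)) ∧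
      (∀ b < L.S + d, r' b = s.1 b) ∧ Bdd W (r', s.2) := by
  have hS : L.S = 3 + L.nR := rfl
  have ha := L.halplt a
  set v := s.1 (L.S + d) with hv
  -- first instruction
  have e1 := SRun.add hb (L.S + d + 1) 2 0 (by rw [hz, hB]; omega)
  have b1 := e1.bdd hb
  rw [hz, hB, Nat.add_zero] at e1 b1
  set r1 := Function.update s.1 (L.S + d + 1) B with hr1
  have r1a : r1 (L.S + d + 1) = B := by simp [hr1]
  have r1b : r1 (L.S + d) = v := by simp [hr1, hv]
  have e2 := replicate_add (W := W) (L.S + d + 1) (L.S + d) (by omega) (L.K + 1) b1 (by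
    change r1 (L.S + d + 1) + (L.K + 1) * r1 (L.S + d) ≤ W
    rw [r1a, r1b]; omega)
  have b2 := e2.bdd b1
  change SRun W _ (r1, s.2) (Function.update r1 (L.S + d + 1)
    (r1 (L.S + d + 1) + (L.K + 1) * r1 (L.S + d)), s.2) at e2
  change Bdd W (Function.update r1 (L.S + d + 1)
    (r1 (L.S + d + 1) + (L.K + 1) * r1 (L.S + d)), s.2) at b2
  rw [r1a, r1b] at e2 b2
  set r2 := Function.update r1 (L.S + d + 1) (B + (L.K + 1) * v) with hr2
  have r2a : r2 (L.S + d + 1) = B + (L.K + 1) * v := by simp [hr2]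
  have e3 := SRun.const b2 (L.S + d) (L.alp a + 1) (by omega)
  have b3 := e3.bdd b2
  change SRun W _ (r2, s.2) (Function.update r2 (L.S + d) (L.alp a + 1), s.2) at e3
  change Bdd W (Function.update r2 (L.S + d) (L.alp a + 1), s.2) at b3
  set r3 := Function.update r2 (L.S + d) (L.alp a + 1) with hr3
  have r3a : r3 (L.S + d) = L.alp a + 1 := by simp [hr3]
  have r3b : r3 (L.S + d + 1) = B + (L.K + 1) * v := by
    rw [hr3, Function.update_of_ne (by omega)]; exact r2a
  have e4 := SRun.add b3 (L.S + d) (L.S + d) (L.S + d + 1) (by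
    change r3 (L.S + d) + r3 (L.S + d + 1) ≤ W
    rw [r3a, r3b]; omega)
  have b4 := e4.bdd b3
  refine ⟨_, e1.append (e2.append (e3.append e4)), ?_, ?_, b4⟩
  · simp only [Function.update_self]
    rw [r3a, r3b]
    unfold adr
    omega
  · intro b hb'
    simp only
    rw [Function.update_of_ne (by omega), hr3, Function.update_of_ne (by omega), hr2,
      Function.update_of_ne (by omega), hr1, Function.update_of_ne (by omega)]

/-- code for an expression: the value is put into register `S+d` -/
def compE : Exp R A → ℕ → List Instr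
  | .num c, d => [.const (L.S + d) c]
  | .reg x, d => [.add (L.S + d) (3 + L.rho x) 0]
  | .get a e, d => compE e d ++ (if a = L.inp then
      [.sub (L.S + d + 1) (L.S + d) 2] ++ ([.sub (L.S + d) (L.S + d) (L.S + d + 1)] ++
        [.load (L.S + d) (L.S + d)]) else L.compA a d ++ [.load (L.S + d) (L.S + d)])
  | .inc e, d => compE e d ++ [.add (L.S + d) (L.S + d) 1]
  | .dec e, d => compE e d ++ [.sub (L.S + d) (L.S + d) 1]

theorem compE_spec {B W M : ℕ} {σ : St R A} (hσ : BdSt σ M) (e : Exp R A)
    (hW : B + (L.K + 1) * (M + e.sz) + (L.K + 1) ≤ W) (d : ℕ) {s : RM} (hs : L.Rep B σ s)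
    (hb : Bdd W s) :
    ∃ r', SRun W (L.compE e d) s (r', s.2) ∧ r' (L.S + d) = e.ev σ ∧
      (∀ b < L.S + d, r' b = s.1 b) ∧ Bdd W (r', s.2) := by
  have hS : L.S = 3 + L.nR := rfl
  have hMW : ∀ v, v ≤ M + e.sz → v ≤ W := by
    intro v hv
    have : M + e.sz ≤ (L.K + 1) * (M + e.sz) := Nat.le_mul_of_pos_left _ (by omega)
    omega
  induction e with
  | num c =>
    have e1 := SRun.const hb (L.S + d) c (hMW _ (by simp [Exp.sz]))
    refine ⟨_, e1, by simp, fun b hb' => ?_, e1.bdd hb⟩
    rw [Function.update_of_ne (by omega)]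
  | reg x =>
    have hv : s.1 (3 + L.rho x) + s.1 0 = σ.r x := by rw [hs.z, hs.regs]; omega
    have e1 := SRun.add hb (L.S + d) (3 + L.rho x) 0 (by
      rw [hv]
      exact hMW _ (by have := hσ.1 x; omega))
    refine ⟨_, e1, by simp [hv], fun b hb' => ?_, e1.bdd hb⟩
    rw [Function.update_of_ne (by omega)]
  | get a e ih =>
    obtain ⟨r, h1, h2, h3, h4⟩ := ih hW hMW
    have hrep : L.Rep B σ (r, s.2) := hs.congr (fun a ha => h3 a (by omega)) rfl
    by_cases ha : a = L.inp
    · have ecode : L.compE (.get a e) d = L.compE e d ++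
        ([.sub (L.S + d + 1) (L.S + d) 2] ++ ([.sub (L.S + d) (L.S + d) (L.S + d + 1)] ++
          [.load (L.S + d) (L.S + d)])) := by
        simp only [compE, if_pos ha]
      rw [ecode]
      have f1 := SRun.sub h4 (L.S + d + 1) (L.S + d) 2
      have b1 := f1.bdd h4
      have f2 := SRun.sub b1 (L.S + d) (L.S + d) (L.S + d + 1)
      have b2 := f2.bdd b1
      have f3 := SRun.load b2 (L.S + d) (L.S + d)
      have b3 := f3.bdd b2
      refine ⟨_, h1.append (f1.append (f2.append f3)), ?_, ?_, b3⟩
      · simp only [Function.update_self]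
        have hb2 : r 2 = B := hrep.base
        rw [Function.update_of_ne (by omega), h2, hb2]
        have : e.ev σ - (e.ev σ - B) = min (e.ev σ) B := by omega
        rw [this, Exp.ev_get, ha]
        exact hrep.inpt _
      · intro b hb'
        simp only
        rw [Function.update_of_ne (by omega), Function.update_of_ne (by omega),
          Function.update_of_ne (by omega), h3 b hb']
    · have ecode : L.compE (.get a e) d = L.compE e d ++ (L.compA a d ++
          [.load (L.S + d) (L.S + d)]) := by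
        simp only [compE, if_neg ha]
      rw [ecode]
      have hle := e.ev_le hσ
      obtain ⟨r', g1, g2, g3, g4⟩ := L.compA_spec (B := B) (W := W) a d (s := (r, s.2)) hrep.z
        hrep.base h4 (by
          change B + (L.K + 1) * r (L.S + d) + (L.K + 1) ≤ W
          rw [h2]
          refine le_trans ?_ hW
          have : (L.K + 1) * e.ev σ ≤ (L.K + 1) * (M + e.sz) := Nat.mul_le_mul_left _ hle
          simp only [Exp.sz]
          omega)
      have f3 := SRun.load g4 (L.S + d) (L.S + d)
      have b3 := f3.bdd g4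
      refine ⟨_, h1.append (g1.append f3), ?_, ?_, b3⟩
      · simp only [Function.update_self]
        rw [g2]
        change s.2 (L.adr B a (r (L.S + d))) = _
        rw [h2, Exp.ev_get]
        exact hs.arrs a ha _
      · intro b hb'
        simp only
        rw [Function.update_of_ne (by omega), g3 b hb']
        exact h3 b hb'
  | inc e ih =>
    have hW' : B + (L.K + 1) * (M + e.sz) + (L.K + 1) ≤ W := by
      refine le_trans ?_ hW
      simp only [Exp.sz]
      have : (L.K + 1) * (M + e.sz) ≤ (L.K + 1) * (M + (e.sz + 1)) :=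
        Nat.mul_le_mul_left _ (by omega)
      omega
    obtain ⟨r, h1, h2, h3, h4⟩ := ih hW' (fun v hv => hMW v (by simp only [Exp.sz]; omega))
    have hrep : L.Rep B σ (r, s.2) := hs.congr (fun a ha => h3 a (by omega)) rfl
    have hv : r (L.S + d) + r 1 = e.ev σ + 1 := by
      rw [h2]
      congr 1
      exact hrep.one
    have hle := e.ev_le hσ
    have f := SRun.add h4 (L.S + d) (L.S + d) 1 (by
      change r (L.S + d) + r 1 ≤ W
      rw [hv]
      exact hMW _ (by simp only [Exp.sz]; omega))
    refine ⟨_, h1.append f, ?_, ?_, f.bdd h4⟩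
    · simp only [Function.update_self]
      exact hv
    · intro b hb'
      simp only
      rw [Function.update_of_ne (by omega), h3 b hb']
  | dec e ih =>
    obtain ⟨r, h1, h2, h3, h4⟩ := ih hW hMW
    have hrep : L.Rep B σ (r, s.2) := hs.congr (fun a ha => h3 a (by omega)) rfl
    have hv : r (L.S + d) - r 1 = e.ev σ - 1 := by
      rw [h2]
      congr 1
      exact hrep.one
    have f := SRun.sub h4 (L.S + d) (L.S + d) 1
    refine ⟨_, h1.append f, ?_, ?_, f.bdd h4⟩
    · simp only [Function.update_self]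
      exact hv
    · intro b hb'
      simp only
      rw [Function.update_of_ne (by omega), h3 b hb']

/-- code for a test: register `S+d` becomes `1` (true) or `0` (false) -/
def compC : Cnd R A → ℕ → List Instr
  | .lt e f, d => L.compE e d ++ (L.compE f (d + 1) ++
      ([.sub (L.S + d) (L.S + d + 1) (L.S + d)] ++ ([.sub (L.S + d + 1) (L.S + d) 1] ++
        [.sub (L.S + d) (L.S + d) (L.S + d + 1)])))
  | .eq e f, d => L.compE e d ++ (L.compE f (d + 1) ++
      ([.sub (L.S + d + 2) (L.S + d) (L.S + d + 1)] ++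
        ([.sub (L.S + d) (L.S + d + 1) (L.S + d)] ++
          ([.add (L.S + d) (L.S + d) (L.S + d + 2)] ++ [.sub (L.S + d) 1 (L.S + d)]))))
  | .neg c, d => compC c d ++ [.sub (L.S + d) 1 (L.S + d)]
  | .and c c', d => compC c d ++ (compC c' (d + 1) ++
      ([.add (L.S + d) (L.S + d) (L.S + d + 1)] ++ [.sub (L.S + d) (L.S + d) 1]))
  | .or c c', d => compC c d ++ (compC c' (d + 1) ++
      ([.add (L.S + d) (L.S + d) (L.S + d + 1)] ++ ([.sub (L.S + d) 1 (L.S + d)] ++
        [.sub (L.S + d) 1 (L.S + d)])))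

theorem compC_spec {B W M : ℕ} {σ : St R A} (hσ : BdSt σ M) (c : Cnd R A) :
    ∀ (_ : B + (L.K + 1) * (M + c.sz) + (L.K + 1) ≤ W) (_ : 2 ≤ W) (d : ℕ) {s : RM}
      (_ : L.Rep B σ s) (_ : Bdd W s),
    ∃ r', SRun W (L.compC c d) s (r', s.2) ∧ ((c.ev σ ∧ r' (L.S + d) = 1) ∨
      (¬ c.ev σ ∧ r' (L.S + d) = 0)) ∧ (∀ b < L.S + d, r' b = s.1 b) ∧ Bdd W (r', s.2) := by
  have hS : L.S = 3 + L.nR := rfl
  induction c with
  | lt e f =>
    intro hW hW2 d s hs hb
    have hWe : B + (L.K + 1) * (M + e.sz) + (L.K + 1) ≤ W := by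
      have : (L.K + 1) * (M + e.sz) ≤ (L.K + 1) * (M + (Cnd.lt e f).sz) :=
        Nat.mul_le_mul_left _ (by simp only [Cnd.sz]; omega)
      omega
    have hWf : B + (L.K + 1) * (M + f.sz) + (L.K + 1) ≤ W := by
      have : (L.K + 1) * (M + f.sz) ≤ (L.K + 1) * (M + (Cnd.lt e f).sz) :=
        Nat.mul_le_mul_left _ (by simp only [Cnd.sz]; omega)
      omega
    obtain ⟨r, h1, h2, h3, h4⟩ := L.compE_spec hσ e hWe d hs hb
    have hrep : L.Rep B σ (r, s.2) := hs.congr (fun a ha => h3 a (by omega)) rfl
    obtain ⟨r', g1, g2, g3, g4⟩ := L.compE_spec hσ f hWf (d + 1) hrep h4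
    have hrep' : L.Rep B σ (r', s.2) := hrep.congr (fun a ha => g3 a (by omega)) rfl
    have v1 : r' (L.S + d) = e.ev σ := by
      rw [g3 _ (by omega)]; exact h2
    have v2 : r' (L.S + d + 1) = f.ev σ := g2
    have v3 : r' 1 = 1 := hrep'.one
    have f1 := SRun.sub g4 (L.S + d) (L.S + d + 1) (L.S + d)
    have b1 := f1.bdd g4
    have f2 := SRun.sub b1 (L.S + d + 1) (L.S + d) 1
    have b2 := f2.bdd b1
    have f3 := SRun.sub b2 (L.S + d) (L.S + d) (L.S + d + 1)
    have b3 := f3.bdd b2
    refine ⟨_, h1.append (g1.append (f1.append (f2.append f3))), ?_, ?_, b3⟩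
    · have n1 : L.S + d ≠ L.S + d + 1 := by omega
      have n2 : (1 : ℕ) ≠ L.S + d := by omega
      simp only [Function.update_self, Function.update_of_ne n1, Function.update_of_ne n2,
        Cnd.ev_lt]
      rw [v1, v2, v3]
      by_cases h : e.ev σ < f.ev σ
      · left
        exact ⟨h, by omega⟩
      · right
        exact ⟨h, by omega⟩
    · intro b hb'
      simp only
      rw [Function.update_of_ne (by omega), Function.update_of_ne (by omega),
        Function.update_of_ne (by omega)]
      exact (g3 b (by omega)).trans (h3 b hb')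
  | eq e f =>
    intro hW hW2 d s hs hb
    have hWe : B + (L.K + 1) * (M + e.sz) + (L.K + 1) ≤ W := by
      have : (L.K + 1) * (M + e.sz) ≤ (L.K + 1) * (M + (Cnd.lt e f).sz) :=
        Nat.mul_le_mul_left _ (by simp only [Cnd.sz]; omega)
      simp only [Cnd.sz] at hW this
      omega
    have hWf : B + (L.K + 1) * (M + f.sz) + (L.K + 1) ≤ W := by
      have : (L.K + 1) * (M + f.sz) ≤ (L.K + 1) * (M + (Cnd.lt e f).sz) :=
        Nat.mul_le_mul_left _ (by simp only [Cnd.sz]; omega)
      simp only [Cnd.sz] at hW this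
      omega
    obtain ⟨r, h1, h2, h3, h4⟩ := L.compE_spec hσ e hWe d hs hb
    have hrep : L.Rep B σ (r, s.2) := hs.congr (fun a ha => h3 a (by omega)) rfl
    obtain ⟨r', g1, g2, g3, g4⟩ := L.compE_spec hσ f hWf (d + 1) hrep h4
    have hrep' : L.Rep B σ (r', s.2) := hrep.congr (fun a ha => g3 a (by omega)) rfl
    have v1 : r' (L.S + d) = e.ev σ := by
      rw [g3 _ (by omega)]; exact h2
    have v2 : r' (L.S + d + 1) = f.ev σ := g2
    have v3 : r' 1 = 1 := hrep'.one
    have n1 : L.S + d ≠ L.S + d + 2 := by omega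
    have n2 : (1 : ℕ) ≠ L.S + d := by omega
    have n3 : L.S + d + 1 ≠ L.S + d + 2 := by omega
    have n4 : L.S + d + 2 ≠ L.S + d := by omega
    have n5 : (1 : ℕ) ≠ L.S + d + 2 := by omega
    have f1 := SRun.sub g4 (L.S + d + 2) (L.S + d) (L.S + d + 1)
    have b1 := f1.bdd g4
    have f2 := SRun.sub b1 (L.S + d) (L.S + d + 1) (L.S + d)
    have b2 := f2.bdd b1
    have f3 := SRun.add b2 (L.S + d) (L.S + d) (L.S + d + 2) (by
      simp only [Function.update_self, Function.update_of_ne n1, Function.update_of_ne n3,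
        Function.update_of_ne n4]
      have w1 := g4.1 (L.S + d)
      have w2 := g4.1 (L.S + d + 1)
      simp only at w1 w2
      omega)
    have b3 := f3.bdd b2
    have f4 := SRun.sub b3 (L.S + d) 1 (L.S + d)
    have b4 := f4.bdd b3
    refine ⟨_, h1.append (g1.append (f1.append (f2.append (f3.append f4)))), ?_, ?_, b4⟩
    · simp only [Function.update_self, Function.update_of_ne n1, Function.update_of_ne n2,
        Function.update_of_ne n3, Function.update_of_ne n4, Function.update_of_ne n5, Cnd.ev_eq]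
      rw [v1, v2, v3]
      by_cases h : e.ev σ = f.ev σ
      · left
        exact ⟨h, by omega⟩
      · right
        exact ⟨h, by omega⟩
    · intro b hb'
      simp only
      rw [Function.update_of_ne (by omega), Function.update_of_ne (by omega),
        Function.update_of_ne (by omega), Function.update_of_ne (by omega)]
      exact (g3 b (by omega)).trans (h3 b hb')
  | neg c ih =>
    intro hW hW2 d s hs hb
    obtain ⟨r, h1, h2, h3, h4⟩ := ih hW hW2 d hs hb
    have hrep : L.Rep B σ (r, s.2) := hs.congr (fun a ha => h3 a (by omega)) rfl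
    have v3 : r 1 = 1 := hrep.one
    have f1 := SRun.sub h4 (L.S + d) 1 (L.S + d)
    refine ⟨_, h1.append f1, ?_, ?_, f1.bdd h4⟩
    · simp only [Function.update_self, Cnd.ev_neg]
      rw [v3]
      rcases h2 with ⟨a1, a2⟩ | ⟨a1, a2⟩
      · right
        exact ⟨by simpa using a1, by omega⟩
      · left
        exact ⟨a1, by omega⟩
    · intro b hb'
      simp only
      rw [Function.update_of_ne (by omega), h3 b hb']
  | and c c' ih ih' =>
    intro hW hW2 d s hs hb
    have hWe : B + (L.K + 1) * (M + c.sz) + (L.K + 1) ≤ W := by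
      have : (L.K + 1) * (M + c.sz) ≤ (L.K + 1) * (M + (Cnd.and c c').sz) :=
        Nat.mul_le_mul_left _ (by simp only [Cnd.sz]; omega)
      omega
    have hWf : B + (L.K + 1) * (M + c'.sz) + (L.K + 1) ≤ W := by
      have : (L.K + 1) * (M + c'.sz) ≤ (L.K + 1) * (M + (Cnd.and c c').sz) :=
        Nat.mul_le_mul_left _ (by simp only [Cnd.sz]; omega)
      omega
    obtain ⟨r, h1, h2, h3, h4⟩ := ih hWe hW2 d hs hb
    have hrep : L.Rep B σ (r, s.2) := hs.congr (fun a ha => h3 a (by omega)) rfl
    obtain ⟨r', g1, g2, g3, g4⟩ := ih' hWf hW2 (d + 1) hrep h4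
    have hrep' : L.Rep B σ (r', s.2) := hrep.congr (fun a ha => g3 a (by omega)) rfl
    have v1 : r' (L.S + d) = r (L.S + d) := g3 _ (by omega)
    have v3 : r' 1 = 1 := hrep'.one
    rw [← Nat.add_assoc] at g2
    have n2 : (1 : ℕ) ≠ L.S + d := by omega
    have f1 := SRun.add g4 (L.S + d) (L.S + d) (L.S + d + 1) (by
      simp only
      rw [v1]
      omega)
    have b1 := f1.bdd g4
    have f2 := SRun.sub b1 (L.S + d) (L.S + d) 1
    have b2 := f2.bdd b1
    refine ⟨_, h1.append (g1.append (f1.append f2)), ?_, ?_, b2⟩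
    · simp only [Function.update_self, Function.update_of_ne n2, Cnd.ev_and]
      rw [v1, v3]
      rcases h2 with ⟨a1, a2⟩ | ⟨a1, a2⟩ <;> rcases g2 with ⟨a3, a4⟩ | ⟨a3, a4⟩
      · left; exact ⟨⟨a1, a3⟩, by omega⟩
      · right; exact ⟨fun h => a3 h.2, by omega⟩
      · right; exact ⟨fun h => a1 h.1, by omega⟩
      · right; exact ⟨fun h => a1 h.1, by omega⟩
    · intro b hb'
      simp only
      rw [Function.update_of_ne (by omega), Function.update_of_ne (by omega)]
      exact (g3 b (by omega)).trans (h3 b hb')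
  | or c c' ih ih' =>
    intro hW hW2 d s hs hb
    have hWe : B + (L.K + 1) * (M + c.sz) + (L.K + 1) ≤ W := by
      have : (L.K + 1) * (M + c.sz) ≤ (L.K + 1) * (M + (Cnd.or c c').sz) :=
        Nat.mul_le_mul_left _ (by simp only [Cnd.sz]; omega)
      omega
    have hWf : B + (L.K + 1) * (M + c'.sz) + (L.K + 1) ≤ W := by
      have : (L.K + 1) * (M + c'.sz) ≤ (L.K + 1) * (M + (Cnd.or c c').sz) :=
        Nat.mul_le_mul_left _ (by simp only [Cnd.sz]; omega)
      omega
    obtain ⟨r, h1, h2, h3, h4⟩ := ih hWe hW2 d hs hb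
    have hrep : L.Rep B σ (r, s.2) := hs.congr (fun a ha => h3 a (by omega)) rfl
    obtain ⟨r', g1, g2, g3, g4⟩ := ih' hWf hW2 (d + 1) hrep h4
    have hrep' : L.Rep B σ (r', s.2) := hrep.congr (fun a ha => g3 a (by omega)) rfl
    have v1 : r' (L.S + d) = r (L.S + d) := g3 _ (by omega)
    have v3 : r' 1 = 1 := hrep'.one
    rw [← Nat.add_assoc] at g2
    have n2 : (1 : ℕ) ≠ L.S + d := by omega
    have f1 := SRun.add g4 (L.S + d) (L.S + d) (L.S + d + 1) (by
      simp only
      rw [v1]
      omega)
    have b1 := f1.bdd g4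
    have f2 := SRun.sub b1 (L.S + d) 1 (L.S + d)
    have b2 := f2.bdd b1
    have f3 := SRun.sub b2 (L.S + d) 1 (L.S + d)
    have b3 := f3.bdd b2
    refine ⟨_, h1.append (g1.append (f1.append (f2.append f3))), ?_, ?_, b3⟩
    · simp only [Function.update_self, Function.update_of_ne n2, Cnd.ev_or]
      rw [v1, v3]
      rcases h2 with ⟨a1, a2⟩ | ⟨a1, a2⟩ <;> rcases g2 with ⟨a3, a4⟩ | ⟨a3, a4⟩
      · left; exact ⟨Or.inl a1, by omega⟩
      · left; exact ⟨Or.inl a1, by omega⟩
      · left; exact ⟨Or.inr a3, by omega⟩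
      · right; exact ⟨fun h => h.elim a1 a3, by omega⟩
    · intro b hb'
      simp only
      rw [Function.update_of_ne (by omega), Function.update_of_ne (by omega),
        Function.update_of_ne (by omega)]
      exact (g3 b (by omega)).trans (h3 b hb')

/-! ### commands -/

/-- code for a command, to be placed at position `off` -/
def comp : Cmd R A → ℕ → List Instr
  | .skip, _ => []
  | .set x e, _ => L.compE e 0 ++ [.add (3 + L.rho x) L.S 0]
  | .put a i e, _ => L.compE i 0 ++ (L.compA a 0 ++ (L.compE e 1 ++ [.store L.S (L.S + 1)]))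
  | .seq c d, off => comp c off ++ comp d (off + (comp c off).length)
  | .ite b c d, off =>
    let lb := (L.compC b 0).length
    let cd := comp d (off + lb + 1)
    let cc := comp c (off + lb + 1 + cd.length + 1)
    L.compC b 0 ++ ([.jlt 0 L.S (off + lb + 1 + cd.length + 1)] ++ (cd ++
      ([.jmp (off + lb + 1 + cd.length + 1 + cc.length)] ++ cc)))
  | .whl b c, off =>
    let lb := (L.compC b 0).length
    let cc := comp c (off + lb + 2)
    L.compC b 0 ++ ([.jlt 0 L.S (off + lb + 2)] ++ ([.jmp (off + lb + 2 + cc.length + 1)] ++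
      (cc ++ [.jmp off])))

theorem Rep.setR {L : Lay R A} {B : ℕ} {σ : St R A} {s : RM} (h : L.Rep B σ s) (x : R) (v : ℕ) :
    L.Rep B (σ.setR x v) (Function.update s.1 (3 + L.rho x) v, s.2) := by
  refine ⟨?_, ?_, ?_, fun r => ?_, fun a ha i => ?_, fun i => ?_⟩
  · simp only; rw [Function.update_of_ne (by omega)]; exact h.z
  · simp only; rw [Function.update_of_ne (by omega)]; exact h.one
  · simp only; rw [Function.update_of_ne (by omega)]; exact h.base
  · simp only [St.setR_r]
    by_cases hr : r = x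
    · subst hr
      simp
    · rw [if_neg hr, Function.update_of_ne (fun h' => hr (L.hrho (by omega)))]
      exact h.regs r
  · exact h.arrs a ha i
  · exact h.inpt i

theorem Rep.setM {L : Lay R A} {B : ℕ} {σ : St R A} {s : RM} (h : L.Rep B σ s) (a : A)
    (ha : a ≠ L.inp) (j v : ℕ) :
    L.Rep B (σ.setM a j v) (s.1, Function.update s.2 (L.adr B a j) v) := by
  refine ⟨h.z, h.one, h.base, h.regs, fun b hb i => ?_, fun i => ?_⟩
  · simp only [St.setM_m]
    by_cases hba : b = a ∧ i = j
    · rw [hba.1, hba.2]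
      simp
    · have : L.adr B b i ≠ L.adr B a j := fun h' => hba (L.adr_inj h')
      rw [Function.update_of_ne this, h.arrs b hb i]
      by_cases h1 : b = a
      · rw [if_pos h1, if_neg fun h2 => hba ⟨h1, h2⟩]
      · rw [if_neg h1]
  · have h1 : min i B ≠ L.adr B a j := by
      have : B < L.adr B a j := by
        unfold adr
        omega
      omega
    simp only [St.setM_m]
    rw [Function.update_of_ne h1, if_neg (Ne.symm ha)]
    exact h.inpt i

theorem sim_jlt {P : List Instr} {W off a b l : ℕ} {s : RM} (h : P[off]? = some (.jlt a b l))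
    (hb : Bdd W s) : Sim P W 1 ⟨off, s.1, s.2⟩ ⟨if s.1 a < s.1 b then l else off + 1, s.1, s.2⟩ := by
  refine Sim.step1 hb ?_ hb
  unfold step
  simp only [h]

theorem sim_jmp {P : List Instr} {W off l : ℕ} {s : RM} (h : P[off]? = some (.jmp l))
    (hb : Bdd W s) : Sim P W 1 ⟨off, s.1, s.2⟩ ⟨l, s.1, s.2⟩ := by
  refine Sim.step1 hb ?_ hb
  unfold step
  simp only [h]

theorem comp_spec {B W Mt : ℕ} {P : List Instr} (hW : B + (L.K + 1) * Mt + (L.K + 1) ≤ W)
    (hW2 : 2 ≤ W) {c : Cmd R A} {σ σ' : St R A} {t : ℕ} (h : Exec c σ t σ') :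
    ∀ {M off : ℕ} {s : RM}, BdSt σ M → M + c.sz * t ≤ Mt → L.inp ∉ c.wa →
      At P off (L.comp c off) → L.Rep B σ s → Bdd W s →
      ∃ n s', n ≤ (L.comp c off).length * t + (L.comp c off).length ∧
        Sim P W n ⟨off, s.1, s.2⟩ ⟨off + (L.comp c off).length, s'.1, s'.2⟩ ∧ L.Rep B σ' s' := by
  have hS : L.S = 3 + L.nR := rfl
  have hMW : ∀ v, v ≤ Mt → B + (L.K + 1) * v + (L.K + 1) ≤ W := by
    intro v hv
    have : (L.K + 1) * v ≤ (L.K + 1) * Mt := Nat.mul_le_mul_left _ hv
    omega
  have hMW1 : ∀ v, v ≤ Mt → v ≤ W := by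
    intro v hv
    have : v ≤ (L.K + 1) * v := Nat.le_mul_of_pos_left _ (by omega)
    have := hMW v hv
    omega
  induction h with
  | skip σ =>
    intro M off s _ _ _ _ hrep hb
    exact ⟨0, s, by simp, by simpa [comp] using Sim.refl hb, hrep⟩
  | set σ x e =>
    intro M off s hσ hM _ hA hrep hb
    simp only [Cmd.sz, Nat.mul_one] at hM
    obtain ⟨r, h1, h2, h3, h4⟩ := L.compE_spec hσ e (hMW _ hM) 0 hrep hb
    have hrep1 : L.Rep B σ (r, s.2) := hrep.congr (fun a ha => h3 a (by omega)) rfl
    rw [Nat.add_zero] at h2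
    have hv : r L.S + r 0 = e.ev σ := by
      rw [h2]
      have : r 0 = 0 := hrep1.z
      omega
    have hle := e.ev_le hσ
    have f := SRun.add h4 (3 + L.rho x) L.S 0 (by
      simp only
      rw [hv]
      exact hMW1 _ (by omega))
    have g := h1.append f
    refine ⟨(L.comp (.set x e) off).length, _, by omega, g.sim hA hb, ?_⟩
    simp only
    rw [hv]
    exact hrep1.setR x _
  | put σ a i e =>
    intro M off s hσ hM hwa hA hrep hb
    simp only [Cmd.sz, Nat.mul_one] at hM
    have ha : a ≠ L.inp := by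
      simpa [Cmd.wa, eq_comm] using hwa
    obtain ⟨r, h1, h2, h3, h4⟩ := L.compE_spec hσ i (hMW (M + i.sz) (by omega)) 0 hrep hb
    have hrep1 : L.Rep B σ (r, s.2) := hrep.congr (fun a ha => h3 a (by omega)) rfl
    have hle := i.ev_le hσ
    obtain ⟨r1, g1, g2, g3, g4⟩ := L.compA_spec (B := B) (W := W) a 0 (s := (r, s.2)) hrep1.z
      hrep1.base h4 (by
        simp only
        rw [h2]
        exact hMW _ (by omega))
    have hrep2 : L.Rep B σ (r1, s.2) := hrep1.congr (fun a ha => g3 a (by omega)) rfl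
    obtain ⟨r2, k1, k2, k3, k4⟩ := L.compE_spec hσ e (hMW (M + e.sz) (by omega)) 1 hrep2 g4
    have hrep3 : L.Rep B σ (r2, s.2) := hrep2.congr (fun a ha => k3 a (by omega)) rfl
    have f := SRun.store k4 L.S (L.S + 1)
    have g := h1.append (g1.append (k1.append f))
    refine ⟨(L.comp (.put a i e) off).length, _, by omega, g.sim hA hb, ?_⟩
    have v1 : r2 L.S = L.adr B a (i.ev σ) := by
      have := k3 L.S (by omega)
      simp only at this
      rw [this]
      simp only [Nat.add_zero] at g2 h2
      rw [g2, h2]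
    simp only
    rw [v1, k2]
    exact hrep3.setM a ha _ _
  | @seq c d σ σ1 σ2 t t' e1 e2 ih1 ih2 =>
    intro M off s hσ hM hwa hA hrep hb
    simp only [Cmd.wa, List.mem_append, not_or] at hwa
    simp only [Cmd.sz] at hM
    simp only [comp] at hA
    have hM1 : M + c.sz * t ≤ Mt := by
      nlinarith [Nat.zero_le (c.sz * t'), Nat.zero_le (d.sz * t), Nat.zero_le (d.sz * t')]
    have hM2 : M + c.sz * t + d.sz * t' ≤ Mt := by
      nlinarith [Nat.zero_le (c.sz * t'), Nat.zero_le (d.sz * t)]
    obtain ⟨n1, s1, a1, a2, a3⟩ := ih1 hσ hM1 hwa.1 hA.left hrep hb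
    obtain ⟨n2, s2, b1, b2, b3⟩ := ih2 (e1.bound hσ) hM2 hwa.2 hA.right a3 a2.bdd
    refine ⟨n1 + n2, s2, ?_, ?_, b3⟩
    · simp only [comp, List.length_append]
      nlinarith [Nat.zero_le ((L.comp c off).length * t'),
        Nat.zero_le ((L.comp d (off + (L.comp c off).length)).length * t)]
    · have := a2.trans b2
      simpa only [comp, List.length_append, Nat.add_assoc] using this
  | @iteT b c d σ σ' t hbv e ih =>
    intro M off s hσ hM hwa hA hrep hb
    simp only [Cmd.wa, List.mem_append, not_or] at hwa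
    simp only [Cmd.sz] at hM
    simp only [comp] at hA
    set lb := (L.compC b 0).length with hlb
    set cd := L.comp d (off + lb + 1) with hcd
    set cc := L.comp c (off + lb + 1 + cd.length + 1) with hcc
    have hM1 : M + b.sz ≤ Mt := by
      nlinarith [Nat.zero_le (b.sz * t), Nat.zero_le (c.sz * (t + 1)), Nat.zero_le (d.sz * (t + 1))]
    have hM2 : M + c.sz * t ≤ Mt := by
      nlinarith [Nat.zero_le (b.sz * (t + 1)), Nat.zero_le c.sz, Nat.zero_le (d.sz * (t + 1))]
    obtain ⟨r, h1, h2, h3, h4⟩ := L.compC_spec hσ b (hMW _ hM1) hW2 0 hrep hb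
    have hrep1 : L.Rep B σ (r, s.2) := hrep.congr (fun a ha => h3 a (by omega)) rfl
    have g1 := h1.sim hA.left hb
    rw [← hlb] at g1
    have g2 := sim_jlt hA.right.head h4
    have hr0 : r 0 = 0 := hrep1.z
    have hrS : r L.S = 1 := by
      rcases h2 with h2 | h2
      · simpa using h2.2
      · exact absurd hbv h2.1
    simp only [hr0, hrS] at g2
    rw [if_pos (by omega)] at g2
    have hA3 : At P (off + lb + 1 + cd.length + 1) cc := by
      have := hA.right.right.right.right
      simpa [hlb, Nat.add_assoc] using this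
    obtain ⟨n, s', k1, k2, k3⟩ := ih hσ hM2 hwa.1 hA3 hrep1 h4
    rw [← hcc] at k1 k2
    have hlen : (L.comp (.ite b c d) off).length = lb + cd.length + cc.length + 2 := by
      simp only [comp, List.length_append, List.length_cons, List.length_nil]
      rw [← hlb, ← hcd, ← hcc]
      omega
    refine ⟨lb + (1 + n), s', ?_, ?_, k3⟩
    · rw [hlen]
      nlinarith [Nat.zero_le (lb * t), Nat.zero_le (cd.length * (t + 1)), Nat.zero_le (cc.length * t)]
    · have := g1.trans (g2.trans k2)
      rw [hlen]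
      have e : off + (lb + cd.length + cc.length + 2) = off + lb + 1 + cd.length + 1 + cc.length := by
        omega
      rw [e]
      exact this
  | @iteF b c d σ σ' t hbv e ih =>
    intro M off s hσ hM hwa hA hrep hb
    simp only [Cmd.wa, List.mem_append, not_or] at hwa
    simp only [Cmd.sz] at hM
    simp only [comp] at hA
    set lb := (L.compC b 0).length with hlb
    set cd := L.comp d (off + lb + 1) with hcd
    set cc := L.comp c (off + lb + 1 + cd.length + 1) with hcc
    have hM1 : M + b.sz ≤ Mt := by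
      nlinarith [Nat.zero_le (b.sz * t), Nat.zero_le (c.sz * (t + 1)), Nat.zero_le (d.sz * (t + 1))]
    have hM2 : M + d.sz * t ≤ Mt := by
      nlinarith [Nat.zero_le (b.sz * (t + 1)), Nat.zero_le d.sz, Nat.zero_le (c.sz * (t + 1))]
    obtain ⟨r, h1, h2, h3, h4⟩ := L.compC_spec hσ b (hMW _ hM1) hW2 0 hrep hb
    have hrep1 : L.Rep B σ (r, s.2) := hrep.congr (fun a ha => h3 a (by omega)) rfl
    have g1 := h1.sim hA.left hb
    rw [← hlb] at g1
    have g2 := sim_jlt hA.right.head h4
    have hr0 : r 0 = 0 := hrep1.z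
    have hrS : r L.S = 0 := by
      rcases h2 with h2 | h2
      · exact absurd h2.1 hbv
      · simpa using h2.2
    simp only [hr0, hrS] at g2
    rw [if_neg (by omega)] at g2
    have hA2 : At P (off + lb + 1) cd := by
      have := hA.right.right.left
      simpa [hlb, Nat.add_assoc] using this
    obtain ⟨n, s', k1, k2, k3⟩ := ih hσ hM2 hwa.2 hA2 hrep1 h4
    rw [← hcd] at k1 k2
    have hA3 := hA.right.right.right.head
    have k4 := sim_jmp (s := s') (W := W) hA3 k2.bdd
    have hlen : (L.comp (.ite b c d) off).length = lb + cd.length + cc.length + 2 := by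
      simp only [comp, List.length_append, List.length_cons, List.length_nil]
      rw [← hlb, ← hcd, ← hcc]
      omega
    refine ⟨lb + (1 + (n + 1)), s', ?_, ?_, k3⟩
    · rw [hlen]
      nlinarith [Nat.zero_le (lb * t), Nat.zero_le (cc.length * (t + 1)), Nat.zero_le (cd.length * t)]
    · have := g1.trans (g2.trans (k2.trans k4))
      rw [hlen]
      have e : off + (lb + cd.length + cc.length + 2) = off + lb + 1 + cd.length + 1 + cc.length := by
        omega
      rw [e]
      exact this
  | @whlF b c σ hbv =>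
    intro M off s hσ hM hwa hA hrep hb
    simp only [Cmd.sz] at hM
    simp only [comp] at hA
    set lb := (L.compC b 0).length with hlb
    set cc := L.comp c (off + lb + 2) with hcc
    have hM1 : M + b.sz ≤ Mt := by omega
    obtain ⟨r, h1, h2, h3, h4⟩ := L.compC_spec hσ b (hMW _ hM1) hW2 0 hrep hb
    have hrep1 : L.Rep B σ (r, s.2) := hrep.congr (fun a ha => h3 a (by omega)) rfl
    have g1 := h1.sim hA.left hb
    rw [← hlb] at g1
    have g2 := sim_jlt hA.right.head h4
    have hr0 : r 0 = 0 := hrep1.z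
    have hrS : r L.S = 0 := by
      rcases h2 with h2 | h2
      · exact absurd h2.1 hbv
      · simpa using h2.2
    simp only [hr0, hrS] at g2
    rw [if_neg (by omega)] at g2
    have g3 := sim_jmp (s := (r, s.2)) (W := W) hA.right.right.head h4
    have hlen : (L.comp (.whl b c) off).length = lb + cc.length + 3 := by
      simp only [comp, List.length_append, List.length_cons, List.length_nil]
      rw [← hlb, ← hcc]
      omega
    refine ⟨lb + (1 + 1), (r, s.2), ?_, ?_, hrep1⟩
    · rw [hlen]
      omega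
    · have := g1.trans (g2.trans g3)
      rw [hlen]
      have e : off + (lb + cc.length + 3) = off + lb + 2 + cc.length + 1 := by omega
      rw [e]
      exact this
  | @whlT b c σ σ1 σ2 t t' hbv e1 e2 ih1 ih2 =>
    intro M off s hσ hM hwa hA hrep hb
    have hA0 := hA
    simp only [Cmd.sz] at hM
    simp only [comp] at hA
    set lb := (L.compC b 0).length with hlb
    set cc := L.comp c (off + lb + 2) with hcc
    have hM1 : M + b.sz ≤ Mt := by
      nlinarith [Nat.zero_le (b.sz * (t + t')), Nat.zero_le (c.sz * (t + t' + 1))]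
    have hM2 : M + c.sz * t ≤ Mt := by
      nlinarith [Nat.zero_le (b.sz * (t + t' + 1)), Nat.zero_le (c.sz * (t' + 1))]
    have hM3 : M + c.sz * t + (Cmd.whl b c).sz * t' ≤ Mt := by
      simp only [Cmd.sz]
      nlinarith [Nat.zero_le (b.sz * (t + 1)), Nat.zero_le (c.sz)]
    obtain ⟨r, h1, h2, h3, h4⟩ := L.compC_spec hσ b (hMW _ hM1) hW2 0 hrep hb
    have hrep1 : L.Rep B σ (r, s.2) := hrep.congr (fun a ha => h3 a (by omega)) rfl
    have g1 := h1.sim hA.left hb
    rw [← hlb] at g1
    have g2 := sim_jlt hA.right.head h4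
    have hr0 : r 0 = 0 := hrep1.z
    have hrS : r L.S = 1 := by
      rcases h2 with h2 | h2
      · simpa using h2.2
      · exact absurd hbv h2.1
    simp only [hr0, hrS] at g2
    rw [if_pos (by omega)] at g2
    have hA2 : At P (off + lb + 2) cc := by
      have := hA.right.right.right.left
      simpa [hlb, Nat.add_assoc] using this
    obtain ⟨n, s1, k1, k2, k3⟩ := ih1 hσ hM2 hwa hA2 hrep1 h4
    rw [← hcc] at k1 k2
    have hA3 : P[off + lb + 2 + cc.length]? = some (.jmp off) := by
      have := hA.right.right.right.right.head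
      simpa [hlb, Nat.add_assoc] using this
    have k4 := sim_jmp (s := s1) (W := W) hA3 k2.bdd
    obtain ⟨n', s2, l1, l2, l3⟩ := ih2 (e1.bound hσ) hM3 hwa hA0 k3 k2.bdd
    have hlen : (L.comp (.whl b c) off).length = lb + cc.length + 3 := by
      simp only [comp, List.length_append, List.length_cons, List.length_nil]
      rw [← hlb, ← hcc]
      omega
    rw [hlen] at l1 l2
    refine ⟨lb + (1 + (n + (1 + n'))), s2, ?_, ?_, l3⟩
    · rw [hlen]
      nlinarith [Nat.zero_le (lb * t), Nat.zero_le (cc.length * t)]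
    · have := g1.trans (g2.trans (k2.trans (k4.trans l2)))
      rw [hlen]
      exact this

end Lay

/-- Compilation of structured commands to random access machines.  The input is `x 0, x 1, ...`
with `x (x 0 + 1)` its length. -/
theorem compile {R A : Type} [DecidableEq R] [DecidableEq A] [Fintype R] [Fintype A]
    (c : Cmd R A) (inp : A) (hinp : inp ∉ c.wa) (out : R) :
    ∃ (P : List Instr) (C : ℕ), ∀ (x : ℕ → ℕ) (V : ℕ),
      (∀ i, x (x 0 + 1) ≤ i → x i = 0) → (∀ i, x i ≤ V) →
      ∀ (σ' : St R A) (t : ℕ), Exec c (initSt inp x) t σ' →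
      ∃ t' ≤ C * (t + 1), P.length ≤ (run P x t').pc ∧ (run P x t').reg 0 = σ'.r out ∧
        ∀ k a, (run P x k).reg a ≤ C * (t + V + 1) ∧ (run P x k).mem a ≤ C * (t + V + 1) := by
  let L : Lay R A :=
    { rho := fun r => (Fintype.equivFin R r : ℕ)
      alp := fun a => (Fintype.equivFin A a : ℕ)
      nR := Fintype.card R
      K := Fintype.card A
      inp := inp
      hrho := fun a b h => (Fintype.equivFin R).injective (Fin.ext h)
      hrholt := fun r => (Fintype.equivFin R r).2
      halp := fun a b h => (Fintype.equivFin A).injective (Fin.ext h)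
      halplt := fun a => (Fintype.equivFin A a).2 }
  have hLinp : L.inp = inp := rfl
  set pre : List Instr := [.const 1 1] ++ ([.load 2 0] ++ ([.add 2 2 1] ++ [.load 2 2])) with hpre
  set post : List Instr := [.add 0 (3 + L.rho out) 0] with hpost
  set P : List Instr := pre ++ (L.comp c 4 ++ post) with hP
  set N := (L.comp c 4).length with hN
  set K := L.K with hK
  refine ⟨P, (K + 1) * (c.sz + 1) + (K + 1) + 2 + N + 5, fun x V hx0 hxV σ' t hex => ?_⟩
  set C := (K + 1) * (c.sz + 1) + (K + 1) + 2 + N + 5 with hC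
  set B := x (x 0 + 1) with hB
  have hBV : B ≤ V := hxV _
  set W := C * (t + V + 1) with hWdef
  set Mt := V + c.sz * t with hMt
  have hW : B + (K + 1) * Mt + (K + 1) ≤ W := by
    rw [hWdef, hC, hMt]
    nlinarith [Nat.zero_le (K * c.sz * V), Nat.zero_le (c.sz * V), Nat.zero_le (K * c.sz),
      Nat.zero_le (N * (t + V + 1)), Nat.zero_le (K * t), Nat.zero_le (K * V), Nat.zero_le (K * c.sz * t),
      Nat.zero_le (c.sz * t)]
  have hVW : V + 2 ≤ W := by
    rw [hWdef, hC]
    nlinarith [Nat.zero_le ((K + 1) * (c.sz + 1) * (t + V + 1)), Nat.zero_le (N * (t + V + 1)),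
      Nat.zero_le (K * (t + V + 1))]
  have hσ0 : BdSt (initSt (R := R) inp x) V := by
    refine ⟨fun y => Nat.zero_le _, fun a i => ?_⟩
    simp only [initSt]
    split_ifs
    · exact hxV i
    · exact Nat.zero_le _
  -- the preamble
  have b0 : Bdd W ((fun _ => 0, x) : RM) := ⟨fun a => Nat.zero_le _, fun a => (hxV a).trans (by omega)⟩
  have f1 := SRun.const b0 1 1 (by omega)
  have b1 := f1.bdd b0
  have f2 := SRun.load b1 2 0
  have b2 := f2.bdd b1
  have n01 : (0 : ℕ) ≠ 1 := by decide
  have n12 : (1 : ℕ) ≠ 2 := by decide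
  have n02 : (0 : ℕ) ≠ 2 := by decide
  have f3 := SRun.add b2 2 2 1 (by
    simp only [Function.update_self, Function.update_of_ne n01, Function.update_of_ne n12]
    have := hxV 0
    omega)
  have b3 := f3.bdd b2
  have f4 := SRun.load b3 2 2
  have b4 := f4.bdd b3
  have f := f1.append (f2.append (f3.append f4))
  simp only [Function.update_self, Function.update_of_ne n01, Function.update_of_ne n12,
    Function.update_idem] at f b4
  set s0 : RM := (Function.update (Function.update (fun _ => 0) 1 1) 2 (x (x 0 + 1)), x) with hs0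
  have hAt : At P 0 (pre ++ (L.comp c 4 ++ post)) := ⟨[], [], by simp [hP], rfl⟩
  have hAt1 := hAt.left
  have hAt2 : At P 4 (L.comp c 4) := by
    have := hAt.right.left
    simpa [hpre] using this
  have hAt3 : At P (4 + N) post := by
    have := hAt.right.right
    simpa [hpre, hN] using this
  have g0 := f.sim hAt1 b0
  have hrep0 : L.Rep B (initSt inp x) s0 := by
    refine ⟨?_, ?_, ?_, fun r => ?_, fun a ha i => ?_, fun i => ?_⟩
    · simp [hs0]
    · simp [hs0]
    · simp [hs0, hB]
    · simp only [hs0, initSt]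
      rw [Function.update_of_ne (by omega), Function.update_of_ne (by omega)]
    · simp only [hs0, initSt]
      rw [if_neg (by rwa [hLinp] at ha)]
      refine hx0 _ ?_
      unfold Lay.adr
      omega
    · simp only [hs0, initSt]
      rw [if_pos hLinp]
      rcases Nat.lt_or_ge i B with h | h
      · rw [min_eq_left h.le]
      · rw [min_eq_right h, hx0 B le_rfl, hx0 i h]
  obtain ⟨n, s', k1, k2, k3⟩ := L.comp_spec (B := B) (W := W) (Mt := Mt) (P := P) hW (by omega) hex
    hσ0 le_rfl hinp hAt2 hrep0 b4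
  have hout : s'.1 (3 + L.rho out) + s'.1 0 = σ'.r out := by
    rw [k3.z, k3.regs]; rfl
  have f5 := SRun.add (W := W) (s := s') k2.bdd 0 (3 + L.rho out) 0 (by
    rw [hout]
    have := (hex.bound hσ0).1 out
    have h2 : Mt ≤ (K + 1) * Mt := Nat.le_mul_of_pos_left _ (by omega)
    omega)
  have k5 := f5.sim hAt3 k2.bdd
  have tot := g0.trans (k2.trans k5)
  simp only at tot
  rw [hout] at tot
  have hlenP : P.length = 4 + N + 1 := by
    simp [hP, hpre, hpost, hN]
    omega
  set T := pre.length + (n + post.length) with hT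
  have hTP : (run P x T) = ⟨4 + N + 1, Function.update s'.1 0 (σ'.r out), s'.2⟩ := tot.1
  refine ⟨T, ?_, ?_, ?_, ?_⟩
  · have h4 : pre.length = 4 := rfl
    have h5 : post.length = 1 := rfl
    rw [hT, h4, h5, hC]
    nlinarith [Nat.zero_le ((K + 1) * (c.sz + 1) * (t + 1)), Nat.zero_le (K * (t + 1)),
      Nat.zero_le t]
  · rw [hTP, hlenP]
  · rw [hTP]
    simp
  · have hstay : ∀ j, run P x (j + T) = run P x T := by
      intro j
      induction j with
      | zero => rw [Nat.zero_add]
      | succ j ih =>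
        have : run P x (j + 1 + T) = step P (run P x (j + T)) := by
          unfold run
          rw [show j + 1 + T = (j + T) + 1 by omega, Function.iterate_succ_apply']
        rw [this, ih, hTP]
        unfold step
        rw [List.getElem?_eq_none (by simp only; omega)]
    intro k a
    have key : Bdd W (run P x k).rm := by
      rcases Nat.lt_or_ge T k with h | h
      · obtain ⟨j, rfl⟩ : ∃ j, k = j + T := ⟨k - T, by omega⟩
        rw [hstay]
        exact tot.2 T le_rfl
      · exact tot.2 k h
    exact ⟨key.1 a, key.2 a⟩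

end Pool.Agent.H.MP_d01483_lc
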