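import Pool.Agent.H.MP_d01483_lc.Sparse

set_option linter.unusedSectionVars false
set_option linter.unusedVariables false

namespace Pool.Agent.H.MP_d01483_lc

open Finset

/-- Number of edges at `v`. -/
def deg (E : Finset (Sym2 ℕ)) (v : ℕ) : ℕ := (E.filter (fun e => v ∈ e)).card

/-- `W` is a maximal tight set of `I0` with at least `s` vertices. -/
def Large (I0 : Finset (Sym2 ℕ)) (s : ℕ) (W : Finset ℕ) : Prop := MaxTight I0 W ∧ s ≤ W.card

open Classical in
/-- Edges of `I0` inside large maximal tight sets. -/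
noncomputable def LI (I0 : Finset (Sym2 ℕ)) (s : ℕ) : Finset (Sym2 ℕ) :=
  I0.filter (fun e => ∃ W, Large I0 s W ∧ e ∈ W.sym2)

/-- disjointness of the edge sets of maximal tight sets -/
theorem sum_ind_eq {F : Finset (Sym2 ℕ)} (h : Sparse F) (C : Finset (Finset ℕ))
    (hC : ∀ W ∈ C, MaxTight F W) :
    ∑ W ∈ C, ind F W = (C.biUnion (fun W => F ∩ W.sym2)).card := by
  unfold ind
  rw [card_biUnion]
  intro W hW W' hW' hne
  rw [Function.onFun, disjoint_left]
  intro e he he'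
  rw [mem_inter] at he he'
  have h1 := maxTight_inter h (hC W hW) (hC W' hW') hne
  have h2 := h.1 e he.1
  have h3 := he.2
  have h4 := he'.2
  induction e using Sym2.ind with
  | h x y =>
    rw [Finset.mk_mem_sym2_iff] at h3 h4
    have hxy : x ≠ y := fun hxy => h2 (by rw [hxy]; simp)
    have h5 : ({x, y} : Finset ℕ) ⊆ W ∩ W' := by
      intro z hz
      rw [mem_insert, mem_singleton] at hz
      rcases hz with rfl | rfl
      · exact mem_inter.2 ⟨h3.1, h4.1⟩
      · exact mem_inter.2 ⟨h3.2, h4.2⟩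
    have h6 := card_le_card h5
    rw [card_pair hxy] at h6
    omega

theorem card_le_two_mul {F : Finset (Sym2 ℕ)} (h : Sparse F) {Y : Finset ℕ}
    (hY : F ⊆ Y.sym2) : F.card ≤ 2 * Y.card := by
  have h1 : F.card = ind F Y := by
    unfold ind
    rw [inter_eq_left.2 hY]
  rcases Nat.lt_or_ge Y.card 2 with h2 | h2
  · have h3 : F = ∅ := by
      rw [← not_nonempty_iff_eq_empty]
      rintro ⟨e, he⟩
      have h4 := hY he
      have h5 := h.1 e he
      induction e using Sym2.ind with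
      | h x y =>
        rw [Finset.mk_mem_sym2_iff] at h4
        have h6 : x = y := card_le_one.1 (by omega) x h4.1 y h4.2
        exact h5 (by rw [h6]; simp)
    rw [h3]; simp
  · have := h.2 Y h2
    omega

/-- total size of a family of maximal tight sets -/
theorem sum_card_le {n : ℕ} {I0 : Finset (Sym2 ℕ)} (h : Sparse I0) (hn : I0 ⊆ (range n).sym2)
    (C : Finset (Finset ℕ)) (hC : ∀ W ∈ C, MaxTight I0 W) : ∑ W ∈ C, W.card ≤ 4 * n := by
  have h1 : ∑ W ∈ C, ind I0 W ≤ I0.card := by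
    rw [sum_ind_eq h C hC]
    apply card_le_card
    intro e he
    rw [mem_biUnion] at he
    obtain ⟨W, -, he⟩ := he
    exact (mem_inter.1 he).1
  have h2 : I0.card ≤ 2 * n := by
    have := card_le_two_mul h hn
    rwa [card_range] at this
  have h3 : ∑ W ∈ C, W.card ≤ ∑ W ∈ C, 2 * ind I0 W := by
    refine sum_le_sum fun W hW => ?_
    have h4 := (hC W hW).1.1
    have h5 := (hC W hW).1.2
    omega
  rw [← mul_sum] at h3
  omega

/-- A family of large maximal tight sets has at most `4n/s` members. -/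
theorem large_count {n s : ℕ} {I0 : Finset (Sym2 ℕ)} (h : Sparse I0) (hn : I0 ⊆ (range n).sym2)
    {R : Finset (Finset ℕ)} (hR : ∀ W ∈ R, Large I0 s W) : R.card * s ≤ 4 * n := by
  refine le_trans ?_ (sum_card_le h hn R (fun W hW => (hR W hW).1))
  rw [← smul_eq_mul]
  exact card_nsmul_le_sum R _ s (fun W hW => (hR W hW).2)

theorem tight_subset_range {n : ℕ} {I0 : Finset (Sym2 ℕ)} (h : Sparse I0)
    (hn : I0 ⊆ (range n).sym2) {W : Finset ℕ} (hW : Tight I0 W) : W ⊆ range n := by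
  intro a ha
  obtain ⟨e, he, -, hae⟩ := tight_deg h hW ha
  exact Finset.mem_sym2_iff.1 (hn he) a hae

/-- Rank gap: if `E1` is spanned by `I0`, and `Sg` is a sparse set containing `LI I0 s` such that
all other edges of `Sg` join vertices of `E1`-degree at least `s*s`, then `Sg` has at most
`20n/s` edges outside `LI I0 s`. -/
theorem rank_gap {n s : ℕ} {I0 E1 Sg : Finset (Sym2 ℕ)} (h : Sparse I0)
    (hn : E1 ⊆ (range n).sym2) (hnd : ∀ e ∈ E1, ¬ e.IsDiag) (hI : I0 ⊆ E1) (hsp : ∀ e ∈ E1, Spanned I0 e)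
    (hSg : Sparse Sg) (hLI : LI I0 s ⊆ Sg)
    (hU : ∀ e ∈ Sg, e ∉ LI I0 s → ∀ a ∈ e, a < n ∧ s * s ≤ deg E1 a) :
    (Sg.card - (LI I0 s).card) * s ≤ 20 * n := by
  classical
  rcases Nat.eq_zero_or_pos s with rfl | hs
  · simp
  have hn0 : I0 ⊆ (range n).sym2 := hI.trans hn
  set M : Finset (Finset ℕ) := (range n).powerset.filter (fun W => MaxTight I0 W) with hM
  set LL : Finset (Finset ℕ) := (range n).powerset.filter (fun W => Large I0 s W) with hLL
  have hmemM : ∀ W, MaxTight I0 W → W ∈ M := fun W hW =>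
    mem_filter.2 ⟨mem_powerset.2 (tight_subset_range h hn0 hW.1), hW⟩
  have hmemLL : ∀ W, Large I0 s W → W ∈ LL := fun W hW =>
    mem_filter.2 ⟨mem_powerset.2 (tight_subset_range h hn0 hW.1.1), hW⟩
  set Disp : Finset ℕ := (range n).filter (fun v => s * s ≤ deg E1 v ∧
    ∀ W, Large I0 s W → v ∉ W) with hDisp
  -- (i)
  have hdeg : ∀ v ∈ Disp, s ≤ (M.filter (fun W => v ∈ W)).card := by
    intro v hv
    rw [hDisp, mem_filter] at hv
    obtain ⟨hvn, hvd, hvL⟩ := hv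
    have h1 : (E1.filter (fun e => v ∈ e)) ⊆
        (M.filter (fun W => v ∈ W)).biUnion (fun W => (W.erase v).image (fun b => s(v, b))) := by
      intro e he
      rw [mem_filter] at he
      obtain ⟨Z, hZ, heZ⟩ := hsp e he.1
      obtain ⟨W, hW, hZW⟩ := exists_maxTight h hZ
      have heW := Finset.sym2_mono hZW heZ
      obtain ⟨b, rfl⟩ := Sym2.mem_iff_exists.1 he.2
      rw [Finset.mk_mem_sym2_iff] at heW
      have hvb : b ≠ v := fun hb => hnd _ he.1 (by rw [hb]; simp)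
      rw [mem_biUnion]
      exact ⟨W, mem_filter.2 ⟨hmemM W hW, heW.1⟩,
        mem_image.2 ⟨b, mem_erase.2 ⟨hvb, heW.2⟩, rfl⟩⟩
    have h2 : deg E1 v ≤ ∑ W ∈ M.filter (fun W => v ∈ W), s := by
      unfold deg
      refine (card_le_card h1).trans (card_biUnion_le.trans (sum_le_sum fun W hW => ?_))
      rw [mem_filter] at hW
      refine card_image_le.trans ((card_erase_le).trans ?_)
      by_contra hcon
      exact hvL W ⟨(mem_filter.1 hW.1).2, by omega⟩ hW.2
    rw [sum_const, smul_eq_mul] at h2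
    exact Nat.le_of_mul_le_mul_right (hvd.trans h2) hs
  have hdisp : Disp.card * s ≤ 4 * n := by
    have h1 : Disp.card * s ≤ ∑ v ∈ Disp, (M.filter (fun W => v ∈ W)).card := by
      rw [← smul_eq_mul]
      exact card_nsmul_le_sum Disp _ s hdeg
    have h2 : ∑ v ∈ Disp, (M.filter (fun W => v ∈ W)).card =
        ∑ W ∈ M, (Disp.filter (fun v => v ∈ W)).card := by
      simp only [card_filter]
      exact sum_comm
    have h3 : ∑ W ∈ M, (Disp.filter (fun v => v ∈ W)).card ≤ ∑ W ∈ M, W.card := by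
      refine sum_le_sum fun W _ => card_le_card ?_
      intro v hv
      exact (mem_filter.1 hv).2
    have h4 := sum_card_le h hn0 M (fun W hW => (mem_filter.1 hW).2)
    omega
  -- (ii)
  set Y : Finset ℕ := Disp ∪ LL.biUnion (fun W => W) with hY
  have hSgY : Sg ⊆ Y.sym2 := by
    intro e he
    rw [Finset.mem_sym2_iff]
    intro a ha
    by_cases heL : e ∈ LI I0 s
    · unfold LI at heL
      rw [mem_filter] at heL
      obtain ⟨-, W, hW, heW⟩ := heL
      rw [hY, mem_union, mem_biUnion]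
      exact Or.inr ⟨W, hmemLL W hW, Finset.mem_sym2_iff.1 heW a ha⟩
    · obtain ⟨han, had⟩ := hU e he heL a ha
      rw [hY, mem_union, mem_biUnion]
      by_cases hL : ∃ W, Large I0 s W ∧ a ∈ W
      · obtain ⟨W, hW, haW⟩ := hL
        exact Or.inr ⟨W, hmemLL W hW, haW⟩
      · left
        rw [hDisp, mem_filter, mem_range]
        exact ⟨han, had, fun W hW haW => hL ⟨W, hW, haW⟩⟩
  have h1 : Sg.card ≤ 2 * Y.card := card_le_two_mul hSg hSgY
  have h2 : Y.card ≤ Disp.card + ∑ W ∈ LL, W.card :=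
    (card_union_le _ _).trans (Nat.add_le_add_left card_biUnion_le _)
  have h3 : ∑ W ∈ LL, ind I0 W ≤ (LI I0 s).card := by
    rw [sum_ind_eq h LL (fun W hW => (mem_filter.1 hW).2.1)]
    apply card_le_card
    intro e he
    rw [mem_biUnion] at he
    obtain ⟨W, hW, he⟩ := he
    rw [mem_inter] at he
    unfold LI
    exact mem_filter.2 ⟨he.1, W, (mem_filter.1 hW).2, he.2⟩
  have h4 : ∑ W ∈ LL, (ind I0 W + 3) = ∑ W ∈ LL, 2 * W.card :=
    sum_congr rfl fun W hW => (mem_filter.1 hW).2.1.1.2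
  have h5 : LL.card * s ≤ 4 * n := large_count h hn0 (fun W hW => (mem_filter.1 hW).2)
  simp only [sum_add_distrib, sum_const, smul_eq_mul, ← mul_sum] at h4
  have h6 : Sg.card - (LI I0 s).card ≤ 2 * Disp.card + 3 * LL.card := by omega
  calc (Sg.card - (LI I0 s).card) * s ≤ (2 * Disp.card + 3 * LL.card) * s :=
        Nat.mul_le_mul_right s h6
    _ = 2 * (Disp.card * s) + 3 * (LL.card * s) := by ring
    _ ≤ 20 * n := by omega

/-- Ghost invariant used to bound the number of expensive tests of the last phase.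
`I` is the current sparse set, `Kn` the known maximal tight sets, `Rev` the large sets of `I0`
contained in a known set, `Sg` a growing sparse set. -/
structure EvInv (n s : ℕ) (I0 E1 I : Finset (Sym2 ℕ)) (Kn : Finset ℕ → Prop)
    (Rev : Finset (Finset ℕ)) (Sg : Finset (Sym2 ℕ)) : Prop where
  spI : Sparse I
  sub : I0 ⊆ I
  kn : ∀ K, Kn K → MaxTight I K
  spS : Sparse Sg
  li : LI I0 s ⊆ Sg
  hU : ∀ e ∈ Sg, e ∉ LI I0 s → ∀ a ∈ e, a < n ∧ s * s ≤ deg E1 a
  rev : ∀ W ∈ Rev, Large I0 s W ∧ ∃ K, Kn K ∧ W ⊆ K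
  cov : ∀ e ∈ Sg, ∃ K, MaxTight I K ∧ (Kn K ∨ ∃ W, Large I0 s W ∧ W ⊆ K) ∧ e ∈ K.sym2

theorem EvInv.init {n s : ℕ} {I0 E1 : Finset (Sym2 ℕ)} (h : Sparse I0) {Kn : Finset ℕ → Prop}
    (hK : ∀ K, Kn K → MaxTight I0 K) : EvInv n s I0 E1 I0 Kn ∅ (LI I0 s) := by
  classical
  refine ⟨h, Subset.refl _, hK, h.subset ?_, Subset.refl _, fun e he he' => absurd he he', ?_, ?_⟩
  · unfold LI
    exact filter_subset _ _
  · intro W hW
    simp at hW
  · intro e he
    unfold LI at he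
    rw [mem_filter] at he
    obtain ⟨-, W, hW, heW⟩ := he
    exact ⟨W, hW.1, Or.inr ⟨W, hW, Subset.refl W⟩, heW⟩

theorem two_le_inter {W W' : Finset ℕ} {e : Sym2 ℕ} (hd : ¬ e.IsDiag) (h3 : e ∈ W.sym2)
    (h4 : e ∈ W'.sym2) : 2 ≤ (W ∩ W').card := by
  induction e using Sym2.ind with
  | h x y =>
    rw [Finset.mk_mem_sym2_iff] at h3 h4
    have hxy : x ≠ y := fun hxy => hd (by rw [hxy]; simp)
    rw [← card_pair hxy]
    apply card_le_card
    intro z hz
    rw [mem_insert, mem_singleton] at hz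
    rcases hz with rfl | rfl
    · exact mem_inter.2 ⟨h3.1, h4.1⟩
    · exact mem_inter.2 ⟨h3.2, h4.2⟩

theorem eq_of_two_le {F : Finset (Sym2 ℕ)} (h : Sparse F) {X Y : Finset ℕ}
    (hX : MaxTight F X) (hY : MaxTight F Y) (h2 : 2 ≤ (X ∩ Y).card) : X = Y := by
  by_contra hne
  have := maxTight_inter h hX hY hne
  omega

/-- Every expensive test makes the potential `|Rev| + |Sg|` grow. -/
theorem EvInv.step {n s : ℕ} (hs : 2 ≤ s) {I0 E1 I I' : Finset (Sym2 ℕ)}
    {Kn Kn' : Finset ℕ → Prop}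
    {Rev : Finset (Finset ℕ)} {Sg : Finset (Sym2 ℕ)} (h : EvInv n s I0 E1 I Kn Rev Sg)
    {e : Sym2 ℕ} (hd : ¬ e.IsDiag) (he : ∀ a ∈ e, a < n ∧ s * s ≤ deg E1 a)
    (hek : ¬ ∃ K, Kn K ∧ e ∈ K.sym2)
    (hI' : Sparse I') (hsub : I ⊆ I')
    (hKn' : ∀ K, Kn' K → MaxTight I' K)
    (hold : ∀ K, Kn K → ∃ K', Kn' K' ∧ K ⊆ K')
    (hnew : ∃ K', Kn' K' ∧ e ∈ K'.sym2) :
    ∃ Rev' Sg', EvInv n s I0 E1 I' Kn' Rev' Sg' ∧
      Rev.card + Sg.card + 1 ≤ Rev'.card + Sg'.card := by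
  classical
  have hcov : ∀ f ∈ Sg, ∃ K, MaxTight I' K ∧ (Kn' K ∨ ∃ W, Large I0 s W ∧ W ⊆ K) ∧
      f ∈ K.sym2 := by
    intro f hf
    obtain ⟨K, hK, hK2, hfK⟩ := h.cov f hf
    rcases hK2 with hK2 | ⟨W, hW, hWK⟩
    · obtain ⟨K', hK', hKK'⟩ := hold K hK2
      exact ⟨K', hKn' K' hK', Or.inl hK', Finset.sym2_mono hKK' hfK⟩
    · obtain ⟨K', hK', hKK'⟩ := exists_maxTight hI' (tight_mono hI' hsub hK.1)
      exact ⟨K', hK', Or.inr ⟨W, hW, hWK.trans hKK'⟩, Finset.sym2_mono hKK' hfK⟩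
  have hrev : ∀ W ∈ Rev, Large I0 s W ∧ ∃ K, Kn' K ∧ W ⊆ K := by
    intro W hW
    obtain ⟨h1, K, hK, hWK⟩ := h.rev W hW
    obtain ⟨K', hK', hKK'⟩ := hold K hK
    exact ⟨h1, K', hK', hWK.trans hKK'⟩
  obtain ⟨Ke, hKe, heKe⟩ := hnew
  by_cases hc : ∃ K, (MaxTight I K ∧ (Kn K ∨ ∃ W, Large I0 s W ∧ W ⊆ K)) ∧ e ∈ K.sym2
  · obtain ⟨K, ⟨hK, hK2⟩, heK⟩ := hc
    rcases hK2 with hK2 | ⟨W, hW, hWK⟩
    · exact absurd ⟨K, hK2, heK⟩ hek
    · have hWR : W ∉ Rev := by
        intro hWR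
        obtain ⟨-, K1, hK1, hWK1⟩ := h.rev W hWR
        have h1 : 2 ≤ (K ∩ K1).card := by
          have h2 := card_le_card (subset_inter hWK hWK1)
          have h3 := hW.2
          omega
        have h2 := eq_of_two_le h.spI hK (h.kn K1 hK1) h1
        exact hek ⟨K1, hK1, h2 ▸ heK⟩
      obtain ⟨K'', hK'', hKK''⟩ := exists_maxTight hI' (tight_mono hI' hsub hK.1)
      have h3 : K'' = Ke := eq_of_two_le hI' hK'' (hKn' Ke hKe)
        (two_le_inter hd (Finset.sym2_mono hKK'' heK) heKe)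
      refine ⟨insert W Rev, Sg, ⟨hI', h.sub.trans hsub, hKn', h.spS, h.li, h.hU, ?_, hcov⟩, ?_⟩
      · intro W' hW'
        rcases mem_insert.1 hW' with rfl | hW'
        · exact ⟨hW, Ke, hKe, h3 ▸ (hWK.trans hKK'')⟩
        · exact hrev W' hW'
      · rw [card_insert_of_notMem hWR]
        omega
  · have h1 : ¬ Spanned Sg e := by
      rintro ⟨Z, hZ, heZ⟩
      obtain ⟨K, hK, hZK⟩ := lemmaA h.spI h.spS
        (fun K => MaxTight I K ∧ (Kn K ∨ ∃ W, Large I0 s W ∧ W ⊆ K)) (fun K hK => hK.1)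
        (fun f hf => by
          obtain ⟨K, h1, h2, h3⟩ := h.cov f hf
          exact ⟨K, ⟨h1, h2⟩, h3⟩) hZ
      exact hc ⟨K, hK, Finset.sym2_mono hZK heZ⟩
    have h2 : e ∉ Sg := fun heS => h1 (spanned_of_mem h.spS heS)
    refine ⟨Rev, insert e Sg, ⟨hI', h.sub.trans hsub, hKn', sparse_insert h.spS hd h1,
      h.li.trans (subset_insert e Sg), ?_, hrev, ?_⟩, ?_⟩
    · intro f hf hfL
      rcases mem_insert.1 hf with rfl | hf
      · exact he
      · exact h.hU f hf hfL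
    · intro f hf
      rcases mem_insert.1 hf with rfl | hf
      · exact ⟨Ke, hKn' Ke hKe, Or.inl hKe, heKe⟩
      · exact hcov f hf
    · rw [card_insert_of_notMem h2]
      omega

end Pool.Agent.H.MP_d01483_lc
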