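import Mathlib

/-!
Basic combinatorial definitions: (2,3)-sparse edge sets, tight sets, and slot structures
(orientations of out-degree at most two stored in `2n` slots).
-/

set_option linter.unusedSectionVars false
set_option linter.unusedVariables false

namespace Pool.Agent.H.MP_d01483_lc

open Finset

section
variable {V : Type} [DecidableEq V]

/-- Number of edges of `F` with both ends in `Z`. -/
def ind (F : Finset (Sym2 V)) (Z : Finset V) : ℕ := (F ∩ Z.sym2).card

/-- `F` has no loops and every set of `k ≥ 2` vertices spans at most `2k-3` edges of `F`. -/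
def Sparse (F : Finset (Sym2 V)) : Prop :=
  (∀ e ∈ F, ¬ e.IsDiag) ∧ ∀ Z : Finset V, 2 ≤ Z.card → ind F Z + 3 ≤ 2 * Z.card

/-- `Z` is tight: it spans exactly `2|Z|-3` edges of `F`. -/
def Tight (F : Finset (Sym2 V)) (Z : Finset V) : Prop :=
  2 ≤ Z.card ∧ ind F Z + 3 = 2 * Z.card

/-- `Z` is an inclusion-maximal tight set. -/
def MaxTight (F : Finset (Sym2 V)) (Z : Finset V) : Prop :=
  Tight F Z ∧ ∀ Z', Tight F Z' → Z ⊆ Z' → Z' = Z

/-- `e` lies inside some tight set of `F`. -/
def Spanned (F : Finset (Sym2 V)) (e : Sym2 V) : Prop :=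
  ∃ Z, Tight F Z ∧ e ∈ Z.sym2

end

/-- Owner of slot `k`; the slots of vertex `v < n` are `v` and `v + n`. -/
def own (n k : ℕ) : ℕ := if k < n then k else k - n

/-- The edge stored in slot `k` (meaningful when `S k ≠ 0`): its head is `S k - 1`. -/
def edge (n : ℕ) (S : ℕ → ℕ) (k : ℕ) : Sym2 ℕ := s(own n k, S k - 1)

/-- Well-formed slot structure: heads are vertices, no loops, no edge is stored twice. -/
structure WF (n : ℕ) (S : ℕ → ℕ) : Prop where
  le : ∀ k < 2 * n, S k ≤ n
  noloop : ∀ k < 2 * n, S k ≠ own n k + 1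
  inj : ∀ k < 2 * n, ∀ k' < 2 * n, S k ≠ 0 → S k' ≠ 0 → edge n S k = edge n S k' → k = k'

/-- The edge set of a slot structure. -/
def edges (n : ℕ) (S : ℕ → ℕ) : Finset (Sym2 ℕ) :=
  ((range (2 * n)).filter (fun k => S k ≠ 0)).image (edge n S)

/-- Number of slots owned by `Z` which are free or whose head leaves `Z`. -/
def fx (n : ℕ) (S : ℕ → ℕ) (Z : Finset ℕ) : ℕ :=
  ((range (2 * n)).filter (fun k => own n k ∈ Z ∧ (S k = 0 ∨ S k - 1 ∉ Z))).card

end Pool.Agent.H.MP_d01483_lc
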