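import Pool.Agent.H.MP_d01483_lc.Laman

/-!
Existence of generic configurations, and Laman's theorem for generically rigid graphs.
-/

set_option linter.unusedSectionVars false
set_option linter.unusedVariables false

namespace Pool.Agent.H.MP_d01483_lc

open Finset Cardinal

/-- There are finite families of algebraically independent reals of every size. -/
theorem exists_algIndep (ι : Type) [Finite ι] : ∃ x : ι → ℝ, AlgebraicIndependent ℚ x := by
  obtain ⟨s, hs⟩ := exists_isTranscendenceBasis ℚ ℝ
  have hinf : Infinite s := by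
    by_contra hcon
    rw [not_infinite_iff_finite] at hcon
    have halg := hs.isAlgebraic
    have h1 : #(Algebra.adjoin ℚ (Set.range ((↑) : s → ℝ))) ≤ ℵ₀ := by
      have h2 := Algebra.cardinalMk_adjoin_le ℚ (Set.range ((↑) : s → ℝ))
      refine h2.trans ?_
      rw [Subtype.range_coe]
      refine max_le (max_le ?_ ?_) le_rfl
      · exact mk_le_aleph0
      · exact mk_le_aleph0
    have h2 := Algebra.IsAlgebraic.cardinalMk_le_max
      (Algebra.adjoin ℚ (Set.range ((↑) : s → ℝ))) ℝ
    have h3 : #ℝ ≤ ℵ₀ := h2.trans (max_le h1 le_rfl)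
    rw [mk_real] at h3
    exact absurd h3 (not_le.2 aleph0_lt_continuum)
  obtain ⟨f, hf⟩ := exists_injective_nat ι
  have hg := (Infinite.natEmbedding s).injective.comp hf
  exact ⟨_, hs.1.comp _ hg⟩

section
variable {V : Type} [DecidableEq V] [Fintype V]

theorem exists_generic (V : Type) [Finite V] :
    ∃ p : V → EuclideanSpace ℝ (Fin 2), GenericFramework p := by
  obtain ⟨x, hx⟩ := exists_algIndep (V × Fin 2)
  exact ⟨fun v => (EuclideanSpace.equiv (Fin 2) ℝ).symm (fun i => x (v, i)), hx⟩

/-- The generic realizations are either all rigid or all flexible. -/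
theorem genericallyRigid_iff_exists (hn : 2 ≤ Fintype.card V) (G : SimpleGraph V) :
    GenericallyRigid G ↔
      ∃ p : V → EuclideanSpace ℝ (Fin 2), GenericFramework p ∧ RigidFramework G p := by
  constructor
  · intro h
    obtain ⟨p, hp⟩ := exists_generic V
    exact ⟨p, hp, h p hp⟩
  · rintro ⟨p, hp, hr⟩ q hq
    rw [rigid_iff_laman hn G p hp] at hr
    rw [rigid_iff_laman hn G q hq]
    exact hr

theorem genericallyRigid_iff (hn : 2 ≤ Fintype.card V) (G : SimpleGraph V) :
    GenericallyRigid G ↔ ∃ F : Finset (Sym2 V), (∀ e ∈ F, e ∈ G.edgeSet) ∧ Sparse F ∧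
      F.card + 3 = 2 * Fintype.card V := by
  rw [genericallyRigid_iff_exists hn]
  constructor
  · rintro ⟨p, hp, hr⟩
    exact (rigid_iff_laman hn G p hp).1 hr
  · intro h
    obtain ⟨p, hp⟩ := exists_generic V
    exact ⟨p, hp, (rigid_iff_laman hn G p hp).2 h⟩

/-- **Laman's theorem.** -/
theorem laman {n : ℕ} (hn : 2 ≤ n) (G : SimpleGraph (Fin n)) :
    GenericallyRigid G ↔ ∃ H : Finset (Sym2 (Fin n)), (H : Set (Sym2 (Fin n))) ⊆ G.edgeSet ∧
      H.card + 3 = 2 * n ∧ ∀ X : Finset (Fin n), 2 ≤ X.card →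
        (H ∩ X.sym2).card + 3 ≤ 2 * X.card := by
  rw [genericallyRigid_iff (by simpa using hn)]
  constructor
  · rintro ⟨F, h1, h2, h3⟩
    exact ⟨F, fun e he => h1 e he, by simpa using h3, fun X hX => h2.2 X hX⟩
  · rintro ⟨F, h1, h2, h3⟩
    exact ⟨F, fun e he => h1 he, ⟨fun e he => G.not_isDiag_of_mem_edgeSet (h1 he),
      fun X hX => h3 X hX⟩, by simpa using h2⟩

end

end Pool.Agent.H.MP_d01483_lc
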