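import Pool.Agent.H.MP_d01483_lc.AlgSpec
import Pool.Agent.H.MP_d01483_lc.Compile
import Pool.Agent.H.MP_d01483_lc.LamanGen
import Pool.Agent.H.MP_d01483_lc.Model

set_option linter.unusedSectionVars false
set_option linter.unusedVariables false
set_option linter.unusedSimpArgs false

namespace Pool.Agent.H.MP_d01483_lc

open Finset

/-- The whole program. -/
def mainC : MCmd :=
  .seq (.set .n (.get .inp (.num 0))) <|
  .ite (.lt (.reg .n) (.num 2)) (.set .out (.num 1)) algC

theorem mainC_inp : Arr.inp ∉ mainC.wa := by decide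

instance : Fintype Reg := Fintype.ofList [.n, .nn, .s, .q, .L, .K, .u, .v, .fa, .fb, .fc, .l0, .l1,
  .l2, .l3,
  .nv, .p, .k, .y, .f, .found, .i0, .i1, .i2, .i, .a, .b, .bs, .bp, .old, .done, .dl, .ql,
  .xu, .xv, .qh, .qt, .w, .x, .last, .z, .cur, .oth, .ca, .cb, .cc, .cd, .fr, .nc, .c,
  .vt, .pt, .pe, .wt, .t, .e, .g, .out, .same] (by intro r; cases r <;> decide)

instance : Fintype Arr := Fintype.ofList [.inp, .TW, .OWN, .S, .P, .CI, .EXC, .MK, .C0, .C1, .C2,
  .C3, .FI, .NX, .MB, .PI, .QU, .W, .HM, .DG, .DU, .DV, .QA, .QB] (by intro a; cases a <;> decide)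

/-! ### the input -/

theorem AdjLists.inOK {n : ℕ} {G : SimpleGraph (Fin n)} {x : ℕ → ℕ} (h : AdjLists G x) :
    InOK n x := by
  refine ⟨fun v hv => h.mono ⟨v, hv⟩, ?_, ?_⟩
  · intro v hv i h1 h2
    obtain ⟨w, -, hw⟩ := h.entry ⟨v, hv⟩ i h1 h2
    rw [hw]; exact w.2
  · intro v hv i j h1 h2 h3 h4 h5
    exact h.once ⟨v, hv⟩ i j h1 h2 h3 h4 h5

theorem mem_TLs {n : ℕ} {G : SimpleGraph (Fin n)} {x : ℕ → ℕ} (h : AdjLists G x) {e : Sym2 ℕ} :
    e ∈ TLs x n ↔ ∃ v w : Fin n, G.Adj v w ∧ s((v : ℕ), (w : ℕ)) = e := by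
  unfold TLs
  rw [mem_biUnion]
  constructor
  · rintro ⟨v, hv, he⟩
    rw [mem_range] at hv
    obtain ⟨i, h1, h2, h3, h4⟩ := mem_TLi.1 he
    obtain ⟨w, hw1, hw2⟩ := h.entry ⟨v, hv⟩ i h1 h2
    exact ⟨⟨v, hv⟩, w, hw1, by rw [← h4, hw2]⟩
  · rintro ⟨v, w, hvw, rfl⟩
    have hne : (v : ℕ) ≠ w := fun he => hvw.ne (Fin.ext he)
    rcases Nat.lt_or_gt_of_ne hne with hlt | hlt
    · obtain ⟨i, h1, h2, h3⟩ := h.complete v w hvw
      exact ⟨v, mem_range.2 v.2, mem_TLi.2 ⟨i, h1, h2, by rw [h3]; exact hlt, by rw [h3]⟩⟩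
    · obtain ⟨i, h1, h2, h3⟩ := h.complete w v hvw.symm
      refine ⟨w, mem_range.2 w.2, mem_TLi.2 ⟨i, h1, h2, by rw [h3]; exact hlt, ?_⟩⟩
      rw [h3]; exact Sym2.eq_swap

theorem AdjLists.mono' {n : ℕ} {G : SimpleGraph (Fin n)} {x : ℕ → ℕ} (h : AdjLists G x) :
    ∀ j, j ≤ n → ∀ i, 1 ≤ i → i ≤ j + 1 → x i ≤ x (j + 1) := by
  intro j
  induction j with
  | zero =>
    intro _ i h1 h2
    have : i = 1 := by omega
    rw [this]
  | succ j ih =>
    intro hj i h1 h2
    by_cases h3 : i = j + 2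
    · rw [h3]
    · exact (ih (by omega) i h1 (by omega)).trans (h.mono ⟨j, by omega⟩)

open Classical in
theorem AdjLists.list_le {n : ℕ} {G : SimpleGraph (Fin n)} {x : ℕ → ℕ} (h : AdjLists G x)
    (v : Fin n) : x (v + 2) ≤ x (v + 1) + G.degree v := by
  have h1 : (Ico (x (v + 1)) (x (v + 2))).card ≤ (G.neighborFinset v).card := by
    have : Nonempty (Fin n) := ⟨v⟩
    choose! g hg1 hg2 using h.entry v
    refine card_le_card_of_injOn g ?_ ?_
    · intro i hi
      have hi' := mem_Ico.1 (mem_coe.1 hi)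
      simpa using hg1 i hi'.1 hi'.2
    · intro i hi j hj he
      have hi' := mem_Ico.1 (mem_coe.1 hi)
      have hj' := mem_Ico.1 (mem_coe.1 hj)
      refine h.once v i j hi'.1 hi'.2 hj'.1 hj'.2 ?_
      rw [hg2 i hi'.1 hi'.2, hg2 j hj'.1 hj'.2, he]
  rw [Nat.card_Ico, SimpleGraph.card_neighborFinset_eq_degree] at h1
  omega

open Classical in
theorem AdjLists.len_le {n : ℕ} {G : SimpleGraph (Fin n)} {x : ℕ → ℕ} (h : AdjLists G x) :
    x (n + 1) ≤ n + 2 + 2 * G.edgeSet.ncard := by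
  have key : ∀ j (hj : j ≤ n), x (j + 1) ≤ n + 2 +
      ∑ v ∈ univ.filter (fun v : Fin n => (v : ℕ) < j), G.degree v := by
    intro j
    induction j with
    | zero => intro _; simp [h.first]
    | succ j ih =>
      intro hj
      have h1 := ih (by omega)
      have h2 := h.list_le ⟨j, by omega⟩
      have h3 : univ.filter (fun v : Fin n => (v : ℕ) < j + 1) =
          insert ⟨j, by omega⟩ (univ.filter (fun v : Fin n => (v : ℕ) < j)) := by
        ext v
        simp only [mem_filter, mem_univ, true_and, mem_insert, Fin.ext_iff]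
        omega
      rw [h3, sum_insert (by simp)]
      simp only at h2
      show x (j + 2) ≤ _
      omega
  have h1 := key n le_rfl
  have h2 : univ.filter (fun v : Fin n => (v : ℕ) < n) = univ := by
    ext v; simp
  rw [h2, SimpleGraph.sum_degrees_eq_twice_card_edges] at h1
  have h3 : G.edgeSet.ncard = G.edgeFinset.card := by
    rw [← SimpleGraph.coe_edgeFinset, Set.ncard_coe_finset]
  rw [h3]
  exact h1

theorem AdjLists.val_le {n : ℕ} {G : SimpleGraph (Fin n)} {x : ℕ → ℕ} (h : AdjLists G x) (i : ℕ) :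
    x i ≤ n + 2 + 2 * G.edgeSet.ncard := by
  have hlen := h.len_le
  by_cases h0 : i = 0
  · rw [h0, h.size]; omega
  · by_cases h1 : i ≤ n + 1
    · exact (h.mono' n le_rfl i (by omega) h1).trans hlen
    · by_cases h2 : x (n + 1) ≤ i
      · rw [h.rest i h2]; omega
      · -- an entry of some list
        have h3 : ∃ j, j ≤ n ∧ i < x (j + 1) := ⟨n, le_rfl, by omega⟩
        classical
        obtain ⟨h4, h5⟩ := Nat.find_spec h3
        have h6 := fun m hm => Nat.find_min h3 (m := m) hm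
        set j := Nat.find h3 with hj
        have hj0 : j ≠ 0 := by
          intro hj0
          rw [hj0] at h5
          have := h.first
          simp only [Nat.zero_add] at h5
          omega
        obtain ⟨k, hk⟩ := Nat.exists_eq_succ_of_ne_zero hj0
        have h7 : ¬ (k ≤ n ∧ i < x (k + 1)) := h6 k (by omega)
        have hkn : k < n := by omega
        have h8 : x (k + 1) ≤ i := by
          by_contra hlt
          exact h7 ⟨by omega, by omega⟩
        obtain ⟨w, -, hw⟩ := h.entry ⟨k, hkn⟩ i h8 (by rw [hk] at h5; exact h5)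
        rw [hw]
        have := w.2
        omega

/-! ### combinatorial rigidity of graphs on `Fin n` -/

theorem map_inj {n : ℕ} : Function.Injective (Sym2.map (Fin.val : Fin n → ℕ)) :=
  Sym2.map.injective Fin.val_injective

theorem sparse_image {n : ℕ} {H : Finset (Sym2 (Fin n))} (hd : ∀ e ∈ H, ¬ e.IsDiag)
    (hs : ∀ X : Finset (Fin n), 2 ≤ X.card → (H ∩ X.sym2).card + 3 ≤ 2 * X.card) :
    Sparse (H.image (Sym2.map Fin.val)) := by
  constructor
  · intro e he
    obtain ⟨f, hf, rfl⟩ := mem_image.1 he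
    have := hd f hf
    induction f using Sym2.ind with
    | _ a b =>
      rw [Sym2.map_mk, Sym2.mk_isDiag_iff]
      rw [Sym2.mk_isDiag_iff] at this
      exact fun h => this (Fin.ext h)
  · intro Z hZ
    obtain ⟨X, hX⟩ : ∃ X : Finset (Fin n), X = univ.filter (fun v : Fin n => (v : ℕ) ∈ Z) :=
      ⟨_, rfl⟩
    have hXm : ∀ v : Fin n, v ∈ X ↔ (v : ℕ) ∈ Z := by intro v; rw [hX]; simp
    have hXZ : X.card ≤ Z.card :=
      card_le_card_of_injOn Fin.val (fun v hv => mem_coe.2 ((hXm v).1 (mem_coe.1 hv)))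
        (fun a _ b _ h => Fin.ext h)
    have h1 : ind (H.image (Sym2.map Fin.val)) Z ≤ (H ∩ X.sym2).card := by
      unfold ind
      have hsub : H.image (Sym2.map Fin.val) ∩ Z.sym2 ⊆ (H ∩ X.sym2).image (Sym2.map Fin.val) := by
        intro e he
        obtain ⟨he1, he2⟩ := mem_inter.1 he
        obtain ⟨f, hf, rfl⟩ := mem_image.1 he1
        refine mem_image.2 ⟨f, mem_inter.2 ⟨hf, ?_⟩, rfl⟩
        rw [Finset.mem_sym2_iff] at he2 ⊢
        intro a ha
        exact (hXm a).2 (he2 a (Sym2.mem_map.2 ⟨a, ha, rfl⟩))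
      exact (card_le_card hsub).trans card_image_le
    by_cases h2 : 2 ≤ X.card
    · have := hs X h2; omega
    · have h3 : H ∩ X.sym2 = ∅ := by
        rw [eq_empty_iff_forall_notMem]
        intro e he
        obtain ⟨he1, he2⟩ := mem_inter.1 he
        have := hd e he1
        induction e using Sym2.ind with
        | _ a b =>
          rw [Finset.mk_mem_sym2_iff] at he2
          rw [Sym2.mk_isDiag_iff] at this
          exact this (card_le_one.1 (by omega) a he2.1 b he2.2)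
      rw [h3] at h1
      simp only [card_empty, Nat.le_zero] at h1
      omega

theorem rigid_iff_card {n : ℕ} (hn : 2 ≤ n) {G : SimpleGraph (Fin n)} {x : ℕ → ℕ}
    (h : AdjLists G x) {I : Finset (Sym2 ℕ)} (hI : Sparse I) (hIT : I ⊆ TLs x n)
    (hTn : TLs x n ⊆ (range n).sym2) (hsp : ∀ e ∈ TLs x n, Spanned I e) :
    I.card + 3 = 2 * n ↔ GenericallyRigid G := by
  classical
  rw [laman hn G]
  constructor
  · intro hcard
    obtain ⟨H, hH⟩ : ∃ H : Finset (Sym2 (Fin n)),
        H = univ.filter (fun e : Sym2 (Fin n) => e.map Fin.val ∈ I) := ⟨_, rfl⟩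
    have hHm : ∀ e, e ∈ H ↔ e.map Fin.val ∈ I := by intro e; rw [hH]; simp
    have himg : H.image (Sym2.map Fin.val) = I := by
      ext e
      rw [mem_image]
      constructor
      · rintro ⟨f, hf, rfl⟩; exact (hHm f).1 hf
      · intro he
        obtain ⟨v, w, hvw, rfl⟩ := (mem_TLs h).1 (hIT he)
        exact ⟨s(v, w), (hHm _).2 (by rw [Sym2.map_mk]; exact he), by rw [Sym2.map_mk]⟩
    refine ⟨H, ?_, ?_, ?_⟩
    · intro e he
      have he' := hIT ((hHm e).1 (mem_coe.1 he))
      obtain ⟨v, w, hvw, hvw'⟩ := (mem_TLs h).1 he'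
      have : e = s(v, w) := map_inj (by rw [← hvw', Sym2.map_mk])
      rw [this]
      exact hvw
    · rw [← hcard, ← himg, card_image_of_injective _ map_inj]
    · intro X hX
      have h1 := hI.2 (X.image Fin.val) (by
        rw [card_image_of_injective _ Fin.val_injective]; exact hX)
      rw [card_image_of_injective _ Fin.val_injective] at h1
      have h2 : (H ∩ X.sym2).card ≤ ind I (X.image Fin.val) := by
        unfold ind
        rw [← card_image_of_injective (H ∩ X.sym2) map_inj]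
        apply card_le_card
        intro e he
        obtain ⟨f, hf, rfl⟩ := mem_image.1 he
        obtain ⟨hf1, hf2⟩ := mem_inter.1 hf
        refine mem_inter.2 ⟨(hHm f).1 hf1, ?_⟩
        rw [Finset.mem_sym2_iff] at hf2 ⊢
        intro a ha
        obtain ⟨b, hb, rfl⟩ := Sym2.mem_map.1 ha
        exact mem_image_of_mem _ (hf2 b hb)
      omega
  · rintro ⟨H, hHE, hHc, hHs⟩
    have hd : ∀ e ∈ H, ¬ e.IsDiag := fun e he => G.not_isDiag_of_mem_edgeSet (hHE (mem_coe.2 he))
    have hF := sparse_image hd hHs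
    have hFc : (H.image (Sym2.map Fin.val)).card = H.card := card_image_of_injective _ map_inj
    have hle := lemmaB hI hF (by
      intro e he
      obtain ⟨f, hf, rfl⟩ := mem_image.1 he
      apply hsp
      rw [mem_TLs h]
      have hfE := hHE (mem_coe.2 hf)
      induction f using Sym2.ind with
      | _ a b => exact ⟨a, b, hfE, by rw [Sym2.map_mk]⟩)
    have hup := hI.2 (range n) (by simpa using hn)
    have h2 : ind I (range n) = I.card := by
      unfold ind
      rw [inter_eq_left.2 (hIT.trans hTn)]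
    rw [h2, card_range] at hup
    omega

theorem rigid_small {n : ℕ} (hn : n < 2) (G : SimpleGraph (Fin n)) : GenericallyRigid G := by
  intro p _ γ _ _ _ t _ u v
  have : u = v := by
    apply Fin.ext
    have := u.2
    have := v.2
    omega
  rw [this, dist_self, dist_self]

/-! ### running time -/

theorem exists_s (n : ℕ) (hn : 1 ≤ n) : ∃ s, 1 ≤ s ∧ s ^ 7 ≤ n ∧ n < (s + 1) ^ 7 := by
  classical
  have h : ∃ j, n < (j + 1) ^ 7 := ⟨n, by
    calc n < n + 1 := by omega
      _ = (n + 1) ^ 1 := by ring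
      _ ≤ (n + 1) ^ 7 := Nat.pow_le_pow_right (by omega) (by norm_num)⟩
  have h1 := Nat.find_spec h
  have h2 := fun m hm => Nat.find_min h (m := m) hm
  set s := Nat.find h with hs
  have hs0 : s ≠ 0 := by
    intro h0
    rw [h0] at h1
    norm_num at h1
    omega
  refine ⟨s, by omega, ?_, h1⟩
  have := h2 (s - 1) (by omega)
  rw [Nat.sub_add_cancel (by omega)] at this
  omega

theorem time_real {n s t C : ℕ} (hs : 1 ≤ s) (hn : 1 ≤ n) (h : n < (s + 1) ^ 7)
    (ht : t * s ≤ C * (n + 1) ^ 2) : (t : ℝ) ≤ 8 * C * (n : ℝ) ^ (13 / 7 : ℝ) := by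
  have hn0 : (0 : ℝ) < n := by exact_mod_cast hn
  obtain ⟨y, hy⟩ : ∃ y : ℝ, y = (n : ℝ) ^ (1 / 7 : ℝ) := ⟨_, rfl⟩
  have hy0 : 0 < y := by rw [hy]; exact Real.rpow_pos_of_pos hn0 _
  have hy7 : y ^ 7 = n := by
    rw [hy, ← Real.rpow_natCast, ← Real.rpow_mul hn0.le]
    norm_num
  have hy1 : y < s + 1 := by
    apply lt_of_pow_lt_pow_left₀ 7 (by positivity)
    rw [hy7]
    exact_mod_cast h
  have hs1 : (1 : ℝ) ≤ s := by exact_mod_cast hs
  have hy2 : y ≤ 2 * s := by linarith
  have hn1 : (1 : ℝ) ≤ n := by exact_mod_cast hn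
  have ht' : (t : ℝ) * s ≤ C * (n + 1) ^ 2 := by exact_mod_cast ht
  have h1 : (t : ℝ) * y ≤ 8 * C * (n : ℝ) ^ 2 := by
    calc (t : ℝ) * y ≤ t * (2 * s) := by gcongr
      _ = 2 * (t * s) := by ring
      _ ≤ 2 * (C * (n + 1) ^ 2) := by gcongr
      _ ≤ 2 * (C * (2 * n) ^ 2) := by gcongr; linarith
      _ = 8 * C * (n : ℝ) ^ 2 := by ring
  have h2 : (n : ℝ) ^ 2 = (n : ℝ) ^ (13 / 7 : ℝ) * y := by
    rw [hy, ← Real.rpow_add hn0, ← Real.rpow_natCast]
    norm_num
  rw [h2, ← mul_assoc] at h1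
  exact le_of_mul_le_mul_right h1 hy0

/-- The structured program decides rigidity. -/
theorem mainC_spec : ∃ C : ℕ, ∀ {n : ℕ} {G : SimpleGraph (Fin n)} {x : ℕ → ℕ}, AdjLists G x →
    ∃ (σ' : MSt) (t : ℕ), Exec mainC (initSt .inp x) t σ' ∧
      (t : ℝ) ≤ C * (G.edgeSet.ncard + (n : ℝ) ^ (13 / 7 : ℝ) + 1) ∧
      t ≤ C * (n + 1) ^ 2 ∧ G.edgeSet.ncard ≤ (n + 1) ^ 2 ∧
      (σ'.r .out = 0 ∨ σ'.r .out = 1) ∧ (σ'.r .out = 1 ↔ GenericallyRigid G) := by
  classical
  obtain ⟨C0, hC0⟩ := algC_spec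
  refine ⟨8 * C0 + 100, ?_⟩
  intro n G x hx
  have hedge : G.edgeSet.ncard ≤ (n + 1) ^ 2 := by
    have h3 : G.edgeSet.ncard = G.edgeFinset.card := by
      rw [← SimpleGraph.coe_edgeFinset, Set.ncard_coe_finset]
    have h4 := card_le_univ G.edgeFinset
    have h5 : Fintype.card (Sym2 (Fin n)) ≤ (n + 1) ^ 2 := by
      rw [Sym2.card, Fintype.card_fin, Nat.choose_two_right]
      apply Nat.div_le_of_le_mul
      rw [Nat.add_sub_cancel]
      nlinarith
    rw [h3]
    exact h4.trans h5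
  have ex0 : Exec (.set .n (.get .inp (.num 0))) (initSt .inp x : MSt) 1
      ((initSt .inp x : MSt).setR .n n) := by
    have := Exec.set (initSt .inp x : MSt) Reg.n (.get .inp (.num 0) : MExp)
    simpa [initSt, hx.size] using this
  by_cases hn2 : n < 2
  · refine ⟨(((initSt .inp x : MSt).setR .n n).setR .out 1), 1 + (1 + 1), ?_, ?_, ?_, hedge,
      Or.inr (by simp), ?_⟩
    · refine .seq ex0 (.iteT ?_ ?_)
      · simpa using hn2
      · have := Exec.set ((initSt .inp x : MSt).setR .n n) Reg.out (.num 1 : MExp)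
        simpa using this
    · have h1 : (0 : ℝ) ≤ (n : ℝ) ^ (13 / 7 : ℝ) := by positivity
      have h2 : (0 : ℝ) ≤ G.edgeSet.ncard := by positivity
      push_cast
      nlinarith [Nat.cast_nonneg (α := ℝ) C0]
    · nlinarith [Nat.zero_le C0, Nat.zero_le n]
    · simp [rigid_small hn2 G]
  · obtain ⟨s, hs, hs7, hs7'⟩ := exists_s n (by omega)
    have hst : Start x ((initSt .inp x : MSt).setR .n n) := by
      refine ⟨?_, ?_, ?_⟩
      · funext i; simp [initSt]
      · intro a ha; funext i; simp [initSt, ha]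
      · intro r
        by_cases hr : r = Reg.n
        · exact Or.inr hr
        · left; simp [initSt, hr]
    obtain ⟨σ', t, ex, I, h1, h2, h3, h4, h5, h6, t', h7, h8⟩ :=
      hC0 hs hs7 hs7' hx.inOK hx.size hst
    have hlen := hx.len_le
    have hTm : (TLs x n).card ≤ G.edgeSet.ncard := by
      have h9 : G.edgeSet.ncard = G.edgeFinset.card := by
        rw [← SimpleGraph.coe_edgeFinset, Set.ncard_coe_finset]
      have h10 : TLs x n ⊆ G.edgeFinset.image (Sym2.map Fin.val) := by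
        intro e he
        obtain ⟨v, w, hvw, rfl⟩ := (mem_TLs hx).1 he
        exact mem_image.2 ⟨s(v, w), SimpleGraph.mem_edgeFinset.2 hvw, by rw [Sym2.map_mk]⟩
      rw [h9]
      exact (card_le_card h10).trans card_image_le
    have hT : t ≤ t' + 8 * n + 16 + 28 * G.edgeSet.ncard := by omega
    have ht's : t' ≤ C0 * (n + 1) ^ 2 := by
      calc t' = t' * 1 := by ring
        _ ≤ t' * s := Nat.mul_le_mul_left _ hs
        _ ≤ _ := h8
    refine ⟨σ', 1 + (t + 1), ?_, ?_, ?_, hedge, h5, ?_⟩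
    · refine .seq ex0 (.iteF ?_ ex)
      simpa using hn2
    · have h9 := time_real hs (by omega) hs7' h8
      have hn1 : (1 : ℝ) ≤ n := by
        have : 1 ≤ n := by omega
        exact_mod_cast this
      have h10 : (n : ℝ) ≤ (n : ℝ) ^ (13 / 7 : ℝ) := by
        calc (n : ℝ) = (n : ℝ) ^ (1 : ℝ) := by rw [Real.rpow_one]
          _ ≤ _ := Real.rpow_le_rpow_of_exponent_le hn1 (by norm_num)
      have hT' : (t : ℝ) ≤ t' + 8 * n + 16 + 28 * G.edgeSet.ncard := by exact_mod_cast hT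
      have h11 : (0 : ℝ) ≤ G.edgeSet.ncard := by positivity
      have h12 : (0 : ℝ) ≤ C0 := by positivity
      push_cast
      have h13 : (0 : ℝ) ≤ (n : ℝ) ^ (13 / 7 : ℝ) := by positivity
      have h14 : (0 : ℝ) ≤ C0 * G.edgeSet.ncard := by positivity
      nlinarith
    · nlinarith [Nat.zero_le n, Nat.zero_le C0]
    · rw [h6]
      exact rigid_iff_card (by omega) hx h1 h2 h3 h4

end Pool.Agent.H.MP_d01483_lc
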