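import Pool.Agent.H.MP_d01483_lc.Sparse

set_option linter.unusedSectionVars false
set_option linter.unusedVariables false

namespace Pool.Agent.H.MP_d01483_lc

open Finset

/-- Vertices of the edges of `I` labelled `c`. -/
def VL (I : Finset (Sym2 ℕ)) (lam : Sym2 ℕ → ℕ) (c : ℕ) : Finset ℕ :=
  (I.filter (fun e => lam e = c)).biUnion Sym2.toFinset

theorem mem_VL {I : Finset (Sym2 ℕ)} {lam : Sym2 ℕ → ℕ} {c x : ℕ} :
    x ∈ VL I lam c ↔ ∃ e ∈ I, lam e = c ∧ x ∈ e := by
  unfold VL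
  rw [mem_biUnion]
  constructor
  · rintro ⟨e, he, hx⟩
    rw [mem_filter] at he
    exact ⟨e, he.1, he.2, Sym2.mem_toFinset.1 hx⟩
  · rintro ⟨e, he, hc, hx⟩
    exact ⟨e, mem_filter.2 ⟨he, hc⟩, Sym2.mem_toFinset.2 hx⟩

/-- The labelling `lam` marks the edges of some maximal tight sets of `I` by positive numbers,
one number for each set. -/
structure LabOK (I : Finset (Sym2 ℕ)) (lam : Sym2 ℕ → ℕ) (nc : ℕ) : Prop where
  sp : Sparse I
  le : ∀ e ∈ I, lam e ≤ nc
  mt : ∀ e ∈ I, lam e ≠ 0 → MaxTight I (VL I lam (lam e))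
  cl : ∀ e ∈ I, ∀ f ∈ I, lam f ≠ 0 → e ∈ (VL I lam (lam f)).sym2 → lam e = lam f

/-- The maximal tight sets known to the labelling. -/
def Known (I : Finset (Sym2 ℕ)) (lam : Sym2 ℕ → ℕ) (K : Finset ℕ) : Prop :=
  ∃ f ∈ I, lam f ≠ 0 ∧ K = VL I lam (lam f)

/-- New labelling: the edges inside `U` get the new label `nc + 1`. -/
def relab (lam : Sym2 ℕ → ℕ) (U : Finset ℕ) (nc : ℕ) : Sym2 ℕ → ℕ :=
  fun e => if e ∈ U.sym2 then nc + 1 else lam e

/-- Number of labelled edges. -/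
def nlab (I : Finset (Sym2 ℕ)) (lam : Sym2 ℕ → ℕ) : ℕ := (I.filter (fun e => lam e ≠ 0)).card

theorem two_le_inter_lab {F : Finset (Sym2 ℕ)} (h : Sparse F) {e : Sym2 ℕ} (he : e ∈ F)
    {X Y : Finset ℕ} (hX : e ∈ X.sym2) (hY : e ∈ Y.sym2) : 2 ≤ (X ∩ Y).card := by
  have h2 := h.1 e he
  induction e using Sym2.ind with
  | h x y =>
    rw [Finset.mk_mem_sym2_iff] at hX hY
    have hxy : x ≠ y := fun hxy => h2 (by rw [hxy]; simp)
    rw [← card_pair hxy]
    apply card_le_card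
    intro z hz
    rw [mem_insert, mem_singleton] at hz
    rcases hz with rfl | rfl
    · exact mem_inter.2 ⟨hX.1, hY.1⟩
    · exact mem_inter.2 ⟨hX.2, hY.2⟩

theorem mem_VL_self {I : Finset (Sym2 ℕ)} {lam : Sym2 ℕ → ℕ} {c : ℕ} {e : Sym2 ℕ} (he : e ∈ I)
    (hc : lam e = c) : e ∈ (VL I lam c).sym2 := by
  rw [Finset.mem_sym2_iff]
  intro a ha
  exact mem_VL.2 ⟨e, he, hc, ha⟩

theorem relab_in {lam : Sym2 ℕ → ℕ} {U : Finset ℕ} {nc : ℕ} {e : Sym2 ℕ} (he : e ∈ U.sym2) :
    relab lam U nc e = nc + 1 := if_pos he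

theorem relab_out {lam : Sym2 ℕ → ℕ} {U : Finset ℕ} {nc : ℕ} {e : Sym2 ℕ} (he : e ∉ U.sym2) :
    relab lam U nc e = lam e := if_neg he

theorem Known.maxTight {I : Finset (Sym2 ℕ)} {lam : Sym2 ℕ → ℕ} {nc : ℕ} (h : LabOK I lam nc)
    {K : Finset ℕ} (hK : Known I lam K) : MaxTight I K := by
  obtain ⟨f, hf, hf0, rfl⟩ := hK
  exact h.mt f hf hf0

/-- Maximal tight sets not inside `U` stay maximal tight when edges inside the maximal tight
set `U` are added. -/
theorem maxTight_keep {I I' : Finset (Sym2 ℕ)} {K U : Finset ℕ} (hI : I ⊆ I') (hsp : Sparse I')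
    (hU : MaxTight I' U) (hnew : ∀ e ∈ I', e ∉ I → e ∈ U.sym2) (hK : MaxTight I K)
    (hKU : ¬ K ⊆ U) : MaxTight I' K := by
  refine ⟨tight_mono hsp hI hK.1, fun Z hZ hKZ => ?_⟩
  by_cases h2 : 2 ≤ (Z ∩ U).card
  · have h3 := tight_union hsp hZ hU.1 h2
    have h4 : Z ∪ U = U := hU.2 _ h3 subset_union_right
    have h5 : Z ⊆ U := by
      rw [← h4]
      exact subset_union_left
    exact absurd (hKZ.trans h5) hKU
  · have h5 : ind I' Z = ind I Z := by
      unfold ind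
      congr 1
      ext e
      simp only [mem_inter]
      constructor
      · rintro ⟨h6, h7⟩
        refine ⟨?_, h7⟩
        by_contra h8
        exact h2 (two_le_inter_lab hsp h6 h7 (hnew e h6 h8))
      · rintro ⟨h6, h7⟩
        exact ⟨hI h6, h7⟩
    exact hK.2 Z ⟨hZ.1, by rw [← h5]; exact hZ.2⟩ hKZ

/-- A known class with an edge outside `U` is not inside `U`. -/
theorem not_sub {I : Finset (Sym2 ℕ)} {lam : Sym2 ℕ → ℕ} {U : Finset ℕ} {f : Sym2 ℕ}
    (hf : f ∈ I) (hfU : f ∉ U.sym2) : ¬ VL I lam (lam f) ⊆ U :=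
  fun h => hfU (Finset.sym2_mono h (mem_VL_self hf rfl))

theorem inter_le_one {I I' : Finset (Sym2 ℕ)} {lam : Sym2 ℕ → ℕ} {nc : ℕ} {U : Finset ℕ}
    (h : LabOK I lam nc) (hI : I ⊆ I') (hsp : Sparse I') (hU : MaxTight I' U)
    (hnew : ∀ e ∈ I', e ∉ I → e ∈ U.sym2) {K : Finset ℕ} (hK : MaxTight I K) (hKU : ¬ K ⊆ U) :
    (K ∩ U).card ≤ 1 := by
  refine maxTight_inter hsp (maxTight_keep hI hsp hU hnew hK hKU) hU ?_
  intro he
  exact hKU he.subset

/-- The new label class. -/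
theorem VL_new {I I' : Finset (Sym2 ℕ)} {lam : Sym2 ℕ → ℕ} {nc : ℕ} {U : Finset ℕ}
    (h : LabOK I lam nc) (hI : I ⊆ I') (hsp : Sparse I') (hU : MaxTight I' U)
    (hnew : ∀ e ∈ I', e ∉ I → e ∈ U.sym2) : VL I' (relab lam U nc) (nc + 1) = U := by
  ext x
  rw [mem_VL]
  constructor
  · rintro ⟨e, he, hc, hx⟩
    by_cases heU : e ∈ U.sym2
    · exact (Finset.mem_sym2_iff.1 heU) x hx
    · rw [relab_out heU] at hc
      have heI : e ∈ I := by
        by_contra hcon
        exact heU (hnew e he hcon)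
      have := h.le e heI
      omega
  · intro hx
    obtain ⟨e, he, heU, hxe⟩ := tight_deg hsp hU.1 hx
    exact ⟨e, he, relab_in heU, hxe⟩

/-- A label class with an edge outside `U` does not change. -/
theorem VL_old {I I' : Finset (Sym2 ℕ)} {lam : Sym2 ℕ → ℕ} {nc : ℕ} {U : Finset ℕ}
    (h : LabOK I lam nc) (hI : I ⊆ I') (hsp : Sparse I') (hU : MaxTight I' U)
    (hnew : ∀ e ∈ I', e ∉ I → e ∈ U.sym2) {f : Sym2 ℕ} (hf : f ∈ I) (hf0 : lam f ≠ 0)
    (hfU : f ∉ U.sym2) : VL I' (relab lam U nc) (lam f) = VL I lam (lam f) := by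
  have h1 := inter_le_one h hI hsp hU hnew (h.mt f hf hf0) (not_sub hf hfU)
  ext x
  rw [mem_VL, mem_VL]
  constructor
  · rintro ⟨e, he, hc, hx⟩
    by_cases heU : e ∈ U.sym2
    · rw [relab_in heU] at hc
      have := h.le f hf
      omega
    · rw [relab_out heU] at hc
      have heI : e ∈ I := by
        by_contra hcon
        exact heU (hnew e he hcon)
      exact ⟨e, heI, hc, hx⟩
  · rintro ⟨e, he, hc, hx⟩
    refine ⟨e, hI he, ?_, hx⟩
    have heU : e ∉ U.sym2 := by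
      intro heU
      have := two_le_inter_lab hsp (hI he) (mem_VL_self he hc) heU
      omega
    rw [relab_out heU, hc]

theorem LabOK.step {I I' : Finset (Sym2 ℕ)} {lam : Sym2 ℕ → ℕ} {nc : ℕ} {U : Finset ℕ}
    (h : LabOK I lam nc) (hI : I ⊆ I') (hsp : Sparse I') (hU : MaxTight I' U)
    (hnew : ∀ e ∈ I', e ∉ I → e ∈ U.sym2) : LabOK I' (relab lam U nc) (nc + 1) := by
  have hin : ∀ e ∈ I', e ∉ U.sym2 → e ∈ I := by
    intro e he heU
    by_contra hcon
    exact heU (hnew e he hcon)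
  refine ⟨hsp, ?_, ?_, ?_⟩
  · intro e he
    by_cases heU : e ∈ U.sym2
    · rw [relab_in heU]
    · rw [relab_out heU]
      exact (h.le e (hin e he heU)).trans (Nat.le_succ nc)
  · intro e he h0
    by_cases heU : e ∈ U.sym2
    · rw [relab_in heU, VL_new h hI hsp hU hnew]
      exact hU
    · have heI := hin e he heU
      rw [relab_out heU] at h0 ⊢
      rw [VL_old h hI hsp hU hnew heI h0 heU]
      exact maxTight_keep hI hsp hU hnew (h.mt e heI h0) (not_sub heI heU)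
  · intro e he f hf h0 hef
    by_cases hfU : f ∈ U.sym2
    · rw [relab_in hfU, VL_new h hI hsp hU hnew] at hef
      rw [relab_in hfU, relab_in hef]
    · have hfI := hin f hf hfU
      rw [relab_out hfU] at h0 hef ⊢
      rw [VL_old h hI hsp hU hnew hfI h0 hfU] at hef
      have h1 := inter_le_one h hI hsp hU hnew (h.mt f hfI h0) (not_sub hfI hfU)
      have heU : e ∉ U.sym2 := by
        intro heU
        have := two_le_inter_lab hsp he hef heU
        omega
      rw [relab_out heU]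
      exact h.cl e (hin e he heU) f hfI h0 hef

theorem known_new {I I' : Finset (Sym2 ℕ)} {lam : Sym2 ℕ → ℕ} {nc : ℕ} {U : Finset ℕ}
    (h : LabOK I lam nc) (hI : I ⊆ I') (hsp : Sparse I') (hU : MaxTight I' U)
    (hnew : ∀ e ∈ I', e ∉ I → e ∈ U.sym2) : Known I' (relab lam U nc) U := by
  have hne : U.Nonempty := by
    rw [← card_pos]
    have := hU.1.1
    omega
  obtain ⟨x, hx⟩ := hne
  obtain ⟨e, he, heU, -⟩ := tight_deg hsp hU.1 hx
  refine ⟨e, he, ?_, ?_⟩
  · rw [relab_in heU]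
    omega
  · rw [relab_in heU, VL_new h hI hsp hU hnew]

theorem known_old {I I' : Finset (Sym2 ℕ)} {lam : Sym2 ℕ → ℕ} {nc : ℕ} {U : Finset ℕ}
    (h : LabOK I lam nc) (hI : I ⊆ I') (hsp : Sparse I') (hU : MaxTight I' U)
    (hnew : ∀ e ∈ I', e ∉ I → e ∈ U.sym2) {K : Finset ℕ} (hK : Known I lam K) :
    ∃ K', Known I' (relab lam U nc) K' ∧ K ⊆ K' := by
  obtain ⟨f, hf, hf0, rfl⟩ := hK
  by_cases hfU : f ∈ U.sym2
  · refine ⟨U, known_new h hI hsp hU hnew, ?_⟩
    by_contra hKU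
    have h1 := inter_le_one h hI hsp hU hnew (h.mt f hf hf0) hKU
    have h2 := two_le_inter_lab hsp (hI hf) (mem_VL_self (lam := lam) hf rfl) hfU
    omega
  · refine ⟨VL I lam (lam f), ⟨f, hI hf, ?_, ?_⟩, Subset.refl _⟩
    · rw [relab_out hfU]
      exact hf0
    · rw [relab_out hfU, VL_old h hI hsp hU hnew hf hf0 hfU]

theorem nlab_mono {I I' : Finset (Sym2 ℕ)} {lam : Sym2 ℕ → ℕ} {nc : ℕ} {U : Finset ℕ}
    (hI : I ⊆ I') : nlab I lam ≤ nlab I' (relab lam U nc) := by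
  unfold nlab
  apply card_le_card
  intro e he
  rw [mem_filter] at he ⊢
  refine ⟨hI he.1, ?_⟩
  by_cases heU : e ∈ U.sym2
  · rw [relab_in heU]
    omega
  · rw [relab_out heU]
    exact he.2

/-- If `I` does not change and `U` was not known, all edges inside `U` are newly labelled. -/
theorem nlab_step {I : Finset (Sym2 ℕ)} {lam : Sym2 ℕ → ℕ} {nc : ℕ} {U : Finset ℕ}
    (h : LabOK I lam nc) (hU : MaxTight I U) (hK : ¬ Known I lam U) :
    nlab I lam + 2 * U.card ≤ nlab I (relab lam U nc) + 3 := by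
  have h1 := hU.1.2
  have hdisj : Disjoint (I.filter (fun e => lam e ≠ 0)) (I ∩ U.sym2) := by
    rw [disjoint_left]
    intro e he he'
    rw [mem_filter] at he
    rw [mem_inter] at he'
    refine hK ⟨e, he.1, he.2, ?_⟩
    by_contra hne
    have h2 := maxTight_inter h.sp hU (h.mt e he.1 he.2) hne
    have h3 := two_le_inter_lab h.sp he.1 he'.2 (mem_VL_self (lam := lam) he.1 rfl)
    omega
  have h2 : nlab I lam + ind I U ≤ nlab I (relab lam U nc) := by
    unfold nlab ind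
    rw [← card_union_of_disjoint hdisj]
    apply card_le_card
    intro e he
    rw [mem_union, mem_filter, mem_inter] at he
    rw [mem_filter]
    rcases he with he | he
    · refine ⟨he.1, ?_⟩
      by_cases heU : e ∈ U.sym2
      · rw [relab_in heU]
        omega
      · rw [relab_out heU]
        exact he.2
    · refine ⟨he.1, ?_⟩
      rw [relab_in he.2]
      omega
  omega

end Pool.Agent.H.MP_d01483_lc
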