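import Pool.Agent.H.MP_d01483_lc.Laman.Motion
import Pool.Agent.H.MP_d01483_lc.Model

/-!
Laman's theorem for continuous rigidity (Laman, Asimow-Roth): for a framework in the plane whose
coordinates are algebraically independent over the rationals, every continuous motion preserving
the edge lengths preserves all distances if and only if the graph has a spanning (2,3)-sparse set
of `2n-3` edges.
-/

set_option linter.unusedSectionVars false
set_option linter.unusedVariables false

namespace Pool.Agent.H.MP_d01483_lc

open Finset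

section
variable {V : Type} [DecidableEq V] [Fintype V]

/-- coordinates of a configuration -/
noncomputable def toC (p : V → EuclideanSpace ℝ (Fin 2)) : Conf V := fun v i => p v i

/-- configuration from coordinates -/
noncomputable def ofC (q : Conf V) : V → EuclideanSpace ℝ (Fin 2) :=
  fun v => (EuclideanSpace.equiv (Fin 2) ℝ).symm (q v)

theorem toC_ofC (q : Conf V) : toC (ofC q) = q := rfl

theorem ofC_toC (p : V → EuclideanSpace ℝ (Fin 2)) : ofC (toC p) = p := rfl

theorem dist_eq_sqrt (p : V → EuclideanSpace ℝ (Fin 2)) (u v : V) :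
    dist (p u) (p v) = Real.sqrt (dsq (toC p u) (toC p v)) := by
  rw [EuclideanSpace.dist_eq, Fin.sum_univ_two]
  congr 1
  simp only [Real.dist_eq, sq_abs, dsq, dot, toC, Pi.sub_apply]
  ring

theorem dist_eq_iff (p q : V → EuclideanSpace ℝ (Fin 2)) (u v : V) :
    dist (q u) (q v) = dist (p u) (p v) ↔
      dsq (toC q u) (toC q v) = dsq (toC p u) (toC p v) := by
  rw [dist_eq_sqrt, dist_eq_sqrt]
  exact Real.sqrt_inj (dot_self_nonneg _) (dot_self_nonneg _)

theorem continuous_toC : Continuous (toC : (V → EuclideanSpace ℝ (Fin 2)) → Conf V) := by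
  rw [continuous_pi_iff]
  intro v
  exact (EuclideanSpace.equiv (Fin 2) ℝ).continuous.comp (continuous_apply v)

theorem continuous_ofC : Continuous (ofC : Conf V → (V → EuclideanSpace ℝ (Fin 2))) := by
  rw [continuous_pi_iff]
  intro v
  exact (EuclideanSpace.equiv (Fin 2) ℝ).symm.continuous.comp (continuous_apply v)

/-- **Laman's theorem** for continuous rigidity. -/
theorem rigid_iff_laman (hn : 2 ≤ Fintype.card V) (G : SimpleGraph V)
    (p : V → EuclideanSpace ℝ (Fin 2)) (hp : GenericFramework p) :
    RigidFramework G p ↔ ∃ F : Finset (Sym2 V), (∀ e ∈ F, e ∈ G.edgeSet) ∧ Sparse F ∧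
      F.card + 3 = 2 * Fintype.card V := by
  classical
  have hg : GenP (toC p) := hp
  constructor
  · intro hr
    by_contra hcon
    push Not at hcon
    obtain ⟨γ, hγ, hγ0, hE, t, ht, a, b, hab⟩ := flexible hg hn
      (univ.filter (fun e => e ∈ G.edgeSet)) (fun F hF hs => hcon F (fun e he =>
        (mem_filter.1 (hF he)).2) hs)
    have h1 := hr (fun t => ofC (γ t)) (continuous_ofC.comp hγ).continuousOn (by
      rw [hγ0, ofC_toC]) (by
      intro s hs u v huv
      rw [dist_eq_iff, toC_ofC]
      have := hE s hs s(u, v) (by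
        rw [mem_filter]; exact ⟨mem_univ _, huv⟩)
      rwa [lsq_mk, lsq_mk] at this) t ht a b
    rw [dist_eq_iff, toC_ofC] at h1
    apply hab
    rw [lsq_mk, lsq_mk]
    exact h1
  · rintro ⟨F, hFG, hs, hc⟩ γ hγ hγ0 hE t ht u v
    let c : ℝ → ℝ := fun t => max 0 (min 1 t)
    have hcI : ∀ t, c t ∈ Set.Icc (0 : ℝ) 1 := fun t =>
      ⟨le_max_left _ _, max_le zero_le_one (min_le_left _ _)⟩
    have hc1 : ∀ t ∈ Set.Icc (0 : ℝ) 1, c t = t := by
      intro t ht
      simp only [c]
      rw [min_eq_right ht.2, max_eq_right ht.1]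
    have hcc : Continuous c := by fun_prop
    have hcont : Continuous (fun t => toC (γ (c t))) :=
      continuous_toC.comp (hγ.comp_continuous hcc hcI)
    have h1 := rigid_of_ind hg.injective hn (ind_of_sparse hg hs) hc
      (fun t => toC (γ (c t))) hcont (by
        rw [hc1 0 ⟨le_rfl, zero_le_one⟩, hγ0]) (by
        intro s e he
        have h2 := hFG e he
        induction e using Sym2.ind with
        | h a b =>
          rw [lsq_mk, lsq_mk, ← dist_eq_iff]
          exact hE _ (hcI s) a b h2) t ht u v
    simp only [hc1 t ht] at h1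
    rw [dist_eq_iff]
    exact h1

end

end Pool.Agent.H.MP_d01483_lc
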