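import Mathlib

/-!
A small structured imperative language over scalar registers and arrays of natural numbers
(successor RAM programs).  Every assignment and every test costs one step.
-/

set_option linter.unusedSectionVars false
set_option linter.unusedVariables false
set_option linter.unusedSimpArgs false

namespace Pool.Agent.H.MP_d01483_lc

/-- Machine states: scalar registers `r` and arrays `m`. -/
structure St (R A : Type) where
  r : R → ℕ
  m : A → ℕ → ℕ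

section
variable {R A : Type} [DecidableEq R] [DecidableEq A]

/-- Update of a register. -/
def St.setR (σ : St R A) (x : R) (c : ℕ) : St R A :=
  ⟨fun y => if y = x then c else σ.r y, σ.m⟩

/-- Update of one array cell. -/
def St.setM (σ : St R A) (a : A) (i c : ℕ) : St R A :=
  ⟨σ.r, fun b k => if b = a then (if k = i then c else σ.m b k) else σ.m b k⟩

@[simp] theorem St.setR_r (σ : St R A) (x : R) (c : ℕ) (y : R) :
    (σ.setR x c).r y = if y = x then c else σ.r y := rfl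
@[simp] theorem St.setR_m (σ : St R A) (x : R) (c : ℕ) : (σ.setR x c).m = σ.m := rfl
@[simp] theorem St.setM_r (σ : St R A) (a : A) (i c : ℕ) : (σ.setM a i c).r = σ.r := rfl
@[simp] theorem St.setM_m (σ : St R A) (a : A) (i c : ℕ) (b : A) (k : ℕ) :
    (σ.setM a i c).m b k = if b = a then (if k = i then c else σ.m b k) else σ.m b k := rfl
@[simp] theorem St.setM_m_same (σ : St R A) (a : A) (i c : ℕ) (k : ℕ) :
    (σ.setM a i c).m a k = if k = i then c else σ.m a k := by simp [St.setM]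
@[simp] theorem St.setM_m_ne (σ : St R A) {a b : A} (h : b ≠ a) (i c : ℕ) :
    (σ.setM a i c).m b = σ.m b := by funext k; simp [St.setM, h]

/-- Arithmetic expressions: constants, registers, array cells, successor, predecessor. -/
inductive Exp (R A : Type)
  | num (c : ℕ)
  | reg (x : R)
  | get (a : A) (e : Exp R A)
  | inc (e : Exp R A)
  | dec (e : Exp R A)

/-- Value of an expression. -/
def Exp.ev (σ : St R A) : Exp R A → ℕ
  | .num c => c
  | .reg x => σ.r x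
  | .get a e => σ.m a (e.ev σ)
  | .inc e => e.ev σ + 1
  | .dec e => e.ev σ - 1

@[simp] theorem Exp.ev_num (σ : St R A) (c : ℕ) : (Exp.num c).ev σ = c := rfl
@[simp] theorem Exp.ev_reg (σ : St R A) (x : R) : (Exp.reg x).ev σ = σ.r x := rfl
@[simp] theorem Exp.ev_get (σ : St R A) (a : A) (e : Exp R A) :
    (Exp.get a e).ev σ = σ.m a (e.ev σ) := rfl
@[simp] theorem Exp.ev_inc (σ : St R A) (e : Exp R A) : (Exp.inc e).ev σ = e.ev σ + 1 := rfl
@[simp] theorem Exp.ev_dec (σ : St R A) (e : Exp R A) : (Exp.dec e).ev σ = e.ev σ - 1 := rfl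

/-- Boolean tests. -/
inductive Cnd (R A : Type)
  | lt (e f : Exp R A)
  | eq (e f : Exp R A)
  | neg (c : Cnd R A)
  | and (c d : Cnd R A)
  | or (c d : Cnd R A)

/-- Truth of a test. -/
def Cnd.ev (σ : St R A) : Cnd R A → Prop
  | .lt e f => e.ev σ < f.ev σ
  | .eq e f => e.ev σ = f.ev σ
  | .neg c => ¬ c.ev σ
  | .and c d => c.ev σ ∧ d.ev σ
  | .or c d => c.ev σ ∨ d.ev σ

@[simp] theorem Cnd.ev_lt (σ : St R A) (e f : Exp R A) :
    (Cnd.lt e f).ev σ ↔ e.ev σ < f.ev σ := Iff.rfl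
@[simp] theorem Cnd.ev_eq (σ : St R A) (e f : Exp R A) :
    (Cnd.eq e f).ev σ ↔ e.ev σ = f.ev σ := Iff.rfl
@[simp] theorem Cnd.ev_neg (σ : St R A) (c : Cnd R A) : (Cnd.neg c).ev σ ↔ ¬ c.ev σ := Iff.rfl
@[simp] theorem Cnd.ev_and (σ : St R A) (c d : Cnd R A) :
    (Cnd.and c d).ev σ ↔ c.ev σ ∧ d.ev σ := Iff.rfl
@[simp] theorem Cnd.ev_or (σ : St R A) (c d : Cnd R A) :
    (Cnd.or c d).ev σ ↔ c.ev σ ∨ d.ev σ := Iff.rfl

/-- Commands. -/
inductive Cmd (R A : Type)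
  | skip
  | set (x : R) (e : Exp R A)
  | put (a : A) (i e : Exp R A)
  | seq (c d : Cmd R A)
  | ite (b : Cnd R A) (c d : Cmd R A)
  | whl (b : Cnd R A) (c : Cmd R A)

/-- Big-step semantics with cost: `Exec c σ t σ'` says that `c` started in `σ` stops in `σ'`
after `t` steps. -/
inductive Exec : Cmd R A → St R A → ℕ → St R A → Prop
  | skip (σ : St R A) : Exec .skip σ 0 σ
  | set (σ : St R A) (x : R) (e : Exp R A) : Exec (.set x e) σ 1 (σ.setR x (e.ev σ))
  | put (σ : St R A) (a : A) (i e : Exp R A) :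
      Exec (.put a i e) σ 1 (σ.setM a (i.ev σ) (e.ev σ))
  | seq {c d : Cmd R A} {σ σ' σ'' : St R A} {t t' : ℕ} :
      Exec c σ t σ' → Exec d σ' t' σ'' → Exec (.seq c d) σ (t + t') σ''
  | iteT {b : Cnd R A} {c d : Cmd R A} {σ σ' : St R A} {t : ℕ} :
      b.ev σ → Exec c σ t σ' → Exec (.ite b c d) σ (t + 1) σ'
  | iteF {b : Cnd R A} {c d : Cmd R A} {σ σ' : St R A} {t : ℕ} :
      ¬ b.ev σ → Exec d σ t σ' → Exec (.ite b c d) σ (t + 1) σ'
  | whlF {b : Cnd R A} {c : Cmd R A} {σ : St R A} :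
      ¬ b.ev σ → Exec (.whl b c) σ 1 σ
  | whlT {b : Cnd R A} {c : Cmd R A} {σ σ' σ'' : St R A} {t t' : ℕ} :
      b.ev σ → Exec c σ t σ' → Exec (.whl b c) σ' t' σ'' → Exec (.whl b c) σ (t + t' + 1) σ''

/-- `Runs c σ T Q`: started in `σ` with `T` time credits, `c` terminates using at most `T` steps,
and the final state together with the remaining credits satisfies `Q`. -/
def Runs (c : Cmd R A) (σ : St R A) (T : ℕ) (Q : St R A → ℕ → Prop) : Prop :=
  ∃ σ' t, Exec c σ t σ' ∧ t ≤ T ∧ Q σ' (T - t)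

theorem Runs.conseq {c : Cmd R A} {σ : St R A} {T : ℕ} {Q Q' : St R A → ℕ → Prop}
    (h : Runs c σ T Q) (hQ : ∀ σ' T', Q σ' T' → Q' σ' T') : Runs c σ T Q' := by
  obtain ⟨σ', t, h1, h2, h3⟩ := h
  exact ⟨σ', t, h1, h2, hQ _ _ h3⟩

@[simp] theorem runs_skip {σ : St R A} {T : ℕ} {Q : St R A → ℕ → Prop} :
    Runs .skip σ T Q ↔ Q σ T := by
  constructor
  · rintro ⟨σ', t, h1, h2, h3⟩
    cases h1
    simpa using h3
  · intro h
    exact ⟨σ, 0, .skip σ, Nat.zero_le _, by simpa using h⟩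

@[simp] theorem runs_set {x : R} {e : Exp R A} {σ : St R A} {T : ℕ} {Q : St R A → ℕ → Prop} :
    Runs (.set x e) σ T Q ↔ 1 ≤ T ∧ Q (σ.setR x (e.ev σ)) (T - 1) := by
  constructor
  · rintro ⟨σ', t, h1, h2, h3⟩
    cases h1
    exact ⟨h2, h3⟩
  · rintro ⟨h, h'⟩
    exact ⟨_, 1, .set σ x e, h, h'⟩

@[simp] theorem runs_put {a : A} {i e : Exp R A} {σ : St R A} {T : ℕ} {Q : St R A → ℕ → Prop} :
    Runs (.put a i e) σ T Q ↔ 1 ≤ T ∧ Q (σ.setM a (i.ev σ) (e.ev σ)) (T - 1) := by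
  constructor
  · rintro ⟨σ', t, h1, h2, h3⟩
    cases h1
    exact ⟨h2, h3⟩
  · rintro ⟨h, h'⟩
    exact ⟨_, 1, .put σ a i e, h, h'⟩

@[simp] theorem runs_seq {c d : Cmd R A} {σ : St R A} {T : ℕ} {Q : St R A → ℕ → Prop} :
    Runs (.seq c d) σ T Q ↔ Runs c σ T (fun σ' T' => Runs d σ' T' Q) := by
  constructor
  · rintro ⟨σ', t, h1, h2, h3⟩
    cases h1 with
    | seq ha hb =>
      rename_i σ1 t1 t2
      exact ⟨σ1, t1, ha, by omega, σ', t2, hb, by omega, by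
        rwa [Nat.sub_sub]⟩
  · rintro ⟨σ1, t1, ha, h1, σ', t2, hb, h2, h3⟩
    exact ⟨σ', t1 + t2, .seq ha hb, by omega, by rwa [← Nat.sub_sub]⟩

theorem runs_ite {b : Cnd R A} {c d : Cmd R A} {σ : St R A} {T : ℕ} {Q : St R A → ℕ → Prop} :
    Runs (.ite b c d) σ T Q ↔
      1 ≤ T ∧ (b.ev σ → Runs c σ (T - 1) Q) ∧ (¬ b.ev σ → Runs d σ (T - 1) Q) := by
  constructor
  · rintro ⟨σ', t, h1, h2, h3⟩
    cases h1 with
    | iteT hb hc =>
      rename_i t1
      refine ⟨by omega, fun _ => ⟨σ', t1, hc, by omega, ?_⟩, fun h => absurd hb h⟩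
      rwa [Nat.sub_sub, Nat.add_comm 1 t1]
    | iteF hb hc =>
      rename_i t1
      refine ⟨by omega, fun h => absurd h hb, fun _ => ⟨σ', t1, hc, by omega, ?_⟩⟩
      rwa [Nat.sub_sub, Nat.add_comm 1 t1]
  · rintro ⟨h1, h2, h3⟩
    by_cases hb : b.ev σ
    · obtain ⟨σ', t, e1, e2, e3⟩ := h2 hb
      exact ⟨σ', t + 1, .iteT hb e1, by omega, by rwa [Nat.add_comm, ← Nat.sub_sub]⟩
    · obtain ⟨σ', t, e1, e2, e3⟩ := h3 hb
      exact ⟨σ', t + 1, .iteF hb e1, by omega, by rwa [Nat.add_comm, ← Nat.sub_sub]⟩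

/-- Rule for loops: the credits pay for each test, so termination is automatic. -/
theorem Runs.whl {b : Cnd R A} {c : Cmd R A} {Q : St R A → ℕ → Prop}
    (Inv : St R A → ℕ → Prop)
    (hstep : ∀ σ T, Inv σ T → b.ev σ → 1 ≤ T ∧ Runs c σ (T - 1) Inv)
    (hexit : ∀ σ T, Inv σ T → ¬ b.ev σ → 1 ≤ T ∧ Q σ (T - 1))
    {σ : St R A} {T : ℕ} (h0 : Inv σ T) : Runs (.whl b c) σ T Q := by
  induction T using Nat.strong_induction_on generalizing σ with
  | _ T ih =>
    by_cases hb : b.ev σ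
    · obtain ⟨h1, σ', t, e1, e2, e3⟩ := hstep σ T h0 hb
      obtain ⟨σ'', t', f1, f2, f3⟩ := ih (T - 1 - t) (by omega) e3
      refine ⟨σ'', t + t' + 1, .whlT hb e1 f1, by omega, ?_⟩
      have : T - (t + t' + 1) = T - 1 - t - t' := by omega
      rwa [this]
    · obtain ⟨h1, h2⟩ := hexit σ T h0 hb
      exact ⟨σ, 1, .whlF hb, h1, h2⟩

/-- `Spec c σ B P`: `c` started in `σ` stops within `B` steps in a state satisfying `P`. -/
def Spec (c : Cmd R A) (σ : St R A) (B : ℕ) (P : St R A → Prop) : Prop :=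
  ∃ σ' t, Exec c σ t σ' ∧ t ≤ B ∧ P σ'

theorem Runs.of_spec {c : Cmd R A} {σ : St R A} {B T : ℕ} {P : St R A → Prop}
    {Q : St R A → ℕ → Prop} (h : Spec c σ B P) (hB : B ≤ T)
    (hQ : ∀ σ' T', P σ' → T - B ≤ T' → Q σ' T') : Runs c σ T Q := by
  obtain ⟨σ', t, h1, h2, h3⟩ := h
  exact ⟨σ', t, h1, by omega, hQ _ _ h3 (by omega)⟩

theorem Spec.of_runs {c : Cmd R A} {σ : St R A} {B : ℕ} {P : St R A → Prop}
    (h : Runs c σ B (fun σ' _ => P σ')) : Spec c σ B P := by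
  obtain ⟨σ', t, h1, h2, h3⟩ := h
  exact ⟨σ', t, h1, h2, h3⟩

theorem Spec.mono {c : Cmd R A} {σ : St R A} {B B' : ℕ} {P P' : St R A → Prop}
    (h : Spec c σ B P) (hB : B ≤ B') (hP : ∀ σ', P σ' → P' σ') : Spec c σ B' P' := by
  obtain ⟨σ', t, h1, h2, h3⟩ := h
  exact ⟨σ', t, h1, by omega, hP _ h3⟩

/-- Registers written by a command. -/
def Cmd.wr : Cmd R A → List R
  | .skip => []
  | .set x _ => [x]
  | .put _ _ _ => []
  | .seq c d => c.wr ++ d.wr
  | .ite _ c d => c.wr ++ d.wr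
  | .whl _ c => c.wr

/-- Arrays written by a command. -/
def Cmd.wa : Cmd R A → List A
  | .skip => []
  | .set _ _ => []
  | .put a _ _ => [a]
  | .seq c d => c.wa ++ d.wa
  | .ite _ c d => c.wa ++ d.wa
  | .whl _ c => c.wa

theorem Exec.frameR {c : Cmd R A} {σ σ' : St R A} {t : ℕ} (h : Exec c σ t σ') {x : R}
    (hx : x ∉ c.wr) : σ'.r x = σ.r x := by
  induction h with
  | skip => rfl
  | set σ y e =>
    simp only [Cmd.wr, List.mem_singleton] at hx
    simp [hx]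
  | put => rfl
  | seq _ _ ih1 ih2 =>
    simp only [Cmd.wr, List.mem_append, not_or] at hx
    rw [ih2 hx.2, ih1 hx.1]
  | iteT _ _ ih =>
    simp only [Cmd.wr, List.mem_append, not_or] at hx
    exact ih hx.1
  | iteF _ _ ih =>
    simp only [Cmd.wr, List.mem_append, not_or] at hx
    exact ih hx.2
  | whlF => rfl
  | whlT _ _ _ ih1 ih2 =>
    have h1 := ih1 (by simpa [Cmd.wr] using hx)
    rw [ih2 hx, h1]

theorem Exec.frameM {c : Cmd R A} {σ σ' : St R A} {t : ℕ} (h : Exec c σ t σ') {a : A}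
    (ha : a ∉ c.wa) : σ'.m a = σ.m a := by
  induction h with
  | skip => rfl
  | set σ y e => rfl
  | put σ b i e =>
    simp only [Cmd.wa, List.mem_singleton] at ha
    exact St.setM_m_ne _ ha _ _
  | seq _ _ ih1 ih2 =>
    simp only [Cmd.wa, List.mem_append, not_or] at ha
    rw [ih2 ha.2, ih1 ha.1]
  | iteT _ _ ih =>
    simp only [Cmd.wa, List.mem_append, not_or] at ha
    exact ih ha.1
  | iteF _ _ ih =>
    simp only [Cmd.wa, List.mem_append, not_or] at ha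
    exact ih ha.2
  | whlF => rfl
  | whlT _ _ _ ih1 ih2 =>
    have h1 := ih1 (by simpa [Cmd.wa] using ha)
    rw [ih2 ha, h1]

/-- Frame property: registers and arrays not written keep their value. -/
structure Frame (c : Cmd R A) (σ σ' : St R A) : Prop where
  r : ∀ x, x ∉ c.wr → σ'.r x = σ.r x
  m : ∀ a, a ∉ c.wa → σ'.m a = σ.m a

theorem Exec.frame {c : Cmd R A} {σ σ' : St R A} {t : ℕ} (h : Exec c σ t σ') : Frame c σ σ' :=
  ⟨fun _ hx => h.frameR hx, fun _ ha => h.frameM ha⟩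

theorem Spec.frame {c : Cmd R A} {σ : St R A} {B : ℕ} {P : St R A → Prop}
    (h : Spec c σ B P) : Spec c σ B (fun σ' => P σ' ∧ Frame c σ σ') := by
  obtain ⟨σ', t, h1, h2, h3⟩ := h
  exact ⟨σ', t, h1, h2, h3, h1.frame⟩

theorem Runs.frame {c : Cmd R A} {σ : St R A} {T : ℕ} {Q : St R A → ℕ → Prop}
    (h : Runs c σ T (fun σ' T' => Frame c σ σ' → Q σ' T')) : Runs c σ T Q := by
  obtain ⟨σ', t, h1, h2, h3⟩ := h
  exact ⟨σ', t, h1, h2, h3 h1.frame⟩

/-- Loop rule with a bound `B` on the cost of one iteration and a decreasing measure. -/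
theorem Spec.whl {b : Cnd R A} {c : Cmd R A} (Inv : St R A → Prop) (μ : St R A → ℕ) (B : ℕ)
    (hstep : ∀ σ, Inv σ → b.ev σ → Spec c σ B (fun σ' => Frame c σ σ' → Inv σ' ∧ μ σ' < μ σ))
    {σ : St R A} (h0 : Inv σ) :
    Spec (.whl b c) σ ((B + 1) * μ σ + 1) (fun σ' => Inv σ' ∧ ¬ b.ev σ') := by
  have key : ∀ N, ∀ σ, Inv σ → μ σ ≤ N →
      Spec (.whl b c) σ ((B + 1) * N + 1) (fun σ' => Inv σ' ∧ ¬ b.ev σ') := by
    intro N
    induction N with
    | zero =>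
      intro σ hI hN
      by_cases hb : b.ev σ
      · obtain ⟨σ', t, e1, e2, e3⟩ := hstep σ hI hb
        have := (e3 e1.frame).2
        omega
      · exact ⟨σ, 1, .whlF hb, by omega, hI, hb⟩
    | succ N ih =>
      intro σ hI hN
      by_cases hb : b.ev σ
      · obtain ⟨σ', t, e1, e2, e3⟩ := hstep σ hI hb
        obtain ⟨e4, e5⟩ := e3 e1.frame
        obtain ⟨σ'', t', f1, f2, f3⟩ := ih σ' e4 (by omega)
        refine ⟨σ'', t + t' + 1, .whlT hb e1 f1, ?_, f3⟩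
        have : (B + 1) * (N + 1) = (B + 1) * N + (B + 1) := by ring
        omega
      · exact ⟨σ, 1, .whlF hb, by nlinarith [Nat.zero_le ((B + 1) * (N + 1))], hI, hb⟩
  exact key _ σ h0 le_rfl

/-- Specification with access to the exact cost. -/
def SpecT (c : Cmd R A) (σ : St R A) (P : St R A → ℕ → Prop) : Prop :=
  ∃ σ' t, Exec c σ t σ' ∧ P σ' t

theorem SpecT.mono {c : Cmd R A} {σ : St R A} {P P' : St R A → ℕ → Prop}
    (h : SpecT c σ P) (hP : ∀ σ' t, P σ' t → P' σ' t) : SpecT c σ P' := by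
  obtain ⟨σ', t, h1, h2⟩ := h
  exact ⟨σ', t, h1, hP _ _ h2⟩

theorem SpecT.frame {c : Cmd R A} {σ : St R A} {P : St R A → ℕ → Prop}
    (h : SpecT c σ P) : SpecT c σ (fun σ' t => P σ' t ∧ Frame c σ σ') := by
  obtain ⟨σ', t, h1, h2⟩ := h
  exact ⟨σ', t, h1, h2, h1.frame⟩

theorem SpecT.toSpec {c : Cmd R A} {σ : St R A} {P : St R A → ℕ → Prop} {B : ℕ}
    {P' : St R A → Prop} (h : SpecT c σ P) (hP : ∀ σ' t, P σ' t → t ≤ B ∧ P' σ') :
    Spec c σ B P' := by
  obtain ⟨σ', t, h1, h2⟩ := h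
  exact ⟨σ', t, h1, hP _ _ h2⟩

theorem Spec.toSpecT {c : Cmd R A} {σ : St R A} {B : ℕ} {P : St R A → Prop}
    (h : Spec c σ B P) : SpecT c σ (fun σ' t => t ≤ B ∧ P σ') := h

/-- From credits to exact cost. -/
theorem SpecT.of_runs {c : Cmd R A} {σ : St R A} {T : ℕ} {P : St R A → ℕ → Prop}
    (h : Runs c σ T (fun σ' T' => ∀ t, t + T' = T → P σ' t)) : SpecT c σ P := by
  obtain ⟨σ', t, h1, h2, h3⟩ := h
  exact ⟨σ', t, h1, h3 t (by omega)⟩

/-- Using an exact-cost specification inside a credit computation. -/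
theorem Runs.of_specT {c : Cmd R A} {σ : St R A} {T : ℕ} {P : St R A → ℕ → Prop}
    {Q : St R A → ℕ → Prop} (h : SpecT c σ P) (hQ : ∀ σ' t, P σ' t → t ≤ T ∧ Q σ' (T - t)) :
    Runs c σ T Q := by
  obtain ⟨σ', t, h1, h2⟩ := h
  exact ⟨σ', t, h1, hQ _ _ h2⟩

/-- Loop rule with a potential. -/
theorem SpecT.whl {b : Cnd R A} {c : Cmd R A} (Inv : St R A → Prop) (Φ : St R A → ℕ)
    (hstep : ∀ σ, Inv σ → b.ev σ →
      SpecT c σ (fun σ' t => Frame c σ σ' → Inv σ' ∧ t + 1 + Φ σ' ≤ Φ σ))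
    {σ : St R A} (h0 : Inv σ) :
    SpecT (.whl b c) σ (fun σ' t => Inv σ' ∧ ¬ b.ev σ' ∧ t + Φ σ' ≤ Φ σ + 1) := by
  have key : ∀ N, ∀ σ, Inv σ → Φ σ ≤ N →
      SpecT (.whl b c) σ (fun σ' t => Inv σ' ∧ ¬ b.ev σ' ∧ t + Φ σ' ≤ Φ σ + 1) := by
    intro N
    induction N with
    | zero =>
      intro σ hI hN
      by_cases hb : b.ev σ
      · obtain ⟨σ', t, e1, e2⟩ := hstep σ hI hb
        have := (e2 e1.frame).2
        omega
      · exact ⟨σ, 1, .whlF hb, hI, hb, by omega⟩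
    | succ N ih =>
      intro σ hI hN
      by_cases hb : b.ev σ
      · obtain ⟨σ', t, e1, e2⟩ := hstep σ hI hb
        obtain ⟨e3, e4⟩ := e2 e1.frame
        obtain ⟨σ'', t', f1, f2, f3, f4⟩ := ih σ' e3 (by omega)
        exact ⟨σ'', t + t' + 1, .whlT hb e1 f1, f2, f3, by omega⟩
      · exact ⟨σ, 1, .whlF hb, hI, hb, by omega⟩
  exact key _ σ h0 le_rfl

theorem Spec.seq {c d : Cmd R A} {σ : St R A} {B B' : ℕ} {P P' : St R A → Prop}
    (h : Spec c σ B P) (h' : ∀ σ', P σ' → Frame c σ σ' → Spec d σ' B' P') :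
    Spec (.seq c d) σ (B + B') P' := by
  obtain ⟨σ', t, h1, h2, h3⟩ := h
  obtain ⟨σ'', t', h4, h5, h6⟩ := h' σ' h3 h1.frame
  exact ⟨σ'', t + t', .seq h1 h4, by omega, h6⟩

/-- Counting loop `for i = 0, ..., hi - 1`. -/
def forC (i : R) (hi : Exp R A) (body : Cmd R A) : Cmd R A :=
  .seq (.set i (.num 0)) (.whl (.lt (.reg i) hi) (.seq body (.set i (.inc (.reg i)))))

theorem forC_spec {i : R} {hi : Exp R A} {body : Cmd R A} (N B : ℕ) (Inv : ℕ → St R A → Prop)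
    (hN : ∀ j σ, Inv j σ → hi.ev σ = N)
    (hbody : ∀ j σ, j < N → Inv j σ → σ.r i = j →
      Spec body σ B (fun σ' => Frame body σ σ' → σ'.r i = j ∧ Inv (j + 1) (σ'.setR i (j + 1))))
    {σ : St R A} (h0 : Inv 0 (σ.setR i 0)) :
    Spec (forC i hi body) σ ((B + 2) * N + 2) (fun σ' => Inv N σ' ∧ σ'.r i = N) := by
  have key : ∀ d j σ, j + d = N → Inv j σ → σ.r i = j →
      Spec (.whl (.lt (.reg i) hi) (.seq body (.set i (.inc (.reg i))))) σ ((B + 2) * d + 1)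
        (fun σ' => Inv N σ' ∧ σ'.r i = N) := by
    intro d
    induction d with
    | zero =>
      intro j σ hj hI hi'
      refine ⟨σ, 1, .whlF ?_, by omega, ?_, ?_⟩
      · simp only [Cnd.ev_lt, Exp.ev_reg, hN j σ hI, hi']; omega
      · have : j = N := by omega
        rw [← this]; exact hI
      · omega
    | succ d ih =>
      intro j σ hj hI hi'
      obtain ⟨σ', t, e1, e2, e3⟩ := hbody j σ (by omega) hI hi'
      obtain ⟨e4, e5⟩ := e3 e1.frame
      obtain ⟨σ'', t', f1, f2, f3⟩ := ih (j + 1) (σ'.setR i (j + 1)) (by omega) e5 (by simp)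
      have hset : Exec (.set i (.inc (.reg i))) σ' 1 (σ'.setR i (j + 1)) := by
        have := Exec.set σ' i (.inc (.reg i) : Exp R A)
        simpa [e4] using this
      refine ⟨σ'', (t + 1) + t' + 1, .whlT ?_ (.seq e1 hset) f1, ?_, f3⟩
      · simp only [Cnd.ev_lt, Exp.ev_reg, hN j σ hI, hi']; omega
      · have : (B + 2) * (d + 1) = (B + 2) * d + (B + 2) := by ring
        omega
  obtain ⟨σ', t, h1, h2, h3⟩ := key N 0 (σ.setR i 0) (by omega) h0 (by simp)
  refine ⟨σ', 1 + t, .seq (.set σ i (.num 0)) h1, by omega, h3⟩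

end

end Pool.Agent.H.MP_d01483_lc
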