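import Pool.Agent.H.MP_d01483_lc.Check

set_option linter.unusedSectionVars false
set_option linter.unusedVariables false
set_option linter.unusedSimpArgs false
set_option linter.constructorNameAsVariable false

namespace Pool.Agent.H.MP_d01483_lc

open Finset

/-- The exit slots of `Z`. -/
def Ex (n : ℕ) (S : ℕ → ℕ) (Z : Finset ℕ) : Finset ℕ :=
  (range (2 * n)).filter (fun k => own n k ∈ Z ∧ S k ≠ 0 ∧ S k - 1 ∉ Z)

/-- The free slots of `Z`. -/
def Fre (n : ℕ) (S : ℕ → ℕ) (Z : Finset ℕ) : Finset ℕ :=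
  (range (2 * n)).filter (fun k => own n k ∈ Z ∧ S k = 0)

theorem fx_eq (n : ℕ) (S : ℕ → ℕ) (Z : Finset ℕ) : fx n S Z = (Ex n S Z).card + (Fre n S Z).card := by
  unfold fx Ex Fre
  rw [← card_union_of_disjoint]
  · congr 1
    ext k
    simp only [mem_filter, mem_range, mem_union]
    tauto
  · rw [disjoint_left]
    intro k h1 h2
    exact (mem_filter.1 h1).2.2.1 (mem_filter.1 h2).2.2

/-- `Z` is a small set containing `a` and `b` with `fx ≤ 3`. -/
def IsWit (n s : ℕ) (S : ℕ → ℕ) (a b : ℕ) (Z : Finset ℕ) : Prop :=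
  Z ⊆ range n ∧ a ∈ Z ∧ b ∈ Z ∧ Z.card ≤ s ∧ fx n S Z ≤ 3

/-- The forbidden slots. -/
def Fb (n : ℕ) (x y z : ℕ) : Finset ℕ :=
  (range (2 * n)).filter (fun k => k + 1 = x ∨ k + 1 = y ∨ k + 1 = z)

/-- Key fact on explorations: either the explored set is itself a witness, or some slot of the
list is an exit slot of `Z` that is not forbidden. -/
theorem ExpI.key {n s : ℕ} {cl : Arr} {l : Reg} {R : Finset ℕ} {σ : MSt}
    (h : ExpI n s cl l R σ) (hfin : σ.r .p = 2 * R.card ∨ s < R.card)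
    (hw : ∀ k < 2 * n, σ.m .S k ≤ n)
    {Z : Finset ℕ} (hZ : IsWit n s (σ.m .S) (σ.r .u) (σ.r .v) Z)
    (hF : Fb n (σ.r .fa) (σ.r .fb) (σ.r .fc) ⊆ Ex n (σ.m .S) Z) :
    (R.card ≤ s ∧ fx n (σ.m .S) R ≤ 3) ∨ ∃ i < 2 * R.card, σ.m cl i ∈ Ex n (σ.m .S) Z ∧
      σ.m cl i ∉ Fb n (σ.r .fa) (σ.r .fb) (σ.r .fc) := by
  obtain ⟨hZn, hZu, hZv, hZs, hZf⟩ := hZ
  rcases h.reach Z hZu hZv with hR | ⟨i, hi, a1, a2, a3, a4, a5, a6⟩
  · left
    have hRs : R.card ≤ s := (card_le_card hR).trans hZs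
    refine ⟨hRs, le_trans ?_ hZf⟩
    have hp : σ.r .p = 2 * R.card := by
      rcases hfin with h1 | h1
      · exact h1
      · omega
    rw [fx_eq, fx_eq]
    apply Nat.add_le_add
    · apply card_le_card
      refine Subset.trans ?_ hF
      intro k hk
      obtain ⟨hk1, hk2, hk3, hk4⟩ := mem_filter.1 hk
      -- `k` is in the list
      have himg : (range (2 * R.card)).image (σ.m cl) =
          (range (2 * n)).filter (fun k => own n k ∈ R) := by
        apply eq_of_subset_of_card_le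
        · intro k hk
          obtain ⟨i, hi, rfl⟩ := mem_image.1 hk
          have := h.rng i (mem_range.1 hi)
          exact mem_filter.2 ⟨mem_range.2 this.1, this.2⟩
        · rw [slots_card h.sub, card_image_of_injOn, card_range]
          intro i hi j hj h'
          exact h.inj i (by simpa using hi) j (by simpa using hj) h'
      have hk5 : k ∈ (range (2 * n)).filter (fun k => own n k ∈ R) := mem_filter.2 ⟨hk1, hk2⟩
      rw [← himg] at hk5
      obtain ⟨i, hi, rfl⟩ := mem_image.1 hk5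
      rcases h.proc i (by rw [hp]; exact mem_range.1 hi) with b | b | b | b | b
      · exact absurd b hk3
      · exact mem_filter.2 ⟨hk1, Or.inl b⟩
      · exact mem_filter.2 ⟨hk1, Or.inr (Or.inl b)⟩
      · exact mem_filter.2 ⟨hk1, Or.inr (Or.inr b)⟩
      · exact absurd b hk4
    · apply card_le_card
      intro k hk
      obtain ⟨hk1, hk2, hk3⟩ := mem_filter.1 hk
      exact mem_filter.2 ⟨hk1, hR hk2, hk3⟩
  · right
    refine ⟨i, hi, mem_filter.2 ⟨mem_range.2 (h.rng i hi).1, a1, a2, a3⟩, ?_⟩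
    intro hcon
    rcases (mem_filter.1 hcon).2 with b | b | b
    · exact a4 b
    · exact a5 b
    · exact a6 b

/-- Explored sets passing the check are witnesses. -/
theorem ExpI.wit {n s : ℕ} {cl : Arr} {l : Reg} {R : Finset ℕ} {σ : MSt}
    (h : ExpI n s cl l R σ) (h1 : R.card ≤ s) (h2 : fx n (σ.m .S) R ≤ 3) :
    IsWit n s (σ.m .S) (σ.r .u) (σ.r .v) R :=
  ⟨h.sub, h.hu, h.hv, h1, h2⟩

/-- Preconditions of the local check. -/
structure LPre (n s : ℕ) (σ : MSt) : Prop where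
  cst : Cst n s σ
  hw : ∀ k < 2 * n, σ.m .S k ≤ n
  hu : σ.r .u < n
  hv : σ.r .v < n
  huv : σ.r .u ≠ σ.r .v
  mk0 : ∀ x < n, σ.m .MK x = 0
  fnd : σ.r .found ≤ 1

/-- A command leaves the data read by the local check alone. -/
def KeepsL (c : MCmd) : Bool :=
  Keeps c && decide (Arr.S ∉ c.wa) && decide (Reg.u ∉ c.wr) && decide (Reg.v ∉ c.wr)

/-- Specification of a level of the local check with `j` further picks. -/
def LevS (n s : ℕ) (c : MCmd) (j B : ℕ) (σ : MSt) : Prop :=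
  Spec c σ B (fun σ' => LPre n s σ' ∧
    (σ'.r .fa = σ.r .fa ∧ σ'.r .fb = σ.r .fb ∧ σ'.r .fc = σ.r .fc) ∧
    (σ'.r .found = 1 → σ.r .found = 1 ∨ ∃ Z, IsWit n s (σ.m .S) (σ.r .u) (σ.r .v) Z) ∧
    (σ.r .found = 1 → σ'.r .found = 1) ∧
    (∀ Z, IsWit n s (σ.m .S) (σ.r .u) (σ.r .v) Z →
      Fb n (σ.r .fa) (σ.r .fb) (σ.r .fc) ⊆ Ex n (σ.m .S) Z →
      (Ex n (σ.m .S) Z).card ≤ (Fb n (σ.r .fa) (σ.r .fb) (σ.r .fc)).card + j →
      σ'.r .found = 1))

/-- Explore and check. -/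
def expChk (cl : Arr) (l : Reg) : MCmd := .seq (explore cl l) (chk cl l)

theorem expChk_spec {n s : ℕ} {cl : Arr} {l : Reg} (N : ExpN cl l) {σ : MSt}
    (h : LPre n s σ) :
    Spec (expChk cl l) σ (38 * s + 102) (fun σ' => LPre n s σ' ∧
      (σ'.r .found = 1 → σ.r .found = 1 ∨ ∃ Z, IsWit n s (σ.m .S) (σ.r .u) (σ.r .v) Z) ∧
      (σ.r .found = 1 → σ'.r .found = 1) ∧
      σ'.r l ≤ 2 * (s + 2) ∧ (∀ i < σ'.r l, σ'.m cl i < 2 * n) ∧
      (∀ Z, IsWit n s (σ.m .S) (σ.r .u) (σ.r .v) Z →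
        Fb n (σ.r .fa) (σ.r .fb) (σ.r .fc) ⊆ Ex n (σ.m .S) Z →
        σ'.r .found = 1 ∨ ∃ i < σ'.r l, σ'.m cl i ∈ Ex n (σ.m .S) Z ∧
          σ'.m cl i ∉ Fb n (σ.r .fa) (σ.r .fb) (σ.r .fc))) := by
  unfold expChk
  refine Spec.mono (Spec.seq (explore_spec N h.cst h.hw h.hu h.hv h.huv h.mk0)
    (B' := 16 * (s + 2) + 10) ?_) (by omega) (fun _ h => h)
  rintro σ1 ⟨R, hI, hfin⟩ hf1
  have hc1 : Cst n s σ1 := h.cst.of_frame hf1 (explore_keeps N)
  have eS : σ1.m .S = σ.m .S := hf1.m _ (by cases N <;> decide)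
  have eu : σ1.r .u = σ.r .u := hf1.r _ (by cases N <;> decide)
  have ev : σ1.r .v = σ.r .v := hf1.r _ (by cases N <;> decide)
  have ea : σ1.r .fa = σ.r .fa := hf1.r _ (by cases N <;> decide)
  have eb : σ1.r .fb = σ.r .fb := hf1.r _ (by cases N <;> decide)
  have ec : σ1.r .fc = σ.r .fc := hf1.r _ (by cases N <;> decide)
  have ef : σ1.r .found = σ.r .found := hf1.r _ (by cases N <;> decide)
  have hw1 : ∀ k < 2 * n, σ1.m .S k ≤ n := by rw [eS]; exact h.hw
  refine (chk_spec N hc1 hw1 hI).frame.mono le_rfl ?_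
  rintro σ2 ⟨⟨hmk, hfd⟩, hf2⟩
  have gS : σ2.m .S = σ.m .S := by rw [← eS]; exact hf2.m _ (by cases N <;> decide)
  have gu : σ2.r .u = σ.r .u := by rw [← eu]; exact hf2.r _ (by cases N <;> decide)
  have gv : σ2.r .v = σ.r .v := by rw [← ev]; exact hf2.r _ (by cases N <;> decide)
  have gl : σ2.r l = σ1.r l := hf2.r _ (by cases N <;> decide)
  have gc : σ2.m cl = σ1.m cl := hf2.m _ (by cases N <;> decide)
  have hle := hI.le
  rw [ef] at hfd
  refine ⟨⟨hc1.of_frame hf2 (by cases N <;> rfl), by rw [gS]; exact h.hw, by rw [gu]; exact h.hu,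
    by rw [gv]; exact h.hv, by rw [gu, gv]; exact h.huv, hmk, ?_⟩, ?_, ?_, ?_, ?_, ?_⟩
  · rw [hfd]
    split_ifs
    · exact le_rfl
    · exact h.fnd
  · intro h1
    rw [hfd] at h1
    split_ifs at h1 with h2
    · right
      have := hI.wit h2.1 h2.2
      rw [eS, eu, ev] at this
      exact ⟨R, this⟩
    · exact Or.inl h1
  · intro h1
    rw [hfd]
    split_ifs
    · rfl
    · exact h1
  · rw [gl, hI.len]; omega
  · intro i hi
    rw [gl, hI.len] at hi
    rw [gc]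
    exact (hI.rng i hi).1
  · intro Z hZ hF
    rw [← eS, ← eu, ← ev] at hZ
    rw [← eS, ← ea, ← eb, ← ec] at hF
    rcases hI.key hfin hw1 hZ hF with h1 | ⟨i, hi, h2, h3⟩
    · left
      rw [hfd, if_pos h1]
    · right
      rw [← eS, ← ea, ← eb, ← ec]
      refine ⟨i, by rw [gl, hI.len]; exact hi, by rw [gc]; exact h2, by rw [gc]; exact h3⟩

/-- Names used at the upper three levels. -/
inductive LevN : Arr → Reg → Reg → Reg → Prop
  | a0 : LevN .C0 .l0 .i0 .fa
  | a1 : LevN .C1 .l1 .i1 .fb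
  | a2 : LevN .C2 .l2 .i2 .fc

theorem LevN.exp {cl : Arr} {l ir fr : Reg} (N : LevN cl l ir fr) : ExpN cl l := by
  cases N
  · exact .a0
  · exact .a1
  · exact .a2

/-- The deeper picks are not set. -/
def ZZ (fr : Reg) (σ : MSt) : Prop :=
  (fr = .fa → σ.r .fb = 0 ∧ σ.r .fc = 0) ∧ (fr = .fb → σ.r .fc = 0)

/-- One level: explore, check, and recurse with every listed slot forbidden. -/
def lev (cl : Arr) (l ir fr : Reg) (inner : MCmd) : MCmd :=
  .seq (expChk cl l) <|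
  .seq (forC ir (.reg l) (.seq (.set fr (.inc (.get cl (.reg ir)))) inner)) <|
  .set fr (.num 0)

theorem Fb_insert_a {n a y z : ℕ} (ha : a < 2 * n) : Fb n (a + 1) y z = insert a (Fb n 0 y z) := by
  ext k
  simp only [Fb, mem_filter, mem_range, mem_insert]
  constructor
  · rintro ⟨h1, h2 | h2 | h2⟩
    · left; omega
    · right; exact ⟨h1, Or.inr (Or.inl h2)⟩
    · right; exact ⟨h1, Or.inr (Or.inr h2)⟩
  · rintro (rfl | ⟨h1, h2⟩)
    · exact ⟨ha, Or.inl rfl⟩
    · refine ⟨h1, ?_⟩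
      rcases h2 with h2 | h2 | h2
      · omega
      · exact Or.inr (Or.inl h2)
      · exact Or.inr (Or.inr h2)

theorem Fb_insert_b {n a x z : ℕ} (ha : a < 2 * n) : Fb n x (a + 1) z = insert a (Fb n x 0 z) := by
  ext k
  simp only [Fb, mem_filter, mem_range, mem_insert]
  constructor
  · rintro ⟨h1, h2 | h2 | h2⟩
    · right; exact ⟨h1, Or.inl h2⟩
    · left; omega
    · right; exact ⟨h1, Or.inr (Or.inr h2)⟩
  · rintro (rfl | ⟨h1, h2⟩)
    · exact ⟨ha, Or.inr (Or.inl rfl)⟩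
    · refine ⟨h1, ?_⟩
      rcases h2 with h2 | h2 | h2
      · exact Or.inl h2
      · omega
      · exact Or.inr (Or.inr h2)

theorem Fb_insert_c {n a x y : ℕ} (ha : a < 2 * n) : Fb n x y (a + 1) = insert a (Fb n x y 0) := by
  ext k
  simp only [Fb, mem_filter, mem_range, mem_insert]
  constructor
  · rintro ⟨h1, h2 | h2 | h2⟩
    · right; exact ⟨h1, Or.inl h2⟩
    · right; exact ⟨h1, Or.inr (Or.inl h2)⟩
    · left; omega
  · rintro (rfl | ⟨h1, h2⟩)
    · exact ⟨ha, Or.inr (Or.inr rfl)⟩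
    · refine ⟨h1, ?_⟩
      rcases h2 with h2 | h2 | h2
      · exact Or.inl h2
      · exact Or.inr (Or.inl h2)
      · omega

theorem LPre.setR {n s : ℕ} {σ : MSt} (h : LPre n s σ) {x : Reg} {c : ℕ}
    (h1 : x ≠ .n) (h2 : x ≠ .nn) (h3 : x ≠ .s) (h4 : x ≠ .u) (h5 : x ≠ .v) (h6 : x ≠ .found) :
    LPre n s (σ.setR x c) :=
  ⟨⟨by simpa [h1.symm] using h.cst.hn, by simpa [h2.symm] using h.cst.hnn,
    by simpa [h3.symm] using h.cst.hs, h.cst.tw, h.cst.ow⟩, h.hw, by simpa [h4.symm] using h.hu,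
    by simpa [h5.symm] using h.hv, by simpa [h4.symm, h5.symm] using h.huv, h.mk0,
    by simpa [h6.symm] using h.fnd⟩

theorem lev_spec {n s : ℕ} {cl : Arr} {l ir fr : Reg} (N : LevN cl l ir fr) {inner : MCmd}
    {j B : ℕ} (hin : ∀ σ, LPre n s σ → ZZ fr σ → LevS n s inner j B σ)
    (k1 : Arr.S ∉ inner.wa) (k2 : Reg.u ∉ inner.wr) (k3 : Reg.v ∉ inner.wr)
    (k4 : l ∉ inner.wr) (k5 : ir ∉ inner.wr) (k6 : cl ∉ inner.wa)
    {σ : MSt} (h : LPre n s σ) (hz : σ.r fr = 0) (hzz : ZZ fr σ) :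
    LevS n s (lev cl l ir fr inner) (j + 1) (38 * s + 102 + ((B + 3) * (2 * (s + 2)) + 3)) σ := by
  unfold LevS lev
  refine Spec.mono (Spec.seq (expChk_spec N.exp h) (B' := (B + 3) * (2 * (s + 2)) + 3) ?_) (by omega)
    (fun _ h => h)
  rintro σ1 ⟨p1, p2, p3, p4, p5, p6⟩ hf1
  have eS : σ1.m .S = σ.m .S := hf1.m _ (by cases N <;> decide)
  have eu : σ1.r .u = σ.r .u := hf1.r _ (by cases N <;> decide)
  have ev : σ1.r .v = σ.r .v := hf1.r _ (by cases N <;> decide)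
  have ea : σ1.r .fa = σ.r .fa := hf1.r _ (by cases N <;> decide)
  have eb : σ1.r .fb = σ.r .fb := hf1.r _ (by cases N <;> decide)
  have ec : σ1.r .fc = σ.r .fc := hf1.r _ (by cases N <;> decide)
  have hfor := fun σ0 => forC_spec (σ := σ0) (i := ir) (hi := .reg l)
    (body := .seq (.set fr (.inc (.get cl (.reg ir)))) inner) (σ1.r l) (B + 1)
    (fun i σ2 => LPre n s σ2 ∧ ZZ fr σ2 ∧ σ2.m .S = σ.m .S ∧ σ2.r .u = σ.r .u ∧
      σ2.r .v = σ.r .v ∧ σ2.m cl = σ1.m cl ∧ σ2.r l = σ1.r l ∧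
      ((fr ≠ .fa → σ2.r .fa = σ.r .fa) ∧ (fr ≠ .fb → σ2.r .fb = σ.r .fb) ∧
        (fr ≠ .fc → σ2.r .fc = σ.r .fc)) ∧
      (σ2.r .found = 1 → σ.r .found = 1 ∨ ∃ Z, IsWit n s (σ.m .S) (σ.r .u) (σ.r .v) Z) ∧
      (σ1.r .found = 1 → σ2.r .found = 1) ∧
      (∀ Z, IsWit n s (σ.m .S) (σ.r .u) (σ.r .v) Z →
        Fb n (σ.r .fa) (σ.r .fb) (σ.r .fc) ⊆ Ex n (σ.m .S) Z →
        (Ex n (σ.m .S) Z).card ≤ (Fb n (σ.r .fa) (σ.r .fb) (σ.r .fc)).card + (j + 1) →
        (∃ i' < i, σ1.m cl i' ∈ Ex n (σ.m .S) Z ∧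
          σ1.m cl i' ∉ Fb n (σ.r .fa) (σ.r .fb) (σ.r .fc)) → σ2.r .found = 1))
    (by
      rintro i σ2 ⟨-, -, -, -, -, -, q, -⟩
      simpa using q)
    (by
      rintro i σ2 hi ⟨q1, q2, q3, q4, q5, q6, q7, q8, q9, q10, q11⟩ q12
      have hcl := p5 i hi
      apply Spec.of_runs
      simp only [runs_seq, runs_set, Exp.ev_inc, Exp.ev_get, Exp.ev_reg, q6, q12]
      refine ⟨by omega, ?_⟩
      have hpre3 : LPre n s (σ2.setR fr (σ1.m cl i + 1)) := by
        apply q1.setR <;> cases N <;> decide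
      have hzz3 : ZZ fr (σ2.setR fr (σ1.m cl i + 1)) := by
        cases N <;> simp [ZZ] at q2 ⊢ <;> exact q2
      refine Runs.of_spec (hin _ hpre3 hzz3).frame (by omega) ?_
      rintro σ4 T4 ⟨⟨r1, r2, r3, r4, r5⟩, hf4⟩ hT4 -
      have gS : σ4.m .S = σ.m .S := by rw [hf4.m _ k1]; exact q3
      have gu : σ4.r .u = σ.r .u := by rw [hf4.r _ k2]; cases N <;> simpa using q4
      have gv : σ4.r .v = σ.r .v := by rw [hf4.r _ k3]; cases N <;> simpa using q5
      have gl : σ4.r l = σ1.r l := by rw [hf4.r _ k4]; cases N <;> simpa using q7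
      have gi : σ4.r ir = i := by rw [hf4.r _ k5]; cases N <;> simpa using q12
      have gc : σ4.m cl = σ1.m cl := by rw [hf4.m _ k6]; exact q6
      simp only [St.setR_m, q3] at r3 r5
      have hFb : Fb n ((σ2.setR fr (σ1.m cl i + 1)).r .fa) ((σ2.setR fr (σ1.m cl i + 1)).r .fb)
          ((σ2.setR fr (σ1.m cl i + 1)).r .fc) =
          insert (σ1.m cl i) (Fb n (σ.r .fa) (σ.r .fb) (σ.r .fc)) := by
        cases N
        · simp only [St.setR_r, if_true, reduceCtorEq, if_false]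
          rw [Fb_insert_a hcl, hz, q8.2.1 (by decide), q8.2.2 (by decide)]
        · simp only [St.setR_r, if_true, reduceCtorEq, if_false]
          rw [Fb_insert_b hcl, hz, q8.1 (by decide), q8.2.2 (by decide)]
        · simp only [St.setR_r, if_true, reduceCtorEq, if_false]
          rw [Fb_insert_c hcl, hz, q8.1 (by decide), q8.2.1 (by decide)]
      rw [hFb] at r5
      have hu3 : (σ2.setR fr (σ1.m cl i + 1)).r .u = σ.r .u := by cases N <;> simpa using q4
      have hv3 : (σ2.setR fr (σ1.m cl i + 1)).r .v = σ.r .v := by cases N <;> simpa using q5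
      have hfd3 : (σ2.setR fr (σ1.m cl i + 1)).r .found = σ2.r .found := by cases N <;> simp
      rw [hu3, hv3] at r3 r5
      rw [hfd3] at r3 r4
      refine ⟨gi, ?_, ?_, ?_, ?_, ?_, ?_, ?_, ?_, ?_, ?_, ?_⟩
      · apply r1.setR <;> cases N <;> decide
      · obtain ⟨s1, s2, s3⟩ := r2
        cases N <;> simp [ZZ] at q2 ⊢ <;> simp at s1 s2 s3 <;> simp [s1, s2, s3, q2]
      · exact gS
      · rw [← gu]; cases N <;> simp
      · rw [← gv]; cases N <;> simp
      · exact gc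
      · rw [← gl]; cases N <;> simp
      · obtain ⟨s1, s2, s3⟩ := r2
        cases N <;> simp at q8 s1 s2 s3 ⊢ <;> simp [s1, s2, s3, q8]
      · intro hfd
        have : σ4.r .found = 1 := by cases N <;> simpa using hfd
        rcases r3 this with h1 | h1
        · exact q9 h1
        · exact Or.inr h1
      · intro hfd
        have := r4 (q10 hfd)
        cases N <;> simpa using this
      · rintro Z hZ hF hcard ⟨i', hi', hx1, hx2⟩
        have key : σ4.r .found = 1 := by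
          rcases Nat.lt_succ_iff_lt_or_eq.1 hi' with hlt | rfl
          · exact r4 (q11 Z hZ hF hcard ⟨i', hlt, hx1, hx2⟩)
          · apply r5 Z hZ
            · intro k hk
              rcases mem_insert.1 hk with rfl | hk
              · exact hx1
              · exact hF hk
            · rw [card_insert_of_notMem hx2]
              omega
        cases N <;> simpa using key)
  have hle := p4
  apply Spec.of_runs
  rw [runs_seq]
  refine Runs.of_spec (hfor σ1 ?_) ?_ ?_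
  · refine ⟨?_, ?_, eS, ?_, ?_, rfl, ?_, ?_, ?_, ?_, ?_⟩
    · apply p1.setR <;> cases N <;> decide
    · cases N <;> simp [ZZ] at hzz ⊢ <;> simp [eb, ec, hzz]
    · rw [← eu]; cases N <;> simp
    · rw [← ev]; cases N <;> simp
    · cases N <;> simp
    · cases N <;> simp [ea, eb, ec]
    · intro hfd
      exact p2 (by cases N <;> simpa using hfd)
    · intro hfd
      cases N <;> simpa using hfd
    · rintro Z hZ hF hcard ⟨i', hi', -⟩
      omega
  · have : (B + 1 + 2) * σ1.r l ≤ (B + 3) * (2 * (s + 2)) := Nat.mul_le_mul (by omega) hle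
    omega
  · rintro σ5 T5 ⟨⟨q1, q2, q3, q4, q5, q6, q7, q8, q9, q10, q11⟩, q12⟩ hT5
    have : (B + 1 + 2) * σ1.r l ≤ (B + 3) * (2 * (s + 2)) := Nat.mul_le_mul (by omega) hle
    simp only [runs_set, Exp.ev_num]
    refine ⟨by omega, ?_, ?_, ?_, ?_, ?_⟩
    · apply q1.setR <;> cases N <;> decide
    · cases N <;> simp at q8 hz ⊢ <;> simp [q8, hz]
    · intro hfd
      exact q9 (by cases N <;> simpa using hfd)
    · intro hfd
      have h9 := q10 (p3 hfd)
      clear this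
      cases N <;> simpa using h9
    · intro Z hZ hF hcard
      have key : σ5.r .found = 1 := by
        rcases p6 Z hZ hF with h1 | ⟨i, hi, h2, h3⟩
        · exact q10 h1
        · exact q11 Z hZ hF hcard ⟨i, hi, h2, h3⟩
      cases N <;> simpa using key

/-- The innermost level. -/
def lev3 : MCmd := expChk .C3 .l3

theorem lev3_spec {n s : ℕ} {σ : MSt} (h : LPre n s σ) : LevS n s lev3 0 (38 * s + 102) σ := by
  unfold LevS lev3
  refine (expChk_spec .a3 h).frame.mono le_rfl ?_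
  rintro σ' ⟨⟨p1, p2, p3, p4, p5, p6⟩, hf⟩
  refine ⟨p1, ⟨hf.r _ (by decide), hf.r _ (by decide), hf.r _ (by decide)⟩, p2, p3, ?_⟩
  intro Z hZ hF hcard
  rcases p6 Z hZ hF with h1 | ⟨i, hi, h2, h3⟩
  · exact h1
  · exfalso
    have := card_le_card (insert_subset h2 hF)
    rw [card_insert_of_notMem h3] at this
    omega

def lev2 : MCmd := lev .C2 .l2 .i2 .fc lev3
def lev1 : MCmd := lev .C1 .l1 .i1 .fb lev2
def lev0 : MCmd := lev .C0 .l0 .i0 .fa lev1

/-- The local check: sets `found` to `1` if and only if there is a witness. -/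
def localCheck : MCmd :=
  .seq (.set .found (.num 0)) <|
  .seq (.set .fa (.num 0)) <|
  .seq (.set .fb (.num 0)) <|
  .seq (.set .fc (.num 0)) lev0

/-- Cost bounds of the levels. -/
def LB : ℕ → ℕ → ℕ
  | s, 0 => 38 * s + 102
  | s, j + 1 => 38 * s + 102 + ((LB s j + 3) * (2 * (s + 2)) + 3)

theorem lev2_spec {n s : ℕ} {σ : MSt} (h : LPre n s σ) (hc : σ.r .fc = 0) :
    LevS n s lev2 1 (LB s 1) σ :=
  lev_spec .a2 (inner := lev3) (j := 0) (B := LB s 0) (fun σ h _ => lev3_spec h)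
    (by decide) (by decide) (by decide) (by decide) (by decide) (by decide) h hc
    ⟨(fun e => by cases e), (fun e => by cases e)⟩

theorem lev1_spec {n s : ℕ} {σ : MSt} (h : LPre n s σ) (hb : σ.r .fb = 0) (hc : σ.r .fc = 0) :
    LevS n s lev1 2 (LB s 2) σ :=
  lev_spec .a1 (inner := lev2) (j := 1) (B := LB s 1)
    (fun σ h hz => lev2_spec h (hz.2 rfl))
    (by decide) (by decide) (by decide) (by decide) (by decide) (by decide) h hb
    ⟨(fun e => by cases e), fun _ => hc⟩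

theorem lev0_spec {n s : ℕ} {σ : MSt} (h : LPre n s σ) (ha : σ.r .fa = 0) (hb : σ.r .fb = 0)
    (hc : σ.r .fc = 0) : LevS n s lev0 3 (LB s 3) σ :=
  lev_spec .a0 (inner := lev1) (j := 2) (B := LB s 2)
    (fun σ h hz => lev1_spec h (hz.1 rfl).1 (hz.1 rfl).2)
    (by decide) (by decide) (by decide) (by decide) (by decide) (by decide) h ha
    ⟨fun _ => ⟨hb, hc⟩, (fun e => by cases e)⟩

theorem LB_le (s : ℕ) (hs : 1 ≤ s) : LB s 3 + 4 ≤ 60000 * s ^ 4 := by
  have e : LB s 3 = 38 * s + 102 + ((38 * s + 102 + ((38 * s + 102 + ((38 * s + 102 + 3) *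
    (2 * (s + 2)) + 3) + 3) * (2 * (s + 2)) + 3) + 3) * (2 * (s + 2)) + 3) := rfl
  rw [e]
  obtain ⟨t, rfl⟩ : ∃ t, s = t + 1 := ⟨s - 1, by omega⟩
  ring_nf
  nlinarith [Nat.zero_le (t ^ 4), Nat.zero_le (t ^ 3), Nat.zero_le (t ^ 2), Nat.zero_le t]

theorem localCheck_spec {n s : ℕ} {σ : MSt} (hs : 1 ≤ s) (hc : Cst n s σ)
    (hw : ∀ k < 2 * n, σ.m .S k ≤ n)
    (hu : σ.r .u < n) (hv : σ.r .v < n) (huv : σ.r .u ≠ σ.r .v) (hmk : ∀ x < n, σ.m .MK x = 0) :
    Spec localCheck σ (60000 * s ^ 4) (fun σ' => (∀ x < n, σ'.m .MK x = 0) ∧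
      (σ'.r .found = 1 ↔ ∃ Z, IsWit n s (σ.m .S) (σ.r .u) (σ.r .v) Z)) := by
  have hLB := LB_le s hs
  apply Spec.of_runs
  simp only [localCheck, runs_seq, runs_set, Exp.ev_num]
  refine ⟨by omega, by omega, by omega, by omega, ?_⟩
  have hpre : LPre n s ((((σ.setR .found 0).setR .fa 0).setR .fb 0).setR .fc 0) :=
    ⟨⟨by simpa using hc.hn, by simpa using hc.hnn, by simpa using hc.hs, hc.tw, hc.ow⟩, hw,
      by simpa using hu, by simpa using hv, by simpa using huv, hmk, by simp⟩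
  refine Runs.of_spec (lev0_spec hpre (by simp) (by simp) (by simp)) (by omega) ?_
  rintro σ' T' ⟨p1, p2, p3, p4, p5⟩ hT
  refine ⟨p1.mk0, ?_, ?_⟩
  · intro h1
    rcases p3 h1 with h2 | h2
    · simp at h2
    · simpa using h2
  · rintro ⟨Z, hZ⟩
    apply p5 Z (by simpa using hZ)
    · intro k hk
      simp [Fb] at hk
    · have := hZ.2.2.2.2
      rw [fx_eq] at this
      simp only [St.setR_m]
      omega

theorem localCheck_keeps : Keeps localCheck = true := by decide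

end Pool.Agent.H.MP_d01483_lc
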