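import Pool.Agent.H.MP_d01483_lc.Lang

/-! Counting loops with amortised cost. -/

set_option linter.unusedSectionVars false
set_option linter.unusedVariables false
set_option linter.unusedSimpArgs false

namespace Pool.Agent.H.MP_d01483_lc

section
variable {R A : Type} [DecidableEq R] [DecidableEq A]

/-- Counting loop from the current value of `i`, amortised against a growing potential `Psi`. -/
theorem whlC_specT {i : R} {hi : Exp R A} {body : Cmd R A} (N b : ℕ)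
    (Inv : ℕ → St R A → Prop) (Psi : St R A → ℕ)
    (hN : ∀ j σ, Inv j σ → hi.ev σ = N)
    (hbody : ∀ j σ, j < N → Inv j σ → σ.r i = j → SpecT body σ (fun σ' t => Frame body σ σ' →
      σ'.r i = j ∧ Inv (j + 1) (σ'.setR i (j + 1)) ∧
        t + Psi σ ≤ Psi (σ'.setR i (j + 1)) + b))
    {σ : St R A} {a : ℕ} (ha : a ≤ N) (h0 : Inv a σ) (hia : σ.r i = a) :
    SpecT (.whl (.lt (.reg i) hi) (.seq body (.set i (.inc (.reg i))))) σ
      (fun σ' t => Inv N σ' ∧ σ'.r i = N ∧ t + Psi σ ≤ Psi σ' + (b + 2) * (N - a) + 1) := by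
  have key : ∀ d j σ, j + d = N → Inv j σ → σ.r i = j →
      SpecT (.whl (.lt (.reg i) hi) (.seq body (.set i (.inc (.reg i))))) σ
        (fun σ' t => Inv N σ' ∧ σ'.r i = N ∧ t + Psi σ ≤ Psi σ' + (b + 2) * d + 1) := by
    intro d
    induction d with
    | zero =>
      intro j σ hj hI hi'
      refine ⟨σ, 1, .whlF ?_, ?_, ?_, ?_⟩
      · simp only [Cnd.ev_lt, Exp.ev_reg, hN j σ hI, hi']; omega
      · have : j = N := by omega
        rw [← this]; exact hI
      · omega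
      · omega
    | succ d ih =>
      intro j σ hj hI hi'
      obtain ⟨σ', t, e1, e2⟩ := hbody j σ (by omega) hI hi'
      obtain ⟨e4, e5, e6⟩ := e2 e1.frame
      obtain ⟨σ'', t', f1, f2, f3, f4⟩ := ih (j + 1) (σ'.setR i (j + 1)) (by omega) e5 (by simp)
      have hset : Exec (.set i (.inc (.reg i))) σ' 1 (σ'.setR i (j + 1)) := by
        have := Exec.set σ' i (.inc (.reg i) : Exp R A)
        simpa [e4] using this
      refine ⟨σ'', (t + 1) + t' + 1, .whlT ?_ (.seq e1 hset) f1, f2, f3, ?_⟩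
      · simp only [Cnd.ev_lt, Exp.ev_reg, hN j σ hI, hi']; omega
      · have : (b + 2) * (d + 1) = (b + 2) * d + (b + 2) := by ring
        omega
  exact key (N - a) a σ (by omega) h0 hia

/-- Counting loop from `0`, amortised against a growing potential `Psi`. -/
theorem forC_specT {i : R} {hi : Exp R A} {body : Cmd R A} (N b : ℕ)
    (Inv : ℕ → St R A → Prop) (Psi : St R A → ℕ)
    (hN : ∀ j σ, Inv j σ → hi.ev σ = N)
    (hbody : ∀ j σ, j < N → Inv j σ → σ.r i = j → SpecT body σ (fun σ' t => Frame body σ σ' →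
      σ'.r i = j ∧ Inv (j + 1) (σ'.setR i (j + 1)) ∧
        t + Psi σ ≤ Psi (σ'.setR i (j + 1)) + b))
    {σ : St R A} (h0 : Inv 0 (σ.setR i 0)) :
    SpecT (forC i hi body) σ
      (fun σ' t => Inv N σ' ∧ σ'.r i = N ∧
        t + Psi (σ.setR i 0) ≤ Psi σ' + (b + 2) * N + 2) := by
  obtain ⟨σ', t, h1, h2, h3, h4⟩ := whlC_specT N b Inv Psi hN hbody (Nat.zero_le N) h0 (by simp)
  refine ⟨σ', 1 + t, .seq (.set σ i (.num 0)) h1, h2, h3, ?_⟩
  rw [Nat.sub_zero] at h4
  omega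

theorem SpecT.seq {c d : Cmd R A} {σ : St R A} {P P' : St R A → ℕ → Prop}
    (h : SpecT c σ P) (h' : ∀ σ' t, P σ' t → Frame c σ σ' →
      SpecT d σ' (fun σ'' t' => P' σ'' (t + t'))) :
    SpecT (.seq c d) σ P' := by
  obtain ⟨σ', t, h1, h2⟩ := h
  obtain ⟨σ'', t', h4, h5⟩ := h' σ' t h2 h1.frame
  exact ⟨σ'', t + t', .seq h1 h4, h5⟩

theorem SpecT.set {x : R} {e : Exp R A} {σ : St R A} {P : St R A → ℕ → Prop}
    (h : P (σ.setR x (e.ev σ)) 1) : SpecT (.set x e) σ P := ⟨_, 1, .set σ x e, h⟩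

theorem SpecT.skip {σ : St R A} {P : St R A → ℕ → Prop}
    (h : P σ 0) : SpecT .skip σ P := ⟨_, 0, .skip σ, h⟩

theorem SpecT.ite {b : Cnd R A} {c d : Cmd R A} {σ : St R A} {P : St R A → ℕ → Prop}
    (h1 : b.ev σ → SpecT c σ (fun σ' t => P σ' (t + 1)))
    (h2 : ¬ b.ev σ → SpecT d σ (fun σ' t => P σ' (t + 1))) : SpecT (.ite b c d) σ P := by
  by_cases hb : b.ev σ
  · obtain ⟨σ', t, h3, h4⟩ := h1 hb
    exact ⟨σ', t + 1, .iteT hb h3, h4⟩
  · obtain ⟨σ', t, h3, h4⟩ := h2 hb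
    exact ⟨σ', t + 1, .iteF hb h3, h4⟩

end

end Pool.Agent.H.MP_d01483_lc
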