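import Pool.Agent.H.MP_d01483_lc.Lang
import Pool.Agent.H.MP_d01483_lc.Defs

/-! Names of the registers and arrays of the program, and the constants invariant. -/

set_option linter.unusedSectionVars false
set_option linter.unusedVariables false

namespace Pool.Agent.H.MP_d01483_lc

/-- Registers. -/
inductive Reg
  | n | nn | s | q | L | K
  | u | v | fa | fb | fc | l0 | l1 | l2 | l3 | nv | p | k | y | f | found | i0 | i1 | i2 | i
  | a | b | bs | bp | old | done | dl | ql
  | xu | xv | qh | qt | w | x | last | z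
  | cur | oth | ca | cb | cc | cd | fr | nc | c
  | vt | pt | pe | wt | t | e | g | out | same
  deriving DecidableEq

/-- Arrays. -/
inductive Arr
  | inp | TW | OWN | S | P | CI | EXC | MK | C0 | C1 | C2 | C3 | FI | NX | MB | PI | QU | W | HM
  | DG | DU | DV | QA | QB
  deriving DecidableEq

abbrev MSt := St Reg Arr
abbrev MExp := Exp Reg Arr
abbrev MCnd := Cnd Reg Arr
abbrev MCmd := Cmd Reg Arr

/-- The constants: number of vertices, of slots, the parameter `s`, and the index tables. -/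
structure Cst (n s : ℕ) (σ : MSt) : Prop where
  hn : σ.r .n = n
  hnn : σ.r .nn = 2 * n
  hs : σ.r .s = s
  tw : ∀ v < n, σ.m .TW v = v + n
  ow : ∀ k < 2 * n, σ.m .OWN k = own n k

/-- A command does not touch the constants. -/
def Keeps (c : MCmd) : Bool :=
  decide (Reg.n ∉ c.wr) && decide (Reg.nn ∉ c.wr) && decide (Reg.s ∉ c.wr) &&
    decide (Arr.TW ∉ c.wa) && decide (Arr.OWN ∉ c.wa)

theorem Cst.of_frame {n s : ℕ} {c : MCmd} {σ σ' : MSt} (h : Cst n s σ) (hf : Frame c σ σ')
    (hk : Keeps c = true) : Cst n s σ' := by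
  simp only [Keeps, Bool.and_eq_true, decide_eq_true_eq] at hk
  obtain ⟨⟨⟨⟨h1, h2⟩, h3⟩, h4⟩, h5⟩ := hk
  exact ⟨by rw [hf.r _ h1, h.hn], by rw [hf.r _ h2, h.hnn], by rw [hf.r _ h3, h.hs],
    fun v hv => by rw [hf.m _ h4, h.tw v hv], fun k hk => by rw [hf.m _ h5, h.ow k hk]⟩

end Pool.Agent.H.MP_d01483_lc
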