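import Pool.Agent.H.MP_d01483_lc.Phase3

set_option linter.unusedSectionVars false
set_option linter.unusedVariables false
set_option linter.unusedSimpArgs false
set_option linter.constructorNameAsVariable false

namespace Pool.Agent.H.MP_d01483_lc

open Finset

/-- Treat the edge `uv` in the first phase. -/
def edgeC : MCmd :=
  .ite (.or (.lt (.get .DG (.reg .u)) (.reg .K)) (.lt (.get .DG (.reg .v)) (.reg .K)))
    (.seq (.put .DG (.reg .u) (.inc (.get .DG (.reg .u)))) <|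
     .seq (.put .DG (.reg .v) (.inc (.get .DG (.reg .v)))) <|
     .seq localCheck <|
     .ite (.eq (.reg .found) (.num 1)) .skip auction)
    (.seq (.put .QA (.reg .ql) (.reg .u)) <|
     .seq (.put .QB (.reg .ql) (.reg .v)) <|
     .set .ql (.inc (.reg .ql)))

/-- Sum of truncated degrees. -/
def DS (n s : ℕ) (σ : MSt) : ℕ := ∑ v ∈ range n, min (σ.m .DG v) (s * s)

/-- Invariant of the first phase: `T` treated edges, `E1` checked edges, `Rj` rejected edges. -/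
structure P1I (n s L : ℕ) (T E1 Rj : Finset (Sym2 ℕ)) (σ : MSt) : Prop where
  cst : Cst n s σ
  hL : σ.r .L = L
  hK : σ.r .K = s * s
  p1 : P1 n L σ
  tT : T = E1 ∪ Ql σ
  e1 : E1 = edges n (σ.m .S) ∪ Dl σ ∪ Rj
  tn : T ⊆ (range n).sym2
  td : ∀ e ∈ T, ¬ e.IsDiag
  dg : ∀ v < n, σ.m .DG v = deg E1 v
  q : ∀ i < σ.r .ql, σ.m .QA i < n ∧ σ.m .QB i < n ∧ σ.m .QA i ≠ σ.m .QB i ∧
    s * s ≤ deg E1 (σ.m .QA i) ∧ s * s ≤ deg E1 (σ.m .QB i)
  small : ∀ Z ⊆ range n, 2 ≤ Z.card → Z.card ≤ s → 3 ≤ fx n (σ.m .S) Z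
  rj : ∀ e ∈ Rj, ∃ F ⊆ edges n (σ.m .S) ∪ Dl σ, Sparse F ∧ Spanned F e
  cnt : σ.r .dl + (edges n (σ.m .S)).card ≤ E1.card
  cntE : E1.card ≤ DS n s σ
  cntT : E1.card + σ.r .ql ≤ T.card
  mkz : ∀ x < n, σ.m .MK x = 0

theorem deg_insert {E : Finset (Sym2 ℕ)} {e : Sym2 ℕ} (he : e ∉ E) (v : ℕ) :
    deg (insert e E) v = deg E v + (if v ∈ e then 1 else 0) := by
  unfold deg
  rw [filter_insert]
  by_cases h : v ∈ e
  · rw [if_pos h, if_pos h, card_insert_of_notMem]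
    intro h1
    exact he (mem_filter.1 h1).1
  · rw [if_neg h, if_neg h, Nat.add_zero]

theorem deg_mono {E E' : Finset (Sym2 ℕ)} (h : E ⊆ E') (v : ℕ) : deg E v ≤ deg E' v :=
  card_le_card (filter_subset_filter _ h)

/-- Edges inside a small set form a sparse set. -/
theorem small_sparse {n s : ℕ} {S : ℕ → ℕ} (hwf : WF n S)
    (hsmall : ∀ Z ⊆ range n, 2 ≤ Z.card → Z.card ≤ s → 3 ≤ fx n S Z)
    {Z : Finset ℕ} (hZ : Z ⊆ range n) (hZs : Z.card ≤ s) :
    Sparse ((edges n S).filter (fun e => e ∈ Z.sym2)) := by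
  refine ⟨fun e he => edges_nondiag hwf e (mem_filter.1 he).1, fun Y hY => ?_⟩
  have h1 : ind ((edges n S).filter (fun e => e ∈ Z.sym2)) Y ≤ ind (edges n S) (Y ∩ Z) := by
    unfold ind
    apply card_le_card
    intro e he
    rw [mem_inter, mem_filter] at he
    rw [mem_inter]
    refine ⟨he.1.1, ?_⟩
    rw [Finset.mem_sym2_iff]
    intro a ha
    exact mem_inter.2 ⟨Finset.mem_sym2_iff.1 he.2 a ha, Finset.mem_sym2_iff.1 he.1.2 a ha⟩
  have hsub : Y ∩ Z ⊆ range n := inter_subset_right.trans hZ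
  have hcZ : (Y ∩ Z).card ≤ Z.card := card_le_card inter_subset_right
  have hcY : (Y ∩ Z).card ≤ Y.card := card_le_card inter_subset_left
  by_cases h2 : 2 ≤ (Y ∩ Z).card
  · have h3 := hsmall _ hsub h2 (by omega)
    have h4 := ind_add_fx hwf hsub
    omega
  · have h3 : ind (edges n S) (Y ∩ Z) = 0 :=
      ind_eq_zero (edges_nondiag hwf) (by omega)
    omega

theorem wit_small {n s : ℕ} {S : ℕ → ℕ} (hwf : WF n S)
    (hsmall : ∀ Z ⊆ range n, 2 ≤ Z.card → Z.card ≤ s → 3 ≤ fx n S Z) {a b : ℕ} (hab : a ≠ b)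
    (hw : ∃ Z, IsWit n s S a b Z) : ∃ F ⊆ edges n S, Sparse F ∧ Spanned F s(a, b) := by
  obtain ⟨Z, h1, h2, h3, h4, h5⟩ := hw
  have hc : 2 ≤ Z.card := by
    have : ({a, b} : Finset ℕ) ⊆ Z := by
      intro x hx
      rw [mem_insert, mem_singleton] at hx
      rcases hx with rfl | rfl <;> assumption
    have := card_le_card this
    rwa [card_pair hab] at this
  refine ⟨(edges n S).filter (fun e => e ∈ Z.sym2), filter_subset _ _,
    small_sparse hwf hsmall h1 h4, Z, ⟨hc, ?_⟩, by rw [Finset.mk_mem_sym2_iff]; exact ⟨h2, h3⟩⟩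
  have h6 := ind_add_fx hwf h1
  have h7 := hsmall Z h1 hc h4
  have h8 : ind ((edges n S).filter (fun e => e ∈ Z.sym2)) Z = ind (edges n S) Z := by
    unfold ind
    congr 1
    ext e
    simp only [mem_inter, mem_filter]
    tauto
  omega

/-- Adding an edge without a small witness keeps small sets fine. -/
theorem small_add {n s : ℕ} {S S' : ℕ → ℕ} (hwf : WF n S) (hwf' : WF n S')
    (hsmall : ∀ Z ⊆ range n, 2 ≤ Z.card → Z.card ≤ s → 3 ≤ fx n S Z) {a b : ℕ}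
    (hw : ¬ ∃ Z, IsWit n s S a b Z) (hsub : edges n S' ⊆ insert s(a, b) (edges n S)) :
    ∀ Z ⊆ range n, 2 ≤ Z.card → Z.card ≤ s → 3 ≤ fx n S' Z := by
  intro Z hZ h2 h3
  have h4 := ind_add_fx hwf hZ
  have h5 := ind_add_fx hwf' hZ
  by_cases hab : a ∈ Z ∧ b ∈ Z
  · have h6 : 3 < fx n S Z := by
      by_contra hle
      exact hw ⟨Z, hZ, hab.1, hab.2, h3, by omega⟩
    have h7 : ind (edges n S') Z ≤ ind (edges n S) Z + 1 := by
      unfold ind
      calc (edges n S' ∩ Z.sym2).card ≤ (insert s(a, b) (edges n S ∩ Z.sym2)).card := by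
            apply card_le_card
            intro e he
            rw [mem_inter] at he
            rcases mem_insert.1 (hsub he.1) with rfl | h8
            · exact mem_insert_self _ _
            · exact mem_insert_of_mem (mem_inter.2 ⟨h8, he.2⟩)
        _ ≤ _ := card_insert_le _ _
    omega
  · have h6 := hsmall Z hZ h2 h3
    have h7 : ind (edges n S') Z ≤ ind (edges n S) Z := by
      unfold ind
      apply card_le_card
      intro e he
      rw [mem_inter] at he ⊢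
      refine ⟨?_, he.2⟩
      rcases mem_insert.1 (hsub he.1) with rfl | h8
      · exfalso
        apply hab
        have := he.2
        rwa [Finset.mk_mem_sym2_iff] at this
      · exact h8
    omega

theorem DS_step {n s : ℕ} {D D' : ℕ → ℕ} {a b : ℕ} (ha : a < n) (hb : b < n)
    (hmono : ∀ v < n, D v ≤ D' v) (hD : D' a = D a + 1) (hD' : D' b = D b + 1)
    (hlt : D a < s * s ∨ D b < s * s) :
    (∑ v ∈ range n, min (D v) (s * s)) + 1 ≤ ∑ v ∈ range n, min (D' v) (s * s) := by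
  have hlt' : ∑ v ∈ range n, min (D v) (s * s) < ∑ v ∈ range n, min (D' v) (s * s) := by
    apply sum_lt_sum
    · intro v hv
      have := hmono v (mem_range.1 hv)
      omega
    · rcases hlt with h | h
      · exact ⟨a, mem_range.2 ha, by omega⟩
      · exact ⟨b, mem_range.2 hb, by omega⟩
  omega

/-- Potential of the first phase. -/
def Psi1 (n s : ℕ) (σ : MSt) : ℕ := 20 * TP n σ + (60000 * s ^ 4 + 50) * DS n s σ

/-- Facts common to rejection and acceptance of a checked edge. -/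
structure Chk1 (n s : ℕ) (σ σ' : MSt) (a b : ℕ) : Prop where
  cst : Cst n s σ'
  hL : σ'.r .L = σ.r .L
  hK : σ'.r .K = σ.r .K
  qa : σ'.m .QA = σ.m .QA
  qb : σ'.m .QB = σ.m .QB
  ql : σ'.r .ql = σ.r .ql
  dg : σ'.m .DG = upd (upd (σ.m .DG) a (σ.m .DG a + 1)) b (σ.m .DG b + 1)
  mkz : ∀ x < n, σ'.m .MK x = 0

theorem P1I.checked {n s L : ℕ} {T E1 Rj Rj' : Finset (Sym2 ℕ)} {σ σ' : MSt}
    (h : P1I n s L T E1 Rj σ) {a b : ℕ} (ha : a < n) (hb : b < n) (hab : a ≠ b)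
    (hnew : s(a, b) ∉ T) (hc : Chk1 n s σ σ' a b)
    (hlt : σ.m .DG a < s * s ∨ σ.m .DG b < s * s)
    (hp1 : P1 n L σ')
    (hun : edges n (σ'.m .S) ∪ Dl σ' ∪ Rj' = insert s(a, b) (edges n (σ.m .S) ∪ Dl σ ∪ Rj))
    (hmon : edges n (σ.m .S) ∪ Dl σ ⊆ edges n (σ'.m .S) ∪ Dl σ')
    (hsmall : ∀ Z ⊆ range n, 2 ≤ Z.card → Z.card ≤ s → 3 ≤ fx n (σ'.m .S) Z)
    (hrj : ∀ e ∈ Rj', e ∈ Rj ∨ ∃ F ⊆ edges n (σ'.m .S) ∪ Dl σ', Sparse F ∧ Spanned F e)
    (hcnt : σ'.r .dl + (edges n (σ'.m .S)).card ≤ σ.r .dl + (edges n (σ.m .S)).card + 1) :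
    P1I n s L (insert s(a, b) T) (insert s(a, b) E1) Rj' σ' ∧ DS n s σ + 1 ≤ DS n s σ' := by
  have hnE : s(a, b) ∉ E1 := by
    intro h1; apply hnew; rw [h.tT]; exact mem_union_left _ h1
  have hQl : Ql σ' = Ql σ := by unfold Ql; rw [hc.qa, hc.qb, hc.ql]
  have hdga : σ'.m .DG a = σ.m .DG a + 1 := by
    rw [hc.dg, upd_ne _ _ hab, upd_same]
  have hdgb : σ'.m .DG b = σ.m .DG b + 1 := by
    rw [hc.dg, upd_same]
  have hdgo : ∀ v, v ≠ a → v ≠ b → σ'.m .DG v = σ.m .DG v := by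
    intro v h1 h2
    rw [hc.dg, upd_ne _ _ h2, upd_ne _ _ h1]
  have hDS : DS n s σ + 1 ≤ DS n s σ' := by
    unfold DS
    refine DS_step ha hb ?_ hdga hdgb hlt
    intro v hv
    by_cases h1 : v = a
    · rw [h1, hdga]; omega
    · by_cases h2 : v = b
      · rw [h2, hdgb]; omega
      · rw [hdgo v h1 h2]
  have hcard : (insert s(a, b) E1).card = E1.card + 1 := card_insert_of_notMem hnE
  have hcardT : (insert s(a, b) T).card = T.card + 1 := card_insert_of_notMem hnew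
  refine ⟨⟨hc.cst, by rw [hc.hL, h.hL], by rw [hc.hK, h.hK], hp1, ?_, ?_, ?_, ?_, ?_, ?_, hsmall,
    ?_, ?_, ?_, ?_, hc.mkz⟩, hDS⟩
  · rw [hQl, insert_union, h.tT]
  · rw [hun, h.e1]
  · refine insert_subset ?_ h.tn
    rw [Finset.mk_mem_sym2_iff]
    exact ⟨mem_range.2 ha, mem_range.2 hb⟩
  · intro e he
    rcases mem_insert.1 he with rfl | he
    · simpa using hab
    · exact h.td e he
  · intro v hv
    rw [deg_insert hnE]
    by_cases h1 : v = a
    · rw [if_pos (by simp [h1]), h1, hdga, h.dg a ha]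
    · by_cases h2 : v = b
      · rw [if_pos (by simp [h2]), h2, hdgb, h.dg b hb]
      · rw [if_neg (by simp [h1, h2]), hdgo v h1 h2, h.dg v hv, Nat.add_zero]
  · intro i hi
    rw [hc.ql] at hi
    rw [hc.qa, hc.qb]
    obtain ⟨g1, g2, g3, g4, g5⟩ := h.q i hi
    exact ⟨g1, g2, g3, g4.trans (deg_mono (subset_insert _ _) _),
      g5.trans (deg_mono (subset_insert _ _) _)⟩
  · intro e he
    rcases hrj e he with h1 | h1
    · obtain ⟨F, hF, h2⟩ := h.rj e h1
      exact ⟨F, hF.trans hmon, h2⟩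
    · exact h1
  · have := h.cnt
    omega
  · have := h.cntE
    omega
  · have := h.cntT
    rw [hc.ql]
    omega

theorem P1I.postpone {n s L : ℕ} {T E1 Rj : Finset (Sym2 ℕ)} {σ σ' : MSt}
    (h : P1I n s L T E1 Rj σ) {a b : ℕ} (ha : a < n) (hb : b < n) (hab : a ≠ b)
    (hnew : s(a, b) ∉ T) (hca : s * s ≤ σ.m .DG a) (hcb : s * s ≤ σ.m .DG b)
    (hc : Cst n s σ') (hL : σ'.r .L = σ.r .L) (hK : σ'.r .K = σ.r .K)
    (hS : σ'.m .S = σ.m .S) (hP : σ'.m .P = σ.m .P) (hDU : σ'.m .DU = σ.m .DU)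
    (hDV : σ'.m .DV = σ.m .DV) (hdl : σ'.r .dl = σ.r .dl) (hDG : σ'.m .DG = σ.m .DG)
    (hMK : σ'.m .MK = σ.m .MK) (hql : σ'.r .ql = σ.r .ql + 1)
    (hQA : σ'.m .QA = upd (σ.m .QA) (σ.r .ql) a) (hQB : σ'.m .QB = upd (σ.m .QB) (σ.r .ql) b) :
    P1I n s L (insert s(a, b) T) E1 Rj σ' := by
  have hDl : Dl σ' = Dl σ := by unfold Dl; rw [hDU, hDV, hdl]
  have hQl : Ql σ' = insert s(a, b) (Ql σ) := by
    unfold Ql; rw [hQA, hQB, hql, listE_push]
  have hcardT : (insert s(a, b) T).card = T.card + 1 := card_insert_of_notMem hnew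
  refine ⟨hc, by rw [hL, h.hL], by rw [hK, h.hK], ?_, ?_, ?_, ?_, ?_, ?_, ?_, ?_, ?_, ?_, ?_, ?_, ?_⟩
  · have := h.p1
    unfold P1 at this ⊢
    rwa [hS, hP, hDl]
  · rw [hQl, h.tT, union_insert]
  · rw [hS, hDl]; exact h.e1
  · refine insert_subset ?_ h.tn
    rw [Finset.mk_mem_sym2_iff]
    exact ⟨mem_range.2 ha, mem_range.2 hb⟩
  · intro e he
    rcases mem_insert.1 he with rfl | he
    · simpa using hab
    · exact h.td e he
  · rw [hDG]; exact h.dg
  · intro i hi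
    rw [hql] at hi
    rw [hQA, hQB]
    by_cases e : i = σ.r .ql
    · rw [e, upd_same, upd_same]
      exact ⟨ha, hb, hab, by rw [← h.dg a ha]; exact hca, by rw [← h.dg b hb]; exact hcb⟩
    · rw [upd_ne _ _ e, upd_ne _ _ e]
      exact h.q i (by omega)
  · rw [hS]; exact h.small
  · rw [hS, hDl]; exact h.rj
  · rw [hS, hdl]; exact h.cnt
  · have : DS n s σ' = DS n s σ := by unfold DS; rw [hDG]
    rw [this]; exact h.cntE
  · have := h.cntT
    omega
  · rw [hMK]; exact h.mkz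

theorem edgeC_spec {n s L : ℕ} {T E1 Rj : Finset (Sym2 ℕ)} {σ : MSt} (hs : 1 ≤ s)
    (h : P1I n s L T E1 Rj σ) (hu : σ.r .u < n) (hv : σ.r .v < n) (huv : σ.r .u ≠ σ.r .v)
    (hnew : s(σ.r .u, σ.r .v) ∉ T) :
    SpecT edgeC σ (fun σ' t => (∃ E1' Rj', P1I n s L (insert s(σ.r .u, σ.r .v) T) E1' Rj' σ') ∧
      t + Psi1 n s σ ≤ Psi1 n s σ' + 4) := by
  obtain ⟨a, had⟩ : ∃ a, σ.r .u = a := ⟨_, rfl⟩
  obtain ⟨b, hbd⟩ : ∃ b, σ.r .v = b := ⟨_, rfl⟩
  rw [had] at hu huv hnew ⊢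
  rw [hbd] at hv huv hnew ⊢
  refine SpecT.of_runs (T := 60000 * s ^ 4 + 40 + 40 * (n * L)) ?_
  simp only [edgeC, runs_seq, runs_set, runs_put, runs_ite, Exp.ev_get, Exp.ev_reg, Exp.ev_inc,
    Exp.ev_num, Cnd.ev_or, Cnd.ev_lt, Cnd.ev_eq, had, hbd, h.hK, St.setM_r]
  refine ⟨by omega, ?_, ?_⟩
  · intro hlt
    refine ⟨by omega, by omega, ?_⟩
    have fin : ∀ σ1 : MSt, Cst n s σ1 → σ1.r .u = a → σ1.r .v = b → σ1.r .L = σ.r .L →
        σ1.r .K = σ.r .K → σ1.r .ql = σ.r .ql → σ1.r .dl = σ.r .dl →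
        σ1.m .S = σ.m .S → σ1.m .P = σ.m .P → σ1.m .DU = σ.m .DU → σ1.m .DV = σ.m .DV →
        σ1.m .QA = σ.m .QA → σ1.m .QB = σ.m .QB → σ1.m .MK = σ.m .MK →
        σ1.m .DG = upd (upd (σ.m .DG) a (σ.m .DG a + 1)) b (σ.m .DG b + 1) →
        Runs localCheck σ1 (60000 * s ^ 4 + 40 + 40 * (n * L) - 1 - 1 - 1) fun σ' T' =>
          1 ≤ T' ∧ (σ'.r .found = 1 → Runs .skip σ' (T' - 1) fun σ' T' =>
            ∀ t, t + T' = 60000 * s ^ 4 + 40 + 40 * (n * L) →
              (∃ E1' Rj', P1I n s L (insert s(a, b) T) E1' Rj' σ') ∧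
              t + Psi1 n s σ ≤ Psi1 n s σ' + 4) ∧
          (¬ σ'.r .found = 1 → Runs auction σ' (T' - 1) fun σ' T' =>
            ∀ t, t + T' = 60000 * s ^ 4 + 40 + 40 * (n * L) →
              (∃ E1' Rj', P1I n s L (insert s(a, b) T) E1' Rj' σ') ∧
              t + Psi1 n s σ ≤ Psi1 n s σ' + 4) := by
      intro σ1 g1 g2 g3 g4 g5 g6 g7 g8 g9 g10 g11 g12 g13 g14 g15
      refine Runs.of_spec (localCheck_spec hs g1 (by rw [g8]; exact h.p1.wf.le)
        (by rw [g2]; exact hu) (by rw [g3]; exact hv) (by rw [g2, g3]; exact huv)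
        (by rw [g14]; exact h.mkz)).frame (by omega) ?_
      rintro σ2 T2 ⟨⟨hmk2, hfd2⟩, hf2⟩ hT2
      rw [g2, g3, g8] at hfd2
      have hc2 : Cst n s σ2 := g1.of_frame hf2 (by decide)
      have e2 : σ2.r .u = a := by rw [hf2.r _ (by decide)]; exact g2
      have e3 : σ2.r .v = b := by rw [hf2.r _ (by decide)]; exact g3
      have e4 : σ2.r .L = σ.r .L := by rw [hf2.r _ (by decide)]; exact g4
      have e5 : σ2.r .K = σ.r .K := by rw [hf2.r _ (by decide)]; exact g5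
      have e6 : σ2.r .ql = σ.r .ql := by rw [hf2.r _ (by decide)]; exact g6
      have e7 : σ2.r .dl = σ.r .dl := by rw [hf2.r _ (by decide)]; exact g7
      have e8 : σ2.m .S = σ.m .S := by rw [hf2.m _ (by decide)]; exact g8
      have e9 : σ2.m .P = σ.m .P := by rw [hf2.m _ (by decide)]; exact g9
      have e10 : σ2.m .DU = σ.m .DU := by rw [hf2.m _ (by decide)]; exact g10
      have e11 : σ2.m .DV = σ.m .DV := by rw [hf2.m _ (by decide)]; exact g11
      have e12 : σ2.m .QA = σ.m .QA := by rw [hf2.m _ (by decide)]; exact g12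
      have e13 : σ2.m .QB = σ.m .QB := by rw [hf2.m _ (by decide)]; exact g13
      have e15 : σ2.m .DG = upd (upd (σ.m .DG) a (σ.m .DG a + 1)) b (σ.m .DG b + 1) := by
        rw [hf2.m _ (by decide)]; exact g15
      have hDl2 : Dl σ2 = Dl σ := by unfold Dl; rw [e10, e11, e7]
      refine ⟨by omega, ?_, ?_⟩
      · intro hfound
        rw [runs_skip]
        intro t ht
        obtain ⟨F, hF, hF2⟩ := wit_small h.p1.wf h.small huv (hfd2.1 hfound)
        obtain ⟨h3, h4⟩ := h.checked (Rj' := insert s(a, b) Rj) (σ' := σ2) hu hv huv hnew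
          ⟨hc2, e4, e5, e12, e13, e6, e15, hmk2⟩ hlt
          (by have := h.p1; unfold P1 at this ⊢; rwa [e8, e9, hDl2])
          (by rw [e8, hDl2, union_insert]) (by rw [e8, hDl2]) (by rw [e8]; exact h.small)
          (by
            intro e he
            rcases mem_insert.1 he with rfl | he
            · right
              rw [e8, hDl2]
              exact ⟨F, hF.trans subset_union_left, hF2⟩
            · exact Or.inl he)
          (by rw [e7, e8]; omega)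
        refine ⟨⟨_, _, h3⟩, ?_⟩
        have hTP : TP n σ2 = TP n σ := by unfold TP; rw [e9]
        unfold Psi1
        rw [hTP]
        have h5 : (60000 * s ^ 4 + 50) * (DS n s σ + 1) ≤ (60000 * s ^ 4 + 50) * DS n s σ2 :=
          Nat.mul_le_mul_left _ h4
        rw [Nat.mul_add, Nat.mul_one] at h5
        omega
      · intro hfound
        have hnot : ¬ ∃ Z, IsWit n s (σ.m .S) a b Z := fun hw => hfound (hfd2.2 hw)
        have hp2 : P1 n L σ2 := by have := h.p1; unfold P1 at this ⊢; rwa [e8, e9, hDl2]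
        have hTP : TP n σ2 = TP n σ := by unfold TP; rw [e9]
        refine Runs.of_specT (auction_spec hc2 (by rw [e4, h.hL]) hp2 (by rw [e2]; exact hu)
          (by rw [e3]; exact hv) (by rw [e2, e3]; exact huv) ?_).frame ?_
        · rw [e2, e3, e8]
          intro hmem
          apply hnew
          rw [h.tT, h.e1]
          exact mem_union_left _ (mem_union_left _ (mem_union_left _ hmem))
        · rintro σ3 t3 ⟨⟨k1, k2, k3, k4, k5⟩, hf3⟩
          rw [e2, e3, e8, hDl2] at k3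
          rw [e2, e3, e8] at k4
          rw [e7, e8] at k5
          have hc3 : Cst n s σ3 := hc2.of_frame hf3 (by decide)
          have i4 : σ3.r .L = σ.r .L := by rw [hf3.r _ (by decide)]; exact e4
          have i5 : σ3.r .K = σ.r .K := by rw [hf3.r _ (by decide)]; exact e5
          have i6 : σ3.r .ql = σ.r .ql := by rw [hf3.r _ (by decide)]; exact e6
          have i12 : σ3.m .QA = σ.m .QA := by rw [hf3.m _ (by decide)]; exact e12
          have i13 : σ3.m .QB = σ.m .QB := by rw [hf3.m _ (by decide)]; exact e13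
          have i15 : σ3.m .DG = upd (upd (σ.m .DG) a (σ.m .DG a + 1)) b (σ.m .DG b + 1) := by
            rw [hf3.m _ (by decide)]; exact e15
          have i16 : σ3.m .MK = σ2.m .MK := by rw [hf3.m _ (by decide)]
          have hTP3 := TP_le k2
          have e17 : 2 * n * L = 2 * (n * L) := by ring
          rw [e17] at hTP3
          refine ⟨by omega, ?_⟩
          intro t ht
          obtain ⟨h3, h4⟩ := h.checked (Rj' := Rj) (σ' := σ3) hu hv huv hnew
            ⟨hc3, i4, i5, i12, i13, i6, i15, by rw [i16]; exact hmk2⟩ hlt k2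
            (by rw [k3, insert_union])
            (by rw [k3]; exact subset_insert _ _)
            (small_add h.p1.wf k2.wf h.small hnot k4)
            (fun e he => Or.inl he)
            (by omega)
          refine ⟨⟨_, _, h3⟩, ?_⟩
          unfold Psi1
          rw [hTP] at k1
          have h5 : (60000 * s ^ 4 + 50) * (DS n s σ + 1) ≤ (60000 * s ^ 4 + 50) * DS n s σ3 :=
            Nat.mul_le_mul_left _ h4
          rw [Nat.mul_add, Nat.mul_one] at h5
          omega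
    refine fin _ ?_ ?_ ?_ ?_ ?_ ?_ ?_ ?_ ?_ ?_ ?_ ?_ ?_ ?_ ?_
    · refine ⟨?_, ?_, ?_, ?_, ?_⟩
      · simpa using h.cst.hn
      · simpa using h.cst.hnn
      · simpa using h.cst.hs
      · simpa using h.cst.tw
      · simpa using h.cst.ow
    · simpa using had
    · simpa using hbd
    · simp
    · simp
    · simp
    · simp
    · funext i; simp
    · funext i; simp
    · funext i; simp
    · funext i; simp
    · funext i; simp
    · funext i; simp
    · funext i; simp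
    · funext i
      by_cases h1 : i = b
      · subst h1; simp [upd, Ne.symm huv]
      · by_cases h2 : i = a
        · subst h2; simp [upd, h1]
        · simp [upd, h1, h2]
  · intro hlt
    push Not at hlt
    refine ⟨by omega, by omega, by omega, ?_⟩
    intro t ht
    refine ⟨⟨E1, Rj, h.postpone hu hv huv hnew hlt.1 hlt.2 ⟨?_, ?_, ?_, ?_, ?_⟩ ?_ ?_ ?_ ?_ ?_ ?_ ?_
      ?_ ?_ ?_ ?_ ?_⟩, ?_⟩
    · simpa using h.cst.hn
    · simpa using h.cst.hnn
    · simpa using h.cst.hs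
    · simpa using h.cst.tw
    · simpa using h.cst.ow
    · simp
    · simp
    · funext i; simp
    · funext i; simp
    · funext i; simp
    · funext i; simp
    · simp
    · funext i; simp
    · funext i; simp
    · simp
    · funext i; simp [upd]
    · funext i; simp [upd]
    · have e1 : ∀ τ : MSt, τ.m .P = σ.m .P → τ.m .DG = σ.m .DG → Psi1 n s τ = Psi1 n s σ := by
        intro τ h1 h2
        unfold Psi1 TP DS
        rw [h1, h2]
      have e2 := e1 (((σ.setM .QA (σ.r .ql) a).setM .QB (σ.r .ql) b).setR .ql (σ.r .ql + 1))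
        (by funext i; simp) (by funext i; simp)
      omega

theorem P1I.congr {n s L : ℕ} {T E1 Rj : Finset (Sym2 ℕ)} {σ σ' : MSt}
    (h : P1I n s L T E1 Rj σ) (hc : Cst n s σ') (hL : σ'.r .L = σ.r .L) (hK : σ'.r .K = σ.r .K)
    (hm : σ'.m = σ.m) (hdl : σ'.r .dl = σ.r .dl) (hql : σ'.r .ql = σ.r .ql) :
    P1I n s L T E1 Rj σ' := by
  have hDl : Dl σ' = Dl σ := by unfold Dl; rw [hm, hdl]
  have hQl : Ql σ' = Ql σ := by unfold Ql; rw [hm, hql]
  have hDS : DS n s σ' = DS n s σ := by unfold DS; rw [hm]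
  refine ⟨hc, by rw [hL, h.hL], by rw [hK, h.hK], ?_, by rw [hQl]; exact h.tT,
    by rw [hm, hDl]; exact h.e1, h.tn, h.td, by rw [hm]; exact h.dg, by rw [hm, hql]; exact h.q,
    by rw [hm]; exact h.small, by rw [hm, hDl]; exact h.rj, by rw [hm, hdl]; exact h.cnt,
    by rw [hDS]; exact h.cntE, by rw [hql]; exact h.cntT, by rw [hm]; exact h.mkz⟩
  have := h.p1
  unfold P1 at this ⊢
  rwa [hm, hDl]

/-- The input consists of adjacency lists. -/
structure InOK (n : ℕ) (x : ℕ → ℕ) : Prop where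
  mono : ∀ v < n, x (v + 1) ≤ x (v + 2)
  lt : ∀ v < n, ∀ i, x (v + 1) ≤ i → i < x (v + 2) → x i < n
  inj : ∀ v < n, ∀ i j, x (v + 1) ≤ i → i < x (v + 2) → x (v + 1) ≤ j → j < x (v + 2) →
    x i = x j → i = j

/-- Edges found in the list of `v` before position `e`. -/
def TLi (x : ℕ → ℕ) (v e : ℕ) : Finset (Sym2 ℕ) :=
  ((Ico (x (v + 1)) e).filter (fun i => v < x i)).image (fun i => s(v, x i))

/-- Edges found in the lists of the vertices below `j`. -/
def TLs (x : ℕ → ℕ) (j : ℕ) : Finset (Sym2 ℕ) := (range j).biUnion (fun v => TLi x v (x (v + 2)))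

theorem mem_TLi {x : ℕ → ℕ} {v e : ℕ} {f : Sym2 ℕ} :
    f ∈ TLi x v e ↔ ∃ i, x (v + 1) ≤ i ∧ i < e ∧ v < x i ∧ s(v, x i) = f := by
  unfold TLi
  rw [mem_image]
  constructor
  · rintro ⟨i, hi, h⟩
    obtain ⟨h1, h2⟩ := mem_filter.1 hi
    obtain ⟨h3, h4⟩ := mem_Ico.1 h1
    exact ⟨i, h3, h4, h2, h⟩
  · rintro ⟨i, h1, h2, h3, h4⟩
    exact ⟨i, mem_filter.2 ⟨mem_Ico.2 ⟨h1, h2⟩, h3⟩, h4⟩

theorem TLs_succ (x : ℕ → ℕ) (j : ℕ) : TLs x (j + 1) = TLs x j ∪ TLi x j (x (j + 2)) := by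
  unfold TLs
  rw [range_add_one, biUnion_insert, union_comm]

theorem TLi_start (x : ℕ → ℕ) (v : ℕ) : TLi x v (x (v + 1)) = ∅ := by
  unfold TLi; simp

theorem TLi_skip {x : ℕ → ℕ} {v e : ℕ} (h : ¬ v < x e) : TLi x v (e + 1) = TLi x v e := by
  ext f
  rw [mem_TLi, mem_TLi]
  constructor
  · rintro ⟨i, h1, h2, h3, h4⟩
    have : i ≠ e := by rintro rfl; exact h h3
    exact ⟨i, h1, by omega, h3, h4⟩
  · rintro ⟨i, h1, h2, h3, h4⟩
    exact ⟨i, h1, by omega, h3, h4⟩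

theorem TLi_add {x : ℕ → ℕ} {v e : ℕ} (he : x (v + 1) ≤ e) (h : v < x e) :
    TLi x v (e + 1) = insert s(v, x e) (TLi x v e) := by
  ext f
  rw [mem_insert, mem_TLi, mem_TLi]
  constructor
  · rintro ⟨i, h1, h2, h3, h4⟩
    by_cases h5 : i = e
    · left; rw [← h4, h5]
    · right; exact ⟨i, h1, by omega, h3, h4⟩
  · rintro (h1 | ⟨i, h1, h2, h3, h4⟩)
    · exact ⟨e, he, by omega, h, h1.symm⟩
    · exact ⟨i, h1, by omega, h3, h4⟩

theorem new_edge {n : ℕ} {x : ℕ → ℕ} (hx : InOK n x) {v e : ℕ} (hv : v < n)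
    (he : x (v + 1) ≤ e) (he' : e < x (v + 2)) (h : v < x e) :
    s(v, x e) ∉ TLs x v ∪ TLi x v e := by
  rw [mem_union, not_or]
  constructor
  · unfold TLs
    rw [mem_biUnion]
    rintro ⟨w, hw, h1⟩
    rw [mem_range] at hw
    obtain ⟨i, h2, h3, h4, h5⟩ := mem_TLi.1 h1
    rw [Sym2.eq_iff] at h5
    rcases h5 with ⟨h6, h7⟩ | ⟨h6, h7⟩ <;> omega
  · intro h1
    obtain ⟨i, h2, h3, h4, h5⟩ := mem_TLi.1 h1
    rw [Sym2.eq_iff] at h5
    rcases h5 with ⟨h6, h7⟩ | ⟨h6, h7⟩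
    · have := hx.inj v hv i e h2 (by omega) he he' h7
      omega
    · omega

/-- Treat one list entry. -/
def p1Body : MCmd :=
  .seq (.set .v (.get .inp (.reg .e))) <|
  .ite (.lt (.reg .u) (.reg .v)) edgeC .skip

/-- Treat the list of one vertex. -/
def p1List : MCmd :=
  .seq (.set .e (.get .inp (.inc (.reg .u)))) <|
  .whl (.lt (.reg .e) (.get .inp (.inc (.inc (.reg .u))))) (.seq p1Body (.set .e (.inc (.reg .e))))

/-- First phase. -/
def phase1 : MCmd := .seq (.set .e (.num 0)) (forC .u (.reg .n) p1List)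

/-- Invariant inside the list of `u`. -/
structure P1J (n s L : ℕ) (x : ℕ → ℕ) (u j : ℕ) (E1 Rj : Finset (Sym2 ℕ)) (σ : MSt) : Prop where
  ii : P1I n s L (TLs x u ∪ TLi x u j) E1 Rj σ
  ru : σ.r .u = u
  inp : σ.m .inp = x
  lo : x (u + 1) ≤ j

theorem p1Body_spec {n s L : ℕ} {x : ℕ → ℕ} (hs : 1 ≤ s) (hx : InOK n x) {u j : ℕ} (hu : u < n)
    {E1 Rj : Finset (Sym2 ℕ)} {σ : MSt} (h : P1J n s L x u j E1 Rj σ) (hj : j < x (u + 2))
    (he : σ.r .e = j) :
    SpecT p1Body σ (fun σ' t => σ'.r .e = j ∧ (∃ E1' Rj', P1J n s L x u (j + 1) E1' Rj'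
      (σ'.setR .e (j + 1))) ∧ t + Psi1 n s σ ≤ Psi1 n s σ' + 6) := by
  have hcE : ∀ {τ : MSt} {y : Reg} {c : ℕ}, (y ≠ .n ∧ y ≠ .nn ∧ y ≠ .s) → Cst n s τ →
      Cst n s (τ.setR y c) := by
    rintro τ y c ⟨h1, h2, h3⟩ hτ
    refine ⟨?_, ?_, ?_, ?_, ?_⟩
    · simp [h1.symm, hτ.hn]
    · simp [h2.symm, hτ.hnn]
    · simp [h3.symm, hτ.hs]
    · simpa using hτ.tw
    · simpa using hτ.ow
  have hlist : ∀ (σ' : MSt) (E1' Rj' : Finset (Sym2 ℕ)) (T' : Finset (Sym2 ℕ)),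
      P1I n s L T' E1' Rj' σ' → T' = TLs x u ∪ TLi x u (j + 1) → σ'.r .u = u → σ'.m .inp = x →
      P1J n s L x u (j + 1) E1' Rj' (σ'.setR .e (j + 1)) := by
    intro σ' E1' Rj' T' h1 h2 h3 h4
    refine ⟨?_, by simpa using h3, by simpa using h4, by have := h.lo; omega⟩
    rw [← h2]
    exact h1.congr (hcE (by decide) h1.cst) (by simp) (by simp) (by simp) (by simp) (by simp)
  have hv : x j < n := hx.lt u hu j h.lo hj
  unfold p1Body
  refine SpecT.seq (P := fun σ' t => σ' = σ.setR .v (x j) ∧ t = 1) (SpecT.set ?_) ?_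
  · simp only [Exp.ev_get, Exp.ev_reg, he, h.inp, and_self]
  · rintro σ1 t1 ⟨rfl, rfl⟩ hf1
    have h1 : P1I n s L (TLs x u ∪ TLi x u j) E1 Rj (σ.setR .v (x j)) :=
      h.ii.congr (hcE (by decide) h.ii.cst) (by simp) (by simp) (by simp) (by simp) (by simp)
    have hPsi : Psi1 n s (σ.setR .v (x j)) = Psi1 n s σ := by
      unfold Psi1 TP DS; simp
    refine SpecT.ite ?_ ?_
    · intro hb
      simp only [Cnd.ev_lt, Exp.ev_reg, St.setR_r, if_true, reduceCtorEq, if_false, h.ru] at hb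
      have hnew := new_edge hx hu h.lo hj hb
      refine (edgeC_spec hs h1 (by simpa [h.ru] using hu) (by simpa using hv)
        (by simp [h.ru]; omega) (by simpa [h.ru] using hnew)).frame.mono ?_
      rintro σ2 t2 ⟨⟨⟨E1', Rj', h2⟩, h3⟩, hf2⟩
      have hu2 : σ2.r .u = u := by rw [hf2.r _ (by decide)]; simp [h.ru]
      have he2 : σ2.r .e = j := by rw [hf2.r _ (by decide)]; simp [he]
      have hi2 : σ2.m .inp = x := by rw [hf2.m _ (by decide)]; simp [h.inp]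
      refine ⟨he2, ⟨E1', Rj', hlist _ _ _ _ h2 ?_ hu2 hi2⟩, by omega⟩
      rw [TLi_add h.lo hb]
      simp [h.ru]
    · intro hb
      simp only [Cnd.ev_lt, Exp.ev_reg, St.setR_r, if_true, reduceCtorEq, if_false, h.ru] at hb
      refine SpecT.skip ⟨by simp [he], ⟨E1, Rj, hlist _ _ _ _ h1 ?_ (by simp [h.ru])
        (by simp [h.inp])⟩, by omega⟩
      rw [TLi_skip hb]

/-- Potential of the first phase including the reading position. -/
def Psi2 (n s : ℕ) (σ : MSt) : ℕ := Psi1 n s σ + 8 * σ.r .e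

theorem p1List_spec {n s L : ℕ} {x : ℕ → ℕ} (hs : 1 ≤ s) (hx : InOK n x) {u : ℕ} (hu : u < n)
    {E1 Rj : Finset (Sym2 ℕ)} {σ : MSt} (h : P1I n s L (TLs x u) E1 Rj σ) (hru : σ.r .u = u)
    (hinp : σ.m .inp = x) (he : σ.r .e ≤ x (u + 1)) :
    SpecT p1List σ (fun σ' t => (∃ E1' Rj', P1I n s L (TLs x (u + 1)) E1' Rj' σ') ∧
      σ'.r .u = u ∧ σ'.m .inp = x ∧ σ'.r .e = x (u + 2) ∧
      t + Psi2 n s σ ≤ Psi2 n s σ' + 2) := by
  unfold p1List
  refine SpecT.seq (P := fun σ' t => σ' = σ.setR .e (x (u + 1)) ∧ t = 1) (SpecT.set ?_) ?_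
  · simp only [Exp.ev_get, Exp.ev_reg, Exp.ev_inc, hru, hinp, and_self]
  · rintro σ1 t1 ⟨rfl, rfl⟩ hf1
    have hc : Cst n s (σ.setR .e (x (u + 1))) := by
      refine ⟨?_, ?_, ?_, ?_, ?_⟩
      · simpa using h.cst.hn
      · simpa using h.cst.hnn
      · simpa using h.cst.hs
      · simpa using h.cst.tw
      · simpa using h.cst.ow
    have h0 : P1J n s L x u (x (u + 1)) E1 Rj (σ.setR .e (x (u + 1))) := by
      refine ⟨?_, by simpa using hru, by simpa using hinp, le_rfl⟩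
      rw [TLi_start, union_empty]
      exact h.congr hc (by simp) (by simp) (by simp) (by simp) (by simp)
    refine (whlC_specT (x (u + 2)) 6 (fun j σ => ∃ E1 Rj, P1J n s L x u j E1 Rj σ)
      (Psi1 n s) ?_ ?_ (hx.mono u hu) ⟨E1, Rj, h0⟩ (by simp)).mono ?_
    · rintro j τ ⟨E1, Rj, h1⟩
      simp [h1.ru, h1.inp]
    · rintro j τ hj ⟨E1, Rj, h1⟩ he
      refine (p1Body_spec hs hx hu h1 hj he).mono ?_
      rintro σ' t ⟨h2, h3, h4⟩ -
      refine ⟨h2, h3, ?_⟩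
      have : Psi1 n s (σ'.setR .e (j + 1)) = Psi1 n s σ' := by unfold Psi1 TP DS; simp
      rw [this]; exact h4
    · rintro σ' t ⟨⟨E1', Rj', h1⟩, h2, h3⟩
      refine ⟨⟨E1', Rj', ?_⟩, h1.ru, h1.inp, h2, ?_⟩
      · rw [TLs_succ]; exact h1.ii
      · have e1 : Psi1 n s (σ.setR .e (x (u + 1))) = Psi1 n s σ := by unfold Psi1 TP DS; simp
        rw [e1] at h3
        unfold Psi2
        rw [h2]
        have := hx.mono u hu
        omega

theorem phase1_spec {n s L : ℕ} {x : ℕ → ℕ} (hs : 1 ≤ s) (hx : InOK n x)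
    {σ : MSt} (h : P1I n s L ∅ ∅ ∅ σ) (hinp : σ.m .inp = x) :
    SpecT phase1 σ (fun σ' t => (∃ E1 Rj, P1I n s L (TLs x n) E1 Rj σ') ∧
      t ≤ Psi1 n s σ' + 8 * σ'.r .e + 4 * n + 3 ∧ (n = 0 ∨ σ'.r .e = x (n + 1))) := by
  have hcE : ∀ {τ : MSt} {y : Reg} {c : ℕ}, (y ≠ .n ∧ y ≠ .nn ∧ y ≠ .s) → Cst n s τ →
      Cst n s (τ.setR y c) := by
    rintro τ y c ⟨h1, h2, h3⟩ hτ
    refine ⟨?_, ?_, ?_, ?_, ?_⟩
    · simp [h1.symm, hτ.hn]
    · simp [h2.symm, hτ.hnn]
    · simp [h3.symm, hτ.hs]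
    · simpa using hτ.tw
    · simpa using hτ.ow
  unfold phase1
  refine SpecT.seq (P := fun σ' t => σ' = σ.setR .e 0 ∧ t = 1) (SpecT.set ?_) ?_
  · exact ⟨rfl, rfl⟩
  · rintro σ1 t1 ⟨rfl, rfl⟩ hf1
    have h0 : P1I n s L (TLs x 0) ∅ ∅ ((σ.setR .e 0).setR .u 0) := by
      have : TLs x 0 = ∅ := by unfold TLs; simp
      rw [this]
      exact h.congr (hcE (by decide) (hcE (by decide) h.cst)) (by simp) (by simp) (by simp)
        (by simp) (by simp)
    refine (forC_specT n 2 (fun j σ => (∃ E1 Rj, P1I n s L (TLs x j) E1 Rj σ) ∧ σ.m .inp = x ∧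
      (j = 0 ∧ σ.r .e = 0 ∨ σ.r .e = x (j + 1))) (Psi2 n s) ?_ ?_ ⟨⟨∅, ∅, h0⟩, by simpa using hinp,
        Or.inl (by simp)⟩).mono ?_
    · rintro j τ ⟨⟨E1, Rj, h1⟩, -⟩
      simpa using h1.cst.hn
    · rintro j τ hj ⟨⟨E1, Rj, h1⟩, h2, h3⟩ hu
      refine (p1List_spec hs hx hj h1 hu h2 (by omega)).mono ?_
      rintro σ' t ⟨⟨E1', Rj', h4⟩, h5, h6, h7, h8⟩ -
      refine ⟨h5, ⟨⟨E1', Rj', ?_⟩, by simpa using h6, Or.inr (by simpa using h7)⟩, ?_⟩
      · exact h4.congr (hcE (by decide) h4.cst) (by simp) (by simp) (by simp) (by simp) (by simp)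
      · have : Psi2 n s (σ'.setR .u (j + 1)) = Psi2 n s σ' := by
          unfold Psi2 Psi1 TP DS; simp
        rw [this]; exact h8
    · rintro σ' t ⟨⟨⟨E1, Rj, h1⟩, h2, h3⟩, h4, h5⟩
      refine ⟨⟨E1, Rj, h1⟩, ?_, ?_⟩
      · unfold Psi2 at h5
        omega
      · rcases h3 with ⟨h3, -⟩ | h3
        · exact Or.inl h3
        · exact Or.inr h3

end Pool.Agent.H.MP_d01483_lc
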