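import Pool.Agent.H.MP_d01483_lc.Test
import Pool.Agent.H.MP_d01483_lc.Local
import Pool.Agent.H.MP_d01483_lc.Auction
import Pool.Agent.H.MP_d01483_lc.Count2
import Pool.Agent.H.MP_d01483_lc.Loop

set_option linter.unusedSectionVars false
set_option linter.unusedVariables false
set_option linter.unusedSimpArgs false
set_option linter.constructorNameAsVariable false

namespace Pool.Agent.H.MP_d01483_lc

open Finset

/-- A state change outside the slots and labels keeps `SI`. -/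
theorem SI.congr {n s : ℕ} {I : Finset (Sym2 ℕ)} {lam : Sym2 ℕ → ℕ} {σ σ' : MSt}
    (h : SI n s I lam σ) (hc : Cst n s σ') (hS : σ'.m .S = σ.m .S) (hCI : σ'.m .CI = σ.m .CI)
    (hE : σ'.m .EXC = σ.m .EXC) (hnc : σ'.r .nc = σ.r .nc) : SI n s I lam σ' := by
  refine ⟨hc, ?_, ?_, ?_, ?_, ?_, ?_, ?_, ?_⟩
  · rw [hS]; exact h.wf
  · rw [hS]; exact h.ed
  · rw [hS, hCI]; exact h.ci
  · rw [hS, hCI]; exact h.ci0
  · rw [hnc]; exact h.lab
  · rw [hnc, hE]; exact h.exc0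
  · rw [hE]; exact h.excV
  · rw [hCI, hE]; exact h.exc

theorem known_spanned {I : Finset (Sym2 ℕ)} {lam : Sym2 ℕ → ℕ} {nc : ℕ} (h : LabOK I lam nc)
    {a b : ℕ} (hk : ∃ K, Known I lam K ∧ a ∈ K ∧ b ∈ K) : Spanned I s(a, b) := by
  obtain ⟨K, hK, ha, hb⟩ := hk
  exact ⟨K, (hK.maxTight h).1, by rw [Finset.mk_mem_sym2_iff]; exact ⟨ha, hb⟩⟩

theorem wit_spanned {n s : ℕ} {S : ℕ → ℕ} (hwf : WF n S) (hsp : Sparse (edges n S)) {a b : ℕ}
    (hab : a ≠ b) (hw : ∃ Z, IsWit n s S a b Z) : Spanned (edges n S) s(a, b) := by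
  obtain ⟨Z, h1, h2, h3, h4, h5⟩ := hw
  have hc : 2 ≤ Z.card := by
    have : ({a, b} : Finset ℕ) ⊆ Z := by
      intro x hx
      rw [mem_insert, mem_singleton] at hx
      rcases hx with rfl | rfl <;> assumption
    have := card_le_card this
    rwa [card_pair hab] at this
  have h6 := ind_add_fx hwf h1
  have h7 := hsp.2 Z hc
  exact ⟨Z, ⟨hc, by omega⟩, by rw [Finset.mk_mem_sym2_iff]; exact ⟨h2, h3⟩⟩

/-- Treat one entry of the discard list. -/
def p3aBody : MCmd :=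
  .seq (.set .u (.get .DU (.reg .e))) <|
  .seq (.set .v (.get .DV (.reg .e))) <|
  .seq sameComp <|
  .ite (.eq (.reg .same) (.num 1)) .skip <|
  .seq localCheck <|
  .ite (.eq (.reg .found) (.num 1)) .skip test

/-- Treat one postponed edge. -/
def p3bBody : MCmd :=
  .seq (.set .u (.get .QA (.reg .e))) <|
  .seq (.set .v (.get .QB (.reg .e))) <|
  .seq sameComp <|
  .ite (.eq (.reg .same) (.num 1)) .skip test

/-- Invariant of the loop over the discard list. -/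
structure P3A (n s : ℕ) (I0 : Finset (Sym2 ℕ)) (σ0 : MSt) (j : ℕ) (I : Finset (Sym2 ℕ))
    (lam : Sym2 ℕ → ℕ) (σ : MSt) : Prop where
  si : SI n s I lam σ
  mkz : ∀ x < n, σ.m .MK x = 0
  du : σ.m .DU = σ0.m .DU
  dv : σ.m .DV = σ0.m .DV
  dl : σ.r .dl = σ0.r .dl
  low : I0 ⊆ I
  up : I ⊆ I0 ∪ Dl σ0
  cnt : σ.r .nc * s + I0.card * s ≤ I.card * s + nlab I lam
  spn : ∀ i < j, Spanned I s(σ0.m .DU i, σ0.m .DV i)

theorem P3A.next {n s : ℕ} {I0 : Finset (Sym2 ℕ)} {σ0 : MSt} {j : ℕ} {I : Finset (Sym2 ℕ)}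
    {lam : Sym2 ℕ → ℕ} {σ σ' : MSt} (h : P3A n s I0 σ0 j I lam σ)
    (hS : Spanned I s(σ0.m .DU j, σ0.m .DV j)) (hc : Cst n s σ')
    (e1 : σ'.m .S = σ.m .S) (e2 : σ'.m .CI = σ.m .CI) (e3 : σ'.m .EXC = σ.m .EXC)
    (e4 : σ'.r .nc = σ.r .nc) (e5 : ∀ x < n, σ'.m .MK x = 0) (e6 : σ'.m .DU = σ.m .DU)
    (e7 : σ'.m .DV = σ.m .DV) (e8 : σ'.r .dl = σ.r .dl) :
    P3A n s I0 σ0 (j + 1) I lam σ' := by
  refine ⟨h.si.congr hc e1 e2 e3 e4, e5, by rw [e6, h.du], by rw [e7, h.dv], by rw [e8, h.dl],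
    h.low, h.up, by rw [e4]; exact h.cnt, ?_⟩
  intro i hi
  rcases Nat.lt_succ_iff_lt_or_eq.1 hi with h5 | rfl
  · exact h.spn i h5
  · exact hS

theorem p3aBody_spec {n s Ct : ℕ} {I0 : Finset (Sym2 ℕ)} {σ0 : MSt} {j : ℕ}
    {I : Finset (Sym2 ℕ)} {lam : Sym2 ℕ → ℕ} {σ : MSt} (hs : 1 ≤ s)
    (hCt : ∀ {n s : ℕ} {I : Finset (Sym2 ℕ)} {lam : Sym2 ℕ → ℕ} {σ : MSt},
      SI n s I lam σ → σ.r .u < n → σ.r .v < n → σ.r .u ≠ σ.r .v →
      Spec test σ (Ct * (n + 1)) (fun σ' => ∃ I' U,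
        (I' = I ∨ (I' = insert s(σ.r .u, σ.r .v) I ∧ s(σ.r .u, σ.r .v) ∉ I)) ∧
        MaxTight I' U ∧ σ.r .u ∈ U ∧ σ.r .v ∈ U ∧
        SI n s I' (relab lam U (σ.r .nc)) σ' ∧ σ'.r .nc = σ.r .nc + 1))
    (hD : ∀ i < σ0.r .dl, σ0.m .DU i < n ∧ σ0.m .DV i < n ∧ σ0.m .DU i ≠ σ0.m .DV i)
    (h : P3A n s I0 σ0 j I lam σ) (hj : j < σ0.r .dl) (he : σ.r .e = j) :
    SpecT p3aBody σ (fun σ' t => σ'.r .e = j ∧
      (∃ I' lam', P3A n s I0 σ0 (j + 1) I' lam' (σ'.setR .e (j + 1))) ∧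
      t + Ct * (n + 1) * σ.r .nc ≤ Ct * (n + 1) * σ'.r .nc + (60000 * s ^ 4 + 10)) := by
  obtain ⟨ha, hb, hab⟩ := hD j hj
  set a := σ0.m .DU j with had
  set b := σ0.m .DV j with hbd
  have hua : σ.m .DU j = a := by rw [h.du]
  have hvb : σ.m .DV j = b := by rw [h.dv]
  refine SpecT.of_runs (T := Ct * (n + 1) + (60000 * s ^ 4 + 10)) ?_
  simp only [p3aBody, runs_seq, runs_set, Exp.ev_get, Exp.ev_reg, he, hua]
  refine ⟨by omega, by omega, ?_⟩
  have hv2 : (σ.setR .u a).m .DV ((σ.setR .u a).r .e) = b := by simp [he, hvb]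
  have hv3 : ((σ.setR .u a).setR .v ((σ.setR .u a).m .DV ((σ.setR .u a).r .e))) =
      ((σ.setR .u a).setR .v b) := by rw [hv2]
  rw [hv3]
  have hc1 : Cst n s ((σ.setR .u a).setR .v b) := by
    refine ⟨?_, ?_, ?_, ?_, ?_⟩
    · simpa using h.si.cst.hn
    · simpa using h.si.cst.hnn
    · simpa using h.si.cst.hs
    · simpa using h.si.cst.tw
    · simpa using h.si.cst.ow
  have hsi1 : SI n s I lam ((σ.setR .u a).setR .v b) :=
    h.si.congr hc1 (by simp) (by simp) (by simp) (by simp)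
  refine Runs.of_spec (sameComp_spec hsi1 (by simpa using ha) (by simpa using hb)
    (by simpa using hab)).frame (by omega) ?_
  rintro σ2 T2 ⟨h2, hf2⟩ hT2
  have hu2 : σ2.r .u = a := by rw [hf2.r _ (by decide)]; simp
  have hv2 : σ2.r .v = b := by rw [hf2.r _ (by decide)]; simp
  have he2 : σ2.r .e = j := by rw [hf2.r _ (by decide)]; simp [he]
  have hc2 : Cst n s σ2 := hc1.of_frame hf2 (by decide)
  have hS2 : σ2.m .S = σ.m .S := by rw [hf2.m _ (by decide)]; simp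
  have hCI2 : σ2.m .CI = σ.m .CI := by rw [hf2.m _ (by decide)]; simp
  have hE2 : σ2.m .EXC = σ.m .EXC := by rw [hf2.m _ (by decide)]; simp
  have hnc2 : σ2.r .nc = σ.r .nc := by rw [hf2.r _ (by decide)]; simp
  have hMK2 : σ2.m .MK = σ.m .MK := by rw [hf2.m _ (by decide)]; simp
  have hDU2 : σ2.m .DU = σ.m .DU := by rw [hf2.m _ (by decide)]; simp
  have hDV2 : σ2.m .DV = σ.m .DV := by rw [hf2.m _ (by decide)]; simp
  have hdl2 : σ2.r .dl = σ.r .dl := by rw [hf2.r _ (by decide)]; simp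
  have hsi2 : SI n s I lam σ2 := h.si.congr hc2 hS2 hCI2 hE2 hnc2
  simp only [St.setR_r, if_true, reduceCtorEq, if_false] at h2
  have hsE : ∀ {τ : MSt} {c : ℕ}, Cst n s τ → Cst n s (τ.setR .e c) := by
    intro τ c hτ
    refine ⟨?_, ?_, ?_, ?_, ?_⟩
    · simpa using hτ.hn
    · simpa using hτ.hnn
    · simpa using hτ.hs
    · simpa using hτ.tw
    · simpa using hτ.ow
  rw [runs_ite]
  refine ⟨by omega, ?_, ?_⟩
  · intro hcnd
    simp only [Cnd.ev_eq, Exp.ev_reg, Exp.ev_num] at hcnd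
    rw [runs_skip]
    intro t ht
    have hsp : Spanned I s(a, b) := known_spanned h.si.lab (h2.1 hcnd)
    refine ⟨he2, ⟨I, lam, h.next hsp (hsE hc2) (by simpa using hS2) (by simpa using hCI2)
      (by simpa using hE2) (by simpa using hnc2) (by simpa [hMK2] using h.mkz)
      (by simpa using hDU2) (by simpa using hDV2) (by simpa using hdl2)⟩, ?_⟩
    rw [hnc2]; omega
  · intro hcnd
    simp only [Cnd.ev_eq, Exp.ev_reg, Exp.ev_num] at hcnd
    rw [runs_seq]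
    refine Runs.of_spec (localCheck_spec hs hc2 (by rw [hS2]; exact h.si.wf.le)
      (by rw [hu2]; exact ha) (by rw [hv2]; exact hb) (by rw [hu2, hv2]; exact hab)
      (by rw [hMK2]; exact h.mkz)).frame (by omega) ?_
    rintro σ3 T3 ⟨⟨hmk3, hfd3⟩, hf3⟩ hT3
    rw [hu2, hv2, hS2] at hfd3
    have hu3 : σ3.r .u = a := by rw [hf3.r _ (by decide)]; exact hu2
    have hv3 : σ3.r .v = b := by rw [hf3.r _ (by decide)]; exact hv2
    have he3 : σ3.r .e = j := by rw [hf3.r _ (by decide)]; exact he2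
    have hc3 : Cst n s σ3 := hc2.of_frame hf3 (by decide)
    have hS3 : σ3.m .S = σ.m .S := by rw [hf3.m _ (by decide)]; exact hS2
    have hCI3 : σ3.m .CI = σ.m .CI := by rw [hf3.m _ (by decide)]; exact hCI2
    have hE3 : σ3.m .EXC = σ.m .EXC := by rw [hf3.m _ (by decide)]; exact hE2
    have hnc3 : σ3.r .nc = σ.r .nc := by rw [hf3.r _ (by decide)]; exact hnc2
    have hDU3 : σ3.m .DU = σ.m .DU := by rw [hf3.m _ (by decide)]; exact hDU2
    have hDV3 : σ3.m .DV = σ.m .DV := by rw [hf3.m _ (by decide)]; exact hDV2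
    have hdl3 : σ3.r .dl = σ.r .dl := by rw [hf3.r _ (by decide)]; exact hdl2
    have hsi3 : SI n s I lam σ3 := h.si.congr hc3 hS3 hCI3 hE3 hnc3
    rw [runs_ite]
    refine ⟨by omega, ?_, ?_⟩
    · intro hcnd3
      simp only [Cnd.ev_eq, Exp.ev_reg, Exp.ev_num] at hcnd3
      rw [runs_skip]
      intro t ht
      have hsp : Spanned I s(a, b) := by
        have := wit_spanned h.si.wf (by rw [h.si.ed]; exact h.si.lab.sp) hab (hfd3.1 hcnd3)
        rwa [h.si.ed] at this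
      refine ⟨he3, ⟨I, lam, h.next hsp (hsE hc3) (by simpa using hS3) (by simpa using hCI3)
        (by simpa using hE3) (by simpa using hnc3) (by simpa using hmk3)
        (by simpa using hDU3) (by simpa using hDV3) (by simpa using hdl3)⟩, ?_⟩
      rw [hnc3]; omega
    · intro hcnd3
      simp only [Cnd.ev_eq, Exp.ev_reg, Exp.ev_num] at hcnd3
      refine Runs.of_specT (hCt hsi3 (by rw [hu3]; exact ha) (by rw [hv3]; exact hb)
        (by rw [hu3, hv3]; exact hab)).toSpecT.frame ?_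
      rintro σ4 t4 ⟨⟨ht4, I', U, hI', hU, huU, hvU, hsi4, hnc4⟩, hf4⟩
      rw [hu3, hv3] at hI'
      rw [hu3] at huU
      rw [hv3] at hvU
      rw [hnc3] at hsi4 hnc4
      have hkt := test_keeps
      refine ⟨by omega, fun t ht => ?_⟩
      have he4 : σ4.r .e = j := by rw [hf4.r _ hkt.2.2.2.2.2.1]; exact he3
      have hDU4 : σ4.m .DU = σ.m .DU := by rw [hf4.m _ hkt.2.2.2.2.2.2.2.2.1]; exact hDU3
      have hDV4 : σ4.m .DV = σ.m .DV := by rw [hf4.m _ hkt.2.2.2.2.2.2.2.2.2.1]; exact hDV3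
      have hdl4 : σ4.r .dl = σ.r .dl := by rw [hf4.r _ hkt.2.2.2.1]; exact hdl3
      have hMK4 : σ4.m .MK = σ3.m .MK := by rw [hf4.m _ hkt.2.2.2.2.2.2.2.2.2.2.2.2]
      have hII : I ⊆ I' := by
        rcases hI' with h5 | ⟨h5, -⟩
        · rw [h5]
        · rw [h5]; exact subset_insert _ _
      have hspI' : Sparse I' := hsi4.lab.sp
      have heU : s(a, b) ∈ U.sym2 := by rw [Finset.mk_mem_sym2_iff]; exact ⟨huU, hvU⟩
      refine ⟨he4, ⟨I', relab lam U (σ.r .nc), ⟨hsi4.congr (hsE hsi4.cst) (by simp) (by simp)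
        (by simp) (by simp), by simpa [hMK4] using hmk3, by simpa [hDU4] using h.du,
        by simpa [hDV4] using h.dv, by simpa [hdl4] using h.dl, h.low.trans hII, ?_, ?_, ?_⟩⟩, ?_⟩
      · rcases hI' with h5 | ⟨h5, -⟩
        · rw [h5]; exact h.up
        · rw [h5]
          refine insert_subset ?_ h.up
          apply mem_union_right
          unfold Dl
          rw [mem_listE]
          exact ⟨j, hj, rfl⟩
      · simp only [St.setR_r, reduceCtorEq, if_false, hnc4]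
        have h6 := h.cnt
        have e5 : (σ.r .nc + 1) * s = σ.r .nc * s + s := by ring
        rcases hI' with h5 | ⟨h5, h5'⟩
        · subst h5
          -- failed test: many new labels
          have hKU : ¬ Known I' lam U := by
            intro hK
            exact hcnd (h2.2 ⟨U, hK, huU, hvU⟩)
          have h7 := nlab_step h.si.lab hU hKU
          have hUn : U ⊆ range n := by
            have hsub := edges_subset h.si.wf
            rw [h.si.ed] at hsub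
            exact tight_subset_range h.si.lab.sp hsub hU.1
          have h8 : s < U.card := by
            by_contra hle
            apply hcnd3
            apply hfd3.2
            refine ⟨U, hUn, huU, hvU, by omega, ?_⟩
            have h9 := ind_add_fx h.si.wf hUn
            rw [h.si.ed] at h9
            have h10 := hU.1.2
            omega
          omega
        · have h7 : I'.card = I.card + 1 := by rw [h5, card_insert_of_notMem h5']
          have h8 : nlab I lam ≤ nlab I' (relab lam U (σ.r .nc)) := nlab_mono hII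
          have h9 : I'.card * s = I.card * s + s := by rw [h7]; ring
          omega
      · intro i hi
        rcases Nat.lt_succ_iff_lt_or_eq.1 hi with h5 | rfl
        · exact (h.spn i h5).mono hspI' hII
        · exact ⟨U, hU.1, heU⟩
      · have e6 : Ct * (n + 1) * σ4.r .nc = Ct * (n + 1) * σ.r .nc + Ct * (n + 1) := by
          rw [hnc4]; ring
        omega

/-- The statement of `test_spec` for a fixed constant. -/
def TestC (Ct : ℕ) : Prop :=
  ∀ {n s : ℕ} {I : Finset (Sym2 ℕ)} {lam : Sym2 ℕ → ℕ} {σ : MSt},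
      SI n s I lam σ → σ.r .u < n → σ.r .v < n → σ.r .u ≠ σ.r .v →
      Spec test σ (Ct * (n + 1)) (fun σ' => ∃ I' U,
        (I' = I ∨ (I' = insert s(σ.r .u, σ.r .v) I ∧ s(σ.r .u, σ.r .v) ∉ I)) ∧
        MaxTight I' U ∧ σ.r .u ∈ U ∧ σ.r .v ∈ U ∧
        SI n s I' (relab lam U (σ.r .nc)) σ' ∧ σ'.r .nc = σ.r .nc + 1)

theorem p3a_spec {n s Ct : ℕ} (hs : 1 ≤ s) (hCt : TestC Ct) {I0 : Finset (Sym2 ℕ)} {σ0 : MSt}
    (hsi : SI n s I0 (fun _ => 0) σ0) (hnc : σ0.r .nc = 0) (hmk : ∀ x < n, σ0.m .MK x = 0)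
    (hD : ∀ i < σ0.r .dl, σ0.m .DU i < n ∧ σ0.m .DV i < n ∧ σ0.m .DU i ≠ σ0.m .DV i) :
    SpecT (forC .e (.reg .dl) p3aBody) σ0 (fun σ' t => ∃ I lam,
      P3A n s I0 σ0 (σ0.r .dl) I lam σ' ∧
      t ≤ Ct * (n + 1) * σ'.r .nc + (60000 * s ^ 4 + 12) * σ0.r .dl + 2) := by
  have hc0 : Cst n s (σ0.setR .e 0) := by
    refine ⟨?_, ?_, ?_, ?_, ?_⟩
    · simpa using hsi.cst.hn
    · simpa using hsi.cst.hnn
    · simpa using hsi.cst.hs
    · simpa using hsi.cst.tw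
    · simpa using hsi.cst.ow
  have h0 : P3A n s I0 σ0 0 I0 (fun _ => 0) (σ0.setR .e 0) := by
    refine ⟨hsi.congr hc0 (by simp) (by simp) (by simp) (by simp), by simpa using hmk, by simp,
      by simp, by simp, Subset.refl _, subset_union_left, ?_, ?_⟩
    · simp [hnc]
    · intro i hi; omega
  refine (forC_specT (σ0.r .dl) (60000 * s ^ 4 + 10)
    (fun j σ => ∃ I lam, P3A n s I0 σ0 j I lam σ) (fun σ => Ct * (n + 1) * σ.r .nc)
    ?_ ?_ ⟨I0, _, h0⟩).mono ?_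
  · rintro j σ ⟨I, lam, h⟩
    simpa using h.dl
  · rintro j σ hj ⟨I, lam, h⟩ he
    refine (p3aBody_spec hs (fun {_ _ _ _ _} => hCt) hD h hj he).mono ?_
    rintro σ' t ⟨h1, h2, h3⟩ -
    refine ⟨h1, h2, ?_⟩
    simpa [he] using h3
  · rintro σ' t ⟨⟨I, lam, h⟩, h1, h2⟩
    refine ⟨I, lam, h, ?_⟩
    simp only [St.setR_r, reduceCtorEq, if_false, hnc, Nat.mul_zero, Nat.add_zero] at h2
    have e1 : (60000 * s ^ 4 + 10 + 2) = 60000 * s ^ 4 + 12 := by ring
    rw [e1] at h2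
    omega

/-- The list of postponed edges. -/
def Ql (σ : MSt) : Finset (Sym2 ℕ) := listE (σ.m .QA) (σ.m .QB) (σ.r .ql)

/-- Invariant of the loop over the postponed edges. -/
structure P3B (n s : ℕ) (I1 E1 : Finset (Sym2 ℕ)) (σ1 : MSt) (j : ℕ) (I : Finset (Sym2 ℕ))
    (lam : Sym2 ℕ → ℕ) (σ : MSt) : Prop where
  si : SI n s I lam σ
  qa : σ.m .QA = σ1.m .QA
  qb : σ.m .QB = σ1.m .QB
  ql : σ.r .ql = σ1.r .ql
  ev : 2 ≤ s → ∃ Rev Sg, EvInv n s I1 E1 I (Known I lam) Rev Sg ∧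
    σ.r .nc + (LI I1 s).card ≤ σ1.r .nc + Rev.card + Sg.card
  cnt : σ.r .nc ≤ σ1.r .nc + j
  low : I1 ⊆ I
  up : I ⊆ I1 ∪ Ql σ1
  spn : ∀ i < j, Spanned I s(σ1.m .QA i, σ1.m .QB i)

theorem p3bBody_spec {n s Ct : ℕ} {I1 E1 : Finset (Sym2 ℕ)} {σ1 : MSt} {j : ℕ}
    {I : Finset (Sym2 ℕ)} {lam : Sym2 ℕ → ℕ} {σ : MSt} (hCt : TestC Ct)
    (hQ : ∀ i < σ1.r .ql, σ1.m .QA i < n ∧ σ1.m .QB i < n ∧ σ1.m .QA i ≠ σ1.m .QB i ∧
      s * s ≤ deg E1 (σ1.m .QA i) ∧ s * s ≤ deg E1 (σ1.m .QB i))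
    (h : P3B n s I1 E1 σ1 j I lam σ) (hj : j < σ1.r .ql) (he : σ.r .e = j) :
    SpecT p3bBody σ (fun σ' t => σ'.r .e = j ∧
      (∃ I' lam', P3B n s I1 E1 σ1 (j + 1) I' lam' (σ'.setR .e (j + 1))) ∧
      t + Ct * (n + 1) * σ.r .nc ≤ Ct * (n + 1) * σ'.r .nc + 10) := by
  obtain ⟨ha, hb, hab, hda, hdb⟩ := hQ j hj
  set a := σ1.m .QA j with had
  set b := σ1.m .QB j with hbd
  have hua : σ.m .QA j = a := by rw [h.qa]
  have hvb : σ.m .QB j = b := by rw [h.qb]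
  refine SpecT.of_runs (T := Ct * (n + 1) + 10) ?_
  simp only [p3bBody, runs_seq, runs_set, Exp.ev_get, Exp.ev_reg, he, hua]
  refine ⟨by omega, by omega, ?_⟩
  have hv2 : (σ.setR .u a).m .QB ((σ.setR .u a).r .e) = b := by simp [he, hvb]
  have hv3 : ((σ.setR .u a).setR .v ((σ.setR .u a).m .QB ((σ.setR .u a).r .e))) =
      ((σ.setR .u a).setR .v b) := by rw [hv2]
  rw [hv3]
  have hc1 : Cst n s ((σ.setR .u a).setR .v b) := by
    refine ⟨?_, ?_, ?_, ?_, ?_⟩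
    · simpa using h.si.cst.hn
    · simpa using h.si.cst.hnn
    · simpa using h.si.cst.hs
    · simpa using h.si.cst.tw
    · simpa using h.si.cst.ow
  have hsi1 : SI n s I lam ((σ.setR .u a).setR .v b) :=
    h.si.congr hc1 (by simp) (by simp) (by simp) (by simp)
  refine Runs.of_spec (sameComp_spec hsi1 (by simpa using ha) (by simpa using hb)
    (by simpa using hab)).frame (by omega) ?_
  rintro σ2 T2 ⟨h2, hf2⟩ hT2
  have hu2 : σ2.r .u = a := by rw [hf2.r _ (by decide)]; simp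
  have hv2 : σ2.r .v = b := by rw [hf2.r _ (by decide)]; simp
  have he2 : σ2.r .e = j := by rw [hf2.r _ (by decide)]; simp [he]
  have hc2 : Cst n s σ2 := hc1.of_frame hf2 (by decide)
  have hS2 : σ2.m .S = σ.m .S := by rw [hf2.m _ (by decide)]; simp
  have hCI2 : σ2.m .CI = σ.m .CI := by rw [hf2.m _ (by decide)]; simp
  have hE2 : σ2.m .EXC = σ.m .EXC := by rw [hf2.m _ (by decide)]; simp
  have hnc2 : σ2.r .nc = σ.r .nc := by rw [hf2.r _ (by decide)]; simp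
  have hQA2 : σ2.m .QA = σ.m .QA := by rw [hf2.m _ (by decide)]; simp
  have hQB2 : σ2.m .QB = σ.m .QB := by rw [hf2.m _ (by decide)]; simp
  have hql2 : σ2.r .ql = σ.r .ql := by rw [hf2.r _ (by decide)]; simp
  have hsi2 : SI n s I lam σ2 := h.si.congr hc2 hS2 hCI2 hE2 hnc2
  simp only [St.setR_r, if_true, reduceCtorEq, if_false] at h2
  have hsE : ∀ {τ : MSt} {c : ℕ}, Cst n s τ → Cst n s (τ.setR .e c) := by
    intro τ c hτ
    refine ⟨?_, ?_, ?_, ?_, ?_⟩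
    · simpa using hτ.hn
    · simpa using hτ.hnn
    · simpa using hτ.hs
    · simpa using hτ.tw
    · simpa using hτ.ow
  rw [runs_ite]
  refine ⟨by omega, ?_, ?_⟩
  · intro hcnd
    simp only [Cnd.ev_eq, Exp.ev_reg, Exp.ev_num] at hcnd
    rw [runs_skip]
    intro t ht
    have hsp : Spanned I s(a, b) := known_spanned h.si.lab (h2.1 hcnd)
    refine ⟨he2, ⟨I, lam, ⟨h.si.congr (hsE hc2) (by simpa using hS2) (by simpa using hCI2)
      (by simpa using hE2) (by simpa using hnc2), by simpa [hQA2] using h.qa,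
      by simpa [hQB2] using h.qb, by simpa [hql2] using h.ql,
      by simpa [hnc2] using h.ev, by have := h.cnt; simp [hnc2]; omega, h.low, h.up, ?_⟩⟩, ?_⟩
    · intro i hi
      rcases Nat.lt_succ_iff_lt_or_eq.1 hi with h5 | rfl
      · exact h.spn i h5
      · exact hsp
    · rw [hnc2]; omega
  · intro hcnd
    simp only [Cnd.ev_eq, Exp.ev_reg, Exp.ev_num] at hcnd
    refine Runs.of_specT (hCt hsi2 (by rw [hu2]; exact ha) (by rw [hv2]; exact hb)
      (by rw [hu2, hv2]; exact hab)).toSpecT.frame ?_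
    rintro σ4 t4 ⟨⟨ht4, I', U, hI', hU, huU, hvU, hsi4, hnc4⟩, hf4⟩
    rw [hu2, hv2] at hI'
    rw [hu2] at huU
    rw [hv2] at hvU
    rw [hnc2] at hsi4 hnc4
    have hkt := test_keeps
    refine ⟨by omega, fun t ht => ?_⟩
    have he4 : σ4.r .e = j := by rw [hf4.r _ hkt.2.2.2.2.2.1]; exact he2
    have hQA4 : σ4.m .QA = σ.m .QA := by rw [hf4.m _ hkt.2.2.2.2.2.2.2.2.2.2.1]; exact hQA2
    have hQB4 : σ4.m .QB = σ.m .QB := by rw [hf4.m _ hkt.2.2.2.2.2.2.2.2.2.2.2.1]; exact hQB2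
    have hql4 : σ4.r .ql = σ.r .ql := by rw [hf4.r _ hkt.2.2.2.2.1]; exact hql2
    have hII : I ⊆ I' := by
      rcases hI' with h5 | ⟨h5, -⟩
      · rw [h5]
      · rw [h5]; exact subset_insert _ _
    have hspI' : Sparse I' := hsi4.lab.sp
    have heU : s(a, b) ∈ U.sym2 := by rw [Finset.mk_mem_sym2_iff]; exact ⟨huU, hvU⟩
    have hnewU : ∀ e ∈ I', e ∉ I → e ∈ U.sym2 := by
      intro e he' hne
      rcases hI' with h5 | ⟨h5, -⟩
      · rw [h5] at he'; exact absurd he' hne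
      · rw [h5] at he'
        rcases mem_insert.1 he' with rfl | h6
        · exact heU
        · exact absurd h6 hne
    refine ⟨he4, ⟨I', relab lam U (σ.r .nc), ⟨hsi4.congr (hsE hsi4.cst) (by simp) (by simp)
      (by simp) (by simp), by simpa [hQA4] using h.qa, by simpa [hQB4] using h.qb,
      by simpa [hql4] using h.ql, ?_, ?_, h.low.trans hII, ?_, ?_⟩⟩, ?_⟩
    · intro hs2
      obtain ⟨Rev, Sg, hev, hcn⟩ := h.ev hs2
      obtain ⟨Rev', Sg', h6, h7⟩ := EvInv.step hs2 (Kn' := Known I' (relab lam U (σ.r .nc)))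
        (e := s(a, b)) hev (by simpa using hab)
        (by
          intro x hx
          rw [Sym2.mem_iff] at hx
          rcases hx with rfl | rfl
          · exact ⟨ha, hda⟩
          · exact ⟨hb, hdb⟩)
        (by
          rintro ⟨K, hK, hK'⟩
          rw [Finset.mk_mem_sym2_iff] at hK'
          exact hcnd (h2.2 ⟨K, hK, hK'.1, hK'.2⟩))
        hspI' hII (fun K hK => hK.maxTight hsi4.lab)
        (fun K hK => known_old h.si.lab hII hspI' hU hnewU hK)
        ⟨U, known_new h.si.lab hII hspI' hU hnewU, heU⟩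
      refine ⟨Rev', Sg', h6, ?_⟩
      simp only [St.setR_r, reduceCtorEq, if_false, hnc4]
      omega
    · have := h.cnt
      simp only [St.setR_r, reduceCtorEq, if_false, hnc4]
      omega
    · rcases hI' with h5 | ⟨h5, -⟩
      · rw [h5]; exact h.up
      · rw [h5]
        refine insert_subset ?_ h.up
        apply mem_union_right
        unfold Ql
        rw [mem_listE]
        exact ⟨j, hj, rfl⟩
    · intro i hi
      rcases Nat.lt_succ_iff_lt_or_eq.1 hi with h5 | rfl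
      · exact (h.spn i h5).mono hspI' hII
      · exact ⟨U, hU.1, heU⟩
    · have e6 : Ct * (n + 1) * σ4.r .nc = Ct * (n + 1) * σ.r .nc + Ct * (n + 1) := by
        rw [hnc4]; ring
      omega

theorem p3b_spec {n s Ct : ℕ} (hCt : TestC Ct) {I1 E1 : Finset (Sym2 ℕ)} {lam : Sym2 ℕ → ℕ}
    {σ1 : MSt} (hsi : SI n s I1 lam σ1)
    (hQ : ∀ i < σ1.r .ql, σ1.m .QA i < n ∧ σ1.m .QB i < n ∧ σ1.m .QA i ≠ σ1.m .QB i ∧
      s * s ≤ deg E1 (σ1.m .QA i) ∧ s * s ≤ deg E1 (σ1.m .QB i)) :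
    SpecT (forC .e (.reg .ql) p3bBody) σ1 (fun σ' t => ∃ I lam,
      P3B n s I1 E1 σ1 (σ1.r .ql) I lam σ' ∧
      t + Ct * (n + 1) * σ1.r .nc ≤ Ct * (n + 1) * σ'.r .nc + 12 * σ1.r .ql + 2) := by
  have hc0 : Cst n s (σ1.setR .e 0) := by
    refine ⟨?_, ?_, ?_, ?_, ?_⟩
    · simpa using hsi.cst.hn
    · simpa using hsi.cst.hnn
    · simpa using hsi.cst.hs
    · simpa using hsi.cst.tw
    · simpa using hsi.cst.ow
  have h0 : P3B n s I1 E1 σ1 0 I1 lam (σ1.setR .e 0) := by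
    refine ⟨hsi.congr hc0 (by simp) (by simp) (by simp) (by simp), by simp, by simp, by simp,
      ?_, by simp, Subset.refl _, subset_union_left, ?_⟩
    · intro _
      refine ⟨∅, LI I1 s, EvInv.init hsi.lab.sp (fun K hK => hK.maxTight hsi.lab), ?_⟩
      simp
    · intro i hi; omega
  refine (forC_specT (σ1.r .ql) 10
    (fun j σ => ∃ I lam, P3B n s I1 E1 σ1 j I lam σ) (fun σ => Ct * (n + 1) * σ.r .nc)
    ?_ ?_ ⟨I1, _, h0⟩).mono ?_
  · rintro j σ ⟨I, lam, h⟩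
    simpa using h.ql
  · rintro j σ hj ⟨I, lam, h⟩ he
    refine (p3bBody_spec hCt hQ h hj he).mono ?_
    rintro σ' t ⟨h1, h2, h3⟩ -
    refine ⟨h1, h2, ?_⟩
    simpa [he] using h3
  · rintro σ' t ⟨⟨I, lam, h⟩, h1, h2⟩
    refine ⟨I, lam, h, ?_⟩
    simp only [St.setR_r, reduceCtorEq, if_false] at h2
    omega

/-- Bound on the number of tests in the loop over postponed edges. -/
theorem P3B.count {n s : ℕ} {I1 E1 : Finset (Sym2 ℕ)} {σ1 : MSt} {j : ℕ}
    {I : Finset (Sym2 ℕ)} {lam : Sym2 ℕ → ℕ} {σ : MSt} (h : P3B n s I1 E1 σ1 j I lam σ)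
    (hs2 : 2 ≤ s) (hsp : Sparse I1)
    (hn : E1 ⊆ (range n).sym2) (hnd : ∀ e ∈ E1, ¬ e.IsDiag) (hI : I1 ⊆ E1)
    (hE : ∀ e ∈ E1, Spanned I1 e) :
    σ.r .nc * s ≤ σ1.r .nc * s + 24 * n := by
  obtain ⟨Rev, Sg, hev, hcn⟩ := h.ev hs2
  have h1 := large_count hsp (hI.trans hn) (R := Rev) (fun W hW => (hev.rev W hW).1)
  have h2 := rank_gap hsp hn hnd hI hE hev.spS hev.li hev.hU
  have h3 : σ.r .nc ≤ σ1.r .nc + Rev.card + (Sg.card - (LI I1 s).card) := by omega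
  calc σ.r .nc * s ≤ (σ1.r .nc + Rev.card + (Sg.card - (LI I1 s).card)) * s :=
        Nat.mul_le_mul_right _ h3
    _ = σ1.r .nc * s + Rev.card * s + (Sg.card - (LI I1 s).card) * s := by ring
    _ ≤ _ := by omega

end Pool.Agent.H.MP_d01483_lc
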