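import Pool.Agent.H.MP_d01483_lc.Check

set_option linter.unusedSectionVars false
set_option linter.unusedVariables false
set_option linter.unusedSimpArgs false
set_option linter.constructorNameAsVariable false

namespace Pool.Agent.H.MP_d01483_lc

open Finset

/-- Update of a function at one place (the form produced by `St.setM`). -/
def upd (S : ℕ → ℕ) (k c : ℕ) : ℕ → ℕ := fun i => if i = k then c else S i

theorem upd_same (S : ℕ → ℕ) (k c : ℕ) : upd S k c k = c := by simp [upd]
theorem upd_ne (S : ℕ → ℕ) {k i : ℕ} (c : ℕ) (h : i ≠ k) : upd S k c i = S i := by simp [upd, h]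

theorem setM_m_upd (σ : MSt) (a : Arr) (i c : ℕ) : (σ.setM a i c).m a = upd (σ.m a) i c := by
  funext k; simp [upd]

theorem mem_edges {n : ℕ} {S : ℕ → ℕ} {e : Sym2 ℕ} :
    e ∈ edges n S ↔ ∃ k < 2 * n, S k ≠ 0 ∧ edge n S k = e := by
  unfold edges
  simp only [mem_image, mem_filter, mem_range]
  constructor
  · rintro ⟨k, ⟨h1, h2⟩, h3⟩; exact ⟨k, h1, h2, h3⟩
  · rintro ⟨k, h1, h2, h3⟩; exact ⟨k, ⟨h1, h2⟩, h3⟩

theorem edge_mem {n : ℕ} {S : ℕ → ℕ} {k : ℕ} (hk : k < 2 * n) (h : S k ≠ 0) :
    edge n S k ∈ edges n S := mem_edges.2 ⟨k, hk, h, rfl⟩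

theorem WF.head_lt {n : ℕ} {S : ℕ → ℕ} (h : WF n S) {k : ℕ} (hk : k < 2 * n) (h0 : S k ≠ 0) :
    S k - 1 < n := by
  have := h.le k hk
  omega

theorem WF.head_ne {n : ℕ} {S : ℕ → ℕ} (h : WF n S) {k : ℕ} (hk : k < 2 * n) (h0 : S k ≠ 0) :
    own n k ≠ S k - 1 := by
  have := h.noloop k hk
  omega

theorem edge_upd_ne {n : ℕ} {S : ℕ → ℕ} {k i c : ℕ} (h : i ≠ k) :
    edge n (upd S k c) i = edge n S i := by
  simp [edge, upd_ne S c h]

/-- Emptying a slot. -/
theorem WF.clear {n : ℕ} {S : ℕ → ℕ} (h : WF n S) {k : ℕ} (hk : k < 2 * n) (h0 : S k ≠ 0) :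
    WF n (upd S k 0) ∧ edges n (upd S k 0) = (edges n S).erase (edge n S k) := by
  constructor
  · refine ⟨?_, ?_, ?_⟩
    · intro i hi
      by_cases h1 : i = k
      · subst h1; rw [upd_same]; omega
      · rw [upd_ne _ _ h1]; exact h.le i hi
    · intro i hi
      by_cases h1 : i = k
      · subst h1; rw [upd_same]; omega
      · rw [upd_ne _ _ h1]; exact h.noloop i hi
    · intro i hi j hj h1 h2 h3
      have hik : i ≠ k := by rintro rfl; exact h1 (upd_same _ _ _)
      have hjk : j ≠ k := by rintro rfl; exact h2 (upd_same _ _ _)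
      rw [upd_ne _ _ hik] at h1
      rw [upd_ne _ _ hjk] at h2
      rw [edge_upd_ne hik, edge_upd_ne hjk] at h3
      exact h.inj i hi j hj h1 h2 h3
  · ext e
    rw [mem_erase, mem_edges, mem_edges]
    constructor
    · rintro ⟨i, hi, h1, h2⟩
      have hik : i ≠ k := by rintro rfl; exact h1 (upd_same _ _ _)
      rw [upd_ne _ _ hik] at h1
      rw [edge_upd_ne hik] at h2
      refine ⟨?_, i, hi, h1, h2⟩
      rintro rfl
      exact hik (h.inj i hi k hk h1 h0 h2)
    · rintro ⟨h1, i, hi, h2, h3⟩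
      have hik : i ≠ k := by rintro rfl; exact h1 h3.symm
      exact ⟨i, hi, by rw [upd_ne _ _ hik]; exact h2, by rw [edge_upd_ne hik]; exact h3⟩

/-- Filling a free slot. -/
theorem WF.fill {n : ℕ} {S : ℕ → ℕ} (h : WF n S) {k w : ℕ} (hk : k < 2 * n) (h0 : S k = 0)
    (hw : w < n) (hne : own n k ≠ w) (hnew : s(own n k, w) ∉ edges n S) :
    WF n (upd S k (w + 1)) ∧ edges n (upd S k (w + 1)) = insert s(own n k, w) (edges n S) := by
  have hek : edge n (upd S k (w + 1)) k = s(own n k, w) := by simp [edge, upd_same]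
  constructor
  · refine ⟨?_, ?_, ?_⟩
    · intro i hi
      by_cases h1 : i = k
      · subst h1; rw [upd_same]; omega
      · rw [upd_ne _ _ h1]; exact h.le i hi
    · intro i hi
      by_cases h1 : i = k
      · subst h1; rw [upd_same]; omega
      · rw [upd_ne _ _ h1]; exact h.noloop i hi
    · intro i hi j hj h1 h2 h3
      by_cases hik : i = k
      · by_cases hjk : j = k
        · omega
        · exfalso
          subst hik
          rw [hek, edge_upd_ne hjk] at h3
          rw [upd_ne _ _ hjk] at h2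
          apply hnew
          rw [h3]
          exact edge_mem hj h2
      · by_cases hjk : j = k
        · exfalso
          subst hjk
          rw [hek, edge_upd_ne hik] at h3
          rw [upd_ne _ _ hik] at h1
          apply hnew
          rw [← h3]
          exact edge_mem hi h1
        · rw [upd_ne _ _ hik] at h1
          rw [upd_ne _ _ hjk] at h2
          rw [edge_upd_ne hik, edge_upd_ne hjk] at h3
          exact h.inj i hi j hj h1 h2 h3
  · ext e
    rw [mem_insert, mem_edges, mem_edges]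
    constructor
    · rintro ⟨i, hi, h1, h2⟩
      by_cases hik : i = k
      · subst hik; left; rw [← h2, hek]
      · right
        rw [upd_ne _ _ hik] at h1
        rw [edge_upd_ne hik] at h2
        exact ⟨i, hi, h1, h2⟩
    · rintro (rfl | ⟨i, hi, h1, h2⟩)
      · exact ⟨k, hk, by rw [upd_same]; omega, hek⟩
      · have hik : i ≠ k := by rintro rfl; exact h1 h0
        exact ⟨i, hi, by rw [upd_ne _ _ hik]; exact h1, by rw [edge_upd_ne hik]; exact h2⟩

theorem upd_upd (S : ℕ → ℕ) (k c c' : ℕ) : upd (upd S k c) k c' = upd S k c' := by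
  funext i; unfold upd; split_ifs <;> rfl

theorem upd_self (S : ℕ → ℕ) (k : ℕ) : upd S k (S k) = S := by
  funext i; unfold upd; split_ifs with h
  · rw [h]
  · rfl

/-- Replacing the content of an occupied slot. -/
theorem WF.replace {n : ℕ} {S : ℕ → ℕ} (h : WF n S) {k w : ℕ} (hk : k < 2 * n) (h0 : S k ≠ 0)
    (hw : w < n) (hne : own n k ≠ w) (hnew : s(own n k, w) ∉ edges n S) :
    WF n (upd S k (w + 1)) ∧
      edges n (upd S k (w + 1)) = insert s(own n k, w) ((edges n S).erase (edge n S k)) := by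
  obtain ⟨h1, h2⟩ := h.clear hk h0
  have := h1.fill hk (upd_same S k 0) hw hne (by
    rw [h2]; intro hcon; exact hnew (mem_of_mem_erase hcon))
  rwa [upd_upd, h2] at this

/-- Edge list stored in two arrays. -/
def listE (U V : ℕ → ℕ) (len : ℕ) : Finset (Sym2 ℕ) := (range len).image (fun i => s(U i, V i))

theorem listE_push (U V : ℕ → ℕ) (len a b : ℕ) :
    listE (upd U len a) (upd V len b) (len + 1) = insert s(a, b) (listE U V len) := by
  unfold listE
  rw [range_add_one, image_insert, upd_same, upd_same]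
  congr 1
  apply image_congr
  intro i hi
  have : i < len := by simpa using hi
  simp [upd_ne _ _ (show i ≠ len by omega)]

theorem mem_listE {U V : ℕ → ℕ} {len : ℕ} {e : Sym2 ℕ} :
    e ∈ listE U V len ↔ ∃ i < len, s(U i, V i) = e := by
  simp [listE]

end Pool.Agent.H.MP_d01483_lc
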