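import Pool.Agent.H.MP_d01483_lc.Defs

set_option linter.unusedSectionVars false
set_option linter.unusedVariables false

namespace Pool.Agent.H.MP_d01483_lc

open Finset

section
variable {V : Type} [DecidableEq V]

theorem ind_mono {F F' : Finset (Sym2 V)} {Z Z' : Finset V} (hF : F ⊆ F') (hZ : Z ⊆ Z') :
    ind F Z ≤ ind F' Z' := by
  unfold ind
  exact card_le_card (inter_subset_inter hF (Finset.sym2_mono hZ))

theorem ind_submod (F : Finset (Sym2 V)) (X Y : Finset V) :
    ind F X + ind F Y ≤ ind F (X ∪ Y) + ind F (X ∩ Y) := by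
  unfold ind
  rw [← card_union_add_card_inter]
  refine add_le_add (card_le_card ?_) (card_le_card ?_)
  · intro e he
    rw [mem_union, mem_inter, mem_inter] at he
    rw [mem_inter]
    rcases he with ⟨h1, h2⟩ | ⟨h1, h2⟩
    · exact ⟨h1, Finset.sym2_mono subset_union_left h2⟩
    · exact ⟨h1, Finset.sym2_mono subset_union_right h2⟩
  · intro e he
    rw [mem_inter, mem_inter, mem_inter] at he
    rw [mem_inter]
    refine ⟨he.1.1, ?_⟩
    have h1 := he.1.2
    have h2 := he.2.2
    rw [Finset.mem_sym2_iff] at h1 h2 ⊢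
    intro a ha
    exact mem_inter.2 ⟨h1 a ha, h2 a ha⟩

theorem Sparse.subset {F F' : Finset (Sym2 V)} (h : Sparse F') (hF : F ⊆ F') : Sparse F :=
  ⟨fun e he => h.1 e (hF he), fun Z hZ =>
    (Nat.add_le_add_right (ind_mono hF (Subset.refl Z)) 3).trans (h.2 Z hZ)⟩

/-- Every non-loop edge of a sparse set forms a tight pair. -/
theorem tight_pair {F : Finset (Sym2 V)} (h : Sparse F) {a b : V} (he : s(a, b) ∈ F) :
    Tight F {a, b} := by
  have hab : a ≠ b := by
    intro hab
    exact h.1 _ he (by rw [hab]; simp)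
  have hc : ({a, b} : Finset V).card = 2 := card_pair hab
  refine ⟨hc.ge, ?_⟩
  have h1 := h.2 {a, b} hc.ge
  have h2 : 1 ≤ ind F {a, b} := by
    unfold ind
    rw [Nat.one_le_iff_ne_zero, ← Nat.pos_iff_ne_zero, card_pos]
    exact ⟨s(a, b), mem_inter.2 ⟨he, by simp [Finset.mk_mem_sym2_iff]⟩⟩
  omega

theorem spanned_of_mem {F : Finset (Sym2 V)} (h : Sparse F) {e : Sym2 V} (he : e ∈ F) :
    Spanned F e := by
  induction e using Sym2.ind with
  | h a b => exact ⟨{a, b}, tight_pair h he, by simp [Finset.mk_mem_sym2_iff]⟩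

theorem tight_mono {F F' : Finset (Sym2 V)} (h' : Sparse F') (hF : F ⊆ F') {Z : Finset V}
    (hZ : Tight F Z) : Tight F' Z := by
  refine ⟨hZ.1, ?_⟩
  have h1 := h'.2 Z hZ.1
  have h2 := hZ.2
  have h3 : ind F Z ≤ ind F' Z := ind_mono hF (Subset.refl Z)
  omega

theorem Spanned.mono {F F' : Finset (Sym2 V)} (h' : Sparse F') (hF : F ⊆ F') {e : Sym2 V}
    (he : Spanned F e) : Spanned F' e := by
  obtain ⟨Z, h1, h2⟩ := he
  exact ⟨Z, tight_mono h' hF h1, h2⟩

theorem tight_union {F : Finset (Sym2 V)} (h : Sparse F) {X Y : Finset V}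
    (hX : Tight F X) (hY : Tight F Y) (hXY : 2 ≤ (X ∩ Y).card) : Tight F (X ∪ Y) := by
  have h1 := ind_submod F X Y
  have h2 := h.2 (X ∩ Y) hXY
  have h3 := card_union_add_card_inter X Y
  have h4 : X.card ≤ (X ∪ Y).card := card_le_card subset_union_left
  have h5 := hX.1
  have h6 := hX.2
  have h7 := hY.2
  have h8 := h.2 (X ∪ Y) (by omega)
  exact ⟨by omega, by omega⟩

theorem tight_card_le {F : Finset (Sym2 V)} {Z : Finset V} (hZ : Tight F Z) :
    2 * Z.card ≤ F.card + 3 := by
  rw [← hZ.2]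
  have : ind F Z ≤ F.card := card_le_card inter_subset_left
  omega

theorem exists_maxTight {F : Finset (Sym2 V)} (h : Sparse F) {Z : Finset V} (hZ : Tight F Z) :
    ∃ W, MaxTight F W ∧ Z ⊆ W := by
  have key : ∀ k : ℕ, ∀ Z : Finset V, Tight F Z → F.card + 3 ≤ 2 * Z.card + k →
      ∃ W, MaxTight F W ∧ Z ⊆ W := by
    intro k
    induction k with
    | zero =>
      intro Z hZ hk
      refine ⟨Z, ⟨hZ, fun Z' hZ' hsub => ?_⟩, Subset.refl Z⟩
      have h1 := tight_card_le hZ'
      have h2 := card_le_card hsub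
      exact (eq_of_subset_of_card_le hsub (by omega)).symm
    | succ k ih =>
      intro Z hZ hk
      by_cases hmax : MaxTight F Z
      · exact ⟨Z, hmax, Subset.refl Z⟩
      · have : ∃ Z', Tight F Z' ∧ Z ⊆ Z' ∧ Z' ≠ Z := by
          by_contra hcon
          push Not at hcon
          exact hmax ⟨hZ, hcon⟩
        obtain ⟨Z', h1, h2, h3⟩ := this
        have h4 : Z.card < Z'.card := card_lt_card ((Finset.ssubset_iff_subset_ne).2 ⟨h2, h3.symm⟩)
        obtain ⟨W, h5, h6⟩ := ih Z' h1 (by omega)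
        exact ⟨W, h5, h2.trans h6⟩
  exact key (F.card + 3) Z hZ (by omega)

theorem maxTight_inter {F : Finset (Sym2 V)} (h : Sparse F) {X Y : Finset V}
    (hX : MaxTight F X) (hY : MaxTight F Y) (hne : X ≠ Y) : (X ∩ Y).card ≤ 1 := by
  by_contra hcon
  have h1 := tight_union h hX.1 hY.1 (by omega)
  have h2 := hX.2 _ h1 subset_union_left
  have h3 := hY.2 _ h1 subset_union_right
  exact hne (h2.symm.trans h3)

/-- A tight set has every vertex incident with one of its edges. -/
theorem tight_deg {F : Finset (Sym2 V)} (h : Sparse F) {Z : Finset V} (hZ : Tight F Z)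
    {a : V} (ha : a ∈ Z) : ∃ e ∈ F, e ∈ Z.sym2 ∧ a ∈ e := by
  by_contra hcon
  push Not at hcon
  have h1 : ind F Z = ind F (Z.erase a) := by
    unfold ind
    congr 1
    ext e
    simp only [mem_inter]
    constructor
    · rintro ⟨h1, h2⟩
      refine ⟨h1, ?_⟩
      have h3 := hcon e h1 h2
      rw [Finset.mem_sym2_iff] at h2 ⊢
      intro b hb
      refine mem_erase.2 ⟨fun hba => h3 (hba ▸ hb), h2 b hb⟩
    · rintro ⟨h1, h2⟩
      exact ⟨h1, Finset.sym2_mono (erase_subset a Z) h2⟩
  have h2 : (Z.erase a).card = Z.card - 1 := card_erase_of_mem ha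
  have h3 := hZ.1
  have h4 := hZ.2
  rcases Nat.lt_or_ge Z.card 3 with h5 | h5
  · -- |Z| = 2
    have h6 : Z.card = 2 := by omega
    have h7 : ind F (Z.erase a) = 0 := by
      unfold ind
      rw [card_eq_zero, ← not_nonempty_iff_eq_empty]
      rintro ⟨e, he⟩
      rw [mem_inter] at he
      have h8 : (Z.erase a).card = 1 := by omega
      obtain ⟨b, hb⟩ := card_eq_one.1 h8
      rw [hb] at he
      have h9 := he.2
      have h10 := h.1 e he.1
      induction e using Sym2.ind with
      | h x y =>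
        rw [Finset.mk_mem_sym2_iff, mem_singleton, mem_singleton] at h9
        exact h10 (by rw [h9.1, h9.2]; simp)
    omega
  · have h6 := h.2 (Z.erase a) (by omega)
    omega

/-- If `e` is spanned by no tight set, it can be added. -/
theorem sparse_insert {F : Finset (Sym2 V)} (h : Sparse F) {e : Sym2 V} (hd : ¬ e.IsDiag)
    (he : ¬ Spanned F e) : Sparse (insert e F) := by
  refine ⟨fun f hf => ?_, fun Z hZ => ?_⟩
  · rcases mem_insert.1 hf with rfl | hf
    · exact hd
    · exact h.1 f hf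
  · have h1 := h.2 Z hZ
    by_cases heZ : e ∈ Z.sym2
    · have h2 : ind (insert e F) Z ≤ ind F Z + 1 := by
        unfold ind
        rw [insert_inter_of_mem heZ]
        exact card_insert_le _ _
      have h3 : ¬ (ind F Z + 3 = 2 * Z.card) := fun h4 => he ⟨Z, ⟨hZ, h4⟩, heZ⟩
      omega
    · have h2 : ind (insert e F) Z = ind F Z := by
        unfold ind
        rw [insert_inter_of_notMem heZ]
      omega

/-- edge sets of pairwise different maximal tight sets are disjoint -/
theorem sum_ind_le {F : Finset (Sym2 V)} (h : Sparse F) (C : Finset (Finset V))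
    (hC : ∀ W ∈ C, MaxTight F W) (Y : Finset V) (hY : ∀ W ∈ C, W ⊆ Y) :
    ∑ W ∈ C, ind F W ≤ ind F Y := by
  unfold ind
  rw [← card_biUnion]
  · apply card_le_card
    intro e he
    rw [mem_biUnion] at he
    obtain ⟨W, hW, he⟩ := he
    rw [mem_inter] at he ⊢
    exact ⟨he.1, Finset.sym2_mono (hY W hW) he.2⟩
  · intro W hW W' hW' hne
    rw [Function.onFun, disjoint_left]
    intro e he he'
    rw [mem_inter] at he he'
    have h1 := maxTight_inter h (hC W hW) (hC W' hW') hne
    have h2 := h.1 e he.1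
    have h3 := he.2
    have h4 := he'.2
    induction e using Sym2.ind with
    | h x y =>
      rw [Finset.mk_mem_sym2_iff] at h3 h4
      have hxy : x ≠ y := fun hxy => h2 (by rw [hxy]; simp)
      have h5 : ({x, y} : Finset V) ⊆ W ∩ W' := by
        intro z hz
        rw [mem_insert, mem_singleton] at hz
        rcases hz with rfl | rfl
        · exact mem_inter.2 ⟨h3.1, h4.1⟩
        · exact mem_inter.2 ⟨h3.2, h4.2⟩
      have h6 := card_le_card h5
      rw [card_pair hxy] at h6
      omega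

/-- Lemma A.  `U` is a family of maximal tight sets of the sparse set `F`, and every edge of the
sparse set `S` lies inside a member of `U`.  Then every tight set of `S` lies inside a member. -/
theorem lemmaA {F S : Finset (Sym2 V)} (hF : Sparse F) (hS : Sparse S)
    (U : Finset V → Prop) (hU : ∀ W, U W → MaxTight F W)
    (hcov : ∀ e ∈ S, ∃ W, U W ∧ e ∈ W.sym2) {Z : Finset V} (hZ : Tight S Z) :
    ∃ W, U W ∧ Z ⊆ W := by
  classical
  choose! w hw1 hw2 using hcov
  set C : Finset (Finset V) := (S ∩ Z.sym2).image w with hC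
  have hCU : ∀ W ∈ C, U W := by
    intro W hW
    rw [hC, mem_image] at hW
    obtain ⟨e, he, rfl⟩ := hW
    exact hw1 e (mem_inter.1 he).1
  have hC2 : ∀ W ∈ C, 2 ≤ (Z ∩ W).card := by
    intro W hW
    rw [hC, mem_image] at hW
    obtain ⟨e, he, rfl⟩ := hW
    rw [mem_inter] at he
    have h1 := hw2 e he.1
    have h2 := he.2
    have h3 := hS.1 e he.1
    induction e using Sym2.ind with
    | h x y =>
      rw [Finset.mk_mem_sym2_iff] at h1 h2
      have hxy : x ≠ y := fun hxy => h3 (by rw [hxy]; simp)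
      rw [← card_pair hxy]
      apply card_le_card
      intro z hz
      rw [mem_insert, mem_singleton] at hz
      rcases hz with rfl | rfl
      · exact mem_inter.2 ⟨h2.1, h1.1⟩
      · exact mem_inter.2 ⟨h2.2, h1.2⟩
  -- (1) covering of the edges of `S` in `Z`
  have h1 : ind S Z ≤ ∑ W ∈ C, ind S (Z ∩ W) := by
    unfold ind
    refine le_trans (card_le_card ?_) card_biUnion_le
    intro e he
    rw [mem_biUnion]
    refine ⟨w e, mem_image_of_mem w he, ?_⟩
    rw [mem_inter] at he ⊢
    refine ⟨he.1, ?_⟩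
    have h3 := hw2 e he.1
    have h4 := he.2
    rw [Finset.mem_sym2_iff] at h3 h4 ⊢
    intro a ha
    exact mem_inter.2 ⟨h4 a ha, h3 a ha⟩
  have h2 : ∑ W ∈ C, (ind S (Z ∩ W) + 3) ≤ ∑ W ∈ C, 2 * (Z ∩ W).card :=
    sum_le_sum fun W hW => hS.2 _ (hC2 W hW)
  have h3 : ∑ W ∈ C, (ind F W + 3) = ∑ W ∈ C, 2 * W.card :=
    sum_congr rfl fun W hW => (hU W (hCU W hW)).1.2
  have h4 : ∑ W ∈ C, W.card = ∑ W ∈ C, (Z ∩ W).card + ∑ W ∈ C, (W \ Z).card := by
    rw [← sum_add_distrib]
    refine sum_congr rfl fun W _ => ?_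
    rw [inter_comm, add_comm]
    exact (card_sdiff_add_card_inter W Z).symm
  set Y : Finset V := Z ∪ C.biUnion (fun W => W) with hY
  have hWY : ∀ W ∈ C, W ⊆ Y := by
    intro W hW
    rw [hY]
    exact (subset_biUnion_of_mem (fun W => W) hW).trans subset_union_right
  have h5 : ∑ W ∈ C, ind F W ≤ ind F Y := sum_ind_le hF C (fun W hW => hU W (hCU W hW)) Y hWY
  have h6 : Y.card ≤ Z.card + ∑ W ∈ C, (W \ Z).card := by
    have : Y ⊆ Z ∪ C.biUnion (fun W => W \ Z) := by
      intro y hy
      rw [hY, mem_union, mem_biUnion] at hy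
      rw [mem_union, mem_biUnion]
      by_cases hyZ : y ∈ Z
      · exact Or.inl hyZ
      · rcases hy with hy | ⟨W, hW, hyW⟩
        · exact absurd hy hyZ
        · exact Or.inr ⟨W, hW, mem_sdiff.2 ⟨hyW, hyZ⟩⟩
    exact (card_le_card this).trans ((card_union_le _ _).trans
      (Nat.add_le_add_left card_biUnion_le _))
  have hZY : Z.card ≤ Y.card := card_le_card subset_union_left
  have h7 := hZ.1
  have h8 := hZ.2
  have h9 := hF.2 Y (by omega)
  simp only [sum_add_distrib, sum_const, smul_eq_mul, ← mul_sum] at h2 h3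
  have hYt : Tight F Y := ⟨by omega, by omega⟩
  have hne : C.Nonempty := by
    rw [hC, image_nonempty, ← card_pos]
    change 0 < ind S Z
    omega
  obtain ⟨W, hW⟩ := hne
  refine ⟨W, hCU W hW, ?_⟩
  have h10 := (hU W (hCU W hW)).2 Y hYt (hWY W hW)
  rw [← h10]
  exact subset_union_left

/-- Lemma B (cover bound).  If every edge of the sparse set `S` is spanned by the sparse set `F`
then `|S| ≤ |F|`. -/
theorem lemmaB {F S : Finset (Sym2 V)} (hF : Sparse F) (hS : Sparse S)
    (hcov : ∀ e ∈ S, Spanned F e) : S.card ≤ F.card := by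
  classical
  have hcov' : ∀ e ∈ S, ∃ W, MaxTight F W ∧ e ∈ W.sym2 := by
    intro e he
    obtain ⟨Z, hZ, heZ⟩ := hcov e he
    obtain ⟨W, hW, hZW⟩ := exists_maxTight hF hZ
    exact ⟨W, hW, Finset.sym2_mono hZW heZ⟩
  choose! w hw1 hw2 using hcov'
  set C : Finset (Finset V) := S.image w with hC
  have hCU : ∀ W ∈ C, MaxTight F W := by
    intro W hW
    rw [hC, mem_image] at hW
    obtain ⟨e, he, rfl⟩ := hW
    exact hw1 e he
  have h1 : S.card ≤ ∑ W ∈ C, ind S W := by
    unfold ind
    refine le_trans (card_le_card ?_) card_biUnion_le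
    intro e he
    rw [mem_biUnion]
    exact ⟨w e, mem_image_of_mem w he, mem_inter.2 ⟨he, hw2 e he⟩⟩
  have h2 : ∑ W ∈ C, ind S W ≤ ∑ W ∈ C, ind F W := by
    refine sum_le_sum fun W hW => ?_
    have h3 := (hCU W hW).1
    have h4 := hS.2 W h3.1
    have h5 := h3.2
    omega
  have h3 : ∑ W ∈ C, ind F W ≤ ind F (C.biUnion (fun W => W)) :=
    sum_ind_le hF C hCU _ (fun W hW => subset_biUnion_of_mem (fun W => W) hW)
  have h4 : ind F (C.biUnion (fun W => W)) ≤ F.card := card_le_card inter_subset_left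
  omega

/-- Spans are transitive. -/
theorem spanned_trans {F S : Finset (Sym2 V)} (hF : Sparse F) (hS : Sparse S)
    (hcov : ∀ e ∈ S, Spanned F e) {e : Sym2 V} (he : Spanned S e) : Spanned F e := by
  obtain ⟨Z, hZ, heZ⟩ := he
  obtain ⟨W, hW, hZW⟩ := lemmaA hF hS (MaxTight F) (fun _ h => h) (by
    intro e he
    obtain ⟨Z, hZ, heZ⟩ := hcov e he
    obtain ⟨W, hW, hZW⟩ := exists_maxTight hF hZ
    exact ⟨W, hW, Finset.sym2_mono hZW heZ⟩) hZ
  exact ⟨W, hW.1, Finset.sym2_mono hZW heZ⟩

/-- Existence of a maximal sparse subset. -/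
theorem exists_base (K : Finset (Sym2 V)) (hK : ∀ e ∈ K, ¬ e.IsDiag) :
    ∃ B ⊆ K, Sparse B ∧ ∀ e ∈ K, Spanned B e := by
  classical
  have hne : (K.powerset.filter (fun B => Sparse B)).Nonempty := by
    refine ⟨∅, mem_filter.2 ⟨empty_mem_powerset K, ⟨by simp, fun Z hZ => ?_⟩⟩⟩
    have : ind (∅ : Finset (Sym2 V)) Z = 0 := by simp [ind]
    omega
  obtain ⟨B, hB, hmax⟩ := exists_max_image _ Finset.card hne
  rw [mem_filter, mem_powerset] at hB
  refine ⟨B, hB.1, hB.2, fun e he => ?_⟩
  by_contra hcon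
  have heB : e ∉ B := fun h => hcon (spanned_of_mem hB.2 h)
  have h1 := sparse_insert hB.2 (hK e he) hcon
  have h2 := hmax (insert e B) (mem_filter.2 ⟨mem_powerset.2 (insert_subset he hB.1), h1⟩)
  rw [card_insert_of_notMem heB] at h2
  omega

end

end Pool.Agent.H.MP_d01483_lc
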