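import Pool.Agent.H.MP_d01483_lc.TestPure

set_option linter.unusedSectionVars false
set_option linter.unusedVariables false
set_option linter.unusedSimpArgs false
set_option linter.constructorNameAsVariable false

namespace Pool.Agent.H.MP_d01483_lc

open Finset

/-- Slots and labels represent the edge set `I` with labelling `lam`. -/
structure SI (n s : ℕ) (I : Finset (Sym2 ℕ)) (lam : Sym2 ℕ → ℕ) (σ : MSt) : Prop where
  cst : Cst n s σ
  wf : WF n (σ.m .S)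
  ed : edges n (σ.m .S) = I
  ci : ∀ k < 2 * n, σ.m .S k ≠ 0 → σ.m .CI k = lam (edge n (σ.m .S) k)
  ci0 : ∀ k < 2 * n, σ.m .S k = 0 → σ.m .CI k = 0
  lab : LabOK I lam (σ.r .nc)
  exc0 : ∀ c, σ.r .nc < c → σ.m .EXC c = 0
  excV : ∀ e ∈ I, lam e ≠ 0 → σ.m .EXC (lam e) ≠ 0 →
    σ.m .EXC (lam e) - 1 ∈ VL I lam (lam e)
  exc : ∀ e ∈ I, lam e ≠ 0 → ∀ w ∈ VL I lam (lam e),
    σ.m .CI w = lam e ∨ σ.m .CI (w + n) = lam e ∨ σ.m .EXC (lam e) = w + 1

/-- Sets register `same` to `1` iff `u` and `v` lie in a known maximal tight set. -/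
def sameComp : MCmd :=
  .seq (.set .ca (.get .CI (.reg .u))) <|
  .seq (.set .cb (.get .CI (.get .TW (.reg .u)))) <|
  .seq (.set .cc (.get .CI (.reg .v))) <|
  .seq (.set .cd (.get .CI (.get .TW (.reg .v)))) <|
  .ite (.or (.or
      (.and (.neg (.eq (.reg .ca) (.num 0))) (.or (.eq (.reg .ca) (.reg .cc))
        (.or (.eq (.reg .ca) (.reg .cd)) (.eq (.get .EXC (.reg .ca)) (.inc (.reg .v))))))
      (.and (.neg (.eq (.reg .cb) (.num 0))) (.or (.eq (.reg .cb) (.reg .cc))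
        (.or (.eq (.reg .cb) (.reg .cd)) (.eq (.get .EXC (.reg .cb)) (.inc (.reg .v)))))))
    (.or
      (.and (.neg (.eq (.reg .cc) (.num 0))) (.eq (.get .EXC (.reg .cc)) (.inc (.reg .u))))
      (.and (.neg (.eq (.reg .cd) (.num 0))) (.eq (.get .EXC (.reg .cd)) (.inc (.reg .u))))))
    (.set .same (.num 1)) (.set .same (.num 0))

theorem SI.slot {n s : ℕ} {I : Finset (Sym2 ℕ)} {lam : Sym2 ℕ → ℕ} {σ : MSt}
    (h : SI n s I lam σ) {k : ℕ} (hk : k < 2 * n) (hc : σ.m .CI k ≠ 0) :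
    ∃ f ∈ I, lam f = σ.m .CI k ∧ own n k ∈ VL I lam (σ.m .CI k) := by
  have hS : σ.m .S k ≠ 0 := fun h0 => hc (h.ci0 k hk h0)
  have h1 := h.ci k hk hS
  have h2 : edge n (σ.m .S) k ∈ I := by
    rw [← h.ed]
    exact edge_mem hk hS
  refine ⟨edge n (σ.m .S) k, h2, h1.symm, ?_⟩
  rw [h1]
  refine mem_VL.2 ⟨_, h2, rfl, ?_⟩
  unfold edge
  simp

theorem sameComp_spec {n s : ℕ} {I : Finset (Sym2 ℕ)} {lam : Sym2 ℕ → ℕ} {σ : MSt}
    (h : SI n s I lam σ) (hu : σ.r .u < n) (hv : σ.r .v < n) (huv : σ.r .u ≠ σ.r .v) :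
    Spec sameComp σ 6 (fun σ' =>
      (σ'.r .same = 1 ↔ ∃ K, Known I lam K ∧ σ.r .u ∈ K ∧ σ.r .v ∈ K)) := by
  have htu := h.cst.tw _ hu
  have htv := h.cst.tw _ hv
  obtain ⟨u, hu'⟩ : ∃ u, σ.r .u = u := ⟨_, rfl⟩
  obtain ⟨v, hv'⟩ : ∃ v, σ.r .v = v := ⟨_, rfl⟩
  rw [hu'] at hu huv htu
  rw [hv'] at hv huv htv
  have hou := own_lt n u hu
  have hou' := own_add n u hu
  have hov := own_lt n v hv
  have hov' := own_add n v hv
  have key : (((¬ σ.m .CI u = 0 ∧ (σ.m .CI u = σ.m .CI v ∨ σ.m .CI u = σ.m .CI (v + n) ∨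
        σ.m .EXC (σ.m .CI u) = v + 1)) ∨
      (¬ σ.m .CI (u + n) = 0 ∧ (σ.m .CI (u + n) = σ.m .CI v ∨
        σ.m .CI (u + n) = σ.m .CI (v + n) ∨ σ.m .EXC (σ.m .CI (u + n)) = v + 1))) ∨
      ((¬ σ.m .CI v = 0 ∧ σ.m .EXC (σ.m .CI v) = u + 1) ∨
      (¬ σ.m .CI (v + n) = 0 ∧ σ.m .EXC (σ.m .CI (v + n)) = u + 1))) ↔
      ∃ K, Known I lam K ∧ u ∈ K ∧ v ∈ K := by
    constructor
    · -- a slot of a vertex in a class
      have hcl : ∀ k < 2 * n, σ.m .CI k ≠ 0 → ∀ w, (∃ k' < 2 * n, own n k' = w ∧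
          σ.m .CI k' = σ.m .CI k) ∨ σ.m .EXC (σ.m .CI k) = w + 1 →
          ∃ K, Known I lam K ∧ own n k ∈ K ∧ w ∈ K := by
        intro k hk h0 w hw
        obtain ⟨f, hf, hlf, hm⟩ := h.slot hk h0
        refine ⟨VL I lam (σ.m .CI k), ⟨f, hf, by rw [hlf]; exact h0, by rw [hlf]⟩, hm, ?_⟩
        rcases hw with ⟨k', hk', ho, hc⟩ | hw
        · obtain ⟨f', hf', hlf', hm'⟩ := h.slot hk' (by rw [hc]; exact h0)
          rw [ho, hc] at hm'
          exact hm'
        · have h1 := h.excV f hf (by rw [hlf]; exact h0) (by rw [hlf, hw]; omega)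
          rw [hlf, hw, Nat.add_sub_cancel] at h1
          exact h1
      rintro ((⟨h0, h1⟩ | ⟨h0, h1⟩) | (⟨h0, h1⟩ | ⟨h0, h1⟩))
      · obtain ⟨K, hK, g1, g2⟩ := hcl u (by omega) h0 v (by
          rcases h1 with h1 | h1 | h1
          · exact Or.inl ⟨v, by omega, hov, h1.symm⟩
          · exact Or.inl ⟨v + n, by omega, hov', h1.symm⟩
          · exact Or.inr h1)
        rw [hou] at g1
        exact ⟨K, hK, g1, g2⟩
      · obtain ⟨K, hK, g1, g2⟩ := hcl (u + n) (by omega) h0 v (by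
          rcases h1 with h1 | h1 | h1
          · exact Or.inl ⟨v, by omega, hov, h1.symm⟩
          · exact Or.inl ⟨v + n, by omega, hov', h1.symm⟩
          · exact Or.inr h1)
        rw [hou'] at g1
        exact ⟨K, hK, g1, g2⟩
      · obtain ⟨K, hK, g1, g2⟩ := hcl v (by omega) h0 u (Or.inr h1)
        rw [hov] at g1
        exact ⟨K, hK, g2, g1⟩
      · obtain ⟨K, hK, g1, g2⟩ := hcl (v + n) (by omega) h0 u (Or.inr h1)
        rw [hov'] at g1
        exact ⟨K, hK, g2, g1⟩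
    · rintro ⟨K, ⟨f, hf, hf0, rfl⟩, g1, g2⟩
      have e1 := h.exc f hf hf0 u g1
      have e2 := h.exc f hf hf0 v g2
      rcases e1 with e1 | e1 | e1
      · left; left
        rw [e1]
        refine ⟨hf0, ?_⟩
        rcases e2 with e2 | e2 | e2
        · exact Or.inl e2.symm
        · exact Or.inr (Or.inl e2.symm)
        · exact Or.inr (Or.inr e2)
      · left; right
        rw [e1]
        refine ⟨hf0, ?_⟩
        rcases e2 with e2 | e2 | e2
        · exact Or.inl e2.symm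
        · exact Or.inr (Or.inl e2.symm)
        · exact Or.inr (Or.inr e2)
      · right
        rcases e2 with e2 | e2 | e2
        · left
          rw [e2]
          exact ⟨hf0, e1⟩
        · right
          rw [e2]
          exact ⟨hf0, e1⟩
        · omega
  apply Spec.of_runs
  simp only [sameComp, runs_seq, runs_set, runs_ite, Exp.ev_get, Exp.ev_reg, Exp.ev_num,
    Exp.ev_inc, Cnd.ev_and, Cnd.ev_or, Cnd.ev_neg, Cnd.ev_eq, St.setR_r, St.setR_m, reduceCtorEq,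
    if_false, if_true, hu', hv', htu, htv]
  refine ⟨by omega, by omega, by omega, by omega, by omega, ?_, ?_⟩
  · intro hb
    refine ⟨by omega, ?_⟩
    simp only [true_iff]
    exact key.1 hb
  · intro hb
    refine ⟨by omega, ?_⟩
    constructor
    · intro hc
      simp at hc
    · intro hc
      exact absurd (key.2 hc) hb

/-! ### reversal of a search path -/

/-- Move the pending edge `s(x-1, cur)` (label `g`) into the next slot on the path. -/
def revBody : MCmd :=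
  .seq (.set .k (.dec (.get .PI (.reg .cur)))) <|
  .seq (.set .oth (.dec (.get .S (.reg .k)))) <|
  .seq (.set .c (.get .CI (.reg .k))) <|
  .seq (.put .S (.reg .k) (.reg .x)) <|
  .seq (.put .CI (.reg .k) (.reg .g)) <|
  .seq (.set .x (.inc (.reg .cur))) <|
  .seq (.set .g (.reg .c)) <|
  .set .cur (.reg .oth)

/-- Store the pending edge in a free slot of the root `cur`. -/
def revLast : MCmd :=
  .seq (.set .k (.reg .cur)) <|
  .seq (.ite (.eq (.get .S (.reg .k)) (.num 0)) .skip (.set .k (.get .TW (.reg .cur)))) <|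
  .seq (.put .S (.reg .k) (.reg .x)) <|
  .put .CI (.reg .k) (.reg .g)

/-- Reverse the search path which starts at `cur`. -/
def rev : MCmd :=
  .seq (.set .x (.num 0)) <|
  .seq (.set .g (.num 0)) <|
  .seq revBody <|
  .seq (.whl (.neg (.eq (.get .PI (.reg .cur)) (.num 0))) revBody) revLast

theorem revBody_spec (σ : MSt) :
    Spec revBody σ 8 (fun σ' =>
      σ'.m .S = upd (σ.m .S) (σ.m .PI (σ.r .cur) - 1) (σ.r .x) ∧
      σ'.m .CI = upd (σ.m .CI) (σ.m .PI (σ.r .cur) - 1) (σ.r .g) ∧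
      σ'.r .cur = σ.m .S (σ.m .PI (σ.r .cur) - 1) - 1 ∧
      σ'.r .x = σ.r .cur + 1 ∧ σ'.r .g = σ.m .CI (σ.m .PI (σ.r .cur) - 1)) := by
  apply Spec.of_runs
  simp only [revBody, runs_seq, runs_set, runs_put, Exp.ev_get, Exp.ev_reg, Exp.ev_dec, Exp.ev_inc,
    St.setR_r, St.setR_m, St.setM_r, reduceCtorEq, if_false, if_true]
  refine ⟨by omega, by omega, by omega, by omega, by omega, by omega, by omega, by omega, ?_, ?_,
    trivial, trivial, trivial⟩
  · funext i; simp [upd]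
  · funext i; simp [upd]

theorem revLast_spec {n s : ℕ} {σ : MSt} (hc : Cst n s σ) (hcur : σ.r .cur < n) :
    Spec revLast σ 5 (fun σ' => ∃ k, k = (if σ.m .S (σ.r .cur) = 0 then σ.r .cur
        else σ.r .cur + n) ∧
      σ'.m .S = upd (σ.m .S) k (σ.r .x) ∧ σ'.m .CI = upd (σ.m .CI) k (σ.r .g)) := by
  have htw := hc.tw _ hcur
  apply Spec.of_runs
  simp only [revLast, runs_seq, runs_set, runs_ite, runs_skip, runs_put, Exp.ev_get, Exp.ev_reg,
    Exp.ev_num, Cnd.ev_eq, St.setR_r, St.setR_m, St.setM_r, reduceCtorEq, if_false, if_true]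
  refine ⟨by omega, by omega, ?_, ?_⟩
  · intro h0
    refine ⟨by omega, by omega, σ.r .cur, by rw [if_pos h0], ?_, ?_⟩
    · funext i; simp [upd]
    · funext i; simp [upd]
  · intro h0
    refine ⟨by omega, by omega, by omega, σ.r .cur + n, by rw [if_neg h0], ?_, ?_⟩
    · funext i; simp [upd, htw]
    · funext i; simp [upd, htw]

theorem rev_spec {n s : ℕ} {σ : MSt} {lam : Sym2 ℕ → ℕ} {M : Finset ℕ} {a b : ℕ} {rk : ℕ → ℕ}
    (hc : Cst n s σ) (T : Tree n (σ.m .S) (σ.m .PI) M a b rk) (hwf : WF n (σ.m .S))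
    (ci : ∀ k < 2 * n, σ.m .S k ≠ 0 → σ.m .CI k = lam (edge n (σ.m .S) k))
    (ci0 : ∀ k < 2 * n, σ.m .S k = 0 → σ.m .CI k = 0) (hcur : σ.r .cur ∈ M)
    (hpi : σ.m .PI (σ.r .cur) ≠ 0) :
    Spec rev σ (9 * n + 16) (fun σ' => ∃ k0 < 2 * n, own n k0 = σ.r .cur ∧ σ.m .S k0 ≠ 0 ∧
      RevR n (σ.m .S) lam a b k0 (σ'.m .S) (σ'.m .CI)) := by
  rcases T.pi _ hcur with ⟨h0, -⟩ | ⟨k0, hk0, h1, h2, h3, h4, h5⟩
  · exact absurd h0 hpi
  have hlt := T.lt _ hcur
  apply Spec.of_runs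
  unfold rev
  rw [runs_seq, runs_set]
  refine ⟨by omega, ?_⟩
  rw [runs_seq, runs_set]
  refine ⟨by omega, ?_⟩
  rw [runs_seq]
  refine Runs.of_spec (revBody_spec _).frame (by omega) ?_
  rintro σ1 T1 ⟨⟨a1, a2, a3, a4, a5⟩, hf1⟩ hT1
  simp only [Exp.ev_num, St.setR_r, St.setR_m, reduceCtorEq, if_false, if_true, h1,
    Nat.add_sub_cancel] at a1 a2 a3 a4 a5
  have hc1 : Cst n s σ1 := by
    refine Cst.of_frame (c := revBody) (σ := (σ.setR .x 0).setR .g 0) ?_ hf1 (by decide)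
    exact ⟨by simpa using hc.hn, by simpa using hc.hnn, by simpa using hc.hs, hc.tw, hc.ow⟩
  have hPI1 : σ1.m .PI = σ.m .PI := hf1.m _ (by decide)
  have hI1 : RevI n (σ.m .S) lam M rk k0 (σ1.m .S) (σ1.m .CI) (σ1.r .cur) (σ1.r .x)
      (σ1.r .g) := by
    have := RevI.first T hwf ci ci0 hk0 h3 h4 (by rw [h2]; exact h5)
    rw [h2] at this
    rw [a1, a2, a3, a4, a5]
    exact this
  rw [runs_seq]
  have hloop : Spec (.whl (.neg (.eq (.get .PI (.reg .cur)) (.num 0))) revBody) σ1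
      ((8 + 1) * rk (σ1.r .cur) + 1) (fun σ' => (Cst n s σ' ∧ σ'.m .PI = σ.m .PI ∧
        RevI n (σ.m .S) lam M rk k0 (σ'.m .S) (σ'.m .CI) (σ'.r .cur) (σ'.r .x) (σ'.r .g)) ∧
        σ'.m .PI (σ'.r .cur) = 0) := by
    refine (Spec.whl (fun σ' => Cst n s σ' ∧ σ'.m .PI = σ.m .PI ∧
        RevI n (σ.m .S) lam M rk k0 (σ'.m .S) (σ'.m .CI) (σ'.r .cur) (σ'.r .x) (σ'.r .g))
      (fun σ' => rk (σ'.r .cur)) 8 ?_ ⟨hc1, hPI1, hI1⟩).mono le_rfl ?_
    · rintro σ2 ⟨g1, g2, g3⟩ hb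
      simp only [Cnd.ev_neg, Cnd.ev_eq, Exp.ev_get, Exp.ev_reg, Exp.ev_num] at hb
      refine (revBody_spec σ2).mono le_rfl ?_
      rintro σ3 ⟨b1, b2, b3, b4, b5⟩ hf3
      rw [g2] at hb b1 b2 b3 b5
      obtain ⟨e1, e2⟩ := RevI.next T g3 hb
      refine ⟨⟨g1.of_frame hf3 (by decide), ?_, ?_⟩, ?_⟩
      · rw [hf3.m _ (by decide), g2]
      · rw [b1, b2, b3, b4, b5]
        exact e1
      · rw [b3]
        exact e2
    · rintro σ2 ⟨g1, g2⟩
      simp only [Cnd.ev_neg, Cnd.ev_eq, Exp.ev_get, Exp.ev_reg, Exp.ev_num, not_not] at g2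
      exact ⟨g1, g2⟩
  have hrk1 : rk (σ1.r .cur) < rk (σ.r .cur) := by
    rw [a3]
    exact h5
  refine Runs.of_spec hloop (by omega) ?_
  rintro σ2 T2 ⟨⟨g1, g2, g3⟩, g4⟩ hT2
  have hcn2 : σ2.r .cur < n := mem_range.1 (T.sub g3.mem)
  refine Runs.of_spec (revLast_spec g1 hcn2) (by omega) ?_
  rintro σ3 T3 ⟨k, e1, e2, e3⟩ hT3
  refine ⟨k0, hk0, h2, h3, ?_⟩
  rw [e2, e3]
  rw [g2] at g4
  exact RevI.last T g3 g4 k e1

/-! ### the search loop -/

/-- One search, followed by a path reversal from `u` or `v` if possible. -/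
def tBody : MCmd :=
  .seq (.set .xu (.reg .u)) <|
  .seq (.set .xv (.reg .v)) <|
  .seq bfs <|
  .ite (.eq (.get .MB (.reg .u)) (.num 1)) (.seq (.set .cur (.reg .u)) rev) <|
  .ite (.eq (.get .MB (.reg .v)) (.num 1)) (.seq (.set .cur (.reg .v)) rev)
    (.set .done (.num 1))

/-- Collect free slots at `u` and `v` as long as possible. -/
def tLoop : MCmd :=
  .seq (.set .done (.num 0)) (.whl (.eq (.reg .done) (.num 0)) tBody)

/-- The marks describe the marked set. -/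
def LoopEnd (n u v : ℕ) (σ : MSt) : Prop :=
  ∃ M rk, Tree n (σ.m .S) (σ.m .PI) M u v rk ∧ u ∉ M ∧ v ∉ M ∧
    ∀ x < n, σ.m .MB x = if x ∈ M then 1 else 0

/-- Invariant of the search loop. -/
structure TI (n s : ℕ) (I : Finset (Sym2 ℕ)) (lam : Sym2 ℕ → ℕ) (u v nc : ℕ) (EXC : ℕ → ℕ)
    (σ : MSt) : Prop where
  cst : Cst n s σ
  hu : σ.r .u = u
  hv : σ.r .v = v
  hnc : σ.r .nc = nc
  hexc : σ.m .EXC = EXC
  wf : WF n (σ.m .S)
  ed : edges n (σ.m .S) = I
  ci : ∀ k < 2 * n, σ.m .S k ≠ 0 → σ.m .CI k = lam (edge n (σ.m .S) k)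
  ci0 : ∀ k < 2 * n, σ.m .S k = 0 → σ.m .CI k = 0

theorem bfs_keeps : Keeps bfs = true := by decide
theorem rev_keeps : Keeps rev = true := by decide
theorem tBody_keeps : Keeps tBody = true := by decide

/-- Measure of the search loop. -/
def tmu (n u v : ℕ) (σ : MSt) : ℕ := if σ.r .done = 0 then 5 - nf n (σ.m .S) u v else 0

theorem TI.after_rev {n s : ℕ} {I : Finset (Sym2 ℕ)} {lam : Sym2 ℕ → ℕ} {u v nc : ℕ}
    {EXC : ℕ → ℕ} {σ0 : MSt} (h : TI n s I lam u v nc EXC σ0) (hun : u < n) (hvn : v < n)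
    (hd : σ0.r .done = 0) {σ : MSt} (hc : Cst n s σ)
    (hS : σ.m .S = σ0.m .S) (hCI : σ.m .CI = σ0.m .CI) (hru : σ.r .u = u) (hrv : σ.r .v = v)
    (hrnc : σ.r .nc = nc) (hE : σ.m .EXC = EXC) (hdone : σ.r .done = 0) {M : Finset ℕ}
    {rk : ℕ → ℕ} (T : Tree n (σ0.m .S) (σ.m .PI) M u v rk) {w : ℕ} (hw : w = u ∨ w = v)
    (hcur : σ.r .cur = w) (hwM : w ∈ M) :
    Spec rev σ (9 * n + 16) (fun σ' => (TI n s I lam u v nc EXC σ' ∧
      (σ'.r .done = 0 ∨ LoopEnd n u v σ')) ∧ tmu n u v σ' < tmu n u v σ0) := by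
  have hpi : σ.m .PI (σ.r .cur) ≠ 0 := by
    intro h0
    rw [hcur] at h0
    rcases T.pi w hwM with ⟨-, h1⟩ | ⟨k, hk, h1, -⟩
    · rcases hw with rfl | rfl
      · exact h1.2.1 rfl
      · exact h1.2.2 rfl
    · omega
  have T' : Tree n (σ.m .S) (σ.m .PI) M u v rk := by rw [hS]; exact T
  refine (rev_spec (lam := lam) hc T' (by rw [hS]; exact h.wf)
    (by rw [hS, hCI]; exact h.ci) (by rw [hS, hCI]; exact h.ci0)
    (by rw [hcur]; exact hwM) hpi).frame.mono le_rfl ?_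
  rintro σ' ⟨⟨k0, hk0, ho, hSk, R⟩, hf⟩
  have hnf := R.nf hk0 hSk (by
    rw [ho, hcur]
    rcases hw with hw | hw
    · exact Or.inl hw
    · exact Or.inr hw)
  have hdone' : σ'.r .done = 0 := by rw [hf.r _ (by decide)]; exact hdone
  have hle : nf n (σ'.m .S) u v ≤ 4 := nf_le hun hvn
  refine ⟨⟨⟨hc.of_frame hf rev_keeps, ?_, ?_, ?_, ?_, R.wf, ?_, R.ci, R.ci0⟩, Or.inl hdone'⟩, ?_⟩
  · rw [hf.r _ (by decide)]; exact hru
  · rw [hf.r _ (by decide)]; exact hrv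
  · rw [hf.r _ (by decide)]; exact hrnc
  · rw [hf.m _ (by decide)]; exact hE
  · rw [R.ed, hS]; exact h.ed
  · unfold tmu
    rw [if_pos hdone', if_pos hd]
    rw [hS] at hnf
    omega

theorem tBody_spec {n s : ℕ} {I : Finset (Sym2 ℕ)} {lam : Sym2 ℕ → ℕ} {u v nc : ℕ}
    {EXC : ℕ → ℕ} {σ : MSt} (h : TI n s I lam u v nc EXC σ) (hun : u < n) (hvn : v < n)
    (hd : σ.r .done = 0) :
    Spec tBody σ (50 * n + 40) (fun σ' => (TI n s I lam u v nc EXC σ' ∧
      (σ'.r .done = 0 ∨ LoopEnd n u v σ')) ∧ tmu n u v σ' < tmu n u v σ) := by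
  apply Spec.of_runs
  unfold tBody
  rw [runs_seq, runs_set]
  refine ⟨by omega, ?_⟩
  rw [runs_seq, runs_set]
  refine ⟨by omega, ?_⟩
  rw [runs_seq]
  set σ1 := (σ.setR .xu ((Exp.reg .u : MExp).ev σ)).setR .xv
    ((Exp.reg .v : MExp).ev (σ.setR .xu ((Exp.reg .u : MExp).ev σ))) with hσ1
  have hc1 : Cst n s σ1 := ⟨by simpa [hσ1] using h.cst.hn, by simpa [hσ1] using h.cst.hnn,
    by simpa [hσ1] using h.cst.hs, h.cst.tw, h.cst.ow⟩
  have hm1 : σ1.m = σ.m := rfl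
  have hxu : σ1.r .xu = u := by simp [hσ1, h.hu]
  have hxv : σ1.r .xv = v := by simp [hσ1, h.hv]
  have hu1 : σ1.r .u = u := by simp [hσ1, h.hu]
  have hv1 : σ1.r .v = v := by simp [hσ1, h.hv]
  have hnc1 : σ1.r .nc = nc := by simp [hσ1, h.hnc]
  have hd1 : σ1.r .done = 0 := by simp [hσ1, hd]
  refine Runs.of_spec (bfs_spec hc1 (by rw [hm1]; exact h.wf.le)).frame (by omega) ?_
  rintro σ2 T2 ⟨⟨M, hM⟩, hf2⟩ hT2
  obtain ⟨rk, T⟩ := tree_of_bfs hM
  rw [hm1, hxu, hxv] at T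
  have hc2 := hc1.of_frame hf2 bfs_keeps
  have hS2 : σ2.m .S = σ.m .S := hf2.m _ (by decide)
  have hCI2 : σ2.m .CI = σ.m .CI := hf2.m _ (by decide)
  have hE2 : σ2.m .EXC = EXC := (hf2.m _ (by decide)).trans h.hexc
  have hu2 : σ2.r .u = u := (hf2.r _ (by decide)).trans hu1
  have hv2 : σ2.r .v = v := (hf2.r _ (by decide)).trans hv1
  have hnc2 : σ2.r .nc = nc := (hf2.r _ (by decide)).trans hnc1
  have hd2 : σ2.r .done = 0 := (hf2.r _ (by decide)).trans hd1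
  have hmb := hM.out.bi.mb
  rw [runs_ite]
  simp only [Cnd.ev_eq, Exp.ev_get, Exp.ev_reg, Exp.ev_num, hu2]
  refine ⟨by omega, ?_, ?_⟩
  · intro hb
    have huM : u ∈ M := by
      by_contra hcon
      rw [hmb u hun, if_neg hcon] at hb
      omega
    rw [runs_seq, runs_set]
    refine ⟨by omega, ?_⟩
    refine Runs.of_spec (h.after_rev hun hvn hd (σ := σ2.setR .cur ((Exp.reg .u : MExp).ev σ2))
      ?_ hS2 hCI2 ?_ ?_ ?_ hE2 ?_ T (w := u) (Or.inl rfl) ?_ huM) (by omega) ?_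
    · exact ⟨by simpa using hc2.hn, by simpa using hc2.hnn,
        by simpa using hc2.hs, hc2.tw, hc2.ow⟩
    · simpa using hu2
    · simpa using hv2
    · simpa using hnc2
    · simpa using hd2
    · simpa using hu2
    · rintro σ3 T3 h3 -
      exact h3
  · intro hb
    have huM : u ∉ M := by
      intro hcon
      rw [hmb u hun, if_pos hcon] at hb
      exact hb rfl
    rw [runs_ite]
    simp only [Cnd.ev_eq, Exp.ev_get, Exp.ev_reg, Exp.ev_num, hv2]
    refine ⟨by omega, ?_, ?_⟩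
    · intro hb'
      have hvM : v ∈ M := by
        by_contra hcon
        rw [hmb v hvn, if_neg hcon] at hb'
        omega
      rw [runs_seq, runs_set]
      refine ⟨by omega, ?_⟩
      refine Runs.of_spec (h.after_rev hun hvn hd (σ := σ2.setR .cur ((Exp.reg .v : MExp).ev σ2))
        ?_ hS2 hCI2 ?_ ?_ ?_ hE2 ?_ T (w := v) (Or.inr rfl) ?_ hvM) (by omega) ?_
      · exact ⟨by simpa using hc2.hn, by simpa using hc2.hnn,
          by simpa using hc2.hs, hc2.tw, hc2.ow⟩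
      · simpa using hu2
      · simpa using hv2
      · simpa using hnc2
      · simpa using hd2
      · simpa using hv2
      · rintro σ3 T3 h3 -
        exact h3
    · intro hb'
      have hvM : v ∉ M := by
        intro hcon
        rw [hmb v hvn, if_pos hcon] at hb'
        exact hb' rfl
      rw [runs_set]
      refine ⟨by omega, ⟨⟨?_, ?_, ?_, ?_, ?_, ?_, ?_, ?_, ?_⟩, Or.inr ?_⟩, ?_⟩
      · exact ⟨by simpa using hc2.hn, by simpa using hc2.hnn,
          by simpa using hc2.hs, hc2.tw, hc2.ow⟩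
      · simpa using hu2
      · simpa using hv2
      · simpa using hnc2
      · simpa using hE2
      · simpa [hS2] using h.wf
      · simpa [hS2] using h.ed
      · simpa [hS2, hCI2] using h.ci
      · simpa [hS2, hCI2] using h.ci0
      · refine ⟨M, rk, ?_, huM, hvM, ?_⟩
        · simpa [hS2] using T
        · simpa using hmb
      · have hle : nf n (σ.m .S) u v ≤ 4 := nf_le hun hvn
        unfold tmu
        rw [if_neg (by simp), if_pos hd]
        omega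

theorem tLoop_spec {n s : ℕ} {I : Finset (Sym2 ℕ)} {lam : Sym2 ℕ → ℕ} {u v nc : ℕ}
    {EXC : ℕ → ℕ} {σ : MSt} (h : TI n s I lam u v nc EXC σ) (hun : u < n) (hvn : v < n) :
    Spec tLoop σ (250 * n + 210) (fun σ' => TI n s I lam u v nc EXC σ' ∧ LoopEnd n u v σ') := by
  apply Spec.of_runs
  unfold tLoop
  rw [runs_seq, runs_set]
  refine ⟨by omega, ?_⟩
  have h0 : TI n s I lam u v nc EXC (σ.setR .done ((Exp.num 0 : MExp).ev σ)) :=
    ⟨⟨by simpa using h.cst.hn, by simpa using h.cst.hnn, by simpa using h.cst.hs, h.cst.tw,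
      h.cst.ow⟩, by simpa using h.hu, by simpa using h.hv, by simpa using h.hnc,
      by simpa using h.hexc, by simpa using h.wf, by simpa using h.ed, by simpa using h.ci,
      by simpa using h.ci0⟩
  have hmu : tmu n u v (σ.setR .done ((Exp.num 0 : MExp).ev σ)) ≤ 5 := by
    unfold tmu
    split_ifs <;> omega
  refine Runs.of_spec (Spec.whl (fun σ' => TI n s I lam u v nc EXC σ' ∧
    (σ'.r .done = 0 ∨ LoopEnd n u v σ')) (tmu n u v) (50 * n + 40) ?_ ⟨h0, Or.inl (by simp)⟩) ?_ ?_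
  · rintro σ1 ⟨h1, -⟩ hb
    simp only [Cnd.ev_eq, Exp.ev_reg, Exp.ev_num] at hb
    exact (tBody_spec h1 hun hvn hb).mono le_rfl (fun σ' h' _ => h')
  · have := Nat.mul_le_mul_left (50 * n + 40 + 1) hmu
    omega
  · rintro σ1 T1 ⟨⟨h1, h2⟩, hb⟩ -
    simp only [Cnd.ev_eq, Exp.ev_reg, Exp.ev_num] at hb
    rcases h2 with h2 | h2
    · exact absurd h2 hb
    · exact ⟨h1, h2⟩

/-! ### insertion, labelling, exceptional vertices -/

/-- Insert the edge if all four slots are free. -/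
def tIns : MCmd :=
  .ite (.and (.and (.eq (.get .S (.reg .u)) (.num 0)) (.eq (.get .S (.get .TW (.reg .u))) (.num 0)))
      (.and (.eq (.get .S (.reg .v)) (.num 0)) (.eq (.get .S (.get .TW (.reg .v))) (.num 0))))
    (.put .S (.reg .u) (.inc (.reg .v))) .skip

/-- Label the edges of the new class. -/
def tLab : MCmd :=
  .seq (.set .nc (.inc (.reg .nc))) <|
  forC .k (.reg .nn) <|
    .ite (.and (.neg (.eq (.get .S (.reg .k)) (.num 0)))
        (.eq (.get .MB (.get .OWN (.reg .k))) (.num 0)))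
      (.put .CI (.reg .k) (.reg .nc)) .skip

/-- Record the exceptional vertices. -/
def tExc : MCmd :=
  forC .k (.reg .nn) <|
    .ite (.and (.neg (.eq (.get .S (.reg .k)) (.num 0))) (.neg (.eq (.get .CI (.reg .k)) (.num 0))))
      (.seq (.set .w (.dec (.get .S (.reg .k)))) <|
       .ite (.and (.neg (.eq (.get .CI (.reg .w)) (.get .CI (.reg .k))))
          (.neg (.eq (.get .CI (.get .TW (.reg .w))) (.get .CI (.reg .k)))))
         (.put .EXC (.get .CI (.reg .k)) (.inc (.reg .w))) .skip)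
      .skip

/-- Full test of the edge `uv`. -/
def test : MCmd := .seq tLoop <| .seq tIns <| .seq tLab tExc

/-- `test` does not touch what the callers need. -/
theorem test_keeps : Keeps test = true ∧ Reg.u ∉ test.wr ∧ Reg.v ∉ test.wr ∧ Reg.dl ∉ test.wr ∧
    Reg.ql ∉ test.wr ∧ Reg.e ∉ test.wr ∧ Reg.L ∉ test.wr ∧ Reg.q ∉ test.wr ∧
    Arr.DU ∉ test.wa ∧ Arr.DV ∉ test.wa ∧ Arr.QA ∉ test.wa ∧ Arr.QB ∉ test.wa ∧
    Arr.MK ∉ test.wa := by
  decide

/-- State after the insertion. -/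
structure InsI (n s : ℕ) (I I' : Finset (Sym2 ℕ)) (lam : Sym2 ℕ → ℕ) (u v nc : ℕ) (EXC : ℕ → ℕ)
    (M : Finset ℕ) (σ : MSt) : Prop where
  cst : Cst n s σ
  hnc : σ.r .nc = nc
  hexc : σ.m .EXC = EXC
  wf : WF n (σ.m .S)
  ed : edges n (σ.m .S) = I'
  hI : I' = I ∨ (I' = insert s(u, v) I ∧ s(u, v) ∉ I)
  mt : MaxTight I' (range n \ M)
  huM : u ∈ range n \ M
  hvM : v ∈ range n \ M
  sp : Sparse I'
  eU : ∀ k < 2 * n, σ.m .S k ≠ 0 → (edge n (σ.m .S) k ∈ (range n \ M).sym2 ↔ own n k ∉ M)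
  ci : ∀ k < 2 * n, σ.m .S k ≠ 0 → own n k ∈ M → σ.m .CI k = lam (edge n (σ.m .S) k)
  ci0 : ∀ k < 2 * n, σ.m .S k = 0 → σ.m .CI k = 0
  mb : ∀ x < n, σ.m .MB x = if x ∈ M then 1 else 0

theorem tIns_spec {n s : ℕ} {I : Finset (Sym2 ℕ)} {lam : Sym2 ℕ → ℕ} {u v nc : ℕ}
    {EXC : ℕ → ℕ} {σ : MSt} (h : TI n s I lam u v nc EXC σ) (hF : LoopEnd n u v σ) (hun : u < n)
    (hvn : v < n) (huv : u ≠ v) (hsp : Sparse I) :
    Spec tIns σ 2 (fun σ' => ∃ I' M, InsI n s I I' lam u v nc EXC M σ') := by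
  obtain ⟨M, rk, T, huM, hvM, hmb⟩ := hF
  have hspS : Sparse (edges n (σ.m .S)) := by rw [h.ed]; exact hsp
  have h3 := nf_ge T h.wf hspS huv huM hvM hun hvn
  have h4 : nf n (σ.m .S) u v ≤ 4 := nf_le hun hvn
  have hfour := nf_four (S := σ.m .S) hun hvn huv
  have huU : u ∈ range n \ M := mem_sdiff.2 ⟨mem_range.2 hun, huM⟩
  have hvU : v ∈ range n \ M := mem_sdiff.2 ⟨mem_range.2 hvn, hvM⟩
  have htu := h.cst.tw u hun
  have htv := h.cst.tw v hvn
  apply Spec.of_runs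
  simp only [tIns, runs_ite, runs_put, runs_skip, Exp.ev_get, Exp.ev_reg, Exp.ev_num, Exp.ev_inc,
    Cnd.ev_and, Cnd.ev_eq, h.hu, h.hv, htu, htv]
  refine ⟨by omega, ?_, ?_⟩
  · intro hb
    have hn4 := hfour.2 hb
    have hns := not_spanned h.wf hspS hn4
    have hnd : ¬ (s(u, v) : Sym2 ℕ).IsDiag := by
      rw [Sym2.mk_isDiag_iff]
      exact huv
    have hnm : s(u, v) ∉ edges n (σ.m .S) := fun hc => hns (spanned_of_mem hspS hc)
    have hou := own_lt n u hun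
    obtain ⟨w1, w2⟩ := h.wf.fill (k := u) (w := v) (by omega) hb.1.1 hvn (by rw [hou]; exact huv)
      (by rw [hou]; exact hnm)
    rw [hou] at w2
    have T' := T.ins huM hvM hun
    have hsp' : Sparse (edges n (upd (σ.m .S) u (v + 1))) := by
      rw [w2]
      exact sparse_insert hspS hnd hns
    have hmt := maxTight_U T' w1 hsp' huv huM hvM hun hvn (nf_ins hun hn4 hb.1.1)
    have hS' : (σ.setM .S u (v + 1)).m .S = upd (σ.m .S) u (v + 1) := setM_m_upd _ _ _ _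
    have hCI' : (σ.setM .S u (v + 1)).m .CI = σ.m .CI := by funext i; simp
    refine ⟨by omega, insert s(u, v) I, M, ⟨?_, ?_, ?_, ?_, ?_, ?_, ?_, huU, hvU, ?_, ?_, ?_, ?_,
      ?_⟩⟩
    · exact ⟨by simpa using h.cst.hn, by simpa using h.cst.hnn, by simpa using h.cst.hs,
        by simpa using h.cst.tw, by simpa using h.cst.ow⟩
    · simpa using h.hnc
    · funext i; simp [h.hexc]
    · rw [hS']; exact w1
    · rw [hS', w2, h.ed]
    · right
      refine ⟨rfl, ?_⟩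
      rw [← h.ed]
      exact hnm
    · rw [← h.ed, ← w2]
      exact hmt
    · rw [← h.ed, ← w2]
      exact hsp'
    · intro k hk hk0
      rw [hS'] at hk0 ⊢
      exact edge_U T' w1 hk hk0
    · intro k hk hk0 hkM
      have hku : k ≠ u := by
        rintro rfl
        rw [hou] at hkM
        exact huM hkM
      rw [hS'] at hk0 ⊢
      rw [upd_ne _ _ hku] at hk0
      rw [hCI', edge_upd_ne hku]
      exact h.ci k hk hk0
    · intro k hk hk0
      rw [hS'] at hk0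
      by_cases hku : k = u
      · subst hku
        rw [upd_same] at hk0
        omega
      · rw [upd_ne _ _ hku] at hk0
        rw [hCI']
        exact h.ci0 k hk hk0
    · simpa using hmb
  · intro hb
    have hn3 : nf n (σ.m .S) u v = 3 := by
      have : nf n (σ.m .S) u v ≠ 4 := fun hc => hb (hfour.1 hc)
      omega
    have hmt := maxTight_U T h.wf hspS huv huM hvM hun hvn hn3
    rw [h.ed] at hmt
    exact ⟨I, M, ⟨h.cst, h.hnc, h.hexc, h.wf, h.ed, Or.inl rfl, hmt, huU, hvU, hsp,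
      fun k hk hk0 => edge_U T h.wf hk hk0, fun k hk hk0 _ => h.ci k hk hk0, h.ci0, hmb⟩⟩

theorem tLab_spec {n s : ℕ} {I I' : Finset (Sym2 ℕ)} {lam : Sym2 ℕ → ℕ} {u v nc : ℕ}
    {EXC : ℕ → ℕ} {M : Finset ℕ} {σ : MSt} (h : InsI n s I I' lam u v nc EXC M σ)
    (hlab : LabOK I lam nc) (hI : I ⊆ I')
    (hnew : ∀ e ∈ I', e ∉ I → e ∈ (range n \ M).sym2) :
    Spec tLab σ (8 * n + 4) (fun σ' => Cst n s σ' ∧ σ'.r .nc = nc + 1 ∧ σ'.m .EXC = EXC ∧
      Lb n (σ'.m .S) (σ'.m .CI) I' (relab lam (range n \ M) nc) (nc + 1)) := by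
  apply Spec.of_runs
  unfold tLab
  rw [runs_seq, runs_set]
  refine ⟨by omega, ?_⟩
  refine Runs.of_spec (forC_spec (2 * n) 2 (fun j σ1 => Cst n s σ1 ∧ σ1.r .nc = nc + 1 ∧
    σ1.m .EXC = EXC ∧ σ1.m .S = σ.m .S ∧ σ1.m .MB = σ.m .MB ∧
    ∀ k, σ1.m .CI k = if k < j ∧ σ.m .S k ≠ 0 ∧ own n k ∉ M then nc + 1 else σ.m .CI k)
    ?_ ?_ ?_) (by omega) ?_
  · rintro j σ1 ⟨h1, -⟩
    simpa using h1.hnn
  · rintro j σ1 hj ⟨h1, h2, h3, h4, h5, h6⟩ h7
    have how := h1.ow j hj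
    have hon := own_range hj
    have hmb : σ.m .MB (own n j) = 0 ↔ own n j ∉ M := by
      rw [h.mb _ hon]
      split_ifs with hM
      · simp [hM]
      · simp [hM]
    apply Spec.of_runs
    simp only [runs_ite, runs_put, runs_skip, Exp.ev_get, Exp.ev_reg, Exp.ev_num,
      Cnd.ev_and, Cnd.ev_neg, Cnd.ev_eq, h7, h4, h5, how, hmb, h2, St.setM_r]
    refine ⟨by omega, ?_, ?_⟩
    · intro hb
      refine ⟨by omega, fun _ => ⟨trivial, ⟨?_, ?_, ?_, ?_, ?_⟩, ?_, ?_, ?_, ?_, ?_⟩⟩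
      · simpa using h1.hn
      · simpa using h1.hnn
      · simpa using h1.hs
      · simpa using h1.tw
      · simpa using h1.ow
      · simpa using h2
      · funext i; simp [h3]
      · funext i; simp [h4]
      · funext i; simp [h5]
      · intro k
        simp only [St.setR_m, St.setM_m_same]
        by_cases hk : k = j
        · subst hk
          rw [if_pos rfl, if_pos ⟨by omega, hb.1, hb.2⟩]
        · rw [if_neg hk, h6 k]
          by_cases hk2 : k < j ∧ σ.m .S k ≠ 0 ∧ own n k ∉ M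
          · rw [if_pos hk2, if_pos ⟨by omega, hk2.2⟩]
          · rw [if_neg hk2, if_neg]
            rintro ⟨g1, g2⟩
            exact hk2 ⟨by omega, g2⟩
    · intro hb _
      refine ⟨trivial, ⟨?_, ?_, ?_, ?_, ?_⟩, ?_, ?_, ?_, ?_, ?_⟩
      · simpa using h1.hn
      · simpa using h1.hnn
      · simpa using h1.hs
      · simpa using h1.tw
      · simpa using h1.ow
      · simpa using h2
      · simpa using h3
      · simpa using h4
      · simpa using h5
      · intro k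
        simp only [St.setR_m]
        rw [h6 k]
        by_cases hk2 : k < j ∧ σ.m .S k ≠ 0 ∧ own n k ∉ M
        · rw [if_pos hk2, if_pos ⟨by omega, hk2.2⟩]
        · rw [if_neg hk2, if_neg]
          rintro ⟨g1, g2, g3⟩
          by_cases hkj : k = j
          · subst hkj
            exact hb ⟨g2, g3⟩
          · exact hk2 ⟨by omega, g2, g3⟩
  · refine ⟨⟨?_, ?_, ?_, ?_, ?_⟩, ?_, ?_, ?_, ?_, ?_⟩
    · simpa using h.cst.hn
    · simpa using h.cst.hnn
    · simpa using h.cst.hs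
    · simpa using h.cst.tw
    · simpa using h.cst.ow
    · simp [h.hnc]
    · simpa using h.hexc
    · simp
    · simp
    · intro k
      simp
  · rintro σ1 T1 ⟨⟨h1, h2, h3, h4, h5, h6⟩, -⟩ -
    refine ⟨h1, h2, h3, ?_⟩
    rw [h4]
    refine ⟨h.wf, h.ed, ?_, ?_, hlab.step hI h.sp h.mt hnew⟩
    · intro k hk hk0
      rw [h6 k]
      have he := h.eU k hk hk0
      by_cases hM : own n k ∉ M
      · rw [if_pos ⟨hk, hk0, hM⟩, relab_in (he.2 hM)]
      · rw [if_neg (fun hc => hM hc.2.2), relab_out (fun hc => hM (he.1 hc))]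
        exact h.ci k hk hk0 (not_not.1 hM)
    · intro k hk hk0
      rw [h6 k, if_neg (fun hc => hc.2.1 hk0)]
      exact h.ci0 k hk hk0

theorem tExc_spec {n s : ℕ} {I : Finset (Sym2 ℕ)} {lam : Sym2 ℕ → ℕ} {nc : ℕ} {σ : MSt}
    (hc : Cst n s σ) (h : Lb n (σ.m .S) (σ.m .CI) I lam nc) :
    Spec tExc σ (12 * n + 2) (fun σ' =>
      WrI n (σ.m .S) (σ.m .CI) (σ.m .EXC) (σ'.m .EXC) (2 * n)) := by
  unfold tExc
  refine (forC_spec (2 * n) 4 (fun j σ1 => Cst n s σ1 ∧ σ1.m .S = σ.m .S ∧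
    σ1.m .CI = σ.m .CI ∧ WrI n (σ.m .S) (σ.m .CI) (σ.m .EXC) (σ1.m .EXC) j)
    ?_ ?_ ?_).mono (by omega) ?_
  · rintro j σ1 ⟨h1, -⟩
    simpa using h1.hnn
  · rintro j σ1 hj ⟨h1, h2, h3, h4⟩ h5
    apply Spec.of_runs
    rw [runs_ite]
    simp only [Exp.ev_get, Exp.ev_reg, Exp.ev_num, Cnd.ev_and, Cnd.ev_neg, Cnd.ev_eq, h5, h2, h3]
    refine ⟨by omega, ?_, ?_⟩
    · intro hb
      have hw : σ.m .S j - 1 < n := h.wf.head_lt hj hb.1
      have htw := h1.tw _ hw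
      simp only [runs_seq, runs_set, runs_ite, runs_put, runs_skip, Exp.ev_get, Exp.ev_reg,
        Exp.ev_num, Exp.ev_inc, Exp.ev_dec, Cnd.ev_and, Cnd.ev_neg, Cnd.ev_eq, h5, h2, h3,
        St.setR_r, St.setR_m, St.setM_r, reduceCtorEq, if_false, if_true, htw]
      refine ⟨by omega, by omega, ?_, ?_⟩
      · intro hb2
        have hWr : Wr n (σ.m .S) (σ.m .CI) j := ⟨hb.1, hb.2, hb2.1, hb2.2⟩
        refine ⟨by omega, fun _ => ⟨by simpa using h5, ⟨?_, ?_, ?_, ?_, ?_⟩, ?_, ?_, ?_⟩⟩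
        · simpa using h1.hn
        · simpa using h1.hnn
        · simpa using h1.hs
        · simpa using h1.tw
        · simpa using h1.ow
        · funext i; simp [h2]
        · funext i; simp [h3]
        · have e : ((σ1.setR .w (σ.m .S j - 1)).setM .EXC (σ.m .CI j)
              (σ.m .S j - 1 + 1)).m .EXC =
              upd (σ1.m .EXC) (σ.m .CI j) (σ.m .S j) := by
            have h0 := hb.1
            have h0' : σ.m .S j - 1 + 1 = σ.m .S j := by omega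
            funext i
            simp [upd, h0']
          rw [e]
          exact h4.yes hWr
      · intro hb2 _
        have hWr : ¬ Wr n (σ.m .S) (σ.m .CI) j := fun hc => hb2 hc.2.2
        refine ⟨by simpa using h5, ⟨?_, ?_, ?_, ?_, ?_⟩, ?_, ?_, ?_⟩
        · simpa using h1.hn
        · simpa using h1.hnn
        · simpa using h1.hs
        · simpa using h1.tw
        · simpa using h1.ow
        · simpa using h2
        · simpa using h3
        · simpa using h4.no hWr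
    · intro hb
      rw [runs_skip]
      intro _
      have hWr : ¬ Wr n (σ.m .S) (σ.m .CI) j := fun hc => hb ⟨hc.1, hc.2.1⟩
      refine ⟨by simpa using h5, ⟨?_, ?_, ?_, ?_, ?_⟩, ?_, ?_, ?_⟩
      · simpa using h1.hn
      · simpa using h1.hnn
      · simpa using h1.hs
      · simpa using h1.tw
      · simpa using h1.ow
      · simpa using h2
      · simpa using h3
      · simpa using h4.no hWr
  · refine ⟨⟨by simpa using hc.hn, by simpa using hc.hnn, by simpa using hc.hs,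
      by simpa using hc.tw, by simpa using hc.ow⟩, by simp, by simp, ?_⟩
    simpa using WrI.zero n (σ.m .S) (σ.m .CI) (σ.m .EXC)
  · rintro σ1 ⟨⟨-, -, -, h4⟩, -⟩
    exact h4

theorem test_spec : ∃ C : ℕ, ∀ {n s : ℕ} {I : Finset (Sym2 ℕ)} {lam : Sym2 ℕ → ℕ} {σ : MSt},
    SI n s I lam σ → σ.r .u < n → σ.r .v < n → σ.r .u ≠ σ.r .v →
    Spec test σ (C * (n + 1)) (fun σ' => ∃ I' U,
      (I' = I ∨ (I' = insert s(σ.r .u, σ.r .v) I ∧ s(σ.r .u, σ.r .v) ∉ I)) ∧
      MaxTight I' U ∧ σ.r .u ∈ U ∧ σ.r .v ∈ U ∧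
      SI n s I' (relab lam U (σ.r .nc)) σ' ∧ σ'.r .nc = σ.r .nc + 1) := by
  refine ⟨300, ?_⟩
  intro n s I lam σ h hun hvn huv
  have hTI : TI n s I lam (σ.r .u) (σ.r .v) (σ.r .nc) (σ.m .EXC) σ :=
    ⟨h.cst, rfl, rfl, rfl, rfl, h.wf, h.ed, h.ci, h.ci0⟩
  apply Spec.of_runs
  unfold test
  rw [runs_seq]
  refine Runs.of_spec (tLoop_spec hTI hun hvn) (by omega) ?_
  rintro σ1 T1 ⟨h1, hF1⟩ hT1
  rw [runs_seq]
  refine Runs.of_spec (tIns_spec h1 hF1 hun hvn huv h.lab.sp) (by omega) ?_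
  rintro σ2 T2 ⟨I', M, h2⟩ hT2
  have hI : I ⊆ I' := by
    rcases h2.hI with h3 | ⟨h3, -⟩
    · rw [h3]
    · rw [h3]; exact subset_insert _ _
  have hnew : ∀ e ∈ I', e ∉ I → e ∈ (range n \ M).sym2 := by
    intro e he heI
    rcases h2.hI with h3 | ⟨h3, -⟩
    · rw [h3] at he
      exact absurd he heI
    · rw [h3, mem_insert] at he
      rcases he with he | he
      · rw [he, Finset.mk_mem_sym2_iff]
        exact ⟨h2.huM, h2.hvM⟩
      · exact absurd he heI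
  rw [runs_seq]
  refine Runs.of_spec (tLab_spec h2 h.lab hI hnew) (by omega) ?_
  rintro σ3 T3 ⟨h3, h4, h5, h6⟩ hT3
  refine Runs.of_spec (tExc_spec h3 h6).frame (by omega) ?_
  rintro σ4 T4 ⟨h7, hf⟩ -
  rw [h5] at h7
  obtain ⟨e1, e2, e3⟩ := exc_final h.lab hI h2.mt hnew h6 h7 h.exc0 h.excV
  have hS : σ4.m .S = σ3.m .S := hf.m _ (by decide)
  have hCI : σ4.m .CI = σ3.m .CI := hf.m _ (by decide)
  have hnc : σ4.r .nc = σ.r .nc + 1 := (hf.r _ (by decide)).trans h4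
  refine ⟨I', range n \ M, h2.hI, h2.mt, h2.huM, h2.hvM, ⟨h3.of_frame hf (by decide), ?_, ?_, ?_,
    ?_, ?_, ?_, ?_, ?_⟩, hnc⟩
  · rw [hS]; exact h6.wf
  · rw [hS]; exact h6.ed
  · rw [hS, hCI]; exact h6.ci
  · rw [hS, hCI]; exact h6.ci0
  · rw [hnc]; exact h6.lab
  · rw [hnc]; exact e1
  · exact e2
  · rw [hCI]; exact e3

end Pool.Agent.H.MP_d01483_lc
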