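import Pool.Agent.H.MP_d01483_lc.Labels
import Pool.Agent.H.MP_d01483_lc.Bfs
import Pool.Agent.H.MP_d01483_lc.Count1

set_option linter.unusedSectionVars false
set_option linter.unusedVariables false
set_option linter.unusedSimpArgs false
set_option linter.constructorNameAsVariable false

namespace Pool.Agent.H.MP_d01483_lc

open Finset

/-- Pure description of the outcome of the search: `M` is the marked set, `rk` a rank (queue
position), `PI` the pointers towards the roots. -/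
structure Tree (n : ℕ) (S PI : ℕ → ℕ) (M : Finset ℕ) (a b : ℕ) (rk : ℕ → ℕ) : Prop where
  sub : M ⊆ range n
  clo : ∀ k < 2 * n, S k ≠ 0 → S k - 1 ∈ M → own n k ∈ M
  pi : ∀ x ∈ M, (PI x = 0 ∧ Rt n S a b x) ∨ ∃ k < 2 * n, PI x = k + 1 ∧ own n k = x ∧ S k ≠ 0 ∧
    S k - 1 ∈ M ∧ rk (S k - 1) < rk x
  pi0 : ∀ x < n, x ∉ M → PI x = 0
  rt : ∀ v < n, Rt n S a b v → v ∈ M
  lt : ∀ x ∈ M, rk x < n

theorem tree_of_bfs {n s : ℕ} {σ0 σ : MSt} {M : Finset ℕ} (h : BfsOK n s σ0 M σ) :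
    ∃ rk, Tree n (σ0.m .S) (σ.m .PI) M (σ0.r .xu) (σ0.r .xv) rk := by
  have hb := h.out.bi
  have hsurj : ∀ x ∈ M, ∃ i, i < M.card ∧ σ.m .QU i = x := by
    have himg : (range M.card).image (σ.m .QU) = M := by
      apply eq_of_subset_of_card_le
      · intro y hy
        obtain ⟨i, hi, rfl⟩ := mem_image.1 hy
        exact hb.rng i (mem_range.1 hi)
      · rw [card_image_of_injOn, card_range]
        intro i hi j hj hij
        exact hb.inj i (by simpa using hi) j (by simpa using hj) hij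
    intro x hx
    rw [← himg] at hx
    obtain ⟨i, hi, he⟩ := mem_image.1 hx
    exact ⟨i, mem_range.1 hi, he⟩
  choose! rk hrk1 hrk2 using hsurj
  have hMn : M.card ≤ n := by
    have := card_le_card hb.sub
    simpa using this
  have hrkQ : ∀ j < M.card, rk (σ.m .QU j) = j := by
    intro j hj
    have h1 := hb.rng j hj
    exact hb.inj _ (hrk1 _ h1) _ hj (hrk2 _ h1)
  refine ⟨rk, hb.sub, ?_, ?_, hb.pi0, h.rt, fun x hx => (hrk1 x hx).trans_le hMn⟩
  · intro k hk hS hM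
    have h1 := hrk2 _ hM
    refine hb.clo (rk (σ0.m .S k - 1)) ?_ k hk ?_
    · rw [h.qh]
      exact hrk1 _ hM
    · rw [h1]
      omega
  · intro x hx
    have h1 := hrk1 x hx
    have h2 := hrk2 x hx
    rcases hb.pi (rk x) h1 with h3 | ⟨i, hi, k, hk, h4, h5, h6⟩
    · rw [h2] at h3
      exact Or.inl h3
    · rw [h2] at h4 h5
      have h7 : σ0.m .S k - 1 = σ.m .QU i := by omega
      refine Or.inr ⟨k, hk, h4, h5, by omega, ?_, ?_⟩
      · rw [h7]
        exact hb.rng i (by omega)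
      · rw [h7, hrkQ i (by omega)]
        exact hi

/-- Invariant of the reversal: the slots `S` with the pending edge `s(x-1, cur)` carry the edges of
`S0`. -/
structure RevI (n : ℕ) (S0 : ℕ → ℕ) (lam : Sym2 ℕ → ℕ) (M : Finset ℕ) (rk : ℕ → ℕ) (k0 : ℕ)
    (S CI : ℕ → ℕ) (cur x g : ℕ) : Prop where
  mem : cur ∈ M
  wf : WF n S
  x0 : x ≠ 0
  xn : x - 1 < n
  ne : x - 1 ≠ cur
  new : s(x - 1, cur) ∉ edges n S
  ed : insert s(x - 1, cur) (edges n S) = edges n S0
  hg : g = lam s(x - 1, cur)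
  ci : ∀ k < 2 * n, S k ≠ 0 → CI k = lam (edge n S k)
  ci0 : ∀ k < 2 * n, S k = 0 → CI k = 0
  same : ∀ k < 2 * n, own n k ∈ M → rk (own n k) ≤ rk cur → S k = S0 k
  free : ∀ k < 2 * n, S k = 0 ↔ (S0 k = 0 ∨ k = k0)

/-- First step of the reversal. -/
theorem RevI.first {n : ℕ} {S0 CI PI : ℕ → ℕ} {lam : Sym2 ℕ → ℕ} {M : Finset ℕ} {a b : ℕ}
    {rk : ℕ → ℕ} (T : Tree n S0 PI M a b rk) (hwf : WF n S0)
    (ci : ∀ k < 2 * n, S0 k ≠ 0 → CI k = lam (edge n S0 k))
    (ci0 : ∀ k < 2 * n, S0 k = 0 → CI k = 0) {k0 : ℕ} (hk : k0 < 2 * n)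
    (hS : S0 k0 ≠ 0) (hM : S0 k0 - 1 ∈ M) (hrk : rk (S0 k0 - 1) < rk (own n k0)) :
    RevI n S0 lam M rk k0 (upd S0 k0 0) (upd CI k0 0) (S0 k0 - 1) (own n k0 + 1) (CI k0) := by
  obtain ⟨h1, h2⟩ := hwf.clear hk hS
  have hne := hwf.head_ne hk hS
  have he : edge n S0 k0 = s(own n k0, S0 k0 - 1) := rfl
  refine ⟨hM, h1, by omega, ?_, ?_, ?_, ?_, ?_, ?_, ?_, ?_, ?_⟩
  · simpa using own_range hk
  · simpa using hne
  · rw [h2, Nat.add_sub_cancel, he]
    exact notMem_erase _ _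
  · rw [h2, Nat.add_sub_cancel, ← he, insert_erase (edge_mem hk hS)]
  · rw [ci k0 hk hS, he, Nat.add_sub_cancel]
  · intro k hk' hk0
    have hkk : k ≠ k0 := by rintro rfl; exact hk0 (upd_same _ _ _)
    rw [upd_ne _ _ hkk] at hk0 ⊢
    rw [edge_upd_ne hkk]
    exact ci k hk' hk0
  · intro k hk' hk0
    by_cases hkk : k = k0
    · subst hkk
      exact upd_same _ _ _
    · rw [upd_ne _ _ hkk] at hk0 ⊢
      exact ci0 k hk' hk0
  · intro k hk' hkM hle
    have hkk : k ≠ k0 := by rintro rfl; omega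
    exact upd_ne _ _ hkk
  · intro k hk'
    by_cases hkk : k = k0
    · subst hkk
      simp [upd_same]
    · rw [upd_ne _ _ hkk]
      simp [hkk]

/-- One step of the reversal. -/
theorem RevI.next {n : ℕ} {S0 PI : ℕ → ℕ} {lam : Sym2 ℕ → ℕ} {M : Finset ℕ} {a b : ℕ}
    {rk : ℕ → ℕ} {k0 : ℕ} {S CI : ℕ → ℕ} {cur x g : ℕ} (T : Tree n S0 PI M a b rk)
    (h : RevI n S0 lam M rk k0 S CI cur x g) (hpi : PI cur ≠ 0) :
    RevI n S0 lam M rk k0 (upd S (PI cur - 1) x) (upd CI (PI cur - 1) g) (S (PI cur - 1) - 1)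
      (cur + 1) (CI (PI cur - 1)) ∧ rk (S (PI cur - 1) - 1) < rk cur := by
  rcases T.pi cur h.mem with ⟨h1, -⟩ | ⟨k, hk, h1, h2, h3, h4, h5⟩
  · exact absurd h1 hpi
  have hk' : PI cur - 1 = k := by omega
  rw [hk']
  have hSk : S k = S0 k := h.same k hk (by rw [h2]; exact h.mem) (by rw [h2])
  have hS0 : S k ≠ 0 := by rw [hSk]; exact h3
  obtain ⟨p, rfl⟩ : ∃ p, x = p + 1 := ⟨x - 1, by have := h.x0; omega⟩
  have hpn := h.xn
  have hpc := h.ne
  have hnew := h.new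
  have hed := h.ed
  have hg := h.hg
  rw [Nat.add_sub_cancel] at hpn hpc hnew hed hg
  have hsw : s(own n k, p) = s(p, cur) := by rw [h2, Sym2.eq_swap]
  obtain ⟨w1, w2⟩ := h.wf.replace hk hS0 hpn (by rw [h2]; exact hpc.symm) (by rw [hsw]; exact hnew)
  have he : edge n S k = s(cur, S k - 1) := by unfold edge; rw [h2]
  have hmem := edge_mem hk hS0
  have hne2 : s(p, cur) ≠ edge n S k := fun hc => hnew (hc ▸ hmem)
  have hlt : rk (S k - 1) < rk cur := by rw [hSk]; exact h5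
  refine ⟨⟨by rw [hSk]; exact h4, w1, by omega, ?_, ?_, ?_, ?_, ?_, ?_, ?_, ?_, ?_⟩, hlt⟩
  · rw [Nat.add_sub_cancel, ← h2]
    exact own_range hk
  · rw [Nat.add_sub_cancel, ← h2]
    exact h.wf.head_ne hk hS0
  · rw [Nat.add_sub_cancel, w2, ← he, mem_insert, not_or]
    refine ⟨?_, notMem_erase _ _⟩
    rw [hsw]
    exact hne2.symm
  · rw [Nat.add_sub_cancel, w2, ← he, hsw, ← hed, Finset.insert_comm, insert_erase hmem]
  · rw [Nat.add_sub_cancel, h.ci k hk hS0, he]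
  · intro i hi hi0
    by_cases hik : i = k
    · subst hik
      rw [upd_same, hg]
      congr 1
      unfold edge
      rw [upd_same, Nat.add_sub_cancel, hsw]
    · rw [upd_ne _ _ hik] at hi0 ⊢
      rw [edge_upd_ne hik]
      exact h.ci i hi hi0
  · intro i hi hi0
    by_cases hik : i = k
    · subst hik
      rw [upd_same] at hi0
      omega
    · rw [upd_ne _ _ hik] at hi0 ⊢
      exact h.ci0 i hi hi0
  · intro i hi hiM hle
    have hik : i ≠ k := by
      rintro rfl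
      rw [h2] at hle
      omega
    rw [upd_ne _ _ hik]
    exact h.same i hi hiM (by omega)
  · intro i hi
    by_cases hik : i = k
    · subst hik
      rw [upd_same, ← h.free i hi]
      constructor
      · intro hc; omega
      · intro hc; exact absurd hc hS0
    · rw [upd_ne _ _ hik]
      exact h.free i hi

/-- Result of the reversal. -/
structure RevR (n : ℕ) (S0 : ℕ → ℕ) (lam : Sym2 ℕ → ℕ) (a b k0 : ℕ) (S CI : ℕ → ℕ) : Prop where
  wf : WF n S
  ed : edges n S = edges n S0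
  ci : ∀ k < 2 * n, S k ≠ 0 → CI k = lam (edge n S k)
  ci0 : ∀ k < 2 * n, S k = 0 → CI k = 0
  free : ∃ kr < 2 * n, S0 kr = 0 ∧ own n kr ≠ a ∧ own n kr ≠ b ∧
    ∀ k < 2 * n, (S k = 0 ↔ (S0 k = 0 ∨ k = k0) ∧ k ≠ kr)

/-- Last step of the reversal. -/
theorem RevI.last {n : ℕ} {S0 PI : ℕ → ℕ} {lam : Sym2 ℕ → ℕ} {M : Finset ℕ} {a b : ℕ}
    {rk : ℕ → ℕ} {k0 : ℕ} {S CI : ℕ → ℕ} {cur x g : ℕ} (T : Tree n S0 PI M a b rk)
    (h : RevI n S0 lam M rk k0 S CI cur x g) (hpi : PI cur = 0) :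
    ∀ k, k = (if S cur = 0 then cur else cur + n) →
      RevR n S0 lam a b k0 (upd S k x) (upd CI k g) := by
  intro k hkdef
  have hcn : cur < n := mem_range.1 (T.sub h.mem)
  have hrt : Rt n S0 a b cur := by
    rcases T.pi cur h.mem with ⟨-, h1⟩ | ⟨k, hk, h1, -⟩
    · exact h1
    · omega
  have hk : k < 2 * n := by
    rw [hkdef]
    split_ifs <;> omega
  have hok : own n k = cur := by
    rw [hkdef]
    split_ifs
    · exact own_lt n cur hcn
    · exact own_add n cur hcn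
  have hsame : ∀ i < 2 * n, own n i = cur → S i = S0 i := by
    intro i hi hoi
    exact h.same i hi (by rw [hoi]; exact h.mem) (by rw [hoi])
  have h1 := hsame cur (by omega) (own_lt n cur hcn)
  have h2 := hsame (cur + n) (by omega) (own_add n cur hcn)
  have hSk : S k = 0 := by
    rw [hkdef]
    split_ifs with h3
    · exact h3
    · rcases hrt.1 with h4 | h4
      · exact absurd (h1.trans h4) h3
      · rw [h2]; exact h4
  have hS0k : S0 k = 0 := by
    rw [← hsame k hk hok]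
    exact hSk
  obtain ⟨p, rfl⟩ : ∃ p, x = p + 1 := ⟨x - 1, by have := h.x0; omega⟩
  have hpn := h.xn
  have hpc := h.ne
  have hnew := h.new
  have hed := h.ed
  have hg := h.hg
  rw [Nat.add_sub_cancel] at hpn hpc hnew hed hg
  have hsw : s(own n k, p) = s(p, cur) := by rw [hok, Sym2.eq_swap]
  obtain ⟨w1, w2⟩ := h.wf.fill hk hSk hpn (by rw [hok]; exact hpc.symm) (by rw [hsw]; exact hnew)
  refine ⟨w1, by rw [w2, hsw, hed], ?_, ?_, k, hk, hS0k, ?_, ?_, ?_⟩
  · intro i hi hi0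
    by_cases hik : i = k
    · subst hik
      rw [upd_same, hg]
      congr 1
      unfold edge
      rw [upd_same, Nat.add_sub_cancel, hsw]
    · rw [upd_ne _ _ hik] at hi0 ⊢
      rw [edge_upd_ne hik]
      exact h.ci i hi hi0
  · intro i hi hi0
    by_cases hik : i = k
    · subst hik
      rw [upd_same] at hi0
      omega
    · rw [upd_ne _ _ hik] at hi0 ⊢
      exact h.ci0 i hi hi0
  · rw [hok]; exact hrt.2.1
  · rw [hok]; exact hrt.2.2
  · intro i hi
    by_cases hik : i = k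
    · subst hik
      rw [upd_same]
      simp
    · rw [upd_ne _ _ hik, h.free i hi]
      simp [hik]

/-- Number of free slots at `a` and `b`. -/
def nf (n : ℕ) (S : ℕ → ℕ) (a b : ℕ) : ℕ :=
  ((range (2 * n)).filter (fun k => (own n k = a ∨ own n k = b) ∧ S k = 0)).card

theorem nf_le {n : ℕ} {S : ℕ → ℕ} {a b : ℕ} (ha : a < n) (hb : b < n) : nf n S a b ≤ 4 := by
  unfold nf
  have hsub : (range (2 * n)).filter (fun k => (own n k = a ∨ own n k = b) ∧ S k = 0) ⊆
      {a, a + n, b, b + n} := by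
    intro k hk
    obtain ⟨h1, h2, -⟩ := mem_filter.1 hk
    have h3 := mem_range.1 h1
    simp only [mem_insert, mem_singleton]
    rcases h2 with h2 | h2
    · rcases (own_eq_iff_c ha).1 ⟨h3, h2⟩ with h4 | h4 <;> simp [h4]
    · rcases (own_eq_iff_c hb).1 ⟨h3, h2⟩ with h4 | h4 <;> simp [h4]
  refine (card_le_card hsub).trans ?_
  exact card_le_four

theorem RevR.nf {n : ℕ} {S0 : ℕ → ℕ} {lam : Sym2 ℕ → ℕ} {a b k0 : ℕ} {S CI : ℕ → ℕ}
    (h : RevR n S0 lam a b k0 S CI) (hk0 : k0 < 2 * n) (hS : S0 k0 ≠ 0)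
    (ho : own n k0 = a ∨ own n k0 = b) : nf n S a b = nf n S0 a b + 1 := by
  obtain ⟨kr, h1, h2, h3, h4, h5⟩ := h.free
  unfold MP_d01483_lc.nf
  have e : (range (2 * n)).filter (fun k => (own n k = a ∨ own n k = b) ∧ S k = 0) =
      insert k0 ((range (2 * n)).filter (fun k => (own n k = a ∨ own n k = b) ∧ S0 k = 0)) := by
    ext k
    rw [mem_insert, mem_filter, mem_filter, mem_range]
    constructor
    · rintro ⟨g1, g2, g3⟩
      rcases ((h5 k g1).1 g3).1 with g4 | g4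
      · exact Or.inr ⟨g1, g2, g4⟩
      · exact Or.inl g4
    · rintro (rfl | ⟨g1, g2, g3⟩)
      · refine ⟨hk0, ho, (h5 k hk0).2 ⟨Or.inr rfl, ?_⟩⟩
        rintro rfl
        exact hS h2
      · refine ⟨g1, g2, (h5 k g1).2 ⟨Or.inl g3, ?_⟩⟩
        rintro rfl
        rcases g2 with g2 | g2
        · exact h3 g2
        · exact h4 g2
  rw [e, card_insert_of_notMem]
  intro hc
  exact hS (mem_filter.1 hc).2.2

/-! ### the unmarked set -/

theorem fxset_U {n : ℕ} {S PI : ℕ → ℕ} {M : Finset ℕ} {u v : ℕ} {rk : ℕ → ℕ}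
    (T : Tree n S PI M u v rk) (hwf : WF n S) (hu : u ∉ M) (hv : v ∉ M) (hun : u < n)
    (hvn : v < n) :
    (range (2 * n)).filter (fun k => own n k ∈ range n \ M ∧ (S k = 0 ∨ S k - 1 ∉ range n \ M)) =
      (range (2 * n)).filter (fun k => (own n k = u ∨ own n k = v) ∧ S k = 0) := by
  apply filter_congr
  intro k hk
  rw [mem_range] at hk
  rw [mem_sdiff]
  constructor
  · rintro ⟨⟨h1, h2⟩, h3⟩
    have h4 : S k = 0 := by
      rcases h3 with h3 | h3
      · exact h3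
      · by_contra h5
        have h6 := hwf.head_lt hk h5
        rw [mem_sdiff, mem_range, not_and, not_not] at h3
        exact h2 (T.clo k hk h5 (h3 h6))
    refine ⟨?_, h4⟩
    by_contra h5
    push Not at h5
    refine h2 (T.rt _ (mem_range.1 h1) ⟨?_, h5.1, h5.2⟩)
    have h6 := mem_range.1 h1
    rcases (own_eq_iff_c h6).1 ⟨hk, rfl⟩ with h7 | h7
    · left; rw [← h7]; exact h4
    · right; rw [← h7]; exact h4
  · rintro ⟨h1, h2⟩
    refine ⟨⟨mem_range.2 (own_range hk), ?_⟩, Or.inl h2⟩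
    rcases h1 with h1 | h1
    · rw [h1]; exact hu
    · rw [h1]; exact hv

theorem fx_U {n : ℕ} {S PI : ℕ → ℕ} {M : Finset ℕ} {u v : ℕ} {rk : ℕ → ℕ}
    (T : Tree n S PI M u v rk) (hwf : WF n S) (hu : u ∉ M) (hv : v ∉ M) (hun : u < n)
    (hvn : v < n) : fx n S (range n \ M) = nf n S u v := by
  unfold fx nf
  rw [fxset_U T hwf hu hv hun hvn]

theorem tsr {n : ℕ} {S : ℕ → ℕ} (hwf : WF n S) (hsp : Sparse (edges n S)) {W : Finset ℕ}
    (hW : Tight (edges n S) W) : W ⊆ range n := by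
  intro a ha
  obtain ⟨e, he, -, hae⟩ := tight_deg hsp hW ha
  exact Finset.mem_sym2_iff.1 (edges_subset hwf he) a hae

theorem card_U {n : ℕ} {M : Finset ℕ} {u v : ℕ} (huv : u ≠ v) (hu : u ∉ M) (hv : v ∉ M)
    (hun : u < n) (hvn : v < n) : 2 ≤ (range n \ M).card := by
  rw [← card_pair huv]
  apply card_le_card
  intro x hx
  rw [mem_insert, mem_singleton] at hx
  rcases hx with rfl | rfl
  · exact mem_sdiff.2 ⟨mem_range.2 hun, hu⟩
  · exact mem_sdiff.2 ⟨mem_range.2 hvn, hv⟩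

theorem nf_ge {n : ℕ} {S PI : ℕ → ℕ} {M : Finset ℕ} {u v : ℕ} {rk : ℕ → ℕ}
    (T : Tree n S PI M u v rk) (hwf : WF n S) (hsp : Sparse (edges n S)) (huv : u ≠ v)
    (hu : u ∉ M) (hv : v ∉ M) (hun : u < n) (hvn : v < n) : 3 ≤ nf n S u v := by
  rw [← fx_U T hwf hu hv hun hvn]
  exact (sparse_edges_iff hwf).1 hsp _ sdiff_subset (card_U huv hu hv hun hvn)

theorem maxTight_U {n : ℕ} {S PI : ℕ → ℕ} {M : Finset ℕ} {u v : ℕ} {rk : ℕ → ℕ}
    (T : Tree n S PI M u v rk) (hwf : WF n S) (hsp : Sparse (edges n S)) (huv : u ≠ v)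
    (hu : u ∉ M) (hv : v ∉ M) (hun : u < n) (hvn : v < n) (hnf : nf n S u v = 3) :
    MaxTight (edges n S) (range n \ M) := by
  have hfx := fx_U T hwf hu hv hun hvn
  have hid := ind_add_fx hwf (Z := range n \ M) sdiff_subset
  refine ⟨⟨card_U huv hu hv hun hvn, by omega⟩, fun Z hZ hUZ => ?_⟩
  have hZn := tsr hwf hsp hZ
  have hidZ := ind_add_fx hwf hZn
  have hZt := hZ.2
  have hfxZ : fx n S Z = 3 := by omega
  set FU := (range (2 * n)).filter (fun k => own n k ∈ range n \ M ∧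
    (S k = 0 ∨ S k - 1 ∉ range n \ M)) with hFU
  set FZ := (range (2 * n)).filter (fun k => own n k ∈ Z ∧ (S k = 0 ∨ S k - 1 ∉ Z)) with hFZ
  have hcU : FU.card = 3 := by
    have : fx n S (range n \ M) = FU.card := rfl
    omega
  have hcZ : FZ.card = 3 := hfxZ
  have hsub : FU ⊆ FZ := by
    intro k hk
    have hk2 : k ∈ (range (2 * n)).filter (fun k => (own n k = u ∨ own n k = v) ∧ S k = 0) := by
      rw [← fxset_U T hwf hu hv hun hvn]
      exact hk
    obtain ⟨h1, h2, -⟩ := mem_filter.1 hk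
    exact mem_filter.2 ⟨h1, hUZ h2, Or.inl (mem_filter.1 hk2).2.2⟩
  have heq : FU = FZ := eq_of_subset_of_card_le hsub (by omega)
  -- no marked vertex lies in `Z`
  have key : ∀ N, ∀ x ∈ M, x ∈ Z → rk x = N → False := by
    intro N
    induction N using Nat.strong_induction_on with
    | _ N ih =>
      intro x hxM hxZ hN
      have hout : ∀ k ∈ FZ, own n k = x → False := by
        intro k hk ho
        rw [← heq] at hk
        have := (mem_filter.1 hk).2.1
        rw [ho, mem_sdiff] at this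
        exact this.2 hxM
      have hxn : x < n := mem_range.1 (T.sub hxM)
      rcases T.pi x hxM with ⟨-, hrt, -, -⟩ | ⟨k, hk, -, ho, hS, hM, hlt⟩
      · rcases hrt with h0 | h0
        · refine hout x (mem_filter.2 ⟨mem_range.2 (by omega), ?_, Or.inl h0⟩) (own_lt n x hxn)
          rw [own_lt n x hxn]
          exact hxZ
        · refine hout (x + n) (mem_filter.2 ⟨mem_range.2 (by omega), ?_, Or.inl h0⟩)
            (own_add n x hxn)
          rw [own_add n x hxn]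
          exact hxZ
      · by_cases hwZ : S k - 1 ∈ Z
        · exact ih (rk (S k - 1)) (by omega) _ hM hwZ rfl
        · refine hout k (mem_filter.2 ⟨mem_range.2 hk, ?_, Or.inr hwZ⟩) ho
          rw [ho]
          exact hxZ
  apply Subset.antisymm
  · intro x hx
    refine mem_sdiff.2 ⟨hZn hx, fun hxM => key _ x hxM hx rfl⟩
  · exact hUZ

theorem not_spanned {n : ℕ} {S : ℕ → ℕ} {u v : ℕ} (hwf : WF n S) (hsp : Sparse (edges n S))
    (hnf : nf n S u v = 4) : ¬ Spanned (edges n S) s(u, v) := by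
  rintro ⟨Z, hZ, huvZ⟩
  rw [Finset.mk_mem_sym2_iff] at huvZ
  have hZn := tsr hwf hsp hZ
  have hidZ := ind_add_fx hwf hZn
  have hZt := hZ.2
  have : nf n S u v ≤ fx n S Z := by
    unfold nf fx
    apply card_le_card
    intro k hk
    obtain ⟨h1, h2, h3⟩ := mem_filter.1 hk
    refine mem_filter.2 ⟨h1, ?_, Or.inl h3⟩
    rcases h2 with h2 | h2
    · rw [h2]; exact huvZ.1
    · rw [h2]; exact huvZ.2
  omega

theorem Tree.ins {n : ℕ} {S PI : ℕ → ℕ} {M : Finset ℕ} {u v : ℕ} {rk : ℕ → ℕ}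
    (T : Tree n S PI M u v rk) (hu : u ∉ M) (hv : v ∉ M) (hun : u < n) :
    Tree n (upd S u (v + 1)) PI M u v rk := by
  have hou : own n u = u := own_lt n u hun
  refine ⟨T.sub, ?_, ?_, T.pi0, ?_, T.lt⟩
  · intro k hk hS hM
    by_cases hku : k = u
    · subst hku
      rw [upd_same, Nat.add_sub_cancel] at hM
      exact absurd hM hv
    · rw [upd_ne _ _ hku] at hS hM
      exact T.clo k hk hS hM
  · intro x hx
    have hxu : x ≠ u := by rintro rfl; exact hu hx
    rcases T.pi x hx with ⟨h1, h2, h3, h4⟩ | ⟨k, hk, h1, h2, h3, h4, h5⟩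
    · refine Or.inl ⟨h1, ?_, h3, h4⟩
      rwa [upd_ne _ _ hxu, upd_ne _ _ (show x + n ≠ u by omega)]
    · have hku : k ≠ u := by
        rintro rfl
        rw [hou] at h2
        exact hxu h2.symm
      refine Or.inr ⟨k, hk, h1, h2, ?_⟩
      rw [upd_ne _ _ hku]
      exact ⟨h3, h4, h5⟩
  · intro x hx hR
    refine T.rt x hx ⟨?_, hR.2⟩
    have h1 := hR.1
    rwa [upd_ne _ _ hR.2.1, upd_ne _ _ (show x + n ≠ u by omega)] at h1

theorem nf_ins {n : ℕ} {S : ℕ → ℕ} {u v : ℕ} (hun : u < n) (hnf : nf n S u v = 4)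
    (hSu : S u = 0) : nf n (upd S u (v + 1)) u v = 3 := by
  have e : (range (2 * n)).filter (fun k => (own n k = u ∨ own n k = v) ∧
      upd S u (v + 1) k = 0) =
      ((range (2 * n)).filter (fun k => (own n k = u ∨ own n k = v) ∧ S k = 0)).erase u := by
    ext k
    rw [mem_erase, mem_filter, mem_filter]
    by_cases hku : k = u
    · subst hku
      rw [upd_same]
      simp
    · rw [upd_ne _ _ hku]
      simp [hku]
  unfold nf at hnf ⊢
  rw [e, card_erase_of_mem, hnf]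
  rw [mem_filter, mem_range]
  exact ⟨by omega, Or.inl (own_lt n u hun), hSu⟩

/-- All four slots are free iff there are four free slots. -/
theorem nf_four {n : ℕ} {S : ℕ → ℕ} {u v : ℕ} (hun : u < n) (hvn : v < n) (huv : u ≠ v) :
    nf n S u v = 4 ↔ (S u = 0 ∧ S (u + n) = 0) ∧ (S v = 0 ∧ S (v + n) = 0) := by
  have hsub : (range (2 * n)).filter (fun k => (own n k = u ∨ own n k = v) ∧ S k = 0) ⊆
      {u, u + n, v, v + n} := by
    intro k hk
    obtain ⟨h1, h2, -⟩ := mem_filter.1 hk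
    have h3 := mem_range.1 h1
    simp only [mem_insert, mem_singleton]
    rcases h2 with h2 | h2
    · rcases (own_eq_iff_c hun).1 ⟨h3, h2⟩ with h4 | h4 <;> simp [h4]
    · rcases (own_eq_iff_c hvn).1 ⟨h3, h2⟩ with h4 | h4 <;> simp [h4]
  have hcard : ({u, u + n, v, v + n} : Finset ℕ).card = 4 := by
    rw [card_insert_of_notMem, card_insert_of_notMem, card_insert_of_notMem, card_singleton]
    · simp; omega
    · simp; omega
    · simp; omega
  constructor
  · intro h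
    have heq := eq_of_subset_of_card_le hsub (by rw [hcard]; exact h.ge)
    have hm : ∀ k ∈ ({u, u + n, v, v + n} : Finset ℕ), S k = 0 := by
      intro k hk
      rw [← heq] at hk
      exact (mem_filter.1 hk).2.2
    exact ⟨⟨hm _ (by simp), hm _ (by simp)⟩, hm _ (by simp), hm _ (by simp)⟩
  · rintro ⟨⟨h1, h2⟩, h3, h4⟩
    rw [← hcard]
    unfold nf
    congr 1
    apply Subset.antisymm hsub
    intro k hk
    simp only [mem_insert, mem_singleton] at hk
    rw [mem_filter, mem_range]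
    rcases hk with rfl | rfl | rfl | rfl
    · exact ⟨by omega, Or.inl (own_lt n _ hun), h1⟩
    · exact ⟨by omega, Or.inl (own_add n _ hun), h2⟩
    · exact ⟨by omega, Or.inr (own_lt n _ hvn), h3⟩
    · exact ⟨by omega, Or.inr (own_add n _ hvn), h4⟩

/-- An occupied slot lies inside `U` iff its owner is not marked. -/
theorem edge_U {n : ℕ} {S PI : ℕ → ℕ} {M : Finset ℕ} {u v : ℕ} {rk : ℕ → ℕ}
    (T : Tree n S PI M u v rk) (hwf : WF n S) {k : ℕ} (hk : k < 2 * n) (hS : S k ≠ 0) :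
    edge n S k ∈ (range n \ M).sym2 ↔ own n k ∉ M := by
  unfold edge
  rw [Finset.mk_mem_sym2_iff, mem_sdiff, mem_sdiff]
  constructor
  · rintro ⟨⟨-, h1⟩, -⟩
    exact h1
  · intro h
    refine ⟨⟨mem_range.2 (own_range hk), h⟩, mem_range.2 (hwf.head_lt hk hS), ?_⟩
    intro h1
    exact h (T.clo k hk hS h1)

/-! ### the exceptional vertices -/

/-- The slots and labels (pure part). -/
structure Lb (n : ℕ) (S CI : ℕ → ℕ) (I : Finset (Sym2 ℕ)) (lam : Sym2 ℕ → ℕ) (nc : ℕ) : Prop where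
  wf : WF n S
  ed : edges n S = I
  ci : ∀ k < 2 * n, S k ≠ 0 → CI k = lam (edge n S k)
  ci0 : ∀ k < 2 * n, S k = 0 → CI k = 0
  lab : LabOK I lam nc

theorem Lb.mem_head {n : ℕ} {S CI : ℕ → ℕ} {I : Finset (Sym2 ℕ)} {lam : Sym2 ℕ → ℕ} {nc : ℕ}
    (h : Lb n S CI I lam nc) {k : ℕ} (hk : k < 2 * n) (hS : S k ≠ 0) :
    S k - 1 ∈ VL I lam (CI k) := by
  rw [h.ci k hk hS]
  refine mem_VL.2 ⟨edge n S k, ?_, rfl, ?_⟩
  · rw [← h.ed]
    exact edge_mem hk hS
  · unfold edge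
    simp

theorem Lb.no_slot {n : ℕ} {S CI : ℕ → ℕ} {I : Finset (Sym2 ℕ)} {lam : Sym2 ℕ → ℕ} {nc : ℕ}
    (h : Lb n S CI I lam nc) {f : Sym2 ℕ} (hf : f ∈ I) (hf0 : lam f ≠ 0) {k : ℕ}
    (hk : k < 2 * n) (ho : own n k ∈ VL I lam (lam f)) (hc : CI k ≠ lam f) :
    S k = 0 ∨ S k - 1 ∉ VL I lam (lam f) := by
  by_contra hcon
  push Not at hcon
  obtain ⟨h1, h2⟩ := hcon
  apply hc
  rw [h.ci k hk h1]
  refine h.lab.cl (edge n S k) ?_ f hf hf0 ?_
  · rw [← h.ed]
    exact edge_mem hk h1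
  · unfold edge
    rw [Finset.mk_mem_sym2_iff]
    exact ⟨ho, h2⟩

theorem Lb.uniq {n : ℕ} {S CI : ℕ → ℕ} {I : Finset (Sym2 ℕ)} {lam : Sym2 ℕ → ℕ} {nc : ℕ}
    (h : Lb n S CI I lam nc) {f : Sym2 ℕ} (hf : f ∈ I) (hf0 : lam f ≠ 0) {w w' : ℕ}
    (hw : w ∈ VL I lam (lam f)) (hw' : w' ∈ VL I lam (lam f))
    (h1 : CI w ≠ lam f) (h2 : CI (w + n) ≠ lam f)
    (h1' : CI w' ≠ lam f) (h2' : CI (w' + n) ≠ lam f) : w = w' := by
  by_contra hne
  have hsp : Sparse (edges n S) := by rw [h.ed]; exact h.lab.sp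
  have ht : Tight (edges n S) (VL I lam (lam f)) := by rw [h.ed]; exact (h.lab.mt f hf hf0).1
  have hsub := tsr h.wf hsp ht
  have hid := ind_add_fx h.wf hsub
  have ht2 := ht.2
  have hwn : w < n := mem_range.1 (hsub hw)
  have hwn' : w' < n := mem_range.1 (hsub hw')
  have hcard : ({w, w + n, w', w' + n} : Finset ℕ).card = 4 := by
    rw [card_insert_of_notMem, card_insert_of_notMem, card_insert_of_notMem, card_singleton]
    · simp; omega
    · simp; omega
    · simp; omega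
  have hle : ({w, w + n, w', w' + n} : Finset ℕ).card ≤ fx n S (VL I lam (lam f)) := by
    unfold fx
    apply card_le_card
    intro k hk
    simp only [mem_insert, mem_singleton] at hk
    rw [mem_filter, mem_range]
    rcases hk with rfl | rfl | rfl | rfl
    · have ho := own_lt n k hwn
      exact ⟨by omega, by rw [ho]; exact hw,
        h.no_slot hf hf0 (by omega) (by rw [ho]; exact hw) h1⟩
    · have ho := own_add n w hwn
      exact ⟨by omega, by rw [ho]; exact hw,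
        h.no_slot hf hf0 (by omega) (by rw [ho]; exact hw) h2⟩
    · have ho := own_lt n k hwn'
      exact ⟨by omega, by rw [ho]; exact hw',
        h.no_slot hf hf0 (by omega) (by rw [ho]; exact hw') h1'⟩
    · have ho := own_add n w' hwn'
      exact ⟨by omega, by rw [ho]; exact hw',
        h.no_slot hf hf0 (by omega) (by rw [ho]; exact hw') h2'⟩
  omega

theorem Lb.head {n : ℕ} {S CI : ℕ → ℕ} {I : Finset (Sym2 ℕ)} {lam : Sym2 ℕ → ℕ} {nc : ℕ}
    (h : Lb n S CI I lam nc) {f : Sym2 ℕ} (hf : f ∈ I) (hf0 : lam f ≠ 0) {w : ℕ}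
    (hw : w ∈ VL I lam (lam f)) (h1 : CI w ≠ lam f) (h2 : CI (w + n) ≠ lam f) :
    ∃ k < 2 * n, S k ≠ 0 ∧ CI k = lam f ∧ S k = w + 1 := by
  obtain ⟨e, he, hc, hwe⟩ := mem_VL.1 hw
  rw [← h.ed] at he
  obtain ⟨k, hk, hS, rfl⟩ := mem_edges.1 he
  have hck : CI k = lam f := by rw [h.ci k hk hS, hc]
  unfold edge at hwe
  rw [Sym2.mem_iff] at hwe
  rcases hwe with hwe | hwe
  · exfalso
    have hwn : w < n := by rw [hwe]; exact own_range hk
    rcases (own_eq_iff_c hwn).1 ⟨hk, hwe.symm⟩ with h3 | h3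
    · rw [h3] at hck; exact h1 hck
    · rw [h3] at hck; exact h2 hck
  · exact ⟨k, hk, hS, hck, by omega⟩

/-- Slot `k` writes an exceptional vertex. -/
def Wr (n : ℕ) (S CI : ℕ → ℕ) (k : ℕ) : Prop :=
  S k ≠ 0 ∧ CI k ≠ 0 ∧ CI (S k - 1) ≠ CI k ∧ CI (S k - 1 + n) ≠ CI k

/-- Invariant of the loop writing the exceptional vertices. -/
structure WrI (n : ℕ) (S CI EXC0 EXC : ℕ → ℕ) (j : ℕ) : Prop where
  a : ∀ c, EXC c = EXC0 c ∨ ∃ k < j, Wr n S CI k ∧ CI k = c ∧ EXC c = S k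
  b : ∀ k < j, Wr n S CI k → ∃ k' < j, Wr n S CI k' ∧ CI k' = CI k ∧ EXC (CI k) = S k'

theorem WrI.zero (n : ℕ) (S CI EXC0 : ℕ → ℕ) : WrI n S CI EXC0 EXC0 0 :=
  ⟨fun c => Or.inl rfl, fun k hk => by omega⟩

theorem WrI.no {n : ℕ} {S CI EXC0 EXC : ℕ → ℕ} {j : ℕ} (h : WrI n S CI EXC0 EXC j)
    (hj : ¬ Wr n S CI j) : WrI n S CI EXC0 EXC (j + 1) := by
  refine ⟨fun c => ?_, fun k hk hW => ?_⟩
  · rcases h.a c with h1 | ⟨k, hk, h1⟩
    · exact Or.inl h1
    · exact Or.inr ⟨k, by omega, h1⟩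
  · have hkj : k ≠ j := by rintro rfl; exact hj hW
    obtain ⟨k', hk', h1⟩ := h.b k (by omega) hW
    exact ⟨k', by omega, h1⟩

theorem WrI.yes {n : ℕ} {S CI EXC0 EXC : ℕ → ℕ} {j : ℕ} (h : WrI n S CI EXC0 EXC j)
    (hj : Wr n S CI j) : WrI n S CI EXC0 (upd EXC (CI j) (S j)) (j + 1) := by
  refine ⟨fun c => ?_, fun k hk hW => ?_⟩
  · by_cases hc : c = CI j
    · subst hc
      exact Or.inr ⟨j, by omega, hj, rfl, upd_same _ _ _⟩
    · rw [upd_ne _ _ hc]
      rcases h.a c with h1 | ⟨k, hk, h1⟩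
      · exact Or.inl h1
      · exact Or.inr ⟨k, by omega, h1⟩
  · by_cases hc : CI k = CI j
    · exact ⟨j, by omega, hj, hc.symm, by rw [hc]; exact upd_same _ _ _⟩
    · have hkj : k ≠ j := by rintro rfl; exact hc rfl
      obtain ⟨k', hk', h1, h2, h3⟩ := h.b k (by omega) hW
      exact ⟨k', by omega, h1, h2, by rw [upd_ne _ _ hc]; exact h3⟩

/-- The exceptional vertices after the loop. -/
theorem exc_final {n : ℕ} {S CI EXC0 EXC : ℕ → ℕ} {I I' : Finset (Sym2 ℕ)} {lam : Sym2 ℕ → ℕ}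
    {nc : ℕ} {U : Finset ℕ} (hlab : LabOK I lam nc) (hI : I ⊆ I') (hU : MaxTight I' U)
    (hnew : ∀ e ∈ I', e ∉ I → e ∈ U.sym2)
    (h : Lb n S CI I' (relab lam U nc) (nc + 1)) (hW : WrI n S CI EXC0 EXC (2 * n))
    (exc0 : ∀ c, nc < c → EXC0 c = 0)
    (excV : ∀ e ∈ I, lam e ≠ 0 → EXC0 (lam e) ≠ 0 → EXC0 (lam e) - 1 ∈ VL I lam (lam e)) :
    (∀ c, nc + 1 < c → EXC c = 0) ∧
    (∀ e ∈ I', relab lam U nc e ≠ 0 → EXC (relab lam U nc e) ≠ 0 →
      EXC (relab lam U nc e) - 1 ∈ VL I' (relab lam U nc) (relab lam U nc e)) ∧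
    (∀ e ∈ I', relab lam U nc e ≠ 0 → ∀ w ∈ VL I' (relab lam U nc) (relab lam U nc e),
      CI w = relab lam U nc e ∨ CI (w + n) = relab lam U nc e ∨
        EXC (relab lam U nc e) = w + 1) := by
  have hsp := h.lab.sp
  refine ⟨?_, ?_, ?_⟩
  · intro c hc
    rcases hW.a c with h1 | ⟨k, hk, h1, h2, -⟩
    · rw [h1]
      exact exc0 c (by omega)
    · exfalso
      have h3 := h.ci k hk h1.1
      have h4 := h.lab.le (edge n S k) (by rw [← h.ed]; exact edge_mem hk h1.1)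
      omega
  · intro e he h0 hE
    rcases hW.a (relab lam U nc e) with h1 | ⟨k, hk, h1, h2, h3⟩
    · by_cases heU : e ∈ U.sym2
      · exfalso
        apply hE
        rw [h1, relab_in heU]
        exact exc0 _ (by omega)
      · have heI : e ∈ I := by
          by_contra hcon
          exact heU (hnew e he hcon)
        rw [h1]
        rw [h1] at hE
        rw [relab_out heU] at hE h0 ⊢
        rw [VL_old hlab hI hsp hU hnew heI h0 heU]
        exact excV e heI h0 hE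
    · rw [h3, ← h2]
      exact h.mem_head hk h1.1
  · intro e he h0 w hw
    by_cases h1 : CI w = relab lam U nc e
    · exact Or.inl h1
    by_cases h2 : CI (w + n) = relab lam U nc e
    · exact Or.inr (Or.inl h2)
    right; right
    obtain ⟨k, hk, h3, h4, h5⟩ := h.head he h0 hw h1 h2
    have hWk : Wr n S CI k := by
      refine ⟨h3, by rw [h4]; exact h0, ?_, ?_⟩
      · rw [h4, h5, Nat.add_sub_cancel]; exact h1
      · rw [h4, h5, Nat.add_sub_cancel]; exact h2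
    obtain ⟨k', hk', g1, g2, g3⟩ := hW.b k hk hWk
    rw [h4] at g2 g3
    have g4 := h.mem_head hk' g1.1
    rw [g2] at g4
    have g5 := g1.2.2.1
    have g6 := g1.2.2.2
    rw [g2] at g5 g6
    have := h.uniq he h0 hw g4 h1 h2 g5 g6
    have g7 := g1.1
    rw [g3]
    omega

end Pool.Agent.H.MP_d01483_lc
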